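import Pool.Agent.Lib.MP_446dfa_ag.helper2.Defs

/-!
# The definitions used by the statement of the main theorem

`K` is a field and `F2 K` is the free Lie algebra on `A = gA K`, `B = gB K`.  The definitions of
`IsGRT` (Drinfeld's relations) and of `iharaBracket` are in `helper2/Defs.lean`.
-/

noncomputable section

namespace MP446D

open MP446

universe u

-- associative algebras are Lie algebras for the commutator
attribute [local instance 100] LieRing.ofAssociativeRing

/-- The canonical Lie homomorphism from the free Lie algebra on `A`, `B` to the algebra of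
non-commutative polynomials in two letters (`A` goes to the letter `0`, `B` to the letter `1`). -/
def toWords (K : Type u) [Field K] : F2 K →ₗ⁅K⁆ MonoidAlgebra K (FreeMonoid (Fin 2)) :=
  FreeLieAlgebra.lift K
    (fun i => MonoidAlgebra.of K (FreeMonoid (Fin 2)) (FreeMonoid.of i))

variable {K : Type u} [Field K]

/-- The coefficient of the word `w` in the element `ψ` of the free Lie algebra. -/
def wordCoeff (ψ : F2 K) (w : List (Fin 2)) : K :=
  (toWords K ψ).coeff (FreeMonoid.ofList w)

/-- `ψ` is homogeneous of degree `n`: only words of length `n` occur in `ψ`. -/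
def IsHomog (n : ℕ) (ψ : F2 K) : Prop :=
  ∀ w : List (Fin 2), w.length ≠ n → wordCoeff ψ w = 0

/-- `φ` is a homomorphism of graded Lie algebras from the free Lie algebra on generators
`σ_0, σ_1, σ_2, …` of degrees `3, 5, 7, …` (`σ_i = FreeLieAlgebra.of K i` has degree `2 i + 3`) to
`grt₁`, i.e. to the space of all `ψ` with `IsGRT ψ`, with the Ihara bracket. -/
structure IsGradedHom (φ : FreeLieAlgebra K ℕ →ₗ[K] F2 K) : Prop where
  lie : ∀ x y, φ ⁅x, y⁆ = iharaBracket (φ x) (φ y)
  mem : ∀ x, IsGRT (φ x)
  deg : ∀ i, IsHomog (2 * i + 3) (φ (FreeLieAlgebra.of K i))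

end MP446D
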