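import Pool.Agent.Lib.MP_446dfa_ag.ddi.Closed

set_option linter.all false

/-!
# `grt₁` is closed under the Ihara bracket: the pentagon relation
-/

noncomputable section

namespace MP446Z

open MP446 MP446Y

universe u v w

attribute [local instance 100] LieRing.ofAssociativeRing

namespace Clo

section Lin

variable {K : Type u} [Field K] [CharZero K]

lemma grt_one (ψ : F2 K) (hψ : ψ ∈ grt K 1) : ψ = 0 := by
  have h := rank_grt_le (K := K) 1 le_rfl
  simp only [Nat.sub_self, Nat.fib_zero, Nat.cast_zero, nonpos_iff_eq_zero,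
    rank_zero_iff] at h
  have := h.elim (⟨ψ, hψ⟩ : grt K 1) 0
  exact congrArg Subtype.val this

lemma coef_sum (N : ℕ) (f : ℕ → F2 K) (w : List (Fin 2)) :
    coef (∑ n ∈ Finset.range N, f n) w = ∑ n ∈ Finset.range N, coef (f n) w := by
  induction N with
  | zero =>
    rw [Finset.range_zero, Finset.sum_empty, Finset.sum_empty]
    unfold coef
    rw [map_zero]
    rfl
  | succ N ih => rw [Finset.sum_range_succ, Finset.sum_range_succ, coef_add, ih]

lemma coef_lin {s : F2 K} (hs : IsGRT s) (i : Fin 2) : coef s [i] = 0 := by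
  obtain ⟨N, f, hf, rfl⟩ := grt_decomp s hs
  rw [coef_sum]
  apply Finset.sum_eq_zero
  intro n _
  by_cases hn : n = 1
  · subst hn
    rw [grt_one (f 1) (hf 1)]
    unfold coef
    rw [map_zero]
    rfl
  · exact (hf n).2 [i] (fun h => hn h.symm)

end Lin

section LinI

variable {K : Type u} [Field K]

lemma ev_zero {L : Type u} [LieRing L] [LieAlgebra K L] (φ : F2 K) : ev (0 : L) 0 φ = 0 := by
  induction φ using F2_induction with
  | hA => rw [ev_A]
  | hB => rw [ev_B]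
  | hadd x y hx hy => rw [map_add, hx, hy, add_zero]
  | hsmul c x hx => rw [map_smul, hx, smul_zero]
  | hlie x y hx hy => rw [LieHom.map_lie, hx, zero_lie]

lemma shift_lin (ψ : F2 K) {L : Type u} [LieRing L] [LieAlgebra K L] (z z' : L) (h : ⁅z, z'⁆ = 0) :
    ev z z' ψ = coef ψ [0] • z + coef ψ [1] • z' := by
  obtain ⟨α, ha, hb⟩ := Tr.shift_aux (K := K) (0 : L) 0 z z' (by simp) (by simp) (by simp)
    (by simp) h ψ
  have key : ∀ l, α l = coef ψ [l] := by
    intro l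
    have := coeff_Dl (k := K) l (assoc K ψ) []
    rw [ha l] at this
    simp only [insSum] at this
    rw [coef, ← this, MonoidAlgebra.coeff_smul, Finsupp.smul_apply, ← ow_nil, MP446Y.ow_coeff,
      if_pos rfl, smul_eq_mul, mul_one]
  have h0 : ev (0 : L) 0 ψ = 0 := ev_zero ψ
  rw [zero_add, zero_add] at hb
  rw [hb, h0, zero_add, key, key]

lemma ev_der_zero (s : F2 K) {L : Type u} [LieRing L] [LieAlgebra K L] (z z' : L) (h : ⁅z, z'⁆ = 0)
    (y : F2 K) : ev z z' (der s y) = 0 := by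
  have hc : ∀ φ χ : F2 K, ⁅ev z z' φ, ev z z' χ⁆ = 0 := by
    intro φ χ
    rw [shift_lin φ z z' h, shift_lin χ z z' h]
    have h' : ⁅z', z⁆ = 0 := by rw [← lie_skew, h, neg_zero]
    simp only [add_lie, lie_add, smul_lie, lie_smul, lie_self, h, h', smul_zero, add_zero]
  induction y using F2_induction with
  | hA => rw [der_gA, map_zero]
  | hB => rw [der_gB, LieHom.map_lie, hc]
  | hadd x y hx hy => rw [map_add, map_add, hx, hy, add_zero]
  | hsmul c x hx => rw [map_smul, map_smul, hx, smul_zero]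
  | hlie x y hx hy =>
    rw [der_lie, map_add, LieHom.map_lie, LieHom.map_lie, hc, hc, add_zero]

lemma ihara_lin (s t : F2 K) (i : Fin 2) : coef (iharaBracket s t) [i] = 0 := by
  have hc : ∀ (z z' : F2 K), ⁅z, z'⁆ = 0 → ev z z' (iharaBracket s t) = 0 := by
    intro z z' h
    unfold iharaBracket
    rw [map_sub, map_add, ev_der_zero s z z' h, ev_der_zero t z z' h, LieHom.map_lie,
      shift_lin s z z' h, shift_lin t z z' h]
    have h' : ⁅z', z⁆ = 0 := by rw [← lie_skew, h, neg_zero]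
    simp only [add_lie, lie_add, smul_lie, lie_smul, lie_self, h, h', smul_zero, add_zero, sub_zero]
  fin_cases i
  · have h1 := hc (gA K) 0 (lie_zero _)
    rw [shift_lin _ _ _ (lie_zero _), smul_zero, add_zero] at h1
    have h2 := congrArg (fun x => coef x [0]) h1
    simp only [coef_smul] at h2
    have h3 : coef (gA K) [0] = 1 := by
      unfold coef
      rw [assoc_gA, lt, MP446Y.ow_coeff, if_pos rfl]
    have h4 : coef (0 : F2 K) [0] = 0 := by
      unfold coef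
      rw [map_zero]
      rfl
    rw [h3, h4, mul_one] at h2
    exact h2
  · have h1 := hc 0 (gB K) (zero_lie _)
    rw [shift_lin _ _ _ (zero_lie _), smul_zero, zero_add] at h1
    have h2 := congrArg (fun x => coef x [1]) h1
    simp only [coef_smul] at h2
    have h3 : coef (gB K) [1] = 1 := by
      unfold coef
      rw [assoc_gB, lt, MP446Y.ow_coeff, if_pos rfl]
    have h4 : coef (0 : F2 K) [1] = 0 := by
      unfold coef
      rw [map_zero]
      rfl
    rw [h3, h4, mul_one] at h2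
    exact h2

end LinI

section Pent

variable {K : Type u} [Field K]

/-- the five term relation -/
def Five (ψ : F2 K) : Prop := ∀ (L : Type u) [LieRing L] [LieAlgebra K L] (a b c d e : L),
  LC a b c d e → ev a b ψ + ev b c ψ + ev c d ψ + ev d e ψ + ev e a ψ = 0

section Shift

variable {L : Type u} [LieRing L] [LieAlgebra K L] {a b c d e : L}

lemma sh1 (ψ : F2 K) (h0 : coef ψ [0] = 0) (h1 : coef ψ [1] = 0) (h : LC a b c d e) :
    ev a (e + -c) ψ = ev a e ψ := by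
  have := Tr.ev_shift ψ h0 h1 a e 0 (-c) (lie_zero _) (lie_zero _) (by rw [lie_neg, h.ac, neg_zero])
    (by rw [lie_neg, lie0s h.ce, neg_zero]) (zero_lie _)
  rwa [add_zero] at this

lemma sh2 (ψ : F2 K) (h0 : coef ψ [0] = 0) (h1 : coef ψ [1] = 0) (h : LC a b c d e) :
    ev (d + -a) c ψ = ev d c ψ := by
  have := Tr.ev_shift ψ h0 h1 d c (-a) 0 (by rw [lie_neg, h.da, neg_zero])
    (by rw [lie_neg, lie0s h.ac, neg_zero]) (lie_zero _) (lie_zero _) (lie_zero _)
  rwa [add_zero] at this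

lemma sh3 (ψ : F2 K) (h0 : coef ψ [0] = 0) (h1 : coef ψ [1] = 0) (h : LC a b c d e) :
    ev (d + -b) (e + -b) ψ = ev d e ψ :=
  Tr.ev_shift ψ h0 h1 d e (-b) (-b) (by rw [lie_neg, lie0s h.bd, neg_zero])
    (by rw [lie_neg, h.eb, neg_zero]) (by rw [lie_neg, lie0s h.bd, neg_zero])
    (by rw [lie_neg, h.eb, neg_zero]) (lie_self _)

end Shift

lemma five_of_pent (ψ : F2 K) (hp : ∀ (L : Type u) [LieRing L] [LieAlgebra K L]
      (t : Fin 4 → Fin 4 → L), InfBraid t →
    ev (t 0 1) (t 1 2 + t 1 3) ψ + ev (t 0 2 + t 1 2) (t 2 3) ψ =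
      ev (t 1 2) (t 2 3) ψ + ev (t 0 1 + t 0 2) (t 1 3 + t 2 3) ψ + ev (t 0 1) (t 1 2) ψ)
    (hanti : ev (gB K) (gA K) ψ = -ψ) (h0 : coef ψ [0] = 0) (h1 : coef ψ [1] = 0) : Five ψ := by
  intro L _ _ a b c d e h
  have key := hp L (fam5 a b c d e) h.braid
  change ev a (b + (e - b - c)) ψ + ev ((d - a - b) + b) c ψ =
    ev b c ψ + ev (a + (d - a - b)) ((e - b - c) + c) ψ + ev a b ψ at key
  rw [show b + (e - b - c) = e + -c by abel, show (d - a - b) + b = d + -a by abel,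
    show a + (d - a - b) = d + -b by abel, show (e - b - c) + c = e + -b by abel,
    sh1 ψ h0 h1 h, sh2 ψ h0 h1 h, sh3 ψ h0 h1 h, Tr.ev_swap ψ hanti e a,
    Tr.ev_swap ψ hanti c d] at key
  have e1 : ev a b ψ = -ev e a ψ + -ev c d ψ - (ev b c ψ + ev d e ψ) := by
    rw [key]; abel
  rw [e1]
  abel

lemma pent_of_five (ψ : F2 K) (hF : Five ψ)
    (hanti : ev (gB K) (gA K) ψ = -ψ) (h0 : coef ψ [0] = 0) (h1 : coef ψ [1] = 0)
    (L : Type u) [LieRing L] [LieAlgebra K L] (t : Fin 4 → Fin 4 → L) (ht : InfBraid t) :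
    ev (t 0 1) (t 1 2 + t 1 3) ψ + ev (t 0 2 + t 1 2) (t 2 3) ψ =
      ev (t 1 2) (t 2 3) ψ + ev (t 0 1 + t 0 2) (t 1 3 + t 2 3) ψ + ev (t 0 1) (t 1 2) ψ := by
  have h := LC.of_braid ht
  have key := hF L _ _ _ _ _ h
  have e1 := sh1 ψ h0 h1 h
  have e2 := sh2 ψ h0 h1 h
  have e3 := sh3 ψ h0 h1 h
  rw [show t 1 2 + t 1 3 + t 2 3 + -t 2 3 = t 1 2 + t 1 3 by abel] at e1
  rw [show t 0 1 + t 0 2 + t 1 2 + -t 0 1 = t 0 2 + t 1 2 by abel] at e2
  rw [show t 0 1 + t 0 2 + t 1 2 + -t 1 2 = t 0 1 + t 0 2 by abel,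
    show t 1 2 + t 1 3 + t 2 3 + -t 1 2 = t 1 3 + t 2 3 by abel] at e3
  rw [e1, e2, e3, Tr.ev_swap ψ hanti (t 1 2 + t 1 3 + t 2 3) (t 0 1),
    Tr.ev_swap ψ hanti (t 2 3) (t 0 1 + t 0 2 + t 1 2), eq_comm, ← sub_eq_zero, ← key]
  abel

section Dual

variable {L : Type u} [LieRing L] [LieAlgebra K L] {a b c d e : L}

lemma swap_lie {M : Type v} [LieRing M] {x y z : M} (h : ⁅x, y⁆ = 0) : ⁅x, ⁅y, z⁆⁆ = ⁅y, ⁅x, z⁆⁆ := by
  rw [leibniz_lie, h, zero_lie, zero_add]

lemma LC.of_cross {M : Type v} [LieRing M] {a b c d e : M} (ac : ⁅a, c⁆ = 0) (bd : ⁅b, d⁆ = 0)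
    (ce : ⁅c, e⁆ = 0) (da : ⁅d, a⁆ = 0) (eb : ⁅e, b⁆ = 0) (h : ⁅d - a - b, c - e - a⁆ = 0) :
    LC a b c d e where
  ac := ac
  bd := bd
  ce := ce
  da := da
  eb := eb
  sum := by
    simp only [lie_sub, sub_lie, lie_self, ac, da] at h
    rw [← lie_skew d c, ← lie_skew a e, ← lie_skew b e, eb, ← lie_skew b a] at h
    rw [← neg_eq_zero, ← h]
    abel

lemma LC.cross (h : LC a b c d e) : ⁅d - a - b, c - e - a⁆ = 0 := by
  simp only [lie_sub, sub_lie, lie_self, h.ac, h.da]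
  rw [← lie_skew d c, ← lie_skew a e, ← lie_skew b e, h.eb, ← lie_skew b a]
  refine Eq.trans (b := -(⁅a, b⁆ + ⁅b, c⁆ + ⁅c, d⁆ + ⁅d, e⁆ + ⁅e, a⁆)) (by abel) ?_
  rw [h.sum, neg_zero]

/-- the cyclic system with indices `3, 1, 2, 5, 4` -/
lemma LC.twist (h : LC a b c d e) : LC (d - a - b) a (c - e - a) d c where
  ac := h.cross
  bd := lie0s h.da
  ce := by simp only [sub_lie, lie_self, h.ac, lie0s h.ce]; abel
  da := by simp only [lie_sub, lie_self, h.da, lie0s h.bd]; abel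
  eb := lie0s h.ac
  sum := by
    simp only [lie_sub, sub_lie, lie_self, h.ac, h.da, lie0s h.ac, lie0s h.da]
    rw [← lie_skew b a, ← lie_skew a e, ← lie_skew d c, ← lie_skew c b, ← lie_skew e d]
    refine Eq.trans (b := ⁅a, b⁆ + ⁅b, c⁆ + ⁅c, d⁆ + ⁅d, e⁆ + ⁅e, a⁆) (by abel) h.sum

lemma hex_gen {s : F2 K} (hs : IsGRT s) (h0 : coef s [0] = 0) (h1 : coef s [1] = 0) (p q r : L)
    (hp : ⁅p, p + q + r⁆ = 0) (hq : ⁅q, p + q + r⁆ = 0) :
    ⁅q, ev p q s⁆ + ⁅r, ev p r s⁆ = 0 := by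
  have e1 : ev p q (gC K) = -p - q := by
    unfold gC
    rw [map_sub, map_neg, ev_A, ev_B]
  have h2 := congrArg (ev p q) hs.hexagon
  rw [map_add, LieHom.map_lie, LieHom.map_lie, map_zero, ev_B, ev_ev, ev_A, e1] at h2
  have h3 := Tr.ev_shift s h0 h1 p (-p - q) 0 (p + q + r) (lie_zero _) (lie_zero _) hp
    (by rw [sub_lie, neg_lie, hp, hq, neg_zero, sub_zero]) (zero_lie _)
  rw [add_zero, show -p - q + (p + q + r) = r by abel] at h3
  have h4 : ⁅ev p (-p - q) s, p + q + r⁆ = 0 := Tr.ev_comm p (-p - q) _ hp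
    (by rw [sub_lie, neg_lie, hp, hq, neg_zero, sub_zero]) s
  have h5 : ⁅r, ev p (-p - q) s⁆ = ⁅-p - q, ev p (-p - q) s⁆ := by
    have : ⁅p + q + r, ev p (-p - q) s⁆ = 0 := lie0s h4
    have h6 : r = (-p - q) + (p + q + r) := by abel
    conv_lhs => rw [h6]
    rw [add_lie, this, add_zero]
  rw [h3, h5, h2]

/-- the values of the Ihara derivation on a cyclic system -/
lemma LC.dual {s : F2 K} (hs : IsGRT s) (hF : Five s) (h0 : coef s [0] = 0) (h1 : coef s [1] = 0)
    (h : LC a b c d e) :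
    LC (⟨a, 0⟩ : DualLie L) ⟨b, ⁅b, ev a b s + ev c d s⁆⟩ ⟨c, 0⟩ ⟨d, ⁅d, ev c d s⁆⟩
      ⟨e, -⁅e, ev e a s⁆⟩ := by
  have ca := lie0s h.ac
  have db := lie0s h.bd
  have ec := lie0s h.ce
  have ad := lie0s h.da
  have be := lie0s h.eb
  -- elements commuting
  have d1 : ⁅ev a b s, d⁆ = 0 := Tr.ev_comm a b d ad h.bd s
  have c5 : ⁅ev e a s, c⁆ = 0 := Tr.ev_comm e a c ec h.ac s
  have a3 : ⁅ev c d s, a⁆ = 0 := Tr.ev_comm c d a ca h.da s
  have e2 : ⁅ev b c s, e⁆ = 0 := Tr.ev_comm b c e be h.ce s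
  have b4 : ⁅ev d e s, b⁆ = 0 := Tr.ev_comm d e b db h.eb s
  have hsum := hF L a b c d e h
  apply LC.of_cross
  · apply DualLie.ext'
    · exact h.ac
    · simp
  · apply DualLie.ext'
    · exact h.bd
    · change ⁅b, ⁅d, ev c d s⁆⁆ + ⁅⁅b, ev a b s + ev c d s⁆, d⁆ = 0
      rw [← lie_skew ⁅b, ev a b s + ev c d s⁆ d, swap_lie db, lie_add, lie0s d1, zero_add,
        add_neg_cancel]
  · apply DualLie.ext'
    · exact h.ce
    · change ⁅c, -⁅e, ev e a s⁆⁆ + ⁅(0 : L), e⁆ = 0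
      rw [zero_lie, add_zero, lie_neg, leibniz_lie c e, h.ce, zero_lie, zero_add, lie0s c5,
        lie_zero, neg_zero]
  · apply DualLie.ext'
    · exact h.da
    · change ⁅d, (0 : L)⁆ + ⁅⁅d, ev c d s⁆, a⁆ = 0
      rw [lie_zero, zero_add, lie_lie, a3, lie_zero, h.da, lie_zero, sub_zero]
  · apply DualLie.ext'
    · exact h.eb
    · change ⁅e, ⁅b, ev a b s + ev c d s⁆⁆ + ⁅-⁅e, ev e a s⁆, b⁆ = 0
      have h6 : ev a b s + ev c d s = - (ev b c s + ev d e s) - ev e a s := by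
        rw [eq_sub_iff_add_eq, eq_neg_iff_add_eq_zero, ← hsum]
        abel
      rw [neg_lie, ← lie_skew ⁅e, ev e a s⁆ b, neg_neg, swap_lie h.eb, ← lie_add, ← lie_add, h6,
        sub_add_cancel, lie_neg, lie_add, lie0s e2, zero_add, lie_neg, swap_lie be, lie0s b4,
        lie_zero, neg_zero]
  · apply DualLie.ext'
    · exact h.cross
    · change ⁅d - a - b, 0 - -⁅e, ev e a s⁆ - 0⁆ +
        ⁅⁅d, ev c d s⁆ - 0 - ⁅b, ev a b s + ev c d s⁆, c - e - a⁆ = 0
      have ht := h.twist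
      have hX := hex_gen hs h0 h1 a b (d - a - b)
        (by rw [show a + b + (d - a - b) = d by abel]; exact ad)
        (by rw [show a + b + (d - a - b) = d by abel]; exact h.bd)
      have hY := hex_gen hs h0 h1 a e (c - e - a)
        (by rw [show a + e + (c - e - a) = c by abel]; exact h.ac)
        (by rw [show a + e + (c - e - a) = c by abel]; exact ec)
      have hT := hF L _ _ _ _ _ ht
      rw [Tr.ev_swap s hs.antisymm a (d - a - b), Tr.ev_swap s hs.antisymm c d] at hT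
      rw [Tr.ev_swap s hs.antisymm e a] at hY
      have aX : ⁅d - a - b, ev c d s⁆ = ⁅d, ev c d s⁆ - ⁅b, ev c d s⁆ := by
        rw [sub_lie, sub_lie, lie0s a3, sub_zero]
      have hP : ⁅d, ev c d s⁆ - 0 - ⁅b, ev a b s + ev c d s⁆ =
          ⁅d - a - b, ev c d s + ev a (d - a - b) s⁆ := by
        rw [lie_add, lie_add, aX, eq_neg_of_add_eq_zero_left hX]
        abel
      have hQ : 0 - -⁅e, ev e a s⁆ - 0 = ⁅c - e - a, ev a (c - e - a) s⁆ := by
        rw [lie_neg] at hY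
        rw [sub_zero, zero_sub, neg_neg]
        exact (neg_add_eq_zero.1 hY)
      rw [hP, hQ]
      generalize hXd : d - a - b = X at *
      generalize hYd : c - e - a = Y at *
      have h7 : ev a Y s = (ev c d s + ev a X s) - ev Y d s - ev c X s := by
        rw [eq_sub_iff_add_eq, eq_sub_iff_add_eq, ← sub_eq_zero, ← hT]
        abel
      have x1 : ⁅ev Y d s, X⁆ = 0 := Tr.ev_comm Y d X (lie0s ht.ac) ht.da s
      have x2 : ⁅ev c X s, Y⁆ = 0 := Tr.ev_comm c X Y (lie0s ht.ce) ht.ac s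
      rw [h7, ← lie_skew ⁅X, ev c d s + ev a X s⁆ Y, swap_lie (lie0s ht.ac), lie_sub, lie0s x2,
        sub_zero, lie_sub, lie_sub, swap_lie ht.ac (z := ev Y d s), lie0s x1, lie_zero, sub_zero,
        add_neg_cancel]

/-- the Ihara derivation and the evaluation at `a`, `b` -/
lemma theta_der (s : F2 K) (a b pa pb E : L) (hA : pa = ⁅a, E⁆) (hB : pb = ⁅b, ev a b s + E⁆)
    (y : F2 K) :
    ev a b (der s y) = (ev (⟨a, pa⟩ : DualLie L) ⟨b, pb⟩ y).snd + ⁅E, ev a b y⁆ := by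
  have hf : ∀ y : F2 K, (ev (⟨a, pa⟩ : DualLie L) ⟨b, pb⟩ y).fst = ev a b y := by
    intro y
    induction y using F2_induction with
    | hA => rw [ev_A, ev_A]
    | hB => rw [ev_B, ev_B]
    | hadd x y hx hy => rw [map_add, map_add, DualLie.add_fst, hx, hy]
    | hsmul c x hx => rw [map_smul, map_smul, DualLie.smul_fst, hx]
    | hlie x y hx hy => rw [LieHom.map_lie, LieHom.map_lie, DualLie.lie_fst, hx, hy]
  induction y using F2_induction with
  | hA =>
    rw [der_gA, map_zero, ev_A, ev_A]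
    change 0 = pa + ⁅E, a⁆
    rw [hA, ← lie_skew a E, neg_add_cancel]
  | hB =>
    rw [der_gB, LieHom.map_lie, ev_B, ev_B]
    change ⁅b, ev a b s⁆ = pb + ⁅E, b⁆
    rw [hB, lie_add, ← lie_skew E b, add_neg_cancel_right]
  | hadd x y hx hy =>
    rw [map_add, map_add, map_add, DualLie.add_snd, map_add, hx, hy, lie_add]
    abel
  | hsmul c x hx =>
    rw [map_smul, map_smul, map_smul, DualLie.smul_snd, map_smul, hx, lie_smul, smul_add]
  | hlie x y hx hy =>
    rw [der_lie, map_add, LieHom.map_lie, LieHom.map_lie, LieHom.map_lie, LieHom.map_lie, hx, hy,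
      DualLie.lie_snd, hf, hf, leibniz_lie E (ev a b x) (ev a b y), lie_add, add_lie]
    abel

/-- the sum of the images of `D_s t` -/
lemma sum_der {s t : F2 K} (hs : IsGRT s) (hF : Five s) (h0 : coef s [0] = 0)
    (h1 : coef s [1] = 0) (hFt : Five t) (h : LC a b c d e) :
    ev a b (der s t) + ev b c (der s t) + ev c d (der s t) + ev d e (der s t) +
      ev e a (der s t) = ⁅ev c d s, ev a b t⁆ + ⁅ev a b s + ev c d s + ev d e s, ev b c t⁆ +
        ⁅ev a b s + ev c d s, ev d e t⁆ - ⁅ev e a s, ev e a t⁆ := by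
  have ca := lie0s h.ac
  have db := lie0s h.bd
  have ec := lie0s h.ce
  have ad := lie0s h.da
  have be := lie0s h.eb
  -- elements commuting
  have d1 : ⁅ev a b s, d⁆ = 0 := Tr.ev_comm a b d ad h.bd s
  have c5 : ⁅ev e a s, c⁆ = 0 := Tr.ev_comm e a c ec h.ac s
  have a3 : ⁅ev c d s, a⁆ = 0 := Tr.ev_comm c d a ca h.da s
  have e2 : ⁅ev b c s, e⁆ = 0 := Tr.ev_comm b c e be h.ce s
  have b4 : ⁅ev d e s, b⁆ = 0 := Tr.ev_comm d e b db h.eb s
  have hsum := hF L a b c d e h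
  have hd := hFt (DualLie L) _ _ _ _ _ (LC.dual hs hF h0 h1 h)
  have hd2 := congrArg DualLie.snd hd
  simp only [DualLie.add_snd, DualLie.zero_snd] at hd2
  have k1 := theta_der s a b 0 ⁅b, ev a b s + ev c d s⁆ (ev c d s) (lie0s a3).symm rfl t
  have k2 := theta_der s b c ⁅b, ev a b s + ev c d s⁆ 0 (ev a b s + ev c d s + ev d e s)
    (by rw [lie_add b (ev a b s + ev c d s), lie0s b4, add_zero])
    (by
      have : ev b c s + (ev a b s + ev c d s + ev d e s) = - ev e a s := by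
        rw [eq_neg_iff_add_eq_zero, ← hsum]; abel
      rw [this, lie_neg, lie0s c5, neg_zero]) t
  have k3 := theta_der s c d 0 ⁅d, ev c d s⁆ 0 (lie_zero _).symm (by rw [add_zero]) t
  have k4 := theta_der s d e ⁅d, ev c d s⁆ (-⁅e, ev e a s⁆) (ev a b s + ev c d s)
    (by rw [lie_add, lie0s d1, zero_add])
    (by
      have : ev d e s + (ev a b s + ev c d s) = - ev e a s - ev b c s := by
        rw [eq_sub_iff_add_eq, eq_neg_iff_add_eq_zero, ← hsum]; abel
      rw [this, lie_sub, lie_neg, lie0s e2, sub_zero]) t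
  have k5 := theta_der s e a (-⁅e, ev e a s⁆) 0 (-ev e a s) (by rw [lie_neg])
    (by rw [add_neg_cancel, lie_zero]) t
  rw [k1, k2, k3, k4, k5, zero_lie, neg_lie]
  have : ∀ x1 x2 x3 x4 x5 y1 y2 y4 y5 : L, x1 + x2 + x3 + x4 + x5 = 0 →
      x1 + y1 + (x2 + y2) + (x3 + 0) + (x4 + y4) + (x5 + -y5) = y1 + y2 + y4 - y5 := by
    intro x1 x2 x3 x4 x5 y1 y2 y4 y5 h
    refine Eq.trans (b := (x1 + x2 + x3 + x4 + x5) + (y1 + y2 + y4 - y5)) (by abel) ?_
    rw [h, zero_add]
  exact this _ _ _ _ _ _ _ _ _ hd2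

lemma five_closed {s t : F2 K} (hs : IsGRT s) (ht : IsGRT t) (hFs : Five s) (hFt : Five t)
    (hs0 : coef s [0] = 0) (hs1 : coef s [1] = 0) (ht0 : coef t [0] = 0) (ht1 : coef t [1] = 0) :
    Five (iharaBracket s t) := by
  intro L _ _ a b c d e h
  have k1 := sum_der hs hFs hs0 hs1 hFt h
  have k2 := sum_der ht hFt ht0 ht1 hFs h
  have e1 : ev e a s = - (ev a b s + ev b c s + ev c d s + ev d e s) := by
    rw [eq_neg_iff_add_eq_zero, ← hFs L a b c d e h]; abel
  have e2 : ev e a t = - (ev a b t + ev b c t + ev c d t + ev d e t) := by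
    rw [eq_neg_iff_add_eq_zero, ← hFt L a b c d e h]; abel
  have key : ∀ p q : L, ev p q (iharaBracket s t) =
      ⁅ev p q s, ev p q t⁆ + ev p q (der s t) - ev p q (der t s) := by
    intro p q
    unfold iharaBracket
    rw [map_sub, map_add, LieHom.map_lie]
  rw [key, key, key, key, key]
  refine Eq.trans (b := ⁅ev a b s, ev a b t⁆ + ⁅ev b c s, ev b c t⁆ + ⁅ev c d s, ev c d t⁆ +
    ⁅ev d e s, ev d e t⁆ + ⁅ev e a s, ev e a t⁆ +
    (ev a b (der s t) + ev b c (der s t) + ev c d (der s t) + ev d e (der s t) +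
      ev e a (der s t)) - (ev a b (der t s) + ev b c (der t s) + ev c d (der t s) +
      ev d e (der t s) + ev e a (der t s))) (by abel) ?_
  rw [k1, k2, e1, e2]
  generalize ev a b s = s1
  generalize ev b c s = s2
  generalize ev c d s = s3
  generalize ev d e s = s4
  generalize ev a b t = t1
  generalize ev b c t = t2
  generalize ev c d t = t3
  generalize ev d e t = t4
  simp only [add_lie, lie_add, neg_lie, lie_neg]
  rw [← lie_skew t1 s1, ← lie_skew t1 s2, ← lie_skew t1 s3, ← lie_skew t1 s4, ← lie_skew t2 s1,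
    ← lie_skew t2 s2, ← lie_skew t2 s3, ← lie_skew t2 s4, ← lie_skew t3 s1, ← lie_skew t3 s2,
    ← lie_skew t3 s3, ← lie_skew t3 s4, ← lie_skew t4 s1, ← lie_skew t4 s2, ← lie_skew t4 s3,
    ← lie_skew t4 s4]
  abel

end Dual

end Pent

end Clo

/-- `grt₁` is closed under the Ihara bracket. -/
theorem ihara_closed {K : Type u} [Field K] [CharZero K] (s t : F2 K) (hs : IsGRT s)
    (ht : IsGRT t) : IsGRT (iharaBracket s t) where
  antisymm := Clo.anti_closed hs ht
  cycle := Clo.cycle_closed hs ht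
  hexagon := Clo.hexagon_closed hs ht
  pentagon := Clo.pent_of_five _
    (Clo.five_closed hs ht
      (Clo.five_of_pent s hs.pentagon hs.antisymm (Clo.coef_lin hs 0) (Clo.coef_lin hs 1))
      (Clo.five_of_pent t ht.pentagon ht.antisymm (Clo.coef_lin ht 0) (Clo.coef_lin ht 1))
      (Clo.coef_lin hs 0) (Clo.coef_lin hs 1) (Clo.coef_lin ht 0) (Clo.coef_lin ht 1))
    (Clo.anti_closed hs ht) (Clo.ihara_lin s t 0) (Clo.ihara_lin s t 1)

end MP446Z
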