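import Pool.Agent.Lib.MP_446dfa_ag.ddi.LowerC

set_option linter.all false

/-!
# `grt₁` is freely generated by any system of elements `σ_3, σ_5, …`
-/

noncomputable section

namespace MP446Z

open MP446 MP446Y IsLocalRing

universe u v w

attribute [local instance 100] LieRing.ofAssociativeRing

section Final

variable {K : Type u} [Field K] [CharZero K]

omit [CharZero K] in
lemma freeWt_small {n : ℕ} (hn : n < 3) : freeWt K n = ⊥ := by
  unfold freeWt
  rw [Submodule.span_eq_bot]
  rintro _ ⟨l, hl, rfl⟩
  cases l with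
  | nil => rfl
  | cons i l =>
    exfalso
    rw [List.map_cons, List.sum_cons] at hl
    omega

lemma grt_small {n : ℕ} (hn : n < 3) : grt K n = ⊥ := by
  have h := rank_grt_le_freeWt (K := K) n
  rw [freeWt_small hn] at h
  have h2 : Module.rank K (⊥ : Submodule K (FreeLieAlgebra K ℕ)) = 0 := rank_bot _ _
  rw [h2, nonpos_iff_eq_zero] at h
  exact Submodule.rank_eq_zero.1 h

variable (φ : FreeLieAlgebra K ℕ →ₗ⁅K⁆ IharaLie K)
  (hφ : ∀ i, toIhara.symm (φ (FreeLieAlgebra.of K i)) ∈ grt K (2 * i + 3))
  (hcl : ∀ x, IsGRT (toIhara.symm (φ x)))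
  (hcoef : ∀ i, coef (toIhara.symm (φ (FreeLieAlgebra.of K i)))
    (List.replicate (2 * i + 2) 0 ++ [1]) ≠ 0)

include hφ hcl hcoef in
lemma map_eq_grt (n : ℕ) : (freeWt K n).map (lin φ) = grt K n := by
  by_cases hn : 3 ≤ n
  · obtain ⟨O, h2⟩ := exists_val K
    apply Submodule.eq_of_le_of_finrank_le (map_le φ hφ hcl n)
    exact (main_induction φ hφ hcl hcoef h2 n hn).2.2
  · rw [freeWt_small (by omega), grt_small (by omega), Submodule.map_bot]

include hφ hcl hcoef in
lemma inj_freeWt (n : ℕ) {x : FreeLieAlgebra K ℕ} (hx : x ∈ freeWt K n) (h : lin φ x = 0) : x = 0 := by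
  by_cases hn : 3 ≤ n
  · obtain ⟨O, h2⟩ := exists_val K
    have h3 := (main_induction φ hφ hcl hcoef h2 n hn).2.1
    have h4 := rank_freeWt_le (K := K) O h2 n
    rw [rank_br_eq n hn] at h4
    haveI := LL_finite (k := ResidueField O) n hn
    haveI : Module.Finite K (VV φ n) := Submodule.finiteDimensional_of_le (map_le φ hφ hcl n)
    have h5 : Module.finrank K (freeWt K n) ≤ Module.finrank K (VV φ n) := by
      rw [← h3]
      apply Cardinal.toNat_le_toNat h4
      exact Module.rank_lt_aleph0_iff.2 inferInstance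
    have h6 : Module.finrank K (VV φ n) ≤ Module.finrank K (freeWt K n) :=
      Submodule.finrank_map_le _ _
    let f : freeWt K n →ₗ[K] VV φ n := (lin φ).submoduleMap (freeWt K n)
    have hs : Function.Surjective f := LinearMap.submoduleMap_surjective _ _
    have hi := (LinearMap.injective_iff_surjective_of_finrank_eq_finrank (f := f)
      (le_antisymm h5 h6)).2 hs
    have : (⟨x, hx⟩ : freeWt K n) = 0 := by
      apply hi
      rw [map_zero]
      exact Subtype.ext h
    exact congrArg Subtype.val this
  · rw [freeWt_small (by omega)] at hx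
    exact hx

include hφ hcl hcoef in
theorem phi_injective : Function.Injective φ := by
  rw [injective_iff_map_eq_zero]
  intro x hx
  obtain ⟨f, hf, rfl⟩ := free_decomp x
  have h0 : lin φ (f.sum (fun _ z => z)) = 0 := by rw [lin_apply, hx]; rfl
  have h1 : ∀ n, lin φ (f n) = 0 := by
    intro n
    have hg : ∀ m, lin φ (f m) ∈ grt K m := fun m => map_le φ hφ hcl m ⟨f m, hf m, rfl⟩
    apply assoc_injective
    rw [map_zero]
    apply AA_ext
    intro w
    change coef (lin φ (f n)) w = 0
    by_cases hw : w.length = n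
    · have h2 := congrArg (fun ψ => coef ψ w) h0
      simp only [coef_zero] at h2
      rw [Finsupp.sum, map_sum] at h2
      have h3 : coef (∑ m ∈ f.support, lin φ (f m)) w = ∑ m ∈ f.support, coef (lin φ (f m)) w := by
        have := map_sum (Finsupp.lapply (FreeMonoid.ofList w) ∘ₗ cc K) (fun m => lin φ (f m)) f.support
        exact this
      rw [h3, Finset.sum_eq_single n] at h2
      · exact h2
      · intro m _ hm
        exact (hg m).2 w (by rw [hw]; exact fun h => hm h.symm)
      · intro hn
        rw [Finsupp.notMem_support_iff.1 hn, map_zero, coef_zero]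
    · exact (hg n).2 w hw
  have h2 : f = 0 := by
    ext n
    exact inj_freeWt φ hφ hcl hcoef n (hf n) (h1 n)
  rw [h2, Finsupp.sum_zero_index]

include hφ hcl hcoef in
theorem free_generation : Function.Injective φ ∧ ∀ ψ, IsGRT ψ → ∃ x, φ x = toIhara ψ :=
  ⟨phi_injective φ hφ hcl hcoef,
    fun ψ hψ => onto_of_maps φ hφ hcl (map_eq_grt φ hφ hcl hcoef) ψ hψ⟩

end Final

end MP446Z
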