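import Pool.Agent.Lib.MP_446dfa_ag.ddi.Official
import Pool.Agent.Lib.MP_446dfa_ag.ddi.Closed2
import Pool.Agent.Lib.MP_446dfa_ag.ddi.LowerD

set_option linter.all false

/-!
# Any elements `σ_3, σ_5, …` of `grt₁` with non-zero depth one parts freely generate `grt₁`
-/

noncomputable section

namespace MP446D

open MP446 MP446Y MP446Z

universe u v w

attribute [local instance 100] LieRing.ofAssociativeRing

variable {K : Type u} [Field K]

lemma wordCoeff_eq (ψ : F2 K) (w : List (Fin 2)) : wordCoeff ψ w = coef ψ w := rfl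

lemma mem_grt {n : ℕ} {ψ : F2 K} (h : IsGRT ψ) (h' : IsHomog n ψ) : ψ ∈ grt K n := ⟨h, h'⟩

/-- the Lie homomorphism attached to `φ` -/
def IsGradedHom.hom {φ : FreeLieAlgebra K ℕ →ₗ[K] F2 K} (h : IsGradedHom φ) :
    FreeLieAlgebra K ℕ →ₗ⁅K⁆ IharaLie K :=
  { (toIhara (K := K)).toLinearMap ∘ₗ φ with
    map_lie' := by
      intro x y
      change toIhara (φ ⁅x, y⁆) = ⁅toIhara (φ x), toIhara (φ y)⁆
      rw [h.lie, toIhara_lie] }

variable [CharZero K]

theorem surjective_of_injective {φ : FreeLieAlgebra K ℕ →ₗ[K] F2 K} (h : IsGradedHom φ)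
    (hinj : Function.Injective φ) (ψ : F2 K) (hψ : IsGRT ψ) : ∃ x, φ x = ψ := by
  obtain ⟨x, hx⟩ := onto_of_injective h.hom (fun i => mem_grt (h.mem _) (h.deg i)) h.mem
    (fun x y hxy => hinj ((toIhara (K := K)).injective hxy)) ψ hψ
  exact ⟨x, (toIhara (K := K)).injective hx⟩

theorem exists_of_sigma (σ : ℕ → F2 K) (h1 : ∀ i, IsGRT (σ i)) (h2 : ∀ i, IsHomog (2 * i + 3) (σ i))
    (h3 : ∀ i, wordCoeff (σ i) (List.replicate (2 * i + 2) 0 ++ [1]) ≠ 0) :
    ∃ φ : FreeLieAlgebra K ℕ →ₗ[K] F2 K, IsGradedHom φ ∧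
      (∀ i, φ (FreeLieAlgebra.of K i) = σ i) ∧ Function.Injective φ ∧
      ∀ ψ, IsGRT ψ → ∃ x, φ x = ψ := by
  let f : FreeLieAlgebra K ℕ →ₗ⁅K⁆ IharaLie K := FreeLieAlgebra.lift K (fun i => toIhara (σ i))
  have hof : ∀ i, toIhara.symm (f (FreeLieAlgebra.of K i)) = σ i := by
    intro i
    simp only [f, FreeLieAlgebra.lift_of_apply]
    rfl
  have hcl : ∀ x, IsGRT (toIhara.symm (f x)) := by
    intro x
    induction x using FL_induction with
    | hof i => rw [hof i]; exact h1 i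
    | hadd x y hx hy =>
      rw [map_add, map_add]
      exact (grtS K).add_mem hx hy
    | hsmul c x hx =>
      rw [map_smul, map_smul]
      exact (grtS K).smul_mem c hx
    | hlie x y hx hy =>
      rw [LieHom.map_lie]
      exact ihara_closed _ _ hx hy
  have key := free_generation f (fun i => by rw [hof i]; exact mem_grt (h1 i) (h2 i)) hcl
    (fun i => by rw [hof i]; exact h3 i)
  refine ⟨lin f, ⟨fun x y => lin_lie f x y, hcl, fun i => ?_⟩, hof, ?_, ?_⟩
  · rw [lin_apply, hof i]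
    exact h2 i
  · intro x y hxy
    exact key.1 ((toIhara (K := K)).symm.injective hxy)
  · intro ψ hψ
    obtain ⟨x, hx⟩ := key.2 ψ hψ
    refine ⟨x, ?_⟩
    rw [lin_apply, hx]
    rfl

end MP446D
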