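import Pool.Agent.Lib.MP_446dfa_ag.ddi.FAlg

set_option linter.all false

/-!
# The dimension of the space of Lie polynomials in `B` (weight 2) and `Z` (weight 3)
-/

noncomputable section

namespace MP446Z

open MP446 MP446Y

universe u v w

attribute [local instance 100] LieRing.ofAssociativeRing

/-! ### Right normed brackets -/

section Brk

variable (k : Type v) [CommRing k]

/-- right normed brackets of the letters `z_0, z_1, …` -/
def brF : List ℕ → FA k ℕ
  | [] => 0
  | [i] => letter k i
  | i :: l => ⁅letter k i, brF l⁆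

lemma brF_cons (i j : ℕ) (l : List ℕ) : brF k (i :: j :: l) = ⁅letter k i, brF k (j :: l)⁆ := rfl

/-- the span of the right normed brackets -/
def NN : Submodule k (FA k ℕ) := Submodule.span k (Set.range (brF k))

lemma brF_mem (l : List ℕ) : brF k l ∈ NN k := Submodule.subset_span ⟨l, rfl⟩

lemma letter_mem (i : ℕ) : letter k i ∈ NN k := brF_mem k [i]

lemma ad_mem (i : ℕ) {y : FA k ℕ} (hy : y ∈ NN k) : ⁅letter k i, y⁆ ∈ NN k := by
  refine Submodule.span_induction (p := fun a _ => ⁅letter k i, a⁆ ∈ NN k) ?_ ?_ ?_ ?_ hy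
  · rintro _ ⟨l, rfl⟩
    cases l with
    | nil => change ⁅letter k i, (0 : FA k ℕ)⁆ ∈ NN k; rw [lie_zero]; exact Submodule.zero_mem _
    | cons j l => exact brF_mem k (i :: j :: l)
  · rw [lie_zero]; exact Submodule.zero_mem _
  · intro a b _ _ ha hb; rw [lie_add]; exact Submodule.add_mem _ ha hb
  · intro c a _ ha; rw [lie_smul]; exact Submodule.smul_mem _ _ ha

lemma br_lie_mem (l : List ℕ) {y : FA k ℕ} (hy : y ∈ NN k) : ⁅brF k l, y⁆ ∈ NN k := by
  induction l generalizing y with
  | nil => change ⁅(0 : FA k ℕ), y⁆ ∈ NN k; rw [zero_lie]; exact Submodule.zero_mem _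
  | cons i l ih =>
    cases l with
    | nil => exact ad_mem k i hy
    | cons j l =>
      rw [brF_cons, lie_lie]
      exact Submodule.sub_mem _ (ad_mem k i (ih hy)) (ih (ad_mem k i hy))

lemma NN_lie {x y : FA k ℕ} (hx : x ∈ NN k) (hy : y ∈ NN k) : ⁅x, y⁆ ∈ NN k := by
  refine Submodule.span_induction (p := fun a _ => ⁅a, y⁆ ∈ NN k) ?_ ?_ ?_ ?_ hx
  · rintro _ ⟨l, rfl⟩
    exact br_lie_mem k l hy
  · rw [zero_lie]; exact Submodule.zero_mem _
  · intro a b _ _ ha hb; rw [add_lie]; exact Submodule.add_mem _ ha hb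
  · intro c a _ ha; rw [smul_lie]; exact Submodule.smul_mem _ _ ha

/-- the derivation `z_i ↦ z_{i+1}` -/
def shD : FA k ℕ →ₗ[k] FA k ℕ := derF (fun i => letter k (i + 1))

lemma shD_lie (x y : FA k ℕ) : shD k ⁅x, y⁆ = ⁅shD k x, y⁆ + ⁅x, shD k y⁆ := by
  unfold shD
  rw [LieRing.of_associative_ring_bracket, map_sub, derF_mul, derF_mul,
    LieRing.of_associative_ring_bracket, LieRing.of_associative_ring_bracket]
  abel

lemma shD_br (l : List ℕ) : shD k (brF k l) ∈ NN k := by
  induction l with
  | nil => change shD k 0 ∈ NN k; rw [map_zero]; exact Submodule.zero_mem _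
  | cons i l ih =>
    cases l with
    | nil =>
      change shD k (letter k i) ∈ NN k
      unfold shD
      rw [derF_letter]
      exact letter_mem k _
    | cons j l =>
      rw [brF_cons, shD_lie]
      refine Submodule.add_mem _ ?_ (ad_mem k i ih)
      have : shD k (letter k i) = letter k (i + 1) := by unfold shD; rw [derF_letter]
      rw [this]
      exact brF_mem k ((i + 1) :: j :: l)

lemma shD_mem {x : FA k ℕ} (hx : x ∈ NN k) : shD k x ∈ NN k := by
  refine Submodule.span_induction (p := fun a _ => shD k a ∈ NN k) ?_ ?_ ?_ ?_ hx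
  · rintro _ ⟨l, rfl⟩
    exact shD_br k l
  · rw [map_zero]; exact Submodule.zero_mem _
  · intro a b _ _ ha hb; rw [map_add]; exact Submodule.add_mem _ ha hb
  · intro c a _ ha; rw [map_smul]; exact Submodule.smul_mem _ _ ha

/-- the iterated brackets `ad_B^i Z` -/
def adBZ : ℕ → AA k
  | 0 => lt k 1
  | i + 1 => ⁅lt k 0, adBZ i⁆

/-- `z_i ↦ ad_B^i Z` -/
def theta : FA k ℕ →ₐ[k] AA k := EVn (adBZ k)

lemma theta_letter (i : ℕ) : theta k (letter k i) = adBZ k i := by
  unfold theta; rw [EVn_letter]

lemma theta_lie (x y : FA k ℕ) : theta k ⁅x, y⁆ = ⁅theta k x, theta k y⁆ := by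
  rw [LieRing.of_associative_ring_bracket, LieRing.of_associative_ring_bracket, map_sub, map_mul,
    map_mul]

lemma B_theta (x : FA k ℕ) : ⁅lt k 0, theta k x⁆ = theta k (shD k x) := by
  induction x using FA_induction with
  | h1 =>
    unfold shD
    rw [derF_one, map_one, map_zero, LieRing.of_associative_ring_bracket, mul_one, one_mul,
      sub_self]
  | hmul a X ih =>
    have h1 : shD k (letter k a * X) = letter k a * shD k X + letter k (a + 1) * X := by
      unfold shD; rw [derF_mul, derF_letter]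
    rw [h1, map_add, map_mul, map_mul, map_mul, ← ih, theta_letter, theta_letter]
    change _ = adBZ k a * ⁅lt k 0, theta k X⁆ + ⁅lt k 0, adBZ k a⁆ * theta k X
    simp only [LieRing.of_associative_ring_bracket]
    noncomm_ring
  | hadd X Y hX hY => rw [map_add, lie_add, hX, hY, map_add, map_add]
  | hsmul c X hX => rw [map_smul, lie_smul, hX, map_smul, map_smul]

/-- Elimination: the Lie subalgebra `k B ⊕ θ(brackets)`. -/
def elimT : LieSubalgebra k (FA k (Fin 2)) where
  carrier := {G | ∃ (c : k) (f : FA k ℕ), f ∈ NN k ∧ G = c • lt k 0 + theta k f}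
  add_mem' := by
    rintro _ _ ⟨c, f, hf, rfl⟩ ⟨c', f', hf', rfl⟩
    refine ⟨c + c', f + f', Submodule.add_mem _ hf hf', ?_⟩
    rw [add_smul, map_add]
    abel
  zero_mem' := ⟨0, 0, Submodule.zero_mem _, by simp⟩
  smul_mem' := by
    rintro a _ ⟨c, f, hf, rfl⟩
    refine ⟨a * c, a • f, Submodule.smul_mem _ _ hf, ?_⟩
    rw [smul_add, map_smul, mul_smul]
  lie_mem' := by
    rintro _ _ ⟨c, f, hf, rfl⟩ ⟨c', f', hf', rfl⟩
    refine ⟨0, c • shD k f' - c' • shD k f + ⁅f, f'⁆, ?_, ?_⟩
    · exact Submodule.add_mem _ (Submodule.sub_mem _ (Submodule.smul_mem _ _ (shD_mem k hf'))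
        (Submodule.smul_mem _ _ (shD_mem k hf))) (NN_lie k hf hf')
    · have h1 : ⁅theta k f, lt k 0⁆ = -theta k (shD k f) := by
        rw [← B_theta, lie_skew]
      rw [zero_smul, zero_add, map_add, map_sub, map_smul, map_smul, theta_lie]
      simp only [add_lie, lie_add, smul_lie, lie_smul, lie_self, smul_zero, zero_add, B_theta, h1]
      rw [smul_neg]
      abel

lemma elim (G : FA k (Fin 2)) (hG : G ∈ LieP k (Fin 2)) :
    ∃ (c : k) (f : FA k ℕ), f ∈ NN k ∧ G = c • lt k 0 + theta k f := by
  have h : LieP k (Fin 2) ≤ elimT k := by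
    refine LieSubalgebra.lieSpan_le.2 ?_
    rintro _ ⟨i, rfl⟩
    fin_cases i
    · exact ⟨1, 0, Submodule.zero_mem _, by rw [one_smul, map_zero, add_zero]; rfl⟩
    · refine ⟨0, letter k 0, letter_mem k 0, ?_⟩
      rw [zero_smul, zero_add, theta_letter]
      rfl
  exact h hG

end Brk

/-! ### Weights -/

section Wt

variable (k : Type v) [CommRing k]

/-- the polynomials of weight `m` -/
def HW (m : ℕ) : Submodule k (AA k) := Submodule.span k {X | ∃ w : List (Fin 2), wt23 w = m ∧ X = ow k w}

lemma wt23_append (w w' : List (Fin 2)) : wt23 (w ++ w') = wt23 w + wt23 w' := by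
  simp [wt23]

lemma ow_mul (w w' : List (Fin 2)) : ow k w * ow k w' = ow k (w ++ w') := by
  unfold ow
  rw [← map_mul]
  rfl

lemma HW_mul {m m' : ℕ} {X Y : AA k} (hX : X ∈ HW k m) (hY : Y ∈ HW k m') :
    X * Y ∈ HW k (m + m') := by
  refine Submodule.span_induction (p := fun a _ => a * Y ∈ HW k (m + m')) ?_ ?_ ?_ ?_ hX
  · rintro _ ⟨w, hw, rfl⟩
    refine Submodule.span_induction (p := fun b _ => ow k w * b ∈ HW k (m + m')) ?_ ?_ ?_ ?_ hY
    · rintro _ ⟨w', hw', rfl⟩
      exact Submodule.subset_span ⟨w ++ w', by rw [wt23_append, hw, hw'], ow_mul k w w'⟩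
    · rw [mul_zero]; exact Submodule.zero_mem _
    · intro a b _ _ ha hb; rw [mul_add]; exact Submodule.add_mem _ ha hb
    · intro c a _ ha; rw [mul_smul_comm]; exact Submodule.smul_mem _ _ ha
  · rw [zero_mul]; exact Submodule.zero_mem _
  · intro a b _ _ ha hb; rw [add_mul]; exact Submodule.add_mem _ ha hb
  · intro c a _ ha; rw [smul_mul_assoc]; exact Submodule.smul_mem _ _ ha

lemma HW_lie {m m' : ℕ} {X Y : AA k} (hX : X ∈ HW k m) (hY : Y ∈ HW k m') :
    ⁅X, Y⁆ ∈ HW k (m + m') := by
  rw [LieRing.of_associative_ring_bracket]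
  refine Submodule.sub_mem _ (HW_mul k hX hY) ?_
  rw [add_comm]
  exact HW_mul k hY hX

lemma HW_lt_zero : lt k 0 ∈ HW k 2 := Submodule.subset_span ⟨[0], by simp [wt23], rfl⟩

lemma HW_lt_one : lt k 1 ∈ HW k 3 := Submodule.subset_span ⟨[1], by simp [wt23], rfl⟩

lemma ow_coeff (w : List (Fin 2)) : (ow k w).coeff = Finsupp.single (FreeMonoid.ofList w) 1 := rfl

lemma HW_coeff {m : ℕ} {X : AA k} (hX : X ∈ HW k m) (w : List (Fin 2)) (hw : wt23 w ≠ m) :
    X.coeff (FreeMonoid.ofList w) = 0 := by
  classical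
  refine Submodule.span_induction
    (p := fun a _ => MonoidAlgebra.coeff a (FreeMonoid.ofList w) = 0) ?_ ?_ ?_ ?_ hX
  · rintro _ ⟨w', hw', rfl⟩
    rw [ow_coeff, Finsupp.single_apply, if_neg]
    intro h
    apply hw
    have : w' = w := FreeMonoid.ofList.injective h
    rw [← this, hw']
  · rfl
  · intro a b _ _ ha hb
    rw [MonoidAlgebra.coeff_add, Finsupp.add_apply, ha, hb, add_zero]
  · intro c a _ ha
    rw [MonoidAlgebra.coeff_smul, Finsupp.smul_apply, ha, smul_zero]

lemma HW_adBZ (i : ℕ) : adBZ k i ∈ HW k (2 * i + 3) := by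
  induction i with
  | zero => exact HW_lt_one k
  | succ i ih =>
    have := HW_lie k (HW_lt_zero k) ih
    rw [show 2 * (i + 1) + 3 = 2 + (2 * i + 3) by ring]
    exact this

/-- weight of a list of odd generators -/
def wtL (l : List ℕ) : ℕ := (l.map (fun i => 2 * i + 3)).sum

lemma wtL_cons (i : ℕ) (l : List ℕ) : wtL (i :: l) = 2 * i + 3 + wtL l := by simp [wtL]

lemma HW_br (l : List ℕ) : theta k (brF k l) ∈ HW k (wtL l) := by
  induction l with
  | nil => change theta k 0 ∈ _; rw [map_zero]; exact Submodule.zero_mem _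
  | cons i l ih =>
    cases l with
    | nil =>
      change theta k (letter k i) ∈ _
      rw [theta_letter]
      have := HW_adBZ k i
      simpa [wtL] using this
    | cons j l =>
      rw [brF_cons, theta_lie, theta_letter, wtL_cons]
      exact HW_lie k (HW_adBZ k i) ih

lemma finite_wtL (n : ℕ) : {l : List ℕ | wtL l = n}.Finite := by
  induction n using Nat.strong_induction_on with
  | _ n ih =>
    have h : {l : List ℕ | wtL l = n} ⊆
        {[]} ∪ ⋃ i ∈ Finset.range n, (fun l => i :: l) '' {l : List ℕ | wtL l = n - (2 * i + 3)} := by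
      intro l hl
      cases l with
      | nil => left; rfl
      | cons i l =>
        right
        change wtL (i :: l) = n at hl
        rw [wtL_cons] at hl
        simp only [Set.mem_iUnion]
        refine ⟨i, Finset.mem_range.2 (by omega), l, ?_, rfl⟩
        change wtL l = n - (2 * i + 3)
        omega
    refine Set.Finite.subset ?_ h
    refine Set.Finite.union (Set.finite_singleton _) ?_
    refine Set.Finite.biUnion (Finset.finite_toSet _) ?_
    intro i hi
    have hi' : i < n := by simpa using hi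
    exact Set.Finite.image _ (ih _ (by omega))

lemma elim_wt (n : ℕ) (hn : 3 ≤ n) (G : AA k) (hG : G ∈ LieP k (Fin 2))
    (hw : ∀ w, G.coeff (FreeMonoid.ofList w) ≠ 0 → wt23 w = n) :
    G ∈ Submodule.span k {X | ∃ l, wtL l = n ∧ X = theta k (brF k l)} := by
  classical
  obtain ⟨c, f, hf, hG'⟩ := elim k G hG
  obtain ⟨a, ha⟩ := (Finsupp.mem_span_range_iff_exists_finsupp).1 hf
  have hG2 : G = c • lt k 0 + ∑ l ∈ a.support, a l • theta k (brF k l) := by
    rw [hG', ← ha, Finsupp.sum, map_sum]
    simp only [map_smul]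
  have key : G = ∑ l ∈ a.support with wtL l = n, a l • theta k (brF k l) := by
    apply MonoidAlgebra.coeff_injective
    ext w
    obtain ⟨w, rfl⟩ := FreeMonoid.ofList.surjective w
    have hco : ∀ s : Finset (List ℕ),
        (∑ l ∈ s, a l • theta k (brF k l) : AA k).coeff (FreeMonoid.ofList w) =
        ∑ l ∈ s, a l * (theta k (brF k l)).coeff (FreeMonoid.ofList w) := by
      intro s
      rw [MonoidAlgebra.coeff_sum, Finsupp.finset_sum_apply]
      rfl
    by_cases hwn : wt23 w = n
    · rw [hco, hG2, MonoidAlgebra.coeff_add, Finsupp.add_apply, hco]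
      have h1 : (c • lt k 0 : AA k).coeff (FreeMonoid.ofList w) = 0 := by
        apply HW_coeff k (Submodule.smul_mem _ _ (HW_lt_zero k))
        omega
      rw [h1, zero_add, Finset.sum_filter]
      refine Finset.sum_congr rfl (fun l _ => ?_)
      split_ifs with h
      · rfl
      · rw [HW_coeff k (HW_br k l) w (by omega), mul_zero]
    · have h0 : G.coeff (FreeMonoid.ofList w) = 0 := by
        by_contra h
        exact hwn (hw w h)
      rw [h0, hco]
      symm
      refine Finset.sum_eq_zero (fun l hl => ?_)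
      have hl' := (Finset.mem_filter.1 hl).2
      rw [HW_coeff k (HW_br k l) w (by omega), mul_zero]
  rw [key]
  refine Submodule.sum_mem _ (fun l hl => Submodule.smul_mem _ _ (Submodule.subset_span ?_))
  exact ⟨l, (Finset.mem_filter.1 hl).2, rfl⟩

end Wt

/-! ### Integrality -/

section Int

lemma brF_int (k : Type v) [CommRing k] (l : List ℕ) (w : FreeMonoid ℕ) :
    (brF k l).coeff w = (((brF ℤ l).coeff w : ℤ) : k) := by
  have h : brF k l = MonoidAlgebra.mapRingHom (FreeMonoid ℕ) (Int.castRingHom k) (brF ℤ l) := by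
    have hlet : ∀ i : ℕ, MonoidAlgebra.mapRingHom (FreeMonoid ℕ) (Int.castRingHom k)
        (letter ℤ i) = letter k i := by
      intro i
      unfold letter
      ext w
      rw [MonoidAlgebra.coeff_mapRingHom, MonoidAlgebra.of_apply, MonoidAlgebra.of_apply,
        MonoidAlgebra.coeff_single, MonoidAlgebra.coeff_single]
      classical
      rw [Finsupp.single_apply, Finsupp.single_apply]
      split_ifs <;> simp
    induction l with
    | nil => change (0 : FA k ℕ) = MonoidAlgebra.mapRingHom _ _ (0 : FA ℤ ℕ); rw [map_zero]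
    | cons i l ih =>
      cases l with
      | nil => exact (hlet i).symm
      | cons j l =>
        rw [brF_cons, brF_cons, LieRing.of_associative_ring_bracket,
          LieRing.of_associative_ring_bracket, map_sub, map_mul, map_mul, hlet, ← ih]
  rw [h, MonoidAlgebra.coeff_mapRingHom]
  rfl

/-- A non-zero family of elements of a field of characteristic zero has a non-zero reduction. -/
lemma exists_red_fun {K : Type u} [Field K] [CharZero K] {κ : Type w} [Finite κ] (c : κ → K)
    (j0 : κ) (hj0 : c j0 ≠ 0) :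
    ∃ (M : Submodule ℤ K) (g : M →+ ZMod 2) (hM : ∀ j, c j ∈ M), ∃ j, g ⟨c j, hM j⟩ ≠ 0 := by
  classical
  set M : Submodule ℤ K := Submodule.span ℤ (Set.range c) with hMdef
  have hM : ∀ j, c j ∈ M := fun j => Submodule.subset_span ⟨j, rfl⟩
  have hfin : (Set.range c).Finite := Set.finite_range c
  haveI : Module.Finite ℤ M := Module.Finite.span_of_finite ℤ hfin
  haveI : Module.Free ℤ M := inferInstance
  haveI : Nontrivial M := ⟨⟨⟨c j0, hM j0⟩, 0, fun h => hj0 (congrArg Subtype.val h)⟩⟩
  let b := Module.Free.chooseBasis ℤ M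
  obtain ⟨i⟩ : Nonempty (Module.Free.ChooseBasisIndex ℤ M) := b.index_nonempty
  let g : M →+ ZMod 2 := (Int.castAddHom (ZMod 2)).comp (b.coord i).toAddMonoidHom
  refine ⟨M, g, hM, ?_⟩
  by_contra hcon
  push Not at hcon
  have h1 : ∀ (m : K) (hm : m ∈ M), g ⟨m, hm⟩ = 0 := by
    intro m hm
    refine Submodule.span_induction (p := fun a ha => g ⟨a, ha⟩ = 0) ?_ ?_ ?_ ?_ hm
    · rintro x ⟨w, rfl⟩
      exact hcon w
    · exact map_zero g
    · intro x y hx hy h3 h4
      have : (⟨x + y, M.add_mem hx hy⟩ : M) = ⟨x, hx⟩ + ⟨y, hy⟩ := rfl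
      change g (⟨x + y, M.add_mem hx hy⟩ : M) = 0
      rw [this, map_add, h3, h4, add_zero]
    · intro n x hx h3
      have : (⟨n • x, M.smul_mem n hx⟩ : M) = n • ⟨x, hx⟩ := rfl
      change g (⟨n • x, M.smul_mem n hx⟩ : M) = 0
      rw [this, map_zsmul, h3, smul_zero]
  have h2 := h1 (b i) (b i).2
  have h3 : g (b i) = 1 := by
    change ((b.coord i (b i) : ℤ) : ZMod 2) = 1
    rw [Module.Basis.coord_apply, Module.Basis.repr_self, Finsupp.single_eq_same]
    simp
  rw [show (⟨(b i : K), (b i).2⟩ : M) = b i from rfl, h3] at h2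
  exact one_ne_zero h2

/-- linear independence over a field of characteristic two implies linear independence over a
field of characteristic zero -/
lemma linInd_lift (K : Type u) [Field K] [CharZero K] (k : Type v) [Field k] (h2 : (2 : k) = 0)
    {κ : Type w} [Finite κ] (a : κ → List ℕ) (h : LinearIndependent k (fun j => brF k (a j))) :
    LinearIndependent K (fun j => brF K (a j)) := by
  classical
  haveI := Fintype.ofFinite κ
  haveI : CharP k 2 := CharTwo.of_one_ne_zero_of_two_eq_zero one_ne_zero h2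
  rw [Fintype.linearIndependent_iff]
  intro c hc
  by_contra hcon
  push Not at hcon
  obtain ⟨j0, hj0⟩ := hcon
  obtain ⟨M, g, hM, j, hj⟩ := exists_red_fun c j0 hj0
  apply hj
  have hrel : ∑ j, (ZMod.castHom (dvd_refl 2) k (g ⟨c j, hM j⟩)) • brF k (a j) = 0 := by
    apply MonoidAlgebra.coeff_injective
    ext w
    rw [MonoidAlgebra.coeff_sum, Finsupp.finset_sum_apply]
    have h1 : ∑ j, (((brF ℤ (a j)).coeff w : ℤ)) • (⟨c j, hM j⟩ : M) = 0 := by
      apply Subtype.ext
      rw [Submodule.coe_sum, Submodule.coe_zero]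
      have h4 := congrArg (fun X : FA K ℕ => X.coeff w) hc
      simp only [MonoidAlgebra.coeff_zero, Finsupp.zero_apply] at h4
      rw [MonoidAlgebra.coeff_sum, Finsupp.finset_sum_apply] at h4
      rw [← h4]
      refine Finset.sum_congr rfl (fun j _ => ?_)
      rw [MonoidAlgebra.coeff_smul, Finsupp.smul_apply, smul_eq_mul, brF_int K, Submodule.coe_smul,
        zsmul_eq_mul, mul_comm]
    have h5 := congrArg (fun x : M => ZMod.castHom (dvd_refl 2) k (g x)) h1
    simp only [map_zero, map_sum, map_zsmul] at h5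
    rw [MonoidAlgebra.coeff_zero, Finsupp.zero_apply, ← h5]
    refine Finset.sum_congr rfl (fun j _ => ?_)
    rw [MonoidAlgebra.coeff_smul, Finsupp.smul_apply, smul_eq_mul, brF_int k, zsmul_eq_mul,
      mul_comm]
  have h6 := Fintype.linearIndependent_iff.1 h _ hrel j
  exact (map_eq_zero_iff _ (RingHom.injective _)).1 h6

lemma map_rbr (K : Type u) [Field K] (l : List ℕ) :
    FreeLieAlgebra.lift K (letter K : ℕ → FA K ℕ) (rbr K l) = brF K l := by
  induction l with
  | nil => change FreeLieAlgebra.lift K _ 0 = 0; rw [map_zero]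
  | cons i l ih =>
    cases l with
    | nil =>
      change FreeLieAlgebra.lift K _ (FreeLieAlgebra.of K i) = letter K i
      rw [FreeLieAlgebra.lift_of_apply]
    | cons j l =>
      rw [brF_cons, ← ih]
      change FreeLieAlgebra.lift K _ ⁅FreeLieAlgebra.of K i, rbr K (j :: l)⁆ = _
      rw [LieHom.map_lie, FreeLieAlgebra.lift_of_apply]

end Int

/-! ### Pivots -/

section Piv

lemma pivots (k : Type v) [Field k] (d : ℕ) (W : Submodule k (AA k)) [FiniteDimensional k W]
    (hd : Module.finrank k W = d) :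
    ∃ S : Finset (List (Fin 2)), S.card ≤ d ∧
      ∀ G ∈ W, (∀ w ∈ S, G.coeff (FreeMonoid.ofList w) = 0) → G = 0 := by
  classical
  induction d using Nat.strong_induction_on generalizing W with
  | _ d ih =>
    by_cases hW : W = ⊥
    · refine ⟨∅, Nat.zero_le _, fun G hG _ => ?_⟩
      rw [hW] at hG
      exact (Submodule.mem_bot k).1 hG
    · obtain ⟨G0, hG0, hne⟩ := Submodule.exists_mem_ne_zero_of_ne_bot hW
      obtain ⟨w0, hw0⟩ : ∃ w : List (Fin 2), G0.coeff (FreeMonoid.ofList w) ≠ 0 := by
        by_contra h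
        push Not at h
        apply hne
        apply MonoidAlgebra.coeff_injective
        ext w
        obtain ⟨w, rfl⟩ := FreeMonoid.ofList.surjective w
        rw [h w]
        rfl
      let φ : AA k →ₗ[k] k :=
        { toFun := fun X => X.coeff (FreeMonoid.ofList w0)
          map_add' := fun X Y => rfl
          map_smul' := fun c X => rfl }
      let W' : Submodule k (AA k) := W ⊓ LinearMap.ker φ
      have hle : W' < W := by
        refine lt_of_le_of_ne inf_le_left ?_
        intro h
        have : G0 ∈ W' := by rw [h]; exact hG0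
        exact hw0 (LinearMap.mem_ker.1 this.2)
      haveI : FiniteDimensional k W' := Submodule.finiteDimensional_of_le hle.le
      have hlt : Module.finrank k W' < d := by
        rw [← hd]
        exact Submodule.finrank_lt_finrank_of_lt hle
      obtain ⟨S, hS, hS2⟩ := ih _ hlt W' rfl
      refine ⟨insert w0 S, ?_, ?_⟩
      · have := Finset.card_insert_le w0 S
        omega
      · intro G hG h
        apply hS2 G ⟨hG, ?_⟩
        · intro w hw
          exact h w (Finset.mem_insert_of_mem hw)
        · exact LinearMap.mem_ker.2 (h w0 (Finset.mem_insert_self _ _))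

end Piv

theorem exists_pivots (K : Type u) [Field K] [CharZero K] (k : Type v) [Field k]
    (h2 : (2 : k) = 0) (n : ℕ) (hn : 3 ≤ n) :
    ∃ S : Finset (List (Fin 2)), (S.card : Cardinal) ≤ Module.rank K (freeWt K n) ∧
      ∀ G : AA k, G ∈ LieP k (Fin 2) →
        (∀ w, G.coeff (FreeMonoid.ofList w) ≠ 0 → wt23 w = n) →
        (∀ w ∈ S, G.coeff (FreeMonoid.ofList w) = 0) → G = 0 := by
  classical
  let ι := {l : List ℕ // wtL l = n}
  haveI : Finite ι := (finite_wtL n).to_subtype
  obtain ⟨κ, a, ha, hsp, hli⟩ := exists_linearIndependent' k (fun i : ι => brF k i.1)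
  haveI : Finite κ := Finite.of_injective a ha
  haveI := Fintype.ofFinite κ
  -- independence in characteristic zero
  have hK : LinearIndependent K (fun j : κ => brF K (a j).1) :=
    linInd_lift K k h2 (fun j => (a j).1) hli
  have hK2 : LinearIndependent K (fun j : κ => rbr K (a j).1) := by
    let L : FreeLieAlgebra K ℕ →ₗ[K] FA K ℕ :=
      { toFun := fun x => FreeLieAlgebra.lift K (letter K : ℕ → FA K ℕ) x
        map_add' := fun x y => map_add _ x y
        map_smul' := fun c x => map_smul _ c x }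
    refine LinearIndependent.of_comp L ?_
    have he : (⇑L ∘ fun j : κ => rbr K (a j).1) = fun j : κ => brF K (a j).1 :=
      funext fun j => map_rbr K _
    rw [he]
    exact hK
  have hmem : ∀ j : κ, rbr K (a j).1 ∈ freeWt K n := fun j =>
    Submodule.subset_span ⟨(a j).1, (a j).2, rfl⟩
  have hK3 : LinearIndependent K (fun j : κ => (⟨rbr K (a j).1, hmem j⟩ : freeWt K n)) := by
    refine LinearIndependent.of_comp (freeWt K n).subtype ?_
    exact hK2
  have hcard : ((Fintype.card κ : ℕ) : Cardinal) ≤ Module.rank K (freeWt K n) := by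
    have := hK3.cardinal_lift_le_rank
    simpa using this
  -- the space of Lie polynomials of weight n
  let v : κ → AA k := fun j => theta k (brF k (a j).1)
  let W : Submodule k (AA k) := Submodule.span k (Set.range v)
  haveI : FiniteDimensional k W := FiniteDimensional.span_of_finite k (Set.finite_range v)
  obtain ⟨S, hS, hS2⟩ := pivots k _ W rfl
  have hWc : Module.finrank k W ≤ Fintype.card κ := finrank_range_le_card v
  refine ⟨S, le_trans (by exact_mod_cast hS.trans hWc) hcard, ?_⟩
  intro G hG hw hS3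
  apply hS2 G ?_ hS3
  have h3 := elim_wt k n hn G hG hw
  refine (Submodule.span_le.2 ?_) h3
  rintro _ ⟨l, hl, rfl⟩
  have h4 : brF k l ∈ Submodule.span k (Set.range ((fun i : ι => brF k i.1) ∘ a)) := by
    rw [hsp]
    exact Submodule.subset_span ⟨⟨l, hl⟩, rfl⟩
  have h5 : theta k (brF k l) ∈
      (Submodule.span k (Set.range ((fun i : ι => brF k i.1) ∘ a))).map (theta k).toLinearMap :=
    Submodule.mem_map_of_mem h4
  rw [Submodule.map_span] at h5
  refine Submodule.span_mono ?_ h5
  rintro _ ⟨_, ⟨j, rfl⟩, rfl⟩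
  exact ⟨j, rfl⟩

end MP446Z
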