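import Pool.Agent.Lib.MP_446dfa_ag.ddi.Reduce
import Pool.Agent.Lib.MP_446dfa_ag.ddi.Dim

set_option linter.all false

/-!
# The upper bound for the dimensions of `grt₁`
-/

noncomputable section

namespace MP446Z

open MP446 MP446Y

universe u v w

attribute [local instance 100] LieRing.ofAssociativeRing

section Bound

variable {K : Type u} [Field K] [CharZero K]

/-- an element of `grt₁` of weight `n` is determined by its coefficients at suitable words in
`xy`, `xxy` -/
theorem eq_zero_of_pivots {n : ℕ} (hn : 3 ≤ n) (S : Finset (List (Fin 2)))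
    (hS : ∀ G : AA (ZMod 2), G ∈ LieP (ZMod 2) (Fin 2) →
        (∀ w, G.coeff (FreeMonoid.ofList w) ≠ 0 → wt23 w = n) →
        (∀ w ∈ S, G.coeff (FreeMonoid.ofList w) = 0) → G = 0)
    (ψ : F2 K) (hψ : ψ ∈ grt K n) (h : ∀ w ∈ S, coef ψ (sub23 w) = 0) : ψ = 0 := by
  by_contra hne
  have hX : assoc K ψ ≠ 0 := fun h1 => hne (assoc_injective (by rw [h1, map_zero]))
  obtain ⟨M, g, hM, w0, hw0⟩ := exists_red (K := K) (assoc K ψ) hX
  let g' : M.toAddSubgroup →+ ZMod 2 :=
    g.comp (AddMonoidHom.mk' (fun x => (⟨x.1, x.2⟩ : M)) (fun _ _ => rfl))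
  have hM' : ∀ w, coef ψ w ∈ M.toAddSubgroup := fun w => hM (FreeMonoid.ofList w)
  let cb : FreeMonoid (Fin 2) →₀ ZMod 2 :=
    Finsupp.onFinset (assoc K ψ).coeff.support (fun w => g ⟨(assoc K ψ).coeff w, hM w⟩) (by
      intro w hw
      rw [Finsupp.mem_support_iff]
      intro h0
      apply hw
      have : (⟨(assoc K ψ).coeff w, hM w⟩ : M) = 0 := Subtype.ext h0
      rw [this, map_zero])
  obtain ⟨⟨G, hGL, hG⟩, hz, -⟩ := red_props (k := ZMod 2) (by decide) hn ψ hψ M.toAddSubgroup g' hM'
    (MonoidAlgebra.ofCoeff cb) (fun w => rfl)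
  have hcb : ∀ w, coef ψ w = 0 → cb (FreeMonoid.ofList w) = 0 := by
    intro w hw
    change g ⟨(assoc K ψ).coeff (FreeMonoid.ofList w), hM _⟩ = 0
    have : (⟨(assoc K ψ).coeff (FreeMonoid.ofList w), hM _⟩ : M) = 0 := Subtype.ext hw
    rw [this, map_zero]
  have hGc : ∀ w, G.coeff (FreeMonoid.ofList w) = cb (FreeMonoid.ofList (sub23 w)) := by
    intro w
    rw [← coeff_sub23, ← hG _ (gd_sub23 w)]
  have hG0 : G = 0 := by
    apply hS G hGL
    · intro w hw
      rw [hGc] at hw
      rw [← sub23_length]
      by_contra hl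
      exact hw (hcb _ (hψ.2 _ hl))
    · intro w hw
      rw [hGc]
      exact hcb _ (h w hw)
  have hH0 := hz (by
    intro Y hY
    rw [hG Y hY, hG0, map_zero]; simp)
  apply hw0
  have h8 := congrArg (fun X : AA (ZMod 2) => X.coeff w0) hH0
  exact h8

theorem rank_grt_le_of_three (n : ℕ) (hn : 3 ≤ n) :
    Module.rank K (grt K n) ≤ Module.rank K (freeWt K n) := by
  obtain ⟨S, hcard, hS⟩ := exists_pivots K (ZMod 2) (by decide) n hn
  refine le_trans ?_ hcard
  let f : grt K n →ₗ[K] (S → K) :=
    { toFun := fun ψ w => coef ψ.1 (sub23 w.1)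
      map_add' := fun ψ φ => by ext i; exact coef_add _ _ _
      map_smul' := fun c ψ => by ext i; exact coef_smul _ _ _ }
  have hf : Function.Injective f := by
    rw [← LinearMap.ker_eq_bot, LinearMap.ker_eq_bot']
    intro ψ hψ
    apply Subtype.ext
    refine eq_zero_of_pivots hn S hS ψ.1 ψ.2 ?_
    intro w hw
    exact congrFun hψ ⟨w, hw⟩
  have h := LinearMap.lift_rank_le_of_injective f hf
  rw [rank_fun'] at h
  simpa using h

/-- `grt₁` has no elements of weight `2` -/
theorem grt_two (ψ : F2 K) (hψ : ψ ∈ grt K 2) : ψ = 0 := by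
  have hdeg : ∀ w : List (Fin 2), w.length ≠ 2 → coef ψ w = 0 := hψ.2
  have hrel0 := lie_rel ψ 0
  have hrel1 := lie_rel ψ 1
  have h00 : coef ψ [0, 0] = 0 := by
    have := hrel0 [0] (by simp)
    simp only [insSum] at this
    change coef ψ [0, 0] + coef ψ [0, 0] = 0 at this
    rw [← two_mul, mul_eq_zero] at this
    rcases this with h | h
    · exact absurd h two_ne_zero
    · exact h
  have h11 : coef ψ [1, 1] = 0 := by
    have := hrel1 [1] (by simp)
    simp only [insSum] at this
    change coef ψ [1, 1] + coef ψ [1, 1] = 0 at this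
    rw [← two_mul, mul_eq_zero] at this
    rcases this with h | h
    · exact absurd h two_ne_zero
    · exact h
  have h01 : coef ψ [0, 1] + coef ψ [1, 0] = 0 := by
    have := hrel0 [1] (by simp)
    simp only [insSum] at this
    exact this
  have hψ2 : ψ = (coef ψ [0, 1]) • ⁅gA K, gB K⁆ := by
    apply assoc_injective
    rw [map_smul, LieHom.map_lie, assoc_gA, assoc_gB]
    apply AA_ext
    intro w
    change coef ψ w = _
    rw [LieRing.of_associative_ring_bracket, MonoidAlgebra.coeff_smul, Finsupp.smul_apply,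
      MonoidAlgebra.coeff_sub, Finsupp.sub_apply, lt, lt, ← ow_append, ← ow_append,
      MP446Y.ow_coeff, MP446Y.ow_coeff]
    by_cases hw : w.length = 2
    · obtain ⟨a, b, rfl⟩ := List.length_eq_two.1 hw
      fin_cases a <;> fin_cases b
      · simpa using h00
      · simp
      · simp
        exact eq_neg_of_add_eq_zero_right h01
      · simpa using h11
    · rw [hdeg w hw, if_neg (by rintro rfl; simp at hw), if_neg (by rintro rfl; simp at hw)]
      simp
  set c := coef ψ [0, 1] with hc
  have hex := hψ.1.hexagon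
  rw [hψ2, map_smul, LieHom.map_lie] at hex
  have e1 : ev (gA K) (gC K) (gA K) = gA K := by
    simp [ev, gA]
  have e2 : ev (gA K) (gC K) (gB K) = gC K := by
    simp [ev, gB]
  rw [e1, e2] at hex
  have h4 := congrArg (assoc K) hex
  simp only [map_add, map_smul, LieHom.map_lie, gC, map_sub, map_neg, assoc_gA, assoc_gB,
    LieRing.of_associative_ring_bracket, map_zero] at h4
  have e3 : ∀ x y : AA K, y * c • (x * y - y * x) - c • (x * y - y * x) * y +
      ((-x - y) * c • (x * (-x - y) - (-x - y) * x) - c • (x * (-x - y) - (-x - y) * x) * (-x - y)) =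
      c • (x * x * y - x * y * x - x * y * x + y * x * x + (y * x * y + y * x * y - y * y * x -
        x * y * y) + (y * x * y + y * x * y - y * y * x - x * y * y)) := by
    intro x y
    simp only [mul_smul_comm, smul_mul_assoc, ← smul_sub, ← smul_add]
    congr 1
    noncomm_ring
  rw [e3] at h4
  have h5 := congrArg (fun X : AA K => X.coeff (FreeMonoid.ofList [0, 0, 1])) h4
  simp only [lt, ← ow_append, List.cons_append, List.nil_append, MonoidAlgebra.coeff_smul,
    MonoidAlgebra.coeff_add, MonoidAlgebra.coeff_sub, Finsupp.smul_apply, Finsupp.add_apply,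
    Finsupp.sub_apply, MP446Y.ow_coeff] at h5
  simp at h5
  rw [hψ2, h5, zero_smul]

theorem rank_grt_le_freeWt (n : ℕ) :
    Module.rank K (grt K n) ≤ Module.rank K (freeWt K n) := by
  by_cases h3 : 3 ≤ n
  · exact rank_grt_le_of_three n h3
  · have hz : ∀ ψ : grt K n, ψ = 0 := by
      rintro ⟨ψ, hψ⟩
      apply Subtype.ext
      change ψ = 0
      have hn : n = 0 ∨ n = 1 ∨ n = 2 := by omega
      rcases hn with rfl | rfl | rfl
      · apply assoc_injective
        rw [map_zero]
        apply AA_ext
        intro w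
        change coef ψ w = _
        by_cases hw : w.length = 0
        · rw [List.length_eq_zero_iff.1 hw]
          exact assoc_coeff_nil ψ
        · rw [hψ.2 w hw]; rfl
      · have h := rank_grt_le (K := K) 1 le_rfl
        simp only [Nat.sub_self, Nat.fib_zero, Nat.cast_zero, nonpos_iff_eq_zero,
          rank_zero_iff] at h
        have := h.elim (⟨ψ, hψ⟩ : grt K 1) 0
        exact congrArg Subtype.val this
      · exact grt_two ψ hψ
    haveI : Subsingleton (grt K n) := ⟨fun a b => by rw [hz a, hz b]⟩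
    rw [rank_subsingleton']
    exact bot_le

end Bound

end MP446Z
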