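import Pool.Agent.Lib.MP_446dfa_ag.ddi.Defs

set_option linter.all false

/-!
# Every element of `grt₁` is a sum of homogeneous elements of `grt₁`
-/

noncomputable section

namespace MP446Z

open MP446 MP446Y

universe u v w

attribute [local instance 100] LieRing.ofAssociativeRing

section Scal

variable {K : Type u} [Field K]

lemma ev_A {L : Type u} [LieRing L] [LieAlgebra K L] (x y : L) : ev x y (gA K) = x := by
  unfold ev gA
  rw [FreeLieAlgebra.lift_of_apply]
  rfl

lemma ev_B {L : Type u} [LieRing L] [LieAlgebra K L] (x y : L) : ev x y (gB K) = y := by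
  unfold ev gB
  rw [FreeLieAlgebra.lift_of_apply]
  rfl

lemma F2_hom_ext {L : Type u} [LieRing L] [LieAlgebra K L] {f g : F2 K →ₗ⁅K⁆ L}
    (hA : f (gA K) = g (gA K)) (hB : f (gB K) = g (gB K)) : f = g := by
  apply FreeLieAlgebra.hom_ext
  intro i
  fin_cases i
  · exact hA
  · exact hB

/-- the scaling `A ↦ c A`, `B ↦ c B` -/
def scal (c : K) : F2 K →ₗ⁅K⁆ F2 K := ev (c • gA K) (c • gB K)

lemma ev_scal {L : Type u} [LieRing L] [LieAlgebra K L] (c : K) (x y : L) (ψ : F2 K) :
    ev x y (scal c ψ) = ev (c • x) (c • y) ψ := by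
  have h : (ev x y).comp (scal c) = ev (K := K) (c • x) (c • y) := by
    apply F2_hom_ext
    · simp only [LieHom.comp_apply, scal, ev_A, ev_B, map_smul]
    · simp only [LieHom.comp_apply, scal, ev_A, ev_B, map_smul]
  exact LieHom.congr_fun h ψ

lemma scal_ev (c : K) (x y : F2 K) (ψ : F2 K) :
    scal c (ev x y ψ) = ev (scal c x) (scal c y) ψ := by
  have h : (scal c).comp (ev x y) = ev (K := K) (scal c x) (scal c y) := by
    apply F2_hom_ext
    · simp only [LieHom.comp_apply, ev_A, ev_B]
    · simp only [LieHom.comp_apply, ev_A, ev_B]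
  exact LieHom.congr_fun h ψ

lemma scal_gA (c : K) : scal c (gA K) = c • gA K := ev_A _ _

lemma scal_gB (c : K) : scal c (gB K) = c • gB K := ev_B _ _

lemma scal_gC (c : K) : scal c (gC K) = c • gC K := by
  unfold gC
  rw [map_sub, map_neg, scal_gA, scal_gB, smul_sub, smul_neg]

lemma smul_infBraid {L : Type u} [LieRing L] [LieAlgebra K L] (c : K) {t : Fin 4 → Fin 4 → L}
    (h : InfBraid t) : InfBraid (fun i j => c • t i j) := by
  refine ⟨fun i j => ?_, fun i j k l h1 h2 h3 h4 h5 h6 => ?_, fun i j k h1 h2 h3 => ?_⟩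
  · simp only [h.symm i j]
  · simp only [lie_smul, smul_lie, h.comm i j k l h1 h2 h3 h4 h5 h6, smul_zero]
  · rw [← smul_add, lie_smul, smul_lie, h.rel i j k h1 h2 h3, smul_zero, smul_zero]

lemma isGRT_scal {ψ : F2 K} (h : IsGRT ψ) {c : K} (hc : c ≠ 0) : IsGRT (scal c ψ) := by
  refine ⟨?_, ?_, ?_, ?_⟩
  · rw [ev_scal, ← scal_gB, ← scal_gA, ← scal_ev, h.antisymm, map_neg]
  · rw [ev_scal, ev_scal, ← scal_gB, ← scal_gC, ← scal_gA, ← scal_ev, ← scal_ev, ← map_add,
      ← map_add, h.cycle, map_zero]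
  · have e := congrArg (scal c) h.hexagon
    rw [map_add, LieHom.map_lie, LieHom.map_lie, map_zero, scal_gB, scal_gC, smul_lie, smul_lie,
      ← smul_add, smul_eq_zero] at e
    rcases e with e | e
    · exact absurd e hc
    · rw [ev_scal, ← scal_gA, ← scal_gC, ← scal_ev]
      exact e
  · intro L _ _ t ht
    have e := h.pentagon L _ (smul_infBraid c ht)
    simp only [ev_scal, smul_add]
    exact e

variable (K) in
/-- `grt₁` as a subspace -/
def grtS : Submodule K (F2 K) where
  carrier := {ψ | IsGRT ψ}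
  add_mem' := by
    rintro ψ φ h1 h3
    refine ⟨?_, ?_, ?_, ?_⟩
    · rw [map_add, h1.antisymm, h3.antisymm, neg_add]
    · have := congrArg₂ (· + ·) h1.cycle h3.cycle
      simp only [add_zero] at this
      rw [← this, map_add, map_add]
      abel
    · have := congrArg₂ (· + ·) h1.hexagon h3.hexagon
      simp only [add_zero] at this
      rw [← this, map_add, lie_add, lie_add]
      abel
    · intro L _ _ t ht
      have e1 := h1.pentagon L t ht
      have e2 := h3.pentagon L t ht
      simp only [map_add]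
      rw [add_add_add_comm, e1, e2]
      abel
  zero_mem' := by
    refine ⟨?_, ?_, ?_, ?_⟩
    · simp
    · simp
    · simp
    · intro L _ _ t ht
      simp
  smul_mem' := by
    rintro c ψ h1
    refine ⟨?_, ?_, ?_, ?_⟩
    · rw [map_smul, h1.antisymm, smul_neg]
    · rw [map_smul, map_smul, ← smul_add, ← smul_add, h1.cycle, smul_zero]
    · rw [map_smul, lie_smul, lie_smul, ← smul_add, h1.hexagon, smul_zero]
    · intro L _ _ t ht
      simp only [map_smul]
      rw [← smul_add, h1.pentagon L t ht, smul_add, smul_add]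

lemma mem_grtS {ψ : F2 K} : ψ ∈ grtS K ↔ IsGRT ψ := Iff.rfl

variable (K) in
/-- the elements multiplied by `c ^ n` under the scaling by `c`, for all `c` -/
def homog (n : ℕ) : Submodule K (F2 K) where
  carrier := {ψ | ∀ c : K, scal c ψ = c ^ n • ψ}
  add_mem' := by
    intro a b ha hb c
    rw [map_add, ha c, hb c, smul_add]
  zero_mem' := by
    intro c
    rw [map_zero, smul_zero]
  smul_mem' := by
    intro d a ha c
    rw [map_smul, ha c, smul_comm]

lemma homog_lie {m n : ℕ} {x y : F2 K} (hx : x ∈ homog K m) (hy : y ∈ homog K n) :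
    ⁅x, y⁆ ∈ homog K (m + n) := by
  intro c
  rw [LieHom.map_lie, hx c, hy c, smul_lie, lie_smul, smul_smul, pow_add]

lemma mem_iSup_homog (ψ : F2 K) : ψ ∈ ⨆ n, homog K n := by
  induction ψ using F2_induction with
  | hA =>
    refine Submodule.mem_iSup_of_mem 1 ?_
    intro c
    rw [scal_gA, pow_one]
  | hB =>
    refine Submodule.mem_iSup_of_mem 1 ?_
    intro c
    rw [scal_gB, pow_one]
  | hadd x y hx hy => exact add_mem hx hy
  | hsmul c x hx => exact Submodule.smul_mem _ c hx
  | hlie x y hx hy =>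
    refine Submodule.iSup_induction _ (motive := fun x => ⁅x, y⁆ ∈ ⨆ n, homog K n) hx ?_ ?_ ?_
    · intro m x hx
      refine Submodule.iSup_induction _ (motive := fun y => ⁅x, y⁆ ∈ ⨆ n, homog K n) hy ?_ ?_ ?_
      · intro n y hy
        exact Submodule.mem_iSup_of_mem (m + n) (homog_lie hx hy)
      · rw [lie_zero]
        exact zero_mem _
      · intro a b ha hb
        rw [lie_add]
        exact add_mem ha hb
    · rw [zero_lie]
      exact zero_mem _
    · intro a b ha hb
      rw [add_lie]
      exact add_mem ha hb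

lemma coef_scal (c : K) (ψ : F2 K) (w : List (Fin 2)) :
    coef (scal c ψ) w = c ^ w.length * coef ψ w := by
  unfold coef
  have e1 : assoc K (scal c ψ) = EV (c • lt K 0) (c • lt K 1) (assoc K ψ) := by
    have h : assoc K (scal c ψ) = ev (c • lt K 0) (c • lt K 1) ψ := by
      have h2 : (assoc K).comp (scal c) =
          (ev (c • lt K 0) (c • lt K 1) : F2 K →ₗ⁅K⁆ AA K) := by
        apply F2_hom_ext
        · rw [LieHom.comp_apply, scal_gA, map_smul, assoc_gA, ev_A]
        · rw [LieHom.comp_apply, scal_gB, map_smul, assoc_gB, ev_B]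
      exact LieHom.congr_fun h2 ψ
    rw [h, ev_eq_EV]
  rw [e1]
  generalize assoc K ψ = X
  have key : ∀ Y : List (Fin 2), EV (c • lt K 0) (c • lt K 1) (ow K Y) = c ^ Y.length • ow K Y := by
    intro Y
    rw [EV_ow]
    induction Y with
    | nil => simp
    | cons i Y ih =>
      rw [List.map_cons, List.prod_cons, ih, ow_cons, List.length_cons, pow_succ', mul_smul_comm]
      have hi : (![c • lt K 0, c • lt K 1] : Fin 2 → AA K) i = c • lt K i := by
        fin_cases i <;> rfl
      rw [hi, smul_mul_assoc, smul_smul, mul_comm]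
  induction X using MonoidAlgebra.induction_linear with
  | zero => simp
  | add f g hf hg =>
    rw [map_add, MonoidAlgebra.coeff_add, Finsupp.add_apply, hf, hg, MonoidAlgebra.coeff_add,
      Finsupp.add_apply, mul_add]
  | single v a =>
    rw [single_eq, map_smul, key, MonoidAlgebra.coeff_smul, Finsupp.smul_apply,
      MonoidAlgebra.coeff_smul, Finsupp.smul_apply, MonoidAlgebra.coeff_smul, Finsupp.smul_apply,
      ow_coeff]
    simp only [smul_eq_mul]
    by_cases h : FreeMonoid.toList v = w
    · rw [if_pos h, h]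
      ring
    · rw [if_neg h]
      ring

variable [CharZero K]

lemma two_pow_ne {m n : ℕ} (h : m ≠ n) : (2 : K) ^ m - 2 ^ n ≠ 0 := by
  intro e
  have e2 : ((2 ^ m : ℕ) : K) = ((2 ^ n : ℕ) : K) := by
    push_cast
    exact sub_eq_zero.1 e
  exact h (Nat.pow_right_injective (le_refl 2) (Nat.cast_injective e2))

lemma homog_coef {n : ℕ} {ψ : F2 K} (h : ψ ∈ homog K n) (w : List (Fin 2)) (hw : w.length ≠ n) :
    coef ψ w = 0 := by
  have e := coef_scal (2 : K) ψ w
  rw [h 2, coef_smul] at e
  have e2 : ((2 : K) ^ w.length - 2 ^ n) * coef ψ w = 0 := by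
    rw [sub_mul, e, sub_self]
  rcases mul_eq_zero.1 e2 with e3 | e3
  · exact absurd e3 (two_pow_ne hw)
  · exact e3

lemma mem_of_sum {V : Type*} [AddCommGroup V] [Module K V] (T : V →ₗ[K] V) (W : Submodule K V)
    (hW : ∀ x ∈ W, T x ∈ W) (s : Finset ℕ) (v : ℕ → V) (hv : ∀ m, T (v m) = (2 : K) ^ m • v m)
    (h : ∑ m ∈ s, v m ∈ W) : ∀ m ∈ s, v m ∈ W := by
  induction s using Finset.induction_on generalizing v with
  | empty => intro m hm; simp at hm
  | insert a s ha ih =>
    have h1 : ∑ m ∈ s, ((2 : K) ^ m - 2 ^ a) • v m ∈ W := by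
      have h2 : T (∑ m ∈ insert a s, v m) - (2 : K) ^ a • ∑ m ∈ insert a s, v m ∈ W :=
        sub_mem (hW _ h) (Submodule.smul_mem _ _ h)
      have h3 : T (∑ m ∈ insert a s, v m) - (2 : K) ^ a • ∑ m ∈ insert a s, v m =
          ∑ m ∈ s, ((2 : K) ^ m - 2 ^ a) • v m := by
        rw [Finset.sum_insert ha, map_add, map_sum, smul_add, hv, Finset.smul_sum,
          add_sub_add_left_eq_sub, ← Finset.sum_sub_distrib]
        apply Finset.sum_congr rfl
        intro m _
        rw [hv, sub_smul]
      rw [← h3]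
      exact h2
    have h4 := ih (fun m => ((2 : K) ^ m - 2 ^ a) • v m)
      (fun m => by rw [map_smul, hv, smul_comm]) h1
    have h5 : ∀ m ∈ s, v m ∈ W := by
      intro m hm
      have hne : m ≠ a := fun e => ha (e ▸ hm)
      exact (Submodule.smul_mem_iff W (two_pow_ne hne)).1 (h4 m hm)
    intro m hm
    rcases Finset.mem_insert.1 hm with rfl | hm
    · rw [Finset.sum_insert ha] at h
      exact (Submodule.add_mem_iff_left W (Submodule.sum_mem W h5)).1 h
    · exact h5 m hm

/-- Every element of `grt₁` is a sum of homogeneous elements of `grt₁`. -/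
theorem grt_decomp (ψ : F2 K) (h : IsGRT ψ) :
    ∃ (N : ℕ) (f : ℕ → F2 K), (∀ n, f n ∈ grt K n) ∧ ψ = ∑ n ∈ Finset.range N, f n := by
  obtain ⟨f, hf, hsum⟩ := (Submodule.mem_iSup_iff_exists_finsupp _ _).1 (mem_iSup_homog ψ)
  have hs : ∑ m ∈ f.support, f m ∈ grtS K := by
    have : f.sum (fun _ x => x) = ∑ m ∈ f.support, f m := rfl
    rw [← this, hsum]
    exact h
  have h1 := mem_of_sum ((scal (2 : K) : F2 K →ₗ⁅K⁆ F2 K) : F2 K →ₗ[K] F2 K) (grtS K)
    (fun x hx => isGRT_scal hx two_ne_zero) f.support f (fun m => hf m 2) hs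
  have h2 : ∀ m, f m ∈ grtS K := by
    intro m
    by_cases hm : m ∈ f.support
    · exact h1 m hm
    · rw [Finsupp.notMem_support_iff.1 hm]
      exact zero_mem _
  refine ⟨f.support.sup id + 1, f, fun n => ⟨h2 n, fun w hw => homog_coef (hf n) w hw⟩, ?_⟩
  rw [← hsum]
  change ∑ m ∈ f.support, f m = _
  apply Finset.sum_subset
  · intro m hm
    rw [Finset.mem_range]
    have : m ≤ f.support.sup id := Finset.le_sup (f := id) hm
    omega
  · intro m _ hm
    exact Finsupp.notMem_support_iff.1 hm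

end Scal

end MP446Z
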