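import Pool.Agent.Lib.MP_446dfa_ag.ddi.FAlg

set_option linter.all false

/-!
# Transfer of the pentagon relation to arbitrary coefficients

The five term relation for all families satisfying the relations of the enveloping algebra of
`𝔭₅`, over any commutative ring, is deduced from the pentagon relation in characteristic zero.
-/

noncomputable section

namespace MP446Z.Tr

open MP446 MP446Y

universe u v w

attribute [local instance 100] LieRing.ofAssociativeRing

/-- Six relations from which all the infinitesimal braid relations follow. -/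
structure Six {R : Type*} [Ring R] (X U B A C : R) : Prop where
  ax : A * X = X * A
  ab : A * B = B * A
  au : A * U - U * A = U * X - X * U
  cx : C * X - X * C = U * B - B * U
  cu : C * U - U * C = U * B - B * U
  cb : C * B - B * C = -(U * B - B * U)

/-- The family of elements. -/
def fam {R : Type*} [Ring R] (X U B A C : R) : Fin 4 → Fin 4 → R :=
  ![![0, A, X - U, -(A + C + X + B)], ![A, 0, U, C],
    ![X - U, U, 0, B], ![-(A + C + X + B), C, B, 0]]

section
variable {R : Type*} [Ring R] {X U B A C : R}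

lemma Six.r2 (h : Six X U B A C) : (X - U) * C = C * (X - U) := by
  linear_combination (norm := noncomm_ring) h.cu - h.cx

lemma Six.r3 (h : Six X U B A C) : -(A + C + X + B) * U = U * -(A + C + X + B) := by
  linear_combination (norm := noncomm_ring) -h.au - h.cu

lemma Six.s1 (h : Six X U B A C) : A * ((X - U) + U) = ((X - U) + U) * A := by
  linear_combination (norm := noncomm_ring) h.ax
lemma Six.s2 (h : Six X U B A C) : A * (-(A + C + X + B) + C) = (-(A + C + X + B) + C) * A := by
  linear_combination (norm := noncomm_ring) - h.ax - h.ab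
lemma Six.s3 (h : Six X U B A C) : (X - U) * (A + U) = (A + U) * (X - U) := by
  linear_combination (norm := noncomm_ring) - h.ax + h.au
lemma Six.s4 (h : Six X U B A C) : (X - U) * (-(A + C + X + B) + B) = (-(A + C + X + B) + B) * (X - U) := by
  linear_combination (norm := noncomm_ring) h.ax - h.au + h.cx - h.cu
lemma Six.s5 (h : Six X U B A C) : -(A + C + X + B) * (A + C) = (A + C) * -(A + C + X + B) := by
  linear_combination (norm := noncomm_ring) h.ax + h.ab + h.cx + h.cb
lemma Six.s6 (h : Six X U B A C) : -(A + C + X + B) * ((X - U) + B) = ((X - U) + B) * -(A + C + X + B) := by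
  linear_combination (norm := noncomm_ring) -h.ax - h.ab + h.au - h.cx + h.cu - h.cb
lemma Six.s7 (h : Six X U B A C) : U * (A + (X - U)) = (A + (X - U)) * U := by
  linear_combination (norm := noncomm_ring) - h.au
lemma Six.s8 (h : Six X U B A C) : U * (C + B) = (C + B) * U := by
  linear_combination (norm := noncomm_ring) - h.cu
lemma Six.s9 (h : Six X U B A C) : C * (A + -(A + C + X + B)) = (A + -(A + C + X + B)) * C := by
  linear_combination (norm := noncomm_ring) - h.cx - h.cb
lemma Six.s10 (h : Six X U B A C) : C * (U + B) = (U + B) * C := by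
  linear_combination (norm := noncomm_ring) h.cu + h.cb
lemma Six.s11 (h : Six X U B A C) : B * ((X - U) + -(A + C + X + B)) = ((X - U) + -(A + C + X + B)) * B := by
  linear_combination (norm := noncomm_ring) h.ab + h.cb
lemma Six.s12 (h : Six X U B A C) : B * (U + C) = (U + C) * B := by
  linear_combination (norm := noncomm_ring) - h.cb

lemma Six.braid (h : Six X U B A C) : InfBraid (fam X U B A C) where
  symm := by
    intro i j
    fin_cases i <;> fin_cases j <;> rfl
  comm := by
    intro i j l m h1 h2 h3 h4 h5 h6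
    apply lie0
    fin_cases i <;> fin_cases j <;> try (exact absurd rfl h1)
    all_goals fin_cases l <;> try (exact absurd rfl h2)
    all_goals try (exact absurd rfl h4)
    all_goals fin_cases m <;> try (exact absurd rfl h3)
    all_goals try (exact absurd rfl h5)
    all_goals try (exact absurd rfl h6)
    all_goals first | exact h.ab | exact h.ab.symm | exact h.r2 | exact h.r2.symm | exact h.r3 | exact h.r3.symm
  rel := by
    intro i j l h1 h2 h4
    apply lie0
    fin_cases i <;> fin_cases j <;> try (exact absurd rfl h1)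
    all_goals fin_cases l <;> try (exact absurd rfl h2)
    all_goals try (exact absurd rfl h4)
    all_goals first | exact h.s1 | exact h.s2 | exact h.s3 | exact h.s4 | exact h.s5 | exact h.s6 | exact h.s7 | exact h.s8 | exact h.s9 | exact h.s10 | exact h.s11 | exact h.s12 | (rw [add_comm]; first | exact h.s1 | exact h.s2 | exact h.s3 | exact h.s4 | exact h.s5 | exact h.s6 | exact h.s7 | exact h.s8 | exact h.s9 | exact h.s10 | exact h.s11 | exact h.s12)

end

section Lie

variable {K : Type u} [Field K] {L : Type u} [LieRing L] [LieAlgebra K L]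

lemma ev_gA (p q : L) : ev p q (gA K) = p := by
  unfold ev gA
  rw [FreeLieAlgebra.lift_of_apply]
  rfl

lemma ev_gB (p q : L) : ev p q (gB K) = q := by
  unfold ev gB
  rw [FreeLieAlgebra.lift_of_apply]
  rfl

lemma ev_comm (p q c : L) (h1 : ⁅p, c⁆ = 0) (h2 : ⁅q, c⁆ = 0) (φ : F2 K) : ⁅ev p q φ, c⁆ = 0 := by
  induction φ using F2_induction with
  | hA => rw [ev_gA, h1]
  | hB => rw [ev_gB, h2]
  | hadd a b ha hb => rw [map_add, add_lie, ha, hb, add_zero]
  | hsmul r a ha => rw [map_smul, smul_lie, ha, smul_zero]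
  | hlie a b ha hb =>
    rw [LieHom.map_lie, lie_lie, ha, hb, lie_zero, lie_zero, sub_zero]

lemma shift_aux (p q z z' : L) (h1 : ⁅p, z⁆ = 0) (h2 : ⁅q, z⁆ = 0) (h3 : ⁅p, z'⁆ = 0)
    (h4 : ⁅q, z'⁆ = 0) (h5 : ⁅z, z'⁆ = 0) (φ : F2 K) : ∃ α : Fin 2 → K,
    (∀ l, Dl K l (assoc K φ) = α l • 1) ∧
      ev (p + z) (q + z') φ = ev p q φ + (α 0 • z + α 1 • z') := by
  induction φ using F2_induction with
  | hA =>
    refine ⟨![1, 0], fun l => ?_, ?_⟩
    · rw [assoc_gA, lt, Dl_ow]
      fin_cases l <;> simp [del]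
    · rw [ev_gA, ev_gA]; simp
  | hB =>
    refine ⟨![0, 1], fun l => ?_, ?_⟩
    · rw [assoc_gB, lt, Dl_ow]
      fin_cases l <;> simp [del]
    · rw [ev_gB, ev_gB]; simp
  | hadd a b ha hb =>
    obtain ⟨α, ha1, ha2⟩ := ha
    obtain ⟨β, hb1, hb2⟩ := hb
    refine ⟨α + β, fun l => ?_, ?_⟩
    · rw [map_add, map_add, ha1, hb1, Pi.add_apply, add_smul]
    · rw [map_add, map_add, ha2, hb2, Pi.add_apply, Pi.add_apply, add_smul, add_smul]; abel
  | hsmul c a ha =>
    obtain ⟨α, ha1, ha2⟩ := ha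
    refine ⟨c • α, fun l => ?_, ?_⟩
    · rw [map_smul, map_smul, ha1, Pi.smul_apply, smul_assoc]
    · rw [map_smul, map_smul, ha2, Pi.smul_apply, Pi.smul_apply, smul_add, smul_add, smul_assoc,
        smul_assoc]
  | hlie a b ha hb =>
    obtain ⟨α, ha1, ha2⟩ := ha
    obtain ⟨β, hb1, hb2⟩ := hb
    refine ⟨0, fun l => ?_, ?_⟩
    · rw [LieHom.map_lie, LieRing.of_associative_ring_bracket, map_sub, Dl_mul, Dl_mul, ha1, hb1]
      simp only [smul_mul_assoc, mul_smul_comm, one_mul, mul_one, Pi.zero_apply, zero_smul]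
      abel
    · rw [LieHom.map_lie, LieHom.map_lie, ha2, hb2]
      have e1 : ⁅ev p q a, z⁆ = 0 := ev_comm p q z h1 h2 a
      have e2 : ⁅ev p q a, z'⁆ = 0 := ev_comm p q z' h3 h4 a
      have e3 : ⁅ev p q b, z⁆ = 0 := ev_comm p q z h1 h2 b
      have e4 : ⁅ev p q b, z'⁆ = 0 := ev_comm p q z' h3 h4 b
      have e5 : ⁅z, ev p q b⁆ = 0 := by rw [← lie_skew, e3, neg_zero]
      have e6 : ⁅z', ev p q b⁆ = 0 := by rw [← lie_skew, e4, neg_zero]
      have e7 : ⁅z', z⁆ = 0 := by rw [← lie_skew, h5, neg_zero]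
      simp only [add_lie, lie_add, smul_lie, lie_smul, e1, e2, e3, e4, e5, e6, e7, h5, lie_self,
        smul_zero, add_zero, Pi.zero_apply, zero_smul]

lemma ev_shift (ψ : F2 K) (h0 : coef ψ [0] = 0) (h1 : coef ψ [1] = 0) (p q z z' : L)
    (h1' : ⁅p, z⁆ = 0) (h2 : ⁅q, z⁆ = 0) (h3 : ⁅p, z'⁆ = 0)
    (h4 : ⁅q, z'⁆ = 0) (h5 : ⁅z, z'⁆ = 0) : ev (p + z) (q + z') ψ = ev p q ψ := by
  obtain ⟨α, ha, hb⟩ := shift_aux p q z z' h1' h2 h3 h4 h5 ψ
  have key : ∀ l, α l = coef ψ [l] := by
    intro l
    have := coeff_Dl (k := K) l (assoc K ψ) []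
    rw [ha l] at this
    simp only [insSum] at this
    rw [coef, ← this, MonoidAlgebra.coeff_smul, Finsupp.smul_apply, ← ow_nil, ow_coeff,
      if_pos rfl, smul_eq_mul, mul_one]
  rw [hb, key, key, h0, h1]
  simp

lemma ev_swap (ψ : F2 K) (hanti : ev (gB K) (gA K) ψ = -ψ) (p q : L) :
    ev q p ψ = - ev p q ψ := by
  have h : (ev p q).comp (ev (gB K) (gA K)) = (ev q p : F2 K →ₗ⁅K⁆ L) := by
    apply FreeLieAlgebra.hom_ext
    intro i
    fin_cases i
    · change ev p q (ev (gB K) (gA K) (gA K)) = ev q p (gA K)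
      rw [ev_gA, ev_gB, ev_gA]
    · change ev p q (ev (gB K) (gA K) (gB K)) = ev q p (gB K)
      rw [ev_gB, ev_gA, ev_gB]
  have h2 := LieHom.congr_fun h ψ
  rw [← h2, LieHom.comp_apply, hanti, map_neg]

end Lie

section Cyc

variable {K : Type u} [Field K]

lemma cyc_sum (ψ : F2 K) (hpent : Pentagon ψ) (hanti : ev (gB K) (gA K) ψ = -ψ)
    (h0 : coef ψ [0] = 0) (h1 : coef ψ [1] = 0) {R : Type u} [Ring R] [Algebra K R]
    {X U B A C : R} (h : Six X U B A C) :
    EV A U (assoc K ψ) + EV U B (assoc K ψ) + EV B (X + A) (assoc K ψ) +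
      EV (X + A) (C + U + B) (assoc K ψ) + EV (C + U + B) A (assoc K ψ) = 0 := by
  have hp := hpent R (fam X U B A C) h.braid
  have e1 : ev A (U + C) ψ = - ev (C + U + B) A ψ := by
    have := ev_shift ψ h0 h1 A (C + U + B) 0 (-B) (by simp) (by simp)
      (by rw [lie_neg, lie0 h.ab, neg_zero])
      (by
        rw [lie_neg, neg_eq_zero]
        apply lie0
        linear_combination (norm := noncomm_ring) h.cb)
      (by simp)
    rw [add_zero] at this
    rw [show U + C = C + U + B + -B by abel, this, ev_swap ψ hanti]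
  have e2 : ev (X - U + U) B ψ = - ev B (X + A) ψ := by
    have := ev_shift ψ h0 h1 (X + A) B (-A) 0
      (by
        rw [lie_neg, neg_eq_zero]
        apply lie0
        linear_combination (norm := noncomm_ring) -h.ax)
      (by rw [lie_neg, lie0 h.ab.symm, neg_zero])
      (by simp) (by simp) (by simp)
    rw [add_zero] at this
    rw [show X - U + U = X + A + -A by abel, this, ev_swap ψ hanti]
  have e3 : ev (A + (X - U)) (C + B) ψ = ev (X + A) (C + U + B) ψ := by
    have := ev_shift ψ h0 h1 (X + A) (C + U + B) (-U) (-U)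
      (by
        rw [lie_neg, neg_eq_zero]
        apply lie0
        linear_combination (norm := noncomm_ring) h.au)
      (by
        rw [lie_neg, neg_eq_zero]
        apply lie0
        linear_combination (norm := noncomm_ring) h.cu)
      (by
        rw [lie_neg, neg_eq_zero]
        apply lie0
        linear_combination (norm := noncomm_ring) h.au)
      (by
        rw [lie_neg, neg_eq_zero]
        apply lie0
        linear_combination (norm := noncomm_ring) h.cu)
      (by simp)
    rw [← this]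
    congr 2 <;> abel
  change ev A (U + C) ψ + ev (X - U + U) B ψ = ev U B ψ + ev (A + (X - U)) (C + B) ψ +
    ev A U ψ at hp
  rw [e1, e2, e3] at hp
  simp only [← ev_eq_EV]
  linear_combination (norm := abel) -hp

end Cyc

open TensorProduct

section Univ

variable (Z : Type) [CommRing Z]

/-- the universal module -/
abbrev NN : Type := (FA Z (Fin 3)) ⊗[Z] (FA Z (Fin 2))

/-- operators on the first factor -/
def oR : Module.End Z (FA Z (Fin 3)) →ₐ[Z] Module.End Z (NN Z) :=
  Module.End.rTensorAlgHom Z (FA Z (Fin 3)) (FA Z (Fin 2))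

/-- operators on the second factor -/
def oQ : Module.End Z (FA Z (Fin 2)) →ₐ[Z] Module.End Z (NN Z) :=
  Module.End.lTensorAlgHom Z (FA Z (Fin 2)) (FA Z (Fin 3))

lemma oR_tmul (f : Module.End Z (FA Z (Fin 3))) (r : FA Z (Fin 3)) (v : FA Z (Fin 2)) :
    oR Z f (r ⊗ₜ[Z] v) = (f r) ⊗ₜ[Z] v := rfl

lemma oQ_tmul (f : Module.End Z (FA Z (Fin 2))) (r : FA Z (Fin 3)) (v : FA Z (Fin 2)) :
    oQ Z f (r ⊗ₜ[Z] v) = r ⊗ₜ[Z] (f v) := rfl

lemma oR_oQ (f : Module.End Z (FA Z (Fin 3))) (g : Module.End Z (FA Z (Fin 2))) :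
    oR Z f * oQ Z g = oQ Z g * oR Z f := by
  apply TensorProduct.ext'
  intro r v
  rfl

/-- left multiplication -/
def lm {A : Type} : FA Z A →ₐ[Z] Module.End Z (FA Z A) := Algebra.lmul Z (FA Z A)

@[simp] lemma lm_apply {A : Type} (r s : FA Z A) : lm Z r s = r * s := rfl

lemma der_lm {A : Type} (d : A → FA Z A) (r : FA Z A) :
    (derF d : Module.End Z (FA Z A)) * lm Z r = lm Z r * derF d + lm Z (derF d r) := by
  apply LinearMap.ext
  intro s
  rw [Module.End.mul_apply, LinearMap.add_apply, Module.End.mul_apply, lm_apply, lm_apply,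
    lm_apply, derF_mul]

/-- values of the derivation `a` -/
def dA3 : Fin 3 → FA Z (Fin 3) :=
  ![0, letter Z 1 * letter Z 0 - letter Z 0 * letter Z 1, 0]

/-- values of the derivation `c` -/
def dC3 : Fin 3 → FA Z (Fin 3) :=
  ![letter Z 1 * letter Z 2 - letter Z 2 * letter Z 1,
    letter Z 1 * letter Z 2 - letter Z 2 * letter Z 1,
    -(letter Z 1 * letter Z 2 - letter Z 2 * letter Z 1)]

/-- the operators -/
def uX : Module.End Z (NN Z) := oR Z (lm Z (letter Z 0))
/-- the operators -/
def uU : Module.End Z (NN Z) := oR Z (lm Z (letter Z 1))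
/-- the operators -/
def uB : Module.End Z (NN Z) := oR Z (lm Z (letter Z 2))
/-- the operators -/
def uA : Module.End Z (NN Z) := oR Z (derF (dA3 Z)) + oQ Z (lm Z (letter Z 0))
/-- the operators -/
def uC : Module.End Z (NN Z) := oR Z (derF (dC3 Z)) + oQ Z (lm Z (letter Z 1))

lemma comm_gen (d : Fin 3 → FA Z (Fin 3)) (i : Fin 3) (g : Module.End Z (FA Z (Fin 2))) :
    (oR Z (derF d) + oQ Z g) * oR Z (lm Z (letter Z i)) -
      oR Z (lm Z (letter Z i)) * (oR Z (derF d) + oQ Z g) = oR Z (lm Z (d i)) := by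
  have h1 := der_lm Z d (letter Z i)
  rw [derF_letter] at h1
  have h2 : oR Z (derF d) * oR Z (lm Z (letter Z i)) =
      oR Z (lm Z (letter Z i)) * oR Z (derF d) + oR Z (lm Z (d i)) := by
    rw [← map_mul, h1, map_add, map_mul]
  have h3 := oR_oQ Z (lm Z (letter Z i)) g
  rw [add_mul, mul_add, h2, h3]
  abel

lemma uSix : Six (uX Z) (uU Z) (uB Z) (uA Z) (uC Z) where
  ax := by
    have := comm_gen Z (dA3 Z) 0 (lm Z (letter Z 0))
    rw [← sub_eq_zero]
    refine this.trans ?_
    change oR Z (lm Z 0) = 0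
    rw [map_zero, map_zero]
  ab := by
    have := comm_gen Z (dA3 Z) 2 (lm Z (letter Z 0))
    rw [← sub_eq_zero]
    refine this.trans ?_
    change oR Z (lm Z 0) = 0
    rw [map_zero, map_zero]
  au := by
    refine (comm_gen Z (dA3 Z) 1 (lm Z (letter Z 0))).trans ?_
    change oR Z (lm Z (letter Z 1 * letter Z 0 - letter Z 0 * letter Z 1)) = _
    rw [map_sub, map_mul, map_mul, map_sub, map_mul, map_mul]
    rfl
  cx := by
    refine (comm_gen Z (dC3 Z) 0 (lm Z (letter Z 1))).trans ?_
    change oR Z (lm Z (letter Z 1 * letter Z 2 - letter Z 2 * letter Z 1)) = _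
    rw [map_sub, map_mul, map_mul, map_sub, map_mul, map_mul]
    rfl
  cu := by
    refine (comm_gen Z (dC3 Z) 1 (lm Z (letter Z 1))).trans ?_
    change oR Z (lm Z (letter Z 1 * letter Z 2 - letter Z 2 * letter Z 1)) = _
    rw [map_sub, map_mul, map_mul, map_sub, map_mul, map_mul]
    rfl
  cb := by
    refine (comm_gen Z (dC3 Z) 2 (lm Z (letter Z 1))).trans ?_
    change oR Z (lm Z (-(letter Z 1 * letter Z 2 - letter Z 2 * letter Z 1))) = _
    rw [map_neg, map_sub, map_mul, map_mul, map_neg, map_sub, map_mul, map_mul]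
    rfl

end Univ

section Phi

variable {Z : Type} [CommRing Z] {E : Type v} [Ring E] [Algebra Z E] {X U B A C : E}

variable (Z X U B A C) in
/-- the map from the universal module -/
def phi : NN Z →ₗ[Z] E :=
  (LinearMap.mul' Z E) ∘ₗ TensorProduct.map (EVn (k := Z) ![X, U, B]).toLinearMap
    (EVn (k := Z) ![A, C]).toLinearMap

lemma phi_tmul (r : FA Z (Fin 3)) (v : FA Z (Fin 2)) :
    phi Z X U B A C (r ⊗ₜ[Z] v) = EVn ![X, U, B] r * EVn ![A, C] v := rfl

variable (Z X U B A C) in
/-- intertwining relation -/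
def Itw (T : Module.End Z (NN Z)) (t : E) : Prop :=
  ∀ n, phi Z X U B A C (T n) = t * phi Z X U B A C n

lemma Itw.add {T T' : Module.End Z (NN Z)} {t t' : E} (h : Itw Z X U B A C T t)
    (h' : Itw Z X U B A C T' t') : Itw Z X U B A C (T + T') (t + t') := by
  intro n
  rw [LinearMap.add_apply, map_add, h, h', add_mul]

lemma Itw.mul {T T' : Module.End Z (NN Z)} {t t' : E} (h : Itw Z X U B A C T t)
    (h' : Itw Z X U B A C T' t') : Itw Z X U B A C (T * T') (t * t') := by
  intro n
  rw [Module.End.mul_apply, h, h', mul_assoc]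

lemma Itw.one : Itw Z X U B A C 1 1 := by
  intro n
  rw [Module.End.one_apply, one_mul]

lemma Itw.evw {P Q : Module.End Z (NN Z)} {p q : E} (h : Itw Z X U B A C P p)
    (h' : Itw Z X U B A C Q q) (w : FreeMonoid (Fin 2)) :
    Itw Z X U B A C (MP446Y.evw P Q w) (MP446Y.evw p q w) := by
  induction w using FreeMonoid.inductionOn' with
  | one => rw [map_one, map_one]; exact Itw.one
  | of_mul i w ih =>
    rw [map_mul, map_mul]
    refine Itw.mul ?_ ih
    fin_cases i
    · exact h
    · exact h'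

lemma itw_L (i : Fin 3) : Itw Z X U B A C (oR Z (lm Z (letter Z i))) (![X, U, B] i) := by
  intro n
  induction n using TensorProduct.induction_on with
  | zero => simp
  | tmul r v =>
    rw [oR_tmul, phi_tmul, phi_tmul]
    change EVn ![X, U, B] (letter Z i * r) * _ = _
    rw [map_mul, EVn_letter, mul_assoc]
  | add a b ha hb => rw [map_add, map_add, map_add, mul_add, ha, hb]

/-- the Leibniz rule in `E` -/
lemma leib_E (d : Fin 3 → FA Z (Fin 3)) (a : E)
    (h : ∀ i, a * ![X, U, B] i - ![X, U, B] i * a = EVn ![X, U, B] (d i)) (r : FA Z (Fin 3)) :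
    EVn ![X, U, B] (derF d r) = a * EVn ![X, U, B] r - EVn ![X, U, B] r * a := by
  induction r using FA_induction with
  | h1 => rw [derF_one, map_zero, map_one]; simp
  | hmul i Y ih =>
    rw [derF_mul, map_add, map_mul, map_mul, map_mul, ih, derF_letter, ← h i, EVn_letter]
    noncomm_ring
  | hadd Y Y' hY hY' => rw [map_add, map_add, map_add, hY, hY']; noncomm_ring
  | hsmul c Y hY =>
    rw [map_smul, map_smul, map_smul, hY, smul_sub, mul_smul_comm, smul_mul_assoc]

lemma itw_D (d : Fin 3 → FA Z (Fin 3)) (j : Fin 2)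
    (h : ∀ i, ![A, C] j * ![X, U, B] i - ![X, U, B] i * ![A, C] j = EVn ![X, U, B] (d i)) :
    Itw Z X U B A C (oR Z (derF d) + oQ Z (lm Z (letter Z j))) (![A, C] j) := by
  intro n
  induction n using TensorProduct.induction_on with
  | zero => simp
  | tmul r v =>
    rw [LinearMap.add_apply, map_add, oR_tmul, oQ_tmul, phi_tmul, phi_tmul, phi_tmul]
    change _ + _ * EVn ![A, C] (letter Z j * v) = _
    rw [map_mul, EVn_letter, leib_E d _ h]
    noncomm_ring
  | add a b ha hb => rw [map_add, map_add, map_add, mul_add, ha, hb]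

lemma itw_all (h : Six X U B A C) : Itw Z X U B A C (uX Z) X ∧ Itw Z X U B A C (uU Z) U ∧
    Itw Z X U B A C (uB Z) B ∧ Itw Z X U B A C (uA Z) A ∧ Itw Z X U B A C (uC Z) C := by
  refine ⟨itw_L 0, itw_L 1, itw_L 2, ?_, ?_⟩
  · refine itw_D (dA3 Z) 0 ?_
    intro i
    fin_cases i
    · change A * X - X * A = EVn ![X, U, B] 0
      rw [map_zero, h.ax, sub_self]
    · change A * U - U * A = EVn ![X, U, B] (letter Z 1 * letter Z 0 - letter Z 0 * letter Z 1)
      rw [map_sub, map_mul, map_mul, EVn_letter, EVn_letter]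
      exact h.au
    · change A * B - B * A = EVn ![X, U, B] 0
      rw [map_zero, h.ab, sub_self]
  · refine itw_D (dC3 Z) 1 ?_
    intro i
    fin_cases i
    · change C * X - X * C = EVn ![X, U, B] (letter Z 1 * letter Z 2 - letter Z 2 * letter Z 1)
      rw [map_sub, map_mul, map_mul, EVn_letter, EVn_letter]
      exact h.cx
    · change C * U - U * C = EVn ![X, U, B] (letter Z 1 * letter Z 2 - letter Z 2 * letter Z 1)
      rw [map_sub, map_mul, map_mul, EVn_letter, EVn_letter]
      exact h.cu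
    · change C * B - B * C =
        EVn ![X, U, B] (-(letter Z 1 * letter Z 2 - letter Z 2 * letter Z 1))
      rw [map_neg, map_sub, map_mul, map_mul, EVn_letter, EVn_letter]
      exact h.cb

end Phi

section Flat

variable {Z : Type} [CommRing Z] {K : Type u} [Field K] [Algebra Z K] {k : Type v} [CommRing k]
  [Algebra Z k] {E : Type v} [Ring E] [Algebra k E] [Algebra Z E] [IsScalarTower Z k E]
  {N : Type} [AddCommGroup N] [Module Z N] [Module.Flat Z N]

lemma flat_transfer (M : Submodule Z K) (g : M →ₗ[Z] k) (φ : N →ₗ[Z] E) {ι : Type*}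
    (s : Finset ι) (c : ι → M) (n : ι → N)
    (h : ∑ i ∈ s, ((c i : K) ⊗ₜ[Z] n i : K ⊗[Z] N) = 0) : ∑ i ∈ s, g (c i) • φ (n i) = 0 := by
  have inj := Module.Flat.rTensor_preserves_injective_linearMap (M := N) M.subtype
    M.injective_subtype
  have h1 : ∑ i ∈ s, (c i ⊗ₜ[Z] n i : M ⊗[Z] N) = 0 := by
    apply inj
    rw [map_zero, map_sum, ← h]
    refine Finset.sum_congr rfl (fun i _ => ?_)
    rfl
  let b : M →ₗ[Z] N →ₗ[Z] E :=
    LinearMap.mk₂ Z (fun m n => g m • φ n)
      (fun m m' n => by rw [map_add, add_smul])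
      (fun c m n => by rw [map_smul, smul_assoc])
      (fun m n n' => by rw [map_add, smul_add])
      (fun c m n => by rw [map_smul, smul_comm])
  have h2 := congrArg (TensorProduct.lift b) h1
  rw [map_zero, map_sum] at h2
  exact h2

end Flat

section Main

variable {Z : Type} [CommRing Z] {K : Type u} [Field K] [Algebra Z K]

/-- the base change of operators -/
def bc : Module.End Z (NN Z) →ₐ[Z] Module.End K (K ⊗[Z] NN Z) :=
  Module.End.baseChangeHom Z K (NN Z)

lemma bc_apply (T : Module.End Z (NN Z)) (c : K) (n : NN Z) :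
    (bc T : Module.End K (K ⊗[Z] NN Z)) (c ⊗ₜ[Z] n) = c ⊗ₜ[Z] T n := rfl

lemma Six.map {R S : Type*} [Ring R] [Ring S] (f : R →+* S) {X U B A C : R}
    (h : Six X U B A C) : Six (f X) (f U) (f B) (f A) (f C) where
  ax := by rw [← map_mul, h.ax, map_mul]
  ab := by rw [← map_mul, h.ab, map_mul]
  au := by simp only [← map_mul, ← map_sub]; rw [h.au]
  cx := by simp only [← map_mul, ← map_sub]; rw [h.cx]
  cu := by simp only [← map_mul, ← map_sub]; rw [h.cu]
  cb := by simp only [← map_mul, ← map_sub, ← map_neg]; rw [h.cb]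

lemma evw_map {R S : Type*} [Ring R] [Ring S] (f : R →+* S) (p q : R) (w : FreeMonoid (Fin 2)) :
    evw (f p) (f q) w = f (evw p q w) := by
  induction w using FreeMonoid.inductionOn' with
  | one => rw [map_one, map_one, map_one]
  | of_mul i w ih =>
    rw [map_mul, map_mul, map_mul, ih]
    congr 1
    fin_cases i <;> rfl

lemma EV_sum {k : Type v} [CommRing k] {R : Type*} [Ring R] [Algebra k R] (p q : R) (Y : AA k) :
    EV p q Y = ∑ w ∈ Y.coeff.support, Y.coeff w • evw p q w := by
  unfold EV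
  rw [MonoidAlgebra.lift_apply]
  rfl

lemma evw_bc (P Q : Module.End Z (NN Z)) (w : FreeMonoid (Fin 2)) :
    evw (bc P : Module.End K (K ⊗[Z] NN Z)) (bc Q) w = bc (evw P Q w) :=
  evw_map (bc : Module.End Z (NN Z) →ₐ[Z] Module.End K (K ⊗[Z] NN Z)).toRingHom P Q w

lemma EV_bc (P Q : Module.End Z (NN Z)) (Y : AA K) (n : NN Z) :
    EV (bc P) (bc Q) Y ((1 : K) ⊗ₜ[Z] n : K ⊗[Z] NN Z) =
      ∑ w ∈ Y.coeff.support, (Y.coeff w) ⊗ₜ[Z] (evw P Q w n) := by
  rw [EV_sum, LinearMap.sum_apply]
  refine Finset.sum_congr rfl (fun w _ => ?_)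
  rw [evw_bc, LinearMap.smul_apply, bc_apply, TensorProduct.smul_tmul', smul_eq_mul, mul_one]

theorem transfer_gen {k : Type v} [CommRing k] [Algebra Z k] (ψ : F2 K)
    (hpent : Pentagon ψ) (hanti : ev (gB K) (gA K) ψ = -ψ)
    (h0 : coef ψ [0] = 0) (h1 : coef ψ [1] = 0)
    (M : Submodule Z K) (g : M →ₗ[Z] k) (hM : ∀ w, coef ψ w ∈ M) (H : AA k)
    (hH : ∀ w, H.coeff (FreeMonoid.ofList w) = g ⟨coef ψ w, hM w⟩)
    (E : Type v) [Ring E] [Algebra k E] [Algebra Z E] [IsScalarTower Z k E]
    {X U B A C : E} (h : Six X U B A C) :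
    EV A U H + EV U B H + EV B (X + A) H + EV (X + A) (C + U + B) H +
      EV (C + U + B) A H = 0 := by
  classical
  have hs := cyc_sum ψ hpent hanti h0 h1
    ((uSix Z).map (bc : Module.End Z (NN Z) →ₐ[Z] Module.End K (K ⊗[Z] NN Z)).toRingHom)
  have hs2 := LinearMap.congr_fun hs ((1 : K) ⊗ₜ[Z] (1 : NN Z) : K ⊗[Z] NN Z)
  simp only [AlgHom.toRingHom_eq_coe, RingHom.coe_coe, ← map_add, LinearMap.add_apply, EV_bc,
    LinearMap.zero_apply] at hs2
  rw [← Finset.sum_add_distrib, ← Finset.sum_add_distrib, ← Finset.sum_add_distrib,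
    ← Finset.sum_add_distrib] at hs2
  simp only [← TensorProduct.tmul_add] at hs2
  have hM' : ∀ w : FreeMonoid (Fin 2), (assoc K ψ).coeff w ∈ M := fun w => hM (FreeMonoid.toList w)
  have ht := flat_transfer M g (phi Z X U B A C) (assoc K ψ).coeff.support
    (fun w => (⟨(assoc K ψ).coeff w, hM' w⟩ : M)) _ hs2
  obtain ⟨iX, iU, iB, iA, iC⟩ := itw_all (Z := Z) h
  have hone : phi Z X U B A C (1 : NN Z) = 1 := by
    change phi Z X U B A C ((1 : FA Z (Fin 3)) ⊗ₜ[Z] (1 : FA Z (Fin 2))) = 1
    rw [phi_tmul, map_one, map_one, one_mul]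
  have hEV : ∀ p q : E, EV p q H = ∑ w ∈ (assoc K ψ).coeff.support,
      g (⟨(assoc K ψ).coeff w, hM' w⟩ : M) • evw p q w := by
    intro p q
    rw [EV_sum, Finset.sum_subset (s₂ := (assoc K ψ).coeff.support)]
    · refine Finset.sum_congr rfl (fun w _ => ?_)
      congr 1
      exact hH (FreeMonoid.toList w)
    · intro w hw
      rw [Finsupp.mem_support_iff] at hw ⊢
      intro h2
      apply hw
      have h3 : (⟨coef ψ (FreeMonoid.toList w), hM _⟩ : M) = 0 := Subtype.ext h2
      have := hH (FreeMonoid.toList w)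
      rw [h3, map_zero] at this
      exact this
    · intro i _ hi
      rw [Finsupp.notMem_support_iff.1 hi, zero_smul]
  simp only [map_add] at ht
  have ev1 := fun w => (Itw.evw iA iU w) 1
  have ev2 := fun w => (Itw.evw iU iB w) 1
  have ev3 := fun w => (Itw.evw iB (iX.add iA) w) 1
  have ev4 := fun w => (Itw.evw (iX.add iA) ((iC.add iU).add iB) w) 1
  have ev5 := fun w => (Itw.evw ((iC.add iU).add iB) iA w) 1
  simp only [hone, mul_one] at ev1 ev2 ev3 ev4 ev5
  simp only [ev1, ev2, ev3, ev4, ev5] at ht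
  rw [hEV, hEV, hEV, hEV, hEV, ← Finset.sum_add_distrib, ← Finset.sum_add_distrib,
    ← Finset.sum_add_distrib, ← Finset.sum_add_distrib, ← ht]
  refine Finset.sum_congr rfl (fun w _ => ?_)
  simp only [smul_add]

end Main

theorem transfer {K : Type u} [Field K] [CharZero K] {k : Type v} [CommRing k] (ψ : F2 K)
    (hpent : Pentagon ψ) (hanti : ev (gB K) (gA K) ψ = -ψ)
    (h0 : coef ψ [0] = 0) (h1 : coef ψ [1] = 0)
    (M : AddSubgroup K) (g : M →+ k) (hM : ∀ w, coef ψ w ∈ M) (H : AA k)
    (hH : ∀ w, H.coeff (FreeMonoid.ofList w) = g ⟨coef ψ w, hM w⟩)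
    (E : Type v) [Ring E] [Algebra k E] (x : Fin 5 → E) (hx : Cyc5 x) :
    ∑ i : Fin 5, EV (x i) (x (i + 1)) H = 0 := by
  have c0 : x 0 * x 2 = x 2 * x 0 := hx.comm 0
  have c1 : x 1 * x 3 = x 3 * x 1 := hx.comm 1
  have c2 : x 2 * x 4 = x 4 * x 2 := hx.comm 2
  have c3 : x 3 * x 0 = x 0 * x 3 := hx.comm 3
  have c4 : x 4 * x 1 = x 1 * x 4 := hx.comm 4
  have s : (x 0 * x 1 - x 1 * x 0) + (x 1 * x 2 - x 2 * x 1) + (x 2 * x 3 - x 3 * x 2) +
      (x 3 * x 4 - x 4 * x 3) + (x 4 * x 0 - x 0 * x 4) = 0 := by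
    have := hx.sum
    rw [Fin.sum_univ_five] at this
    exact this
  have hsix : Six (x 3 - x 0) (x 1) (x 2) (x 0) (x 4 - x 1 - x 2) := by
    refine ⟨?_, ?_, ?_, ?_, ?_, ?_⟩
    · linear_combination (norm := noncomm_ring) -c3
    · linear_combination (norm := noncomm_ring) c0
    · linear_combination (norm := noncomm_ring) -c1
    · linear_combination (norm := noncomm_ring) -s - c0 - c1
    · linear_combination (norm := noncomm_ring) c4
    · linear_combination (norm := noncomm_ring) -c2
  have hfin := transfer_gen (Z := ℤ) ψ hpent hanti h0 h1 (AddSubgroup.toIntSubmodule M)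
    g.toIntLinearMap hM H hH E hsix
  have e1 : x 3 - x 0 + x 0 = x 3 := by abel
  have e2 : x 4 - x 1 - x 2 + x 1 + x 2 = x 4 := by abel
  rw [e1, e2] at hfin
  rw [Fin.sum_univ_five]
  exact hfin

end MP446Z.Tr
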