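import Pool.Agent.Lib.MP_446dfa_ag.ddi.Bound
import Pool.Agent.Lib.MP_446dfa_ag.ddi.Transfer
import Pool.Agent.Lib.MP_446dfa_ag.ddi.Grading

set_option linter.all false

/-!
# `grt₁` is closed under the Ihara bracket
-/

noncomputable section

namespace MP446Z

open MP446 MP446Y

universe u v w

attribute [local instance 100] LieRing.ofAssociativeRing

namespace Clo

section Basic

variable {K : Type u} [Field K] {L : Type u} [LieRing L] [LieAlgebra K L]

/-- `D` intertwined: two maps which are derivations along the same homomorphism and agree on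
generators agree -/
lemma deriv_ext (f : F2 K →ₗ⁅K⁆ L) (D E : F2 K →ₗ[K] L)
    (hD : ∀ x y, D ⁅x, y⁆ = ⁅f x, D y⁆ + ⁅D x, f y⁆) (hE : ∀ x y, E ⁅x, y⁆ = ⁅f x, E y⁆ + ⁅E x, f y⁆)
    (hA : D (gA K) = E (gA K)) (hB : D (gB K) = E (gB K)) (x : F2 K) : D x = E x := by
  induction x using F2_induction with
  | hA => exact hA
  | hB => exact hB
  | hadd x y hx hy => rw [map_add, map_add, hx, hy]
  | hsmul c x hx => rw [map_smul, map_smul, hx]
  | hlie x y hx hy => rw [hD, hE, hx, hy]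

lemma der_lie (s x y : F2 K) : der s ⁅x, y⁆ = ⁅x, der s y⁆ + ⁅der s x, y⁆ :=
  LieDerivation.apply_lie_eq_add _ _ _

lemma ev_ev (p q : L) (a b y : F2 K) : ev p q (ev a b y) = ev (ev p q a) (ev p q b) y := by
  have h : (ev p q).comp (ev a b) = ev (K := K) (ev p q a) (ev p q b) := by
    apply F2_hom_ext
    · simp only [LieHom.comp_apply, ev_A, ev_B]
    · simp only [LieHom.comp_apply, ev_A, ev_B]
  exact LieHom.congr_fun h y

lemma ev_id (y : F2 K) : ev (gA K) (gB K) y = y := by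
  have h : (ev (gA K) (gB K) : F2 K →ₗ⁅K⁆ F2 K) = LieHom.id := by
    apply F2_hom_ext
    · rw [ev_A]; rfl
    · rw [ev_B]; rfl
  exact LieHom.congr_fun h y

lemma gC_A : ev (gA K) (gC K) (gC K) = gB K := by
  unfold gC
  rw [map_sub, map_neg, ev_A, ev_B]
  abel

/-- general form of the intertwining of `D_s` with an evaluation `f`: if `e` is such that
`D (f A) = ⁅f A, e⁆ + 0` and so on -/
lemma intertwine (f : F2 K →ₗ⁅K⁆ F2 K) (s t : F2 K) (e : F2 K)
    (hA : der t (f (gA K)) + ⁅e, f (gA K)⁆ = 0)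
    (hB : der t (f (gB K)) + ⁅e, f (gB K)⁆ = ⁅f (gB K), f s⁆) (y : F2 K) :
    f (der s y) = der t (f y) + ⁅e, f y⁆ := by
  refine deriv_ext f ((f : F2 K →ₗ[K] F2 K) ∘ₗ (der s : F2 K →ₗ[K] F2 K))
    ((der t : F2 K →ₗ[K] F2 K) ∘ₗ (f : F2 K →ₗ[K] F2 K) +
      (LieAlgebra.ad K (F2 K) e : F2 K →ₗ[K] F2 K) ∘ₗ (f : F2 K →ₗ[K] F2 K)) ?_ ?_ ?_ ?_ y
  · intro x y
    change f (der s ⁅x, y⁆) = ⁅f x, f (der s y)⁆ + ⁅f (der s x), f y⁆
    rw [der_lie, map_add, LieHom.map_lie, LieHom.map_lie]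
  · intro x y
    change der t (f ⁅x, y⁆) + ⁅e, f ⁅x, y⁆⁆ = ⁅f x, der t (f y) + ⁅e, f y⁆⁆ +
      ⁅der t (f x) + ⁅e, f x⁆, f y⁆
    rw [LieHom.map_lie, der_lie, leibniz_lie e (f x) (f y), lie_add, add_lie]
    abel
  · change f (der s (gA K)) = der t (f (gA K)) + ⁅e, f (gA K)⁆
    rw [der_gA, map_zero, hA]
  · change f (der s (gB K)) = der t (f (gB K)) + ⁅e, f (gB K)⁆
    rw [der_gB, LieHom.map_lie, hB]

end Basic

section Easy

variable {K : Type u} [Field K]

lemma hex_der {s : F2 K} (hs : IsGRT s) :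
    der s (gC K) = ⁅gC K, ev (gA K) (gC K) s⁆ := by
  have h := hs.hexagon
  unfold gC at h ⊢
  rw [map_sub, map_neg, der_gA, der_gB, neg_zero, zero_sub]
  exact neg_eq_of_add_eq_zero_right h

lemma anti_AC {s : F2 K} (hs : IsGRT s) :
    ev (gA K) (gC K) s = - ev (gC K) (gA K) s := by
  rw [Tr.ev_swap s hs.antisymm]

lemma tau_der {s : F2 K} (hs : IsGRT s) (y : F2 K) :
    ev (gB K) (gA K) (der s y) = der s (ev (gB K) (gA K) y) + ⁅s, ev (gB K) (gA K) y⁆ := by
  apply intertwine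
  · rw [ev_A, der_gB, ← lie_skew s, add_neg_cancel]
  · rw [ev_B, der_gA, zero_add, hs.antisymm, lie_neg, lie_skew]

lemma om1_der {s : F2 K} (hs : IsGRT s) (y : F2 K) :
    ev (gB K) (gC K) (der s y) = der s (ev (gB K) (gC K) y) + ⁅s, ev (gB K) (gC K) y⁆ := by
  apply intertwine
  · rw [ev_A, der_gB, ← lie_skew s, add_neg_cancel]
  · rw [ev_B, hex_der hs, anti_AC hs, ← lie_skew s, ← sub_eq_add_neg, ← lie_sub]
    congr 1
    have := hs.cycle
    rw [← sub_eq_zero]
    rw [← neg_eq_zero, ← this]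
    abel

lemma om2_der {s : F2 K} (hs : IsGRT s) (y : F2 K) :
    ev (gC K) (gA K) (der s y) = der s (ev (gC K) (gA K) y) +
      ⁅- ev (gC K) (gA K) s, ev (gC K) (gA K) y⁆ := by
  apply intertwine
  · rw [ev_A, hex_der hs, anti_AC hs, ← lie_skew (gC K), neg_add_cancel]
  · rw [ev_B, der_gA, zero_add, neg_lie, lie_skew]

lemma sig_der {s : F2 K} (hs : IsGRT s) (y : F2 K) :
    ev (gA K) (gC K) (der s y) = der s (ev (gA K) (gC K) y) := by
  have := intertwine (ev (gA K) (gC K)) s s 0 (by rw [ev_A, der_gA, zero_lie, add_zero])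
    (by rw [ev_B, hex_der hs, zero_lie, add_zero]) y
  rw [this, zero_lie, add_zero]

theorem anti_closed {s t : F2 K} (hs : IsGRT s) (ht : IsGRT t) :
    ev (gB K) (gA K) (iharaBracket s t) = - iharaBracket s t := by
  unfold iharaBracket
  rw [map_sub, map_add, LieHom.map_lie, tau_der hs, tau_der ht, hs.antisymm, ht.antisymm]
  simp only [lie_neg, neg_lie, map_neg]
  rw [← lie_skew t s]
  abel

theorem cycle_closed {s t : F2 K} (hs : IsGRT s) (ht : IsGRT t) :
    iharaBracket s t + ev (gB K) (gC K) (iharaBracket s t) +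
      ev (gC K) (gA K) (iharaBracket s t) = 0 := by
  have e1 : ev (gC K) (gA K) s = - (s + ev (gB K) (gC K) s) := by
    rw [eq_neg_iff_add_eq_zero, ← hs.cycle]; abel
  have e2 : ev (gC K) (gA K) t = - (t + ev (gB K) (gC K) t) := by
    rw [eq_neg_iff_add_eq_zero, ← ht.cycle]; abel
  unfold iharaBracket
  rw [map_sub, map_add, LieHom.map_lie, map_sub, map_add, LieHom.map_lie, om1_der hs, om1_der ht,
    om2_der hs, om2_der ht, e1, e2]
  simp only [lie_neg, neg_lie, map_neg, map_add, lie_add, add_lie]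
  rw [← lie_skew t (ev (gB K) (gC K) s), ← lie_skew (ev (gB K) (gC K) t) s,
    ← lie_skew t s, ← lie_skew (ev (gB K) (gC K) t) (ev (gB K) (gC K) s)]
  abel

theorem hexagon_closed {s t : F2 K} (hs : IsGRT s) (ht : IsGRT t) :
    ⁅gB K, iharaBracket s t⁆ + ⁅gC K, ev (gA K) (gC K) (iharaBracket s t)⁆ = 0 := by
  have h1 : ∀ y, ev (gA K) (gC K) (der (iharaBracket s t) y) =
      der (iharaBracket s t) (ev (gA K) (gC K) y) := by
    intro y
    rw [der_ihara, LieDerivation.lie_apply, LieDerivation.lie_apply, map_sub, sig_der hs,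
      sig_der ht, sig_der ht, sig_der hs]
  have h2 := h1 (gB K)
  rw [der_gB, LieHom.map_lie, ev_B] at h2
  rw [h2]
  unfold gC
  rw [map_sub, map_neg, der_gA, der_gB, neg_zero, zero_sub, add_neg_cancel]

end Easy

section FiveTerm

variable {K : Type u} [Field K]

/-- five elements of a Lie algebra satisfying the defining relations of the Lie algebra of the
pure sphere braid group on five strands -/
structure LC {L : Type v} [LieRing L] (a b c d e : L) : Prop where
  ac : ⁅a, c⁆ = 0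
  bd : ⁅b, d⁆ = 0
  ce : ⁅c, e⁆ = 0
  da : ⁅d, a⁆ = 0
  eb : ⁅e, b⁆ = 0
  sum : ⁅a, b⁆ + ⁅b, c⁆ + ⁅c, d⁆ + ⁅d, e⁆ + ⁅e, a⁆ = 0

variable {L : Type v} [LieRing L]

lemma lie0s {x y : L} (h : ⁅x, y⁆ = 0) : ⁅y, x⁆ = 0 := by
  rw [← lie_skew, h, neg_zero]

lemma LC.rot {a b c d e : L} (h : LC a b c d e) : LC b c d e a where
  ac := h.bd
  bd := h.ce
  ce := h.da
  da := h.eb
  eb := h.ac
  sum := by rw [← h.sum]; abel

lemma LC.of_braid {t : Fin 4 → Fin 4 → L} (h : InfBraid t) :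
    LC (t 0 1) (t 1 2) (t 2 3) (t 0 1 + t 0 2 + t 1 2) (t 1 2 + t 1 3 + t 2 3) := by
  have s10 := h.symm 1 0
  have s20 := h.symm 2 0
  have s21 := h.symm 2 1
  have s31 := h.symm 3 1
  have s32 := h.symm 3 2
  have c1 : ⁅t 0 1, t 2 3⁆ = 0 := h.comm 0 1 2 3 (by decide) (by decide) (by decide) (by decide)
    (by decide) (by decide)
  have c2 : ⁅t 0 2, t 1 3⁆ = 0 := h.comm 0 2 1 3 (by decide) (by decide) (by decide) (by decide)
    (by decide) (by decide)
  have r1 : ⁅t 0 1, t 0 2⁆ + ⁅t 0 1, t 1 2⁆ = 0 := by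
    have := h.rel 0 1 2 (by decide) (by decide) (by decide)
    rwa [lie_add] at this
  have r2 : ⁅t 1 2, t 0 1⁆ + ⁅t 1 2, t 0 2⁆ = 0 := by
    have := h.rel 1 2 0 (by decide) (by decide) (by decide)
    rwa [lie_add, s10, s20] at this
  have r3 : ⁅t 0 2, t 0 1⁆ + ⁅t 0 2, t 1 2⁆ = 0 := by
    have := h.rel 0 2 1 (by decide) (by decide) (by decide)
    rwa [lie_add, s21] at this
  have r4 : ⁅t 1 2, t 1 3⁆ + ⁅t 1 2, t 2 3⁆ = 0 := by
    have := h.rel 1 2 3 (by decide) (by decide) (by decide)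
    rwa [lie_add] at this
  have r5 : ⁅t 2 3, t 1 2⁆ + ⁅t 2 3, t 1 3⁆ = 0 := by
    have := h.rel 2 3 1 (by decide) (by decide) (by decide)
    rwa [lie_add, s21, s31] at this
  have r6 : ⁅t 1 3, t 1 2⁆ + ⁅t 1 3, t 2 3⁆ = 0 := by
    have := h.rel 1 3 2 (by decide) (by decide) (by decide)
    rwa [lie_add, s32] at this
  refine ⟨c1, ?_, ?_, ?_, ?_, ?_⟩
  · rw [lie_add, lie_add, lie_self, add_zero, r2]
  · rw [lie_add, lie_add, lie_self, add_zero, r5]
  · rw [← lie_skew, lie_add, lie_add, lie_self, zero_add, r1, neg_zero]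
  · rw [← lie_skew, lie_add, lie_add, lie_self, zero_add, r4, neg_zero]
  · simp only [lie_add, add_lie, lie_self, c1, c2, zero_add, add_zero]
    rw [← lie_skew (t 2 3) (t 0 1), c1, ← lie_skew (t 2 3) (t 0 2), ← lie_skew (t 2 3) (t 1 2),
      ← lie_skew (t 1 2) (t 0 1), ← lie_skew (t 1 3) (t 0 1)]
    have e1 : ⁅t 0 2, t 1 2⁆ = ⁅t 0 1, t 0 2⁆ := by
      rw [← lie_skew (t 0 1) (t 0 2), eq_neg_iff_add_eq_zero, add_comm]
      exact r3
    have e2 : ⁅t 1 2, t 1 3⁆ = -⁅t 1 2, t 2 3⁆ := eq_neg_of_add_eq_zero_left r4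
    have e3 : ⁅t 0 1, t 0 2⁆ = -⁅t 0 1, t 1 2⁆ := eq_neg_of_add_eq_zero_left r1
    rw [e1, e2, e3]
    abel

/-- the family attached to a cyclic system -/
def fam5 (a b c d e : L) : Fin 4 → Fin 4 → L :=
  ![![0, a, d - a - b, b - d - e], ![a, 0, b, e - b - c],
    ![d - a - b, b, 0, c], ![b - d - e, e - b - c, c, 0]]

lemma LC.braid {a b c d e : L} (h : LC a b c d e) : InfBraid (fam5 a b c d e) := by
  have ca := lie0s h.ac
  have db := lie0s h.bd
  have ec := lie0s h.ce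
  have ad := lie0s h.da
  have be := lie0s h.eb
  have hs : ⁅a, b⁆ = - (⁅b, c⁆ + ⁅c, d⁆ + ⁅d, e⁆ + ⁅e, a⁆) := by
    rw [eq_neg_iff_add_eq_zero, ← h.sum]; abel
  have ba : ⁅b, a⁆ = - ⁅a, b⁆ := (lie_skew _ _).symm
  have cb : ⁅c, b⁆ = - ⁅b, c⁆ := (lie_skew _ _).symm
  have dc : ⁅d, c⁆ = - ⁅c, d⁆ := (lie_skew _ _).symm
  have ed : ⁅e, d⁆ = - ⁅d, e⁆ := (lie_skew _ _).symm
  have ae : ⁅a, e⁆ = - ⁅e, a⁆ := (lie_skew _ _).symm
  refine ⟨?_, ?_, ?_⟩
  · intro i j
    fin_cases i <;> fin_cases j <;> rfl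
  · intro i j k l h1 h2 h3 h4 h5 h6
    have key : ∀ x y : L, ⁅x, y⁆ = 0 → ⁅y, x⁆ = 0 := fun x y h => lie0s h
    have k1 : ⁅a, c⁆ = 0 := h.ac
    have k2 : ⁅d - a - b, e - b - c⁆ = 0 := by
      simp only [lie_sub, sub_lie, lie_self, h.ac, h.bd, h.ce, h.da, h.eb, ca, db, ec, ad, be, ba,
        cb, dc, ed, ae, hs]
      abel
    have k3 : ⁅b - d - e, b⁆ = 0 := by
      simp only [lie_sub, sub_lie, lie_self, h.ac, h.bd, h.ce, h.da, h.eb, ca, db, ec, ad, be, ba,
        cb, dc, ed, ae, hs]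
      abel
    fin_cases i <;> fin_cases j <;> fin_cases k <;> fin_cases l <;>
      first
        | exact absurd rfl h1
        | exact absurd rfl h2
        | exact absurd rfl h3
        | exact absurd rfl h4
        | exact absurd rfl h5
        | exact absurd rfl h6
        | exact k1
        | exact key _ _ k1
        | exact k2
        | exact key _ _ k2
        | exact k3
        | exact key _ _ k3
  · intro i j k h1 h2 h3
    have key : ∀ x y z : L, ⁅x, y + z⁆ = 0 → ⁅x, z + y⁆ = 0 := fun x y z h => by rwa [add_comm]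
    have q1 : ⁅a, (d - a - b) + b⁆ = 0 := by
      simp only [lie_add, add_lie, lie_sub, sub_lie, lie_self, h.ac, h.bd, h.ce, h.da, h.eb, ca,
        db, ec, ad, be, ba, cb, dc, ed, ae, hs]
      abel
    have q2 : ⁅a, (b - d - e) + (e - b - c)⁆ = 0 := by
      simp only [lie_add, add_lie, lie_sub, sub_lie, lie_self, h.ac, h.bd, h.ce, h.da, h.eb, ca,
        db, ec, ad, be, ba, cb, dc, ed, ae, hs]
      abel
    have q3 : ⁅d - a - b, a + b⁆ = 0 := by
      simp only [lie_add, add_lie, lie_sub, sub_lie, lie_self, h.ac, h.bd, h.ce, h.da, h.eb, ca,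
        db, ec, ad, be, ba, cb, dc, ed, ae, hs]
      abel
    have q4 : ⁅d - a - b, (b - d - e) + c⁆ = 0 := by
      simp only [lie_add, add_lie, lie_sub, sub_lie, lie_self, h.ac, h.bd, h.ce, h.da, h.eb, ca,
        db, ec, ad, be, ba, cb, dc, ed, ae, hs]
      abel
    have q5 : ⁅b - d - e, a + (e - b - c)⁆ = 0 := by
      simp only [lie_add, add_lie, lie_sub, sub_lie, lie_self, h.ac, h.bd, h.ce, h.da, h.eb, ca,
        db, ec, ad, be, ba, cb, dc, ed, ae, hs]
      abel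
    have q6 : ⁅b - d - e, (d - a - b) + c⁆ = 0 := by
      simp only [lie_add, add_lie, lie_sub, sub_lie, lie_self, h.ac, h.bd, h.ce, h.da, h.eb, ca,
        db, ec, ad, be, ba, cb, dc, ed, ae, hs]
      abel
    have q7 : ⁅b, a + (d - a - b)⁆ = 0 := by
      simp only [lie_add, add_lie, lie_sub, sub_lie, lie_self, h.ac, h.bd, h.ce, h.da, h.eb, ca,
        db, ec, ad, be, ba, cb, dc, ed, ae, hs]
      abel
    have q8 : ⁅b, (e - b - c) + c⁆ = 0 := by
      simp only [lie_add, add_lie, lie_sub, sub_lie, lie_self, h.ac, h.bd, h.ce, h.da, h.eb, ca,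
        db, ec, ad, be, ba, cb, dc, ed, ae, hs]
      abel
    have q9 : ⁅e - b - c, a + (b - d - e)⁆ = 0 := by
      simp only [lie_add, add_lie, lie_sub, sub_lie, lie_self, h.ac, h.bd, h.ce, h.da, h.eb, ca,
        db, ec, ad, be, ba, cb, dc, ed, ae, hs]
      abel
    have q10 : ⁅e - b - c, b + c⁆ = 0 := by
      simp only [lie_add, add_lie, lie_sub, sub_lie, lie_self, h.ac, h.bd, h.ce, h.da, h.eb, ca,
        db, ec, ad, be, ba, cb, dc, ed, ae, hs]
      abel
    have q11 : ⁅c, (d - a - b) + (b - d - e)⁆ = 0 := by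
      simp only [lie_add, add_lie, lie_sub, sub_lie, lie_self, h.ac, h.bd, h.ce, h.da, h.eb, ca,
        db, ec, ad, be, ba, cb, dc, ed, ae, hs]
      abel
    have q12 : ⁅c, b + (e - b - c)⁆ = 0 := by
      simp only [lie_add, add_lie, lie_sub, sub_lie, lie_self, h.ac, h.bd, h.ce, h.da, h.eb, ca,
        db, ec, ad, be, ba, cb, dc, ed, ae, hs]
      abel
    fin_cases i <;> fin_cases j <;> fin_cases k <;>
      first
        | exact absurd rfl h1
        | exact absurd rfl h2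
        | exact absurd rfl h3
        | exact q1
        | exact key _ _ _ q1
        | exact q2
        | exact key _ _ _ q2
        | exact q3
        | exact key _ _ _ q3
        | exact q4
        | exact key _ _ _ q4
        | exact q5
        | exact key _ _ _ q5
        | exact q6
        | exact key _ _ _ q6
        | exact q7
        | exact key _ _ _ q7
        | exact q8
        | exact key _ _ _ q8
        | exact q9
        | exact key _ _ _ q9
        | exact q10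
        | exact key _ _ _ q10
        | exact q11
        | exact key _ _ _ q11
        | exact q12
        | exact key _ _ _ q12

end FiveTerm

end Clo

end MP446Z
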