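import Pool.Agent.Lib.MP_446dfa_ag.ddi.CoreC

set_option linter.all false

/-!
# The solutions of the pentagon relation in characteristic two, modulo `y²`
-/

noncomputable section

namespace MP446Z

open MP446 MP446Y

universe u v w

section Core

variable {k : Type v} [CommRing k]

/-- the subspace `k⟨α, δ⟩ × 0` -/
def WW (k : Type v) [CommRing k] : Submodule k (TT k × TT k) where
  carrier := {p | p.1 ∈ Algebra.adjoin k {letter k 0, letter k 2} ∧ p.2 = 0}
  add_mem' := fun {p q} hp hq => ⟨Subalgebra.add_mem _ hp.1 hq.1, by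
    rw [Prod.snd_add, hp.2, hq.2, add_zero]⟩
  zero_mem' := ⟨Subalgebra.zero_mem _, rfl⟩
  smul_mem' := fun c {p} hp => ⟨Subalgebra.smul_mem _ hp.1 c, by
    rw [Prod.smul_snd, hp.2, smul_zero]⟩

lemma dr_adjoin {t : TT k} (ht : t ∈ Algebra.adjoin k {letter k 0, letter k (2 : Fin 3)}) :
    dr k t ∈ Algebra.adjoin k {letter k 0, letter k (2 : Fin 3)} := by
  induction ht using Algebra.adjoin_induction with
  | mem x hx =>
    rcases hx with rfl | hx
    · rw [dr_0]; exact Algebra.subset_adjoin (by simp)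
    · rw [Set.mem_singleton_iff.1 hx, dr_2]; exact Subalgebra.zero_mem _
  | algebraMap r =>
    rw [Algebra.algebraMap_eq_smul_one, map_smul]
    unfold dr
    rw [derF_one, smul_zero]
    exact Subalgebra.zero_mem _
  | add x y _ _ hx hy => rw [map_add]; exact Subalgebra.add_mem _ hx hy
  | mul x y hx' hy' hx hy =>
    rw [dr_mul]
    exact Subalgebra.add_mem _ (Subalgebra.mul_mem _ hx' hy) (Subalgebra.mul_mem _ hx hy')

lemma adjoin_WW {z : Module.End k (TT k × TT k)} (hz : z ∈ Algebra.adjoin k {y1 k, y5 k})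
    {p : TT k × TT k} (hp : p ∈ WW k) : z p ∈ WW k := by
  induction hz using Algebra.adjoin_induction generalizing p with
  | mem x hx =>
    obtain ⟨u, v⟩ := p
    have hu : u ∈ Algebra.adjoin k {letter k 0, letter k (2 : Fin 3)} := hp.1
    have hv : v = 0 := hp.2
    subst hv
    have h0 : letter k 0 ∈ Algebra.adjoin k {letter k 0, letter k (2 : Fin 3)} :=
      Algebra.subset_adjoin (by simp)
    rcases hx with rfl | hx
    · rw [y1_apply]
      exact ⟨Subalgebra.mul_mem _ h0 hu, by simp⟩
    · rw [Set.mem_singleton_iff.1 hx, y5_apply]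
      refine ⟨?_, by simp⟩
      simp only [zero_mul, add_zero]
      exact Subalgebra.add_mem _ (Subalgebra.mul_mem _ h0 hu) (dr_adjoin hu)
  | algebraMap r =>
    rw [Algebra.algebraMap_eq_smul_one, LinearMap.smul_apply, Module.End.one_apply]
    exact Submodule.smul_mem _ _ hp
  | add x y _ _ hx hy => rw [LinearMap.add_apply]; exact Submodule.add_mem _ (hx hp) (hy hp)
  | mul x y _ _ hx hy => rw [Module.End.mul_apply]; exact hx (hy hp)

/-- first consequence: an identity in `k⟨α, β, δ⟩` -/
theorem T_identity (h2 : (2 : k) = 0) (H : AA k) (hD0 : Dl k 0 H = 0)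
    (hanti : EV (lt k 1) (lt k 0) H = H)
    (hpent : ∀ (E : Type v) [Ring E] [Algebra k E] (x : Fin 5 → E), Cyc5 x →
      ∑ i : Fin 5, EV (x i) (x (i + 1)) H = 0) (S : FA k (Fin 3)) (hS : H - j3 k S ∈ Iy k) :
    EVn ![letter k 0 * letter k 0, letter k 1,
        letter k 0 * letter k 1 - letter k 1 * letter k 0] S +
      EVn ![letter k 0 * letter k 0 + letter k 2, letter k 1,
        letter k 0 * letter k 1 - letter k 1 * letter k 0] S ∈
      Algebra.adjoin k {letter k 0, letter k (2 : Fin 3)} := by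
  have hE := yy_ERel (k := k) h2
  have h1 := E_identity h2 H hD0 hanti hpent hE
  have comp (p q : Module.End k (TT k × TT k)) (hq : q * q = 0) :
      EV p q H = EVn ![p * p, p * q - q * p, p * p * q - q * (p * p)] S := by
    have e := Iy_EV (p := p) (q := q) hq hS
    rw [map_sub, sub_eq_zero] at e
    rw [e]
    unfold j3
    rw [EVn_comp]
    congr 2
    funext a
    fin_cases a
    · change EV p q (lt k 0 * lt k 0) = p * p
      rw [map_mul, EV_lt0]
    · change EV p q (BB k) = p * q - q * p
      rw [BB, map_sub, map_mul, map_mul, EV_lt0, EV_lt1]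
    · change EV p q (ZZ k) = p * p * q - q * (p * p)
      rw [ZZ, map_sub, map_mul, map_mul, map_mul, map_mul, EV_lt0, EV_lt1]
  rw [comp _ _ hE.s2, comp _ _ hE.s4, y1_sq, y5_sq h2, y12 h2, y54 h2] at h1
  have e1 : mL (letter k 0 * letter k 0) * y2 k - y2 k * mL (letter k 0 * letter k 0) =
      mL (letter k 0 * letter k 1 - letter k 1 * letter k 0) := by
    rw [← y1_sq, y112 h2]
  have e2 : mL (letter k 0 * letter k 0 + letter k 2) * y4 k -
      y4 k * mL (letter k 0 * letter k 0 + letter k 2) =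
      mL (letter k 0 * letter k 1 - letter k 1 * letter k 0) := by
    rw [← y5_sq h2, y554 h2]
  rw [e1, e2] at h1
  have f1 := EVn_mL (k := k) ![mL (letter k 0 * letter k 0), mL (letter k 1),
    mL (letter k 0 * letter k 1 - letter k 1 * letter k 0)]
    ![letter k 0 * letter k 0, letter k 1,
        letter k 0 * letter k 1 - letter k 1 * letter k 0]
    (by intro a; fin_cases a <;> rfl) S
  have f2 := EVn_mL (k := k) ![mL (letter k 0 * letter k 0 + letter k 2), mL (letter k 1),
    mL (letter k 0 * letter k 1 - letter k 1 * letter k 0)]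
    ![letter k 0 * letter k 0 + letter k 2, letter k 1,
        letter k 0 * letter k 1 - letter k 1 * letter k 0]
    (by intro a; fin_cases a <;> rfl) S
  rw [f1, f2] at h1
  have h3 := adjoin_WW h1 (p := ((1 : TT k), (0 : TT k))) ⟨Subalgebra.one_mem _, rfl⟩
  rw [LinearMap.add_apply, mL_apply, mL_apply, mul_one, mul_one] at h3
  exact h3.1

/-- the second specialization -/
def phiM (k : Type v) [CommRing k] : TT k →ₐ[k] Matrix (Fin 2) (Fin 2) (FA k (Fin 3)) :=
  EVn ![!![0, 0; 1, 0], !![letter k 1, letter k 2; 0, letter k 1],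
    !![letter k 0, 0; 0, letter k 0]]

lemma phiM_0 : phiM k (letter k 0) = !![0, 0; 1, 0] := by simp [phiM]
lemma phiM_1 : phiM k (letter k 1) = !![letter k 1, letter k 2; 0, letter k 1] := by simp [phiM]
lemma phiM_2 : phiM k (letter k 2) = !![letter k 0, 0; 0, letter k 0] := by simp [phiM]

lemma phiM_adjoin {t : TT k} (ht : t ∈ Algebra.adjoin k {letter k 0, letter k (2 : Fin 3)}) :
    phiM k t 0 1 = 0 ∧ phiM k t 0 0 ∈ Algebra.adjoin k {letter k (0 : Fin 3)} := by
  induction ht using Algebra.adjoin_induction with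
  | mem x hx =>
    rcases hx with rfl | hx
    · rw [phiM_0]; exact ⟨rfl, Subalgebra.zero_mem _⟩
    · rw [Set.mem_singleton_iff.1 hx, phiM_2]; exact ⟨rfl, Algebra.subset_adjoin rfl⟩
  | algebraMap r =>
    rw [AlgHom.commutes, Matrix.algebraMap_eq_diagonal]
    refine ⟨by simp, ?_⟩
    simp only [Matrix.diagonal_apply_eq, Pi.algebraMap_apply]
    exact Subalgebra.algebraMap_mem _ _
  | add x y _ _ hx hy =>
    rw [map_add, Matrix.add_apply, Matrix.add_apply, hx.1, hy.1, add_zero]
    exact ⟨rfl, Subalgebra.add_mem _ hx.2 hy.2⟩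
  | mul x y hx' hy' hx hy =>
    rw [map_mul, Matrix.mul_apply, Matrix.mul_apply, Fin.sum_univ_two, Fin.sum_univ_two, hx.1, hy.1,
      zero_mul, zero_mul, mul_zero, add_zero, add_zero]
    exact ⟨rfl, Subalgebra.mul_mem _ hx.2 hy.2⟩

lemma EVn_tri {A : Type w} {E : Type*} [Ring E] [Algebra k E]
    (f : A → Matrix (Fin 2) (Fin 2) E) (hf : ∀ a, f a 1 0 = 0) (X : FA k A) :
    (EVn f X) 1 0 = 0 ∧ (EVn f X) 0 0 = EVn (fun a => f a 0 0) X := by
  induction X using FA_induction with
  | h1 => simp
  | hmul a X ih =>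
    rw [map_mul, map_mul, Matrix.mul_apply, Matrix.mul_apply, Fin.sum_univ_two, Fin.sum_univ_two,
      ih.1, ih.2, EVn_letter, EVn_letter, hf, zero_mul, mul_zero, mul_zero, add_zero, add_zero]
    exact ⟨rfl, rfl⟩
  | hadd X Y hX hY =>
    rw [map_add, map_add, Matrix.add_apply, Matrix.add_apply, hX.1, hX.2, hY.1, hY.2, add_zero]
    exact ⟨rfl, rfl⟩
  | hsmul c X hX =>
    rw [map_smul, map_smul, Matrix.smul_apply, Matrix.smul_apply, hX.1, hX.2, smul_zero]
    exact ⟨rfl, rfl⟩

/-- second consequence: `S` has no `X`, up to polynomials in `X` -/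
theorem S_identity (h2 : (2 : k) = 0) (S : FA k (Fin 3))
    (h : EVn ![letter k 0 * letter k 0, letter k 1,
        letter k 0 * letter k 1 - letter k 1 * letter k 0] S +
      EVn ![letter k 0 * letter k 0 + letter k 2, letter k 1,
        letter k 0 * letter k 1 - letter k 1 * letter k 0] S ∈
      Algebra.adjoin k {letter k 0, letter k (2 : Fin 3)}) :
    EVn ![0, letter k 1, letter k 2] S + S ∈ Algebra.adjoin k {letter k (0 : Fin 3)} := by
  have h1 := (phiM_adjoin h).2
  rw [map_add, Matrix.add_apply, EVn_comp, EVn_comp] at h1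
  have e3 : phiM k (letter k 0 * letter k 1 - letter k 1 * letter k 0) =
      !![letter k 2, 0; 0, letter k 2] := by
    rw [map_sub, map_mul, map_mul, phiM_0, phiM_1, Matrix.mul_fin_two, Matrix.mul_fin_two]
    ext i j
    fin_cases i <;> fin_cases j
    · simp only [Fin.zero_eta, Matrix.sub_apply, Matrix.of_apply, Matrix.cons_val_zero]
      simp
      exact neg_eq' h2 _
    · simp
    · simp
    · simp
  rw [(EVn_tri _ ?_ S).2, (EVn_tri _ ?_ S).2] at h1
  · have f1 : (fun a => phiM k (![letter k 0 * letter k 0, letter k 1,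
        letter k 0 * letter k 1 - letter k 1 * letter k 0] a) 0 0) =
        ![0, letter k 1, letter k (2 : Fin 3)] := by
      funext a
      fin_cases a
      · change phiM k (letter k 0 * letter k 0) 0 0 = 0
        rw [map_mul, phiM_0, Matrix.mul_fin_two]; simp
      · change phiM k (letter k 1) 0 0 = letter k 1
        rw [phiM_1]; rfl
      · change phiM k (letter k 0 * letter k 1 - letter k 1 * letter k 0) 0 0 = letter k 2
        rw [e3]; rfl
    have f2 : (fun a => phiM k (![letter k 0 * letter k 0 + letter k 2, letter k 1,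
        letter k 0 * letter k 1 - letter k 1 * letter k 0] a) 0 0) =
        letter k := by
      funext a
      fin_cases a
      · change phiM k (letter k 0 * letter k 0 + letter k 2) 0 0 = letter k 0
        rw [map_add, map_mul, phiM_0, phiM_2, Matrix.mul_fin_two]; simp
      · change phiM k (letter k 1) 0 0 = letter k 1
        rw [phiM_1]; rfl
      · change phiM k (letter k 0 * letter k 1 - letter k 1 * letter k 0) 0 0 = letter k 2
        rw [e3]; rfl
    rw [f1, f2] at h1
    have e4 : EVn (letter k) S = S := by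
      have : (EVn (letter k) : FA k (Fin 3) →ₐ[k] FA k (Fin 3)) = AlgHom.id k _ :=
        EVn_hom_ext (by intro a; simp)
      rw [this]; rfl
    rwa [e4] at h1
  · intro a
    fin_cases a
    · change phiM k (letter k 0 * letter k 0 + letter k 2) 1 0 = 0
      rw [map_add, map_mul, phiM_0, phiM_2, Matrix.mul_fin_two]; simp
    · change phiM k (letter k 1) 1 0 = 0
      rw [phiM_1]; rfl
    · change phiM k (letter k 0 * letter k 1 - letter k 1 * letter k 0) 1 0 = 0
      rw [e3]; rfl
  · intro a
    fin_cases a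
    · change phiM k (letter k 0 * letter k 0) 1 0 = 0
      rw [map_mul, phiM_0, Matrix.mul_fin_two]; simp
    · change phiM k (letter k 1) 1 0 = 0
      rw [phiM_1]; rfl
    · change phiM k (letter k 0 * letter k 1 - letter k 1 * letter k 0) 1 0 = 0
      rw [e3]; rfl

lemma EV_x_zero {H : AA k} (hx : ∀ n, H.coeff (FreeMonoid.ofList (List.replicate n 0)) = 0) :
    EV (lt k 0) 0 H = 0 := by
  rw [FA_coeff_expand H, Finsupp.sum, map_sum]
  refine Finset.sum_eq_zero (fun w hw => ?_)
  rw [map_smul]
  by_cases h1 : (1 : Fin 2) ∈ FreeMonoid.toList w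
  · have e : EV (lt k 0) 0 (MonoidAlgebra.of k (FreeMonoid (Fin 2)) w) = 0 := by
      have := EV_ow (k := k) (lt k 0) (0 : AA k) (FreeMonoid.toList w)
      rw [ow, FreeMonoid.ofList_toList] at this
      rw [this]
      apply List.prod_eq_zero
      rw [List.mem_map]
      exact ⟨1, h1, rfl⟩
    rw [e, smul_zero]
  · have e : FreeMonoid.toList w = List.replicate (FreeMonoid.toList w).length 0 := by
      apply List.eq_replicate_of_mem
      intro b hb
      rcases Fin.exists_fin_two.1 ⟨b, rfl⟩ with h | h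
      · exact h
      · rw [h] at hb; exact absurd hb h1
    have h3 := hx (FreeMonoid.toList w).length
    rw [← e, FreeMonoid.ofList_toList] at h3
    exact absurd h3 (Finsupp.mem_support_iff.1 hw)

/-- The core theorem: in characteristic two, a solution of the pentagon relation is, modulo `y²`,
a polynomial in `[x, y]` and `[x², y]`. -/
theorem core (h2 : (2 : k) = 0) (H : AA k) (hD : ∀ l, Dl k l H = 0)
    (hx : ∀ n, H.coeff (FreeMonoid.ofList (List.replicate n 0)) = 0)
    (hanti : EV (lt k 1) (lt k 0) H = H)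
    (hpent : ∀ (E : Type v) [Ring E] [Algebra k E] (x : Fin 5 → E), Cyc5 x →
      ∑ i : Fin 5, EV (x i) (x (i + 1)) H = 0) :
    ∃ G : AA k, ∀ Y, gd Y = true →
      H.coeff (FreeMonoid.ofList Y) = (EV (BB k) (ZZ k) G).coeff (FreeMonoid.ofList Y) := by
  obtain ⟨S, hS⟩ := exists_j3 h2 H hD
  have h1 := S_identity h2 S (T_identity h2 H (hD 0) hanti hpent S hS)
  set G : AA k := EVn ![0, lt k 0, lt k 1] S with hG
  have hj : j3 k (EVn ![0, letter k 1, letter k 2] S) = EV (BB k) (ZZ k) G := by
    rw [hG, EVn_comp, EVn_comp]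
    congr 2
    funext a
    fin_cases a
    · change j3 k 0 = EV (BB k) (ZZ k) 0
      rw [map_zero, map_zero]
    · change j3 k (letter k 1) = EV (BB k) (ZZ k) (lt k 0)
      rw [j3_one, EV_lt0]
    · change j3 k (letter k 2) = EV (BB k) (ZZ k) (lt k 1)
      rw [j3_two, EV_lt1]
  -- the polynomial in `x²`
  set q := EVn ![0, letter k 1, letter k 2] S + S with hq
  have hq2 : j3 k q ∈ Algebra.adjoin k {lt k 0} := by
    have h3 : (j3 k) q ∈ (Algebra.adjoin k {letter k (0 : Fin 3)}).map (j3 k) := ⟨q, h1, rfl⟩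
    rw [AlgHom.map_adjoin, Set.image_singleton, j3_zero] at h3
    refine Algebra.adjoin_le ?_ h3
    rw [Set.singleton_subset_iff]
    exact Subalgebra.mul_mem _ (Algebra.subset_adjoin rfl) (Algebra.subset_adjoin rfl)
  have hSq : j3 k S = j3 k q - EV (BB k) (ZZ k) G := by
    rw [← hj, ← map_sub]
    congr 1
    rw [hq]; abel
  have hfix : ∀ z ∈ Algebra.adjoin k {lt k 0}, EV (lt k 0) 0 z = z := by
    intro z hz
    induction hz using Algebra.adjoin_induction with
    | mem x hx => rw [Set.mem_singleton_iff.1 hx, EV_lt0]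
    | algebraMap r => rw [AlgHom.commutes]
    | add x y _ _ hx hy => rw [map_add, hx, hy]
    | mul x y _ _ hx hy => rw [map_mul, hx, hy]
  have e0 := Iy_EV (p := lt k 0) (q := (0 : AA k)) (by simp) hS
  rw [map_sub, EV_x_zero hx, hSq, map_sub, hfix _ hq2, zero_sub, neg_eq_zero, sub_eq_zero] at e0
  have hc : ∃ c : k, EV (lt k 0) 0 (EV (BB k) (ZZ k) G) = algebraMap k (AA k) c := by
    have e1 : EV (lt k 0) (0 : AA k) (EV (BB k) (ZZ k) G) = EV (0 : AA k) 0 G := by
      rw [EV_eq_EVn, EV_eq_EVn, EVn_comp, EV_eq_EVn]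
      congr 2
      funext a
      fin_cases a
      · change EV (lt k 0) 0 (BB k) = 0
        rw [BB, map_sub, map_mul, map_mul, EV_lt0, EV_lt1]; simp
      · change EV (lt k 0) 0 (ZZ k) = 0
        rw [ZZ, map_sub, map_mul, map_mul, map_mul, map_mul, EV_lt0, EV_lt1]; simp
    rw [e1]
    generalize G = X
    induction X using FA_induction with
    | h1 => exact ⟨1, by rw [map_one, map_one]⟩
    | hmul a X ih =>
      refine ⟨0, ?_⟩
      rw [map_mul, map_zero]
      fin_cases a
      · change EV 0 0 (lt k 0) * _ = 0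
        rw [EV_lt0, zero_mul]
      · change EV 0 0 (lt k 1) * _ = 0
        rw [EV_lt1, zero_mul]
    | hadd X Y hX hY =>
      obtain ⟨c, hc⟩ := hX
      obtain ⟨d, hd⟩ := hY
      exact ⟨c + d, by rw [map_add, map_add, hc, hd]⟩
    | hsmul c X hX =>
      obtain ⟨d, hd⟩ := hX
      exact ⟨c * d, by rw [map_smul, hd, map_mul, Algebra.smul_def]⟩
  obtain ⟨c, hc⟩ := hc
  refine ⟨algebraMap k (AA k) c - G, fun Y hY => ?_⟩
  have hfin : H - EV (BB k) (ZZ k) (algebraMap k (AA k) c - G) ∈ Iy k := by
    rw [map_sub, AlgHom.commutes, ← hc, ← e0, ← hSq]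
    exact hS
  have h5 := Iy_coeff hfin hY
  rw [MonoidAlgebra.coeff_sub, Finsupp.sub_apply, sub_eq_zero] at h5
  exact h5

end Core

end MP446Z
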