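import Pool.Agent.Lib.MP_446dfa_ag.ddi.FAlg

set_option linter.all false

/-!
# The algebra `k⟨x, y⟩ / (y²)` in characteristic two
-/

noncomputable section

namespace MP446Z

open MP446 MP446Y

universe u v w

section Ideal

variable (k : Type v) [CommRing k]

/-- the ideal generated by `y²` -/
def Iy : Submodule k (AA k) :=
  Submodule.span k {r | ∃ a b : AA k, r = a * (lt k 1 * lt k 1) * b}

variable {k}

lemma mem_Iy (a b : AA k) : a * (lt k 1 * lt k 1) * b ∈ Iy k := Submodule.subset_span ⟨a, b, rfl⟩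

lemma Iy_mul_left {X : AA k} (h : X ∈ Iy k) (Y : AA k) : Y * X ∈ Iy k := by
  induction h using Submodule.span_induction with
  | mem x hx =>
    obtain ⟨a, b, rfl⟩ := hx
    have := mem_Iy (Y * a) b
    simpa only [mul_assoc] using this
  | zero => rw [mul_zero]; exact Submodule.zero_mem _
  | add x y _ _ hx hy => rw [mul_add]; exact Submodule.add_mem _ hx hy
  | smul c x _ hx => rw [mul_smul_comm]; exact Submodule.smul_mem _ _ hx

lemma Iy_mul_right {X : AA k} (h : X ∈ Iy k) (Y : AA k) : X * Y ∈ Iy k := by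
  induction h using Submodule.span_induction with
  | mem x hx =>
    obtain ⟨a, b, rfl⟩ := hx
    have := mem_Iy a (b * Y)
    simpa only [mul_assoc] using this
  | zero => rw [zero_mul]; exact Submodule.zero_mem _
  | add x y _ _ hx hy => rw [add_mul]; exact Submodule.add_mem _ hx hy
  | smul c x _ hx => rw [smul_mul_assoc]; exact Submodule.smul_mem _ _ hx

lemma Iy_EV {E : Type*} [Ring E] [Algebra k E] {p q : E} (hq : q * q = 0) {X : AA k}
    (h : X ∈ Iy k) : EV p q X = 0 := by
  induction h using Submodule.span_induction with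
  | mem x hx =>
    obtain ⟨a, b, rfl⟩ := hx
    rw [map_mul, map_mul, map_mul, EV_eq_EVn p q (lt k 1), ← letter_eq_lt, EVn_letter]
    simp [hq]
  | zero => rw [map_zero]
  | add x y _ _ hx hy => rw [map_add, hx, hy, add_zero]
  | smul c x _ hx => rw [map_smul, hx, smul_zero]

lemma two_smul_zero (h2 : (2 : k) = 0) {M : Type*} [AddCommGroup M] [Module k M] (r : M) :
    r + r = 0 := by rw [← two_smul k r, h2, zero_smul]

lemma neg_eq' (h2 : (2 : k) = 0) {M : Type*} [AddCommGroup M] [Module k M] (r : M) :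
    -r = r := (eq_neg_of_add_eq_zero_left (two_smul_zero h2 r)).symm

lemma sub_eq' (h2 : (2 : k) = 0) {M : Type*} [AddCommGroup M] [Module k M] (r s : M) :
    r - s = r + s := by rw [sub_eq_add_neg, neg_eq' h2]

lemma Dl_one (l : Fin 2) : Dl k l (1 : AA k) = 0 := by
  rw [← ow_nil, Dl_ow]; rfl

lemma Dl_lt (l i : Fin 2) : Dl k l (lt k i) = if i = l then 1 else 0 := by
  rw [lt, Dl_ow]
  simp [del]

lemma Iy_Dl (h2 : (2 : k) = 0) (l : Fin 2) {X : AA k} (h : X ∈ Iy k) : Dl k l X ∈ Iy k := by
  induction h using Submodule.span_induction with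
  | mem x hx =>
    obtain ⟨a, b, rfl⟩ := hx
    have e : Dl k l (lt k 1 * lt k 1) = 0 := by
      rw [Dl_mul, Dl_lt]
      split_ifs
      · rw [one_mul, mul_one]; exact two_smul_zero h2 _
      · simp
    rw [Dl_mul, Dl_mul, e, mul_zero, add_zero]
    exact Submodule.add_mem _ (mem_Iy _ _) (mem_Iy _ _)
  | zero => rw [map_zero]; exact Submodule.zero_mem _
  | add x y _ _ hx hy => rw [map_add]; exact Submodule.add_mem _ hx hy
  | smul c x _ hx => rw [map_smul]; exact Submodule.smul_mem _ _ hx

lemma gd_mid (U V : List (Fin 2)) : gd (U ++ 1 :: 1 :: V) = false := by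
  induction U with
  | nil => simp [gd]
  | cons i U ih => rw [List.cons_append]; simp only [gd, ih, Bool.and_false]

lemma FA_coeff_expand {A : Type w} (X : FA k A) :
    X = X.coeff.sum (fun w c => c • MonoidAlgebra.of k (FreeMonoid A) w) := by
  induction X using MonoidAlgebra.induction_linear with
  | zero => simp
  | add f g hf hg =>
    rw [MonoidAlgebra.coeff_add, Finsupp.sum_add_index' (by simp) (by intros; rw [add_smul]),
      ← hf, ← hg]
  | single w c =>
    rw [MonoidAlgebra.coeff_single, Finsupp.sum_single_index (by simp), FA_single]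

lemma Iy_coeff {X : AA k} (h : X ∈ Iy k) {Y : List (Fin 2)} (hY : gd Y = true) :
    X.coeff (FreeMonoid.ofList Y) = 0 := by
  induction h using Submodule.span_induction with
  | mem x hx =>
    obtain ⟨a, b, rfl⟩ := hx
    induction a using MonoidAlgebra.induction_linear with
    | zero => simp
    | add f g hf hg =>
      rw [add_mul, add_mul, MonoidAlgebra.coeff_add, Finsupp.add_apply, hf, hg, add_zero]
    | single w c =>
      induction b using MonoidAlgebra.induction_linear with
      | zero => simp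
      | add f g hf hg => rw [mul_add, MonoidAlgebra.coeff_add, Finsupp.add_apply, hf, hg, add_zero]
      | single w' c' =>
        rw [single_eq, single_eq, smul_mul_assoc, smul_mul_smul_comm, lt, ← ow_append,
          ← ow_append, ← ow_append, MonoidAlgebra.coeff_smul, Finsupp.smul_apply, ow_coeff,
          if_neg, smul_zero]
        rintro rfl
        have := gd_mid (FreeMonoid.toList w) (FreeMonoid.toList w')
        simp only [List.append_assoc, List.cons_append, List.nil_append] at hY
        rw [this] at hY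
        exact absurd hY (by simp)
  | zero => simp
  | add x y _ _ hx hy => rw [MonoidAlgebra.coeff_add, Finsupp.add_apply, hx, hy, add_zero]
  | smul c x _ hx => rw [MonoidAlgebra.coeff_smul, Finsupp.smul_apply, hx, smul_zero]

lemma ow_mem_Iy {Y : List (Fin 2)} (hY : gd Y = false) : ow k Y ∈ Iy k := by
  induction Y with
  | nil => simp [gd] at hY
  | cons i Y ih =>
    by_cases h1 : gd Y = true
    · have h3 : i = 1 ∧ Y.head? = some 1 := by
        by_contra h4
        simp only [gd, h1, Bool.and_true, Bool.not_eq_false', decide_eq_true_eq] at hY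
        exact h4 hY
      obtain ⟨rfl, h4⟩ := h3
      cases Y with
      | nil => simp at h4
      | cons j Y =>
        simp only [List.head?_cons, Option.some.injEq] at h4
        subst h4
        rw [ow_cons, ow_cons, ← mul_assoc]
        simpa using mem_Iy (1 : AA k) (ow k Y)
    · rw [ow_cons]
      exact Iy_mul_left (ih (by simpa using h1)) _

lemma mem_Iy_of_coeff {X : AA k} (h : ∀ Y, gd Y = true → X.coeff (FreeMonoid.ofList Y) = 0) :
    X ∈ Iy k := by
  rw [FA_coeff_expand X]
  refine Submodule.sum_mem _ (fun w hw => Submodule.smul_mem _ _ ?_)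
  have h1 : gd (FreeMonoid.toList w) = false := by
    by_contra h2
    have h3 := h (FreeMonoid.toList w) (by simpa using h2)
    rw [FreeMonoid.ofList_toList] at h3
    exact (Finsupp.mem_support_iff.1 hw) h3
  have := ow_mem_Iy (k := k) h1
  rwa [ow, FreeMonoid.ofList_toList] at this

end Ideal

section Span

variable (k : Type v) [CommRing k]

/-- the homomorphism `k⟨X, B, Z⟩ → k⟨x, y⟩`, `X ↦ x²`, `B ↦ [x, y]`, `Z ↦ [x², y]` -/
def j3 : FA k (Fin 3) →ₐ[k] AA k := EVn ![lt k 0 * lt k 0, BB k, ZZ k]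

/-- `[x, ·]` -/
def dX : FA k (Fin 3) →ₗ[k] FA k (Fin 3) :=
  derF ![0, letter k 2, letter k 0 * letter k 1 - letter k 1 * letter k 0]

/-- `[y, ·]` modulo `y²` -/
def dY : FA k (Fin 3) →ₗ[k] FA k (Fin 3) := derF ![letter k 2, 0, 0]

variable {k}

lemma j3_zero : j3 k (letter k 0) = lt k 0 * lt k 0 := by simp [j3]
lemma j3_one : j3 k (letter k 1) = BB k := by simp [j3]
lemma j3_two : j3 k (letter k 2) = ZZ k := by simp [j3]

/-- `x j(s) = j(s) x + j(dX s)` -/
lemma x_j3 (h2 : (2 : k) = 0) (s : FA k (Fin 3)) :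
    lt k 0 * j3 k s = j3 k s * lt k 0 + j3 k (dX k s) := by
  induction s using FA_induction with
  | h1 => simp [dX]
  | hmul a X ih =>
    have key : lt k 0 * j3 k (letter k a) = j3 k (letter k a) * lt k 0 + j3 k (dX k (letter k a)) := by
      fin_cases a
      · change lt k 0 * j3 k (letter k 0) = j3 k (letter k 0) * lt k 0 + j3 k (dX k (letter k 0))
        rw [j3_zero, dX, derF_letter]
        simp [mul_assoc]
      · change lt k 0 * j3 k (letter k 1) = j3 k (letter k 1) * lt k 0 + j3 k (dX k (letter k 1))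
        rw [j3_one, dX, derF_letter]
        change _ = _ + j3 k (letter k 2)
        rw [j3_two, BB, ZZ]
        rw [← sub_eq_zero]
        have e : lt k 0 * (lt k 0 * lt k 1 - lt k 1 * lt k 0) -
          ((lt k 0 * lt k 1 - lt k 1 * lt k 0) * lt k 0 +
            (lt k 0 * lt k 0 * lt k 1 - lt k 1 * (lt k 0 * lt k 0))) =
          -(lt k 0 * lt k 1 * lt k 0 + lt k 0 * lt k 1 * lt k 0) +
            (lt k 1 * lt k 0 * lt k 0 + lt k 1 * lt k 0 * lt k 0) := by noncomm_ring
        rw [e, two_smul_zero h2, two_smul_zero h2]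
        simp
      · change lt k 0 * j3 k (letter k 2) = j3 k (letter k 2) * lt k 0 + j3 k (dX k (letter k 2))
        rw [j3_two, dX, derF_letter]
        change _ = _ + j3 k (letter k 0 * letter k 1 - letter k 1 * letter k 0)
        rw [map_sub, map_mul, map_mul, j3_zero, j3_one, BB, ZZ]
        noncomm_ring
    rw [map_mul, ← mul_assoc, key, add_mul, mul_assoc, ih]
    have e2 : dX k (letter k a * X) = letter k a * dX k X + dX k (letter k a) * X := derF_mul _ _ _
    rw [e2, map_add, map_mul, map_mul]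
    noncomm_ring
  | hadd X Y hX hY => rw [map_add, mul_add, hX, hY, map_add, map_add, add_mul]; abel
  | hsmul c X hX =>
    rw [map_smul, mul_smul_comm, hX, map_smul, map_smul, smul_mul_assoc, smul_add]

/-- `y j(s) ≡ j(s) y + j(dY s)` modulo `y²` -/
lemma y_j3 (h2 : (2 : k) = 0) (s : FA k (Fin 3)) :
    lt k 1 * j3 k s - (j3 k s * lt k 1 + j3 k (dY k s)) ∈ Iy k := by
  have hyy (a b : AA k) : a * (lt k 1 * lt k 1) * b ∈ Iy k := mem_Iy a b
  induction s using FA_induction with
  | h1 => simp [dY]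
  | hmul a X ih =>
    have key : lt k 1 * j3 k (letter k a) -
        (j3 k (letter k a) * lt k 1 + j3 k (dY k (letter k a))) ∈ Iy k := by
      fin_cases a
      · change lt k 1 * j3 k (letter k 0) -
          (j3 k (letter k 0) * lt k 1 + j3 k (dY k (letter k 0))) ∈ Iy k
        rw [j3_zero, dY, derF_letter]
        change _ - (_ + j3 k (letter k 2)) ∈ _
        rw [j3_two, ZZ]
        have e : lt k 1 * (lt k 0 * lt k 0) - (lt k 0 * lt k 0 * lt k 1 +
            (lt k 0 * lt k 0 * lt k 1 - lt k 1 * (lt k 0 * lt k 0))) =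
          (lt k 1 * (lt k 0 * lt k 0) + lt k 1 * (lt k 0 * lt k 0)) -
            (lt k 0 * lt k 0 * lt k 1 + lt k 0 * lt k 0 * lt k 1) := by noncomm_ring
        rw [e, two_smul_zero h2, two_smul_zero h2, sub_zero]
        exact Submodule.zero_mem _
      · change lt k 1 * j3 k (letter k 1) -
          (j3 k (letter k 1) * lt k 1 + j3 k (dY k (letter k 1))) ∈ Iy k
        rw [j3_one, dY, derF_letter]
        change _ - (_ + j3 k 0) ∈ _
        rw [map_zero, BB]
        have e : lt k 1 * (lt k 0 * lt k 1 - lt k 1 * lt k 0) -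
            ((lt k 0 * lt k 1 - lt k 1 * lt k 0) * lt k 1 + 0) =
          (lt k 1 * lt k 0 * lt k 1 + lt k 1 * lt k 0 * lt k 1) -
            (1 * (lt k 1 * lt k 1) * lt k 0 + lt k 0 * (lt k 1 * lt k 1) * 1) := by noncomm_ring
        rw [e, two_smul_zero h2]
        exact Submodule.sub_mem _ (Submodule.zero_mem _) (Submodule.add_mem _ (hyy _ _) (hyy _ _))
      · change lt k 1 * j3 k (letter k 2) -
          (j3 k (letter k 2) * lt k 1 + j3 k (dY k (letter k 2))) ∈ Iy k
        rw [j3_two, dY, derF_letter]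
        change _ - (_ + j3 k 0) ∈ _
        rw [map_zero, ZZ]
        have e : lt k 1 * (lt k 0 * lt k 0 * lt k 1 - lt k 1 * (lt k 0 * lt k 0)) -
            ((lt k 0 * lt k 0 * lt k 1 - lt k 1 * (lt k 0 * lt k 0)) * lt k 1 + 0) =
          (lt k 1 * lt k 0 * lt k 0 * lt k 1 + lt k 1 * lt k 0 * lt k 0 * lt k 1) -
            (1 * (lt k 1 * lt k 1) * (lt k 0 * lt k 0) +
              (lt k 0 * lt k 0) * (lt k 1 * lt k 1) * 1) := by noncomm_ring
        rw [e, two_smul_zero h2]
        exact Submodule.sub_mem _ (Submodule.zero_mem _) (Submodule.add_mem _ (hyy _ _) (hyy _ _))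
    have e2 : dY k (letter k a * X) = letter k a * dY k X + dY k (letter k a) * X := derF_mul _ _ _
    have h3 := Iy_mul_right key (j3 k X)
    have h4 := Iy_mul_left ih (j3 k (letter k a))
    have h5 := Submodule.add_mem _ h3 h4
    convert h5 using 1
    rw [e2, map_add, map_mul, map_mul, map_mul]
    noncomm_ring
  | hadd X Y hX hY =>
    convert Submodule.add_mem _ hX hY using 1
    rw [map_add, map_add, map_add]
    noncomm_ring
  | hsmul c X hX =>
    convert Submodule.smul_mem _ c hX using 1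
    rw [map_smul, map_smul, map_smul, mul_smul_comm, smul_mul_assoc, smul_sub, smul_add]

lemma span_j3 (h2 : (2 : k) = 0) (X : AA k) : ∃ s1 s2 s3 s4 : FA k (Fin 3),
    X - (j3 k s1 + j3 k s2 * lt k 0 + j3 k s3 * lt k 1 + j3 k s4 * (lt k 0 * lt k 1)) ∈ Iy k := by
  induction X using FA_induction with
  | h1 => exact ⟨1, 0, 0, 0, by simp⟩
  | hmul a X ih =>
    obtain ⟨s1, s2, s3, s4, hs⟩ := ih
    fin_cases a
    · change ∃ s1 s2 s3 s4 : FA k (Fin 3), lt k 0 * X - (j3 k s1 + j3 k s2 * lt k 0 +
        j3 k s3 * lt k 1 + j3 k s4 * (lt k 0 * lt k 1)) ∈ Iy k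
      refine ⟨dX k s1 + s2 * letter k 0, s1 + dX k s2, dX k s3 + s4 * letter k 0, s3 + dX k s4, ?_⟩
      have h1 := Iy_mul_left hs (lt k 0)
      convert h1 using 1
      rw [mul_sub, mul_add, mul_add, mul_add, ← mul_assoc (lt k 0) (j3 k s2),
        ← mul_assoc (lt k 0) (j3 k s3), ← mul_assoc (lt k 0) (j3 k s4), x_j3 h2 s1, x_j3 h2 s2,
        x_j3 h2 s3, x_j3 h2 s4]
      simp only [map_add, map_mul, j3_zero]
      noncomm_ring
    · change ∃ s1 s2 s3 s4 : FA k (Fin 3), lt k 1 * X - (j3 k s1 + j3 k s2 * lt k 0 +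
        j3 k s3 * lt k 1 + j3 k s4 * (lt k 0 * lt k 1)) ∈ Iy k
      refine ⟨dY k s1 - s2 * letter k 1, dY k s2, s1 + dY k s3 - s4 * letter k 1, s2 + dY k s4, ?_⟩
      have h1 := Iy_mul_left hs (lt k 1)
      have k1 := y_j3 h2 s1
      have k2 := Iy_mul_right (y_j3 h2 s2) (lt k 0)
      have k3 := Iy_mul_right (y_j3 h2 s3) (lt k 1)
      have k4 := Iy_mul_right (y_j3 h2 s4) (lt k 0 * lt k 1)
      have m1 := mem_Iy (j3 k s3) 1
      have m2 := mem_Iy (j3 k s4 * lt k 0) 1
      have key := Submodule.add_mem _ (Submodule.add_mem _ (Submodule.add_mem _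
        (Submodule.add_mem _ h1 k1) (Submodule.add_mem _ k2 k3)) (Submodule.add_mem _ k4 m1)) m2
      convert key using 1
      simp only [map_add, map_sub, map_mul, j3_one, BB]
      noncomm_ring
  | hadd X Y hX hY =>
    obtain ⟨s1, s2, s3, s4, hs⟩ := hX
    obtain ⟨t1, t2, t3, t4, ht⟩ := hY
    refine ⟨s1 + t1, s2 + t2, s3 + t3, s4 + t4, ?_⟩
    convert Submodule.add_mem _ hs ht using 1
    simp only [map_add]
    noncomm_ring
  | hsmul c X hX =>
    obtain ⟨s1, s2, s3, s4, hs⟩ := hX
    refine ⟨c • s1, c • s2, c • s3, c • s4, ?_⟩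
    convert Submodule.smul_mem _ c hs using 1
    simp only [map_smul, smul_mul_assoc, smul_sub, smul_add]

lemma Dl_j3 (h2 : (2 : k) = 0) (l : Fin 2) (s : FA k (Fin 3)) : Dl k l (j3 k s) = 0 := by
  induction s using FA_induction with
  | h1 => rw [map_one, Dl_one]
  | hmul a X ih =>
    have hxx : Dl k l (lt k 0 * lt k 0) = 0 := by
      rw [Dl_mul, Dl_lt]
      split_ifs
      · rw [one_mul, mul_one]; exact two_smul_zero h2 _
      · simp
    have key : Dl k l (j3 k (letter k a)) = 0 := by
      fin_cases a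
      · change Dl k l (j3 k (letter k 0)) = 0
        rw [j3_zero, hxx]
      · change Dl k l (j3 k (letter k 1)) = 0
        rw [j3_one, BB, map_sub, Dl_mul, Dl_mul, Dl_lt, Dl_lt]
        fin_cases l <;> simp
      · change Dl k l (j3 k (letter k 2)) = 0
        rw [j3_two, ZZ, map_sub, Dl_mul (l := l) (lt k 0 * lt k 0), Dl_mul (l := l) (lt k 1), hxx,
          Dl_lt]
        fin_cases l <;> simp
    rw [map_mul, Dl_mul, key, ih, zero_mul, mul_zero, add_zero]
  | hadd X Y hX hY => rw [map_add, map_add, hX, hY, add_zero]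
  | hsmul c X hX => rw [map_smul, map_smul, hX, smul_zero]

/-- a polynomial killed by the two derivations `∂/∂x`, `∂/∂y` is, modulo `y²`, a polynomial in
`x²`, `[x, y]`, `[x², y]` -/
theorem exists_j3 (h2 : (2 : k) = 0) (H : AA k) (hD : ∀ l, Dl k l H = 0) :
    ∃ s : FA k (Fin 3), H - j3 k s ∈ Iy k := by
  obtain ⟨s1, s2, s3, s4, hs⟩ := span_j3 h2 H
  have h1 := Iy_Dl h2 1 hs
  rw [map_sub, hD, map_add, map_add, map_add, Dl_j3 h2, Dl_mul, Dl_j3 h2, Dl_mul, Dl_j3 h2, Dl_mul,
    Dl_j3 h2, Dl_mul, Dl_lt, Dl_lt] at h1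
  simp only [zero_mul, zero_add, Fin.isValue, zero_ne_one, if_false, mul_zero, if_true,
    mul_one, zero_sub] at h1
  have h1' := Submodule.neg_mem _ h1
  rw [neg_neg] at h1'
  have h0 := Iy_Dl h2 0 hs
  rw [map_sub, hD, map_add, map_add, map_add, Dl_j3 h2, Dl_mul, Dl_j3 h2, Dl_mul, Dl_j3 h2, Dl_mul,
    Dl_j3 h2, Dl_mul, Dl_lt, Dl_lt] at h0
  simp only [zero_mul, zero_add, Fin.isValue, one_ne_zero, if_false, mul_zero, if_true,
    mul_one, zero_sub, add_zero, one_mul] at h0
  have h0' := Submodule.neg_mem _ h0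
  rw [neg_neg] at h0'
  have h4 := Iy_Dl h2 0 h1'
  rw [map_add, Dl_j3 h2, Dl_mul, Dl_j3 h2, Dl_lt] at h4
  simp only [zero_mul, zero_add, if_true, mul_one] at h4
  have h3 : j3 k s3 ∈ Iy k := by
    have := Submodule.sub_mem _ h1' (Iy_mul_right h4 (lt k 0))
    simpa using this
  have h2' : j3 k s2 ∈ Iy k := by
    have := Submodule.sub_mem _ h0' (Iy_mul_right h4 (lt k 1))
    simpa using this
  refine ⟨s1, ?_⟩
  have key := Submodule.add_mem _ hs (Submodule.add_mem _ (Iy_mul_right h2' (lt k 0))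
    (Submodule.add_mem _ (Iy_mul_right h3 (lt k 1)) (Iy_mul_right h4 (lt k 0 * lt k 1))))
  convert key using 1
  abel

end Span

end MP446Z
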