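import Pool.Agent.Lib.MP_446dfa_ag.ddi.CoreA

set_option linter.all false

/-!
# Two by two matrices satisfying the relations of `𝔭₅` in characteristic two
-/

noncomputable section

namespace MP446Z

open MP446 MP446Y

universe u v w

section Mat

/-- the relations needed for the construction of the matrices -/
structure ERel {E : Type*} [Ring E] (x1 x2 x4 x5 : E) : Prop where
  c14 : x1 * x4 = x4 * x1
  c24 : x2 * x4 = x4 * x2
  c25 : x2 * x5 = x5 * x2
  s2 : x2 * x2 = 0
  s4 : x4 * x4 = 0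
  s15 : (x1 + x5) * (x1 + x5) = 0
  br : x1 * x2 - x2 * x1 = x4 * x5 - x5 * x4

/-- the five matrices -/
def XX {E : Type*} [Ring E] (x1 x2 x4 x5 : E) : Fin 5 → Matrix (Fin 2) (Fin 2) E :=
  ![!![x1, 0; 0, x1], !![x2, x5 * x5; 0, x2], !![0, 0; 1, 0], !![x4, x1 * x1; 0, x4],
    !![x5, 0; 0, x5]]

lemma XX_cyc5 {E : Type*} [Ring E] {x1 x2 x4 x5 : E} (h2 : (2 : E) = 0)
    (h : ERel x1 x2 x4 x5) : Cyc5 (XX x1 x2 x4 x5) where
  comm := by
    intro i
    fin_cases i
    · change XX x1 x2 x4 x5 0 * XX x1 x2 x4 x5 2 = XX x1 x2 x4 x5 2 * XX x1 x2 x4 x5 0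
      simp [XX, Matrix.mul_fin_two]
    · change XX x1 x2 x4 x5 1 * XX x1 x2 x4 x5 3 = XX x1 x2 x4 x5 3 * XX x1 x2 x4 x5 1
      simp only [XX, Matrix.cons_val, Matrix.mul_fin_two]
      have e : x2 * (x1 * x1) + x5 * x5 * x4 = x4 * (x5 * x5) + x1 * x1 * x2 := by
        linear_combination (norm := noncomm_ring) x2 * h.s15 - h.s15 * x2 - (x1 + x5) * h.c25 -
          h.c25 * (x1 + x5) + x5 * h.br + h.br * x5
      rw [e, h.c24]
      simp
    · change XX x1 x2 x4 x5 2 * XX x1 x2 x4 x5 4 = XX x1 x2 x4 x5 4 * XX x1 x2 x4 x5 2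
      simp only [XX, Matrix.cons_val, Matrix.mul_fin_two]
      ext i j
      fin_cases i <;> fin_cases j <;> simp
    · change XX x1 x2 x4 x5 3 * XX x1 x2 x4 x5 0 = XX x1 x2 x4 x5 0 * XX x1 x2 x4 x5 3
      simp only [XX, Matrix.cons_val, Matrix.mul_fin_two]
      rw [h.c14]
      simp [mul_assoc]
    · change XX x1 x2 x4 x5 4 * XX x1 x2 x4 x5 1 = XX x1 x2 x4 x5 1 * XX x1 x2 x4 x5 4
      simp only [XX, Matrix.cons_val, Matrix.mul_fin_two]
      rw [h.c25]
      simp [mul_assoc]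
  sum := by
    rw [Fin.sum_univ_five]
    change (XX x1 x2 x4 x5 0 * XX x1 x2 x4 x5 1 - XX x1 x2 x4 x5 1 * XX x1 x2 x4 x5 0) +
      (XX x1 x2 x4 x5 1 * XX x1 x2 x4 x5 2 - XX x1 x2 x4 x5 2 * XX x1 x2 x4 x5 1) +
      (XX x1 x2 x4 x5 2 * XX x1 x2 x4 x5 3 - XX x1 x2 x4 x5 3 * XX x1 x2 x4 x5 2) +
      (XX x1 x2 x4 x5 3 * XX x1 x2 x4 x5 4 - XX x1 x2 x4 x5 4 * XX x1 x2 x4 x5 3) +
      (XX x1 x2 x4 x5 4 * XX x1 x2 x4 x5 0 - XX x1 x2 x4 x5 0 * XX x1 x2 x4 x5 4) = 0
    simp only [XX, Matrix.cons_val, Matrix.mul_fin_two]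
    ext i j
    fin_cases i <;> fin_cases j
    · simp
      linear_combination (norm := noncomm_ring) h.s15 - h.br +
        h2 * (x1 * x2 - x2 * x1 - x1 * x1 - x1 * x5)
    · simp
      linear_combination (norm := noncomm_ring) x1 * h.s15 - h.s15 * x1
    · simp
    · simp
      linear_combination (norm := noncomm_ring) h.s15 - h.br +
        h2 * (x1 * x2 - x2 * x1 - x5 * x5 - x1 * x5)

variable {k : Type v} [CommRing k]

lemma EV_lt0 {E : Type*} [Ring E] [Algebra k E] (p q : E) : EV p q (lt k 0) = p := by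
  rw [EV_eq_EVn, ← letter_eq_lt, EVn_letter]; rfl

lemma EV_lt1 {E : Type*} [Ring E] [Algebra k E] (p q : E) : EV p q (lt k 1) = q := by
  rw [EV_eq_EVn, ← letter_eq_lt, EVn_letter]; rfl

lemma EV_swap {E : Type*} [Ring E] [Algebra k E] (p q : E) {H : AA k}
    (hanti : EV (lt k 1) (lt k 0) H = H) : EV q p H = EV p q H := by
  have h : (EV p q (k := k)).comp (EV (lt k 1) (lt k 0)) = EV q p := by
    rw [EV, EV]
    apply EVn_hom_ext (k := k)
    intro a
    fin_cases a
    · change EV p q (EV (lt k 1) (lt k 0) (lt k 0)) = EV q p (lt k 0)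
      rw [EV_lt0, EV_lt1, EV_lt0]
    · change EV p q (EV (lt k 1) (lt k 0) (lt k 1)) = EV q p (lt k 1)
      rw [EV_lt1, EV_lt0, EV_lt1]
  rw [← h, AlgHom.comp_apply, hanti]

/-- evaluation at upper triangular matrices -/
lemma EV_tri {E : Type*} [Ring E] [Algebra k E] (P Q : Matrix (Fin 2) (Fin 2) E)
    (hP : P 1 0 = 0) (hQ : Q 1 0 = 0) (X : AA k) :
    (EV P Q X) 1 0 = 0 ∧ (EV P Q X) 1 1 = EV (P 1 1) (Q 1 1) X := by
  induction X using FA_induction with
  | h1 => simp
  | hmul a X ih =>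
    rw [map_mul, map_mul, Matrix.mul_apply, Matrix.mul_apply, Fin.sum_univ_two, Fin.sum_univ_two,
      ih.1, ih.2]
    fin_cases a
    · change (EV P Q (lt k 0)) 1 0 * _ + _ = _ ∧ (EV P Q (lt k 0)) 1 0 * _ +
        (EV P Q (lt k 0)) 1 1 * _ = EV (P 1 1) (Q 1 1) (lt k 0) * _
      rw [EV_lt0, EV_lt0, hP]
      simp
    · change (EV P Q (lt k 1)) 1 0 * _ + _ = _ ∧ (EV P Q (lt k 1)) 1 0 * _ +
        (EV P Q (lt k 1)) 1 1 * _ = EV (P 1 1) (Q 1 1) (lt k 1) * _
      rw [EV_lt1, EV_lt1, hQ]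
      simp
  | hadd X Y hX hY =>
    rw [map_add, map_add, Matrix.add_apply, Matrix.add_apply, hX.1, hX.2, hY.1, hY.2, add_zero]
    exact ⟨rfl, rfl⟩
  | hsmul c X hX =>
    rw [map_smul, map_smul, Matrix.smul_apply, Matrix.smul_apply, hX.1, hX.2, smul_zero]
    exact ⟨rfl, rfl⟩

lemma adjoin_comm {E : Type*} [Ring E] [Algebra k E] {c a z : E} (h : a * c = c * a)
    (hz : z ∈ Algebra.adjoin k {c}) : a * z = z * a := by
  induction hz using Algebra.adjoin_induction with
  | mem x hx => rw [Set.mem_singleton_iff.1 hx, h]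
  | algebraMap r => exact (Algebra.commutes r a).symm
  | add x y _ _ hx hy => rw [mul_add, add_mul, hx, hy]
  | mul x y _ _ hx hy => rw [← mul_assoc, hx, mul_assoc, hy, mul_assoc]

lemma EV_block {E : Type*} [Ring E] [Algebra k E] (h2 : (2 : E) = 0) (a c : E) (ha : a * a = 0)
    (hc : a * c = c * a) (X : AA k) : ∃ p q r t : E,
    p ∈ Algebra.adjoin k {c} ∧ q ∈ Algebra.adjoin k {c} ∧ r ∈ Algebra.adjoin k {c} ∧
    t ∈ Algebra.adjoin k {c} ∧
    EV !![a, c; 0, a] !![0, 0; 1, 0] X =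
      !![p + q * a, q * c; r + t * a, p + q * a + t * c] ∧
    EV !![a, c; 0, a] !![0, 0; 1, 0] (Dl k 0 X) = !![q, 0; t, q] := by
  have hcm : c ∈ Algebra.adjoin k {c} := Algebra.subset_adjoin rfl
  induction X using FA_induction with
  | h1 =>
    refine ⟨1, 0, 0, 0, Subalgebra.one_mem _, Subalgebra.zero_mem _, Subalgebra.zero_mem _,
      Subalgebra.zero_mem _, ?_, ?_⟩
    · rw [map_one]; ext i j; fin_cases i <;> fin_cases j <;> simp
    · rw [Dl_one, map_zero]; ext i j; fin_cases i <;> fin_cases j <;> simp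
  | hmul i X ih =>
    obtain ⟨p, q, r, t, hp, hq, hr, ht, h1, h3⟩ := ih
    have cp := adjoin_comm hc hp
    have cq := adjoin_comm hc hq
    have cr := adjoin_comm hc hr
    have ct := adjoin_comm hc ht
    have dp := adjoin_comm (k := k) (rfl : c * c = c * c) hp
    have dq := adjoin_comm (k := k) (rfl : c * c = c * c) hq
    have dr := adjoin_comm (k := k) (rfl : c * c = c * c) hr
    have dt := adjoin_comm (k := k) (rfl : c * c = c * c) ht
    fin_cases i
    · refine ⟨r * c, p + t * c, 0, -r, Subalgebra.mul_mem _ hr hcm,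
        Subalgebra.add_mem _ hp (Subalgebra.mul_mem _ ht hcm), Subalgebra.zero_mem _,
        Subalgebra.neg_mem _ hr, ?_, ?_⟩
      · change EV _ _ (lt k 0 * X) = _
        rw [map_mul, EV_lt0, h1, Matrix.mul_fin_two]
        ext i j
        fin_cases i <;> fin_cases j
        · simp
          linear_combination (norm := noncomm_ring) cp + cq * a + q * ha + dr + dt * a
        · simp
          linear_combination (norm := noncomm_ring) cq * c + dp + dq * a + dt * c + q * hc +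
            h2 * (q * c * a)
        · simp
          linear_combination (norm := noncomm_ring) cr + ct * a + t * ha + h2 * (r * a)
        · simp
          linear_combination (norm := noncomm_ring) cp + cq * a + q * ha + ct * c + t * hc
      · change EV _ _ (Dl k 0 (lt k 0 * X)) = _
        rw [Dl_mul, Dl_lt, if_pos rfl, one_mul, map_add, map_mul, EV_lt0, h1, h3, Matrix.mul_fin_two]
        ext i j
        fin_cases i <;> fin_cases j
        · simp
          linear_combination (norm := noncomm_ring) cq + dt + h2 * (q * a)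
        · simp
          linear_combination (norm := noncomm_ring) dq + h2 * (q * c)
        · simp
          linear_combination (norm := noncomm_ring) ct + h2 * (r + t * a)
        · simp
          linear_combination (norm := noncomm_ring) cq + h2 * (q * a)
    · refine ⟨0, 0, p, q, Subalgebra.zero_mem _, Subalgebra.zero_mem _, hp, hq, ?_, ?_⟩
      · change EV _ _ (lt k 1 * X) = _
        rw [map_mul, EV_lt1, h1, Matrix.mul_fin_two]
        ext i j
        fin_cases i <;> fin_cases j <;> simp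
      · change EV _ _ (Dl k 0 (lt k 1 * X)) = _
        rw [Dl_mul, Dl_lt, if_neg (by decide), zero_mul, zero_add, map_mul, EV_lt1, h3,
          Matrix.mul_fin_two]
        ext i j
        fin_cases i <;> fin_cases j <;> simp
  | hadd X Y hX hY =>
    obtain ⟨p, q, r, t, hp, hq, hr, ht, h1, h3⟩ := hX
    obtain ⟨p', q', r', t', hp', hq', hr', ht', h1', h3'⟩ := hY
    refine ⟨p + p', q + q', r + r', t + t', Subalgebra.add_mem _ hp hp',
      Subalgebra.add_mem _ hq hq', Subalgebra.add_mem _ hr hr', Subalgebra.add_mem _ ht ht', ?_, ?_⟩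
    · rw [map_add, h1, h1']
      ext i j
      fin_cases i <;> fin_cases j <;> simp <;> noncomm_ring
    · rw [map_add, map_add, h3, h3']
      ext i j
      fin_cases i <;> fin_cases j <;> simp
  | hsmul z X hX =>
    obtain ⟨p, q, r, t, hp, hq, hr, ht, h1, h3⟩ := hX
    refine ⟨z • p, z • q, z • r, z • t, Subalgebra.smul_mem _ hp z, Subalgebra.smul_mem _ hq z,
      Subalgebra.smul_mem _ hr z, Subalgebra.smul_mem _ ht z, ?_, ?_⟩
    · rw [map_smul, h1]
      ext i j
      fin_cases i <;> fin_cases j <;> simp [smul_add, smul_mul_assoc]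
    · rw [map_smul, map_smul, h3]
      ext i j
      fin_cases i <;> fin_cases j <;> simp

lemma EV_block_entry {E : Type*} [Ring E] [Algebra k E] (h2 : (2 : E) = 0) (a c : E)
    (ha : a * a = 0) (hc : a * c = c * a) {X : AA k} (hX : Dl k 0 X = 0) :
    (EV !![a, c; 0, a] !![0, 0; 1, 0] X) 1 1 ∈ Algebra.adjoin k {c} := by
  obtain ⟨p, q, r, t, hp, hq, hr, ht, h1, h3⟩ := EV_block h2 a c ha hc X
  rw [hX, map_zero] at h3
  have hq0 : q = 0 := by
    have := congrFun (congrFun h3 0) 0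
    simpa using this.symm
  have ht0 : t = 0 := by
    have := congrFun (congrFun h3 1) 0
    simpa using this.symm
  rw [h1, hq0, ht0]
  simpa using hp

/-- the identity obtained from the lower right entries of the matrices -/
theorem E_identity (h2 : (2 : k) = 0) (H : AA k) (hD0 : Dl k 0 H = 0)
    (hanti : EV (lt k 1) (lt k 0) H = H)
    (hpent : ∀ (E : Type v) [Ring E] [Algebra k E] (x : Fin 5 → E), Cyc5 x →
      ∑ i : Fin 5, EV (x i) (x (i + 1)) H = 0)
    {E : Type v} [Ring E] [Algebra k E] {x1 x2 x4 x5 : E} (hE : ERel x1 x2 x4 x5) :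
    EV x1 x2 H + EV x5 x4 H ∈ Algebra.adjoin k {x1, x5} := by
  have h2E : (2 : E) = 0 := by
    rw [← map_ofNat (algebraMap k E) 2, h2, map_zero]
  have hp := hpent (Matrix (Fin 2) (Fin 2) E) (XX x1 x2 x4 x5) (XX_cyc5 h2E hE)
  rw [Fin.sum_univ_five] at hp
  have hp' := congrFun (congrFun hp 1) 1
  simp only [Matrix.add_apply, Matrix.zero_apply] at hp'
  have e1 : (EV (XX x1 x2 x4 x5 0) (XX x1 x2 x4 x5 (0 + 1)) H) 1 1 = EV x1 x2 H := by
    rw [(EV_tri _ _ rfl rfl H).2]; rfl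
  have e4 : (EV (XX x1 x2 x4 x5 3) (XX x1 x2 x4 x5 (3 + 1)) H) 1 1 = EV x5 x4 H := by
    rw [EV_swap _ _ hanti, (EV_tri _ _ rfl rfl H).2]; rfl
  have e5 : (EV (XX x1 x2 x4 x5 4) (XX x1 x2 x4 x5 (4 + 1)) H) 1 1 = EV x5 x1 H := by
    rw [(EV_tri _ _ rfl rfl H).2]; rfl
  have e2 : (EV (XX x1 x2 x4 x5 1) (XX x1 x2 x4 x5 (1 + 1)) H) 1 1 ∈
      Algebra.adjoin k {x5 * x5} := by
    apply EV_block_entry h2E x2 (x5 * x5) hE.s2 _ hD0
    rw [← mul_assoc, hE.c25, mul_assoc, hE.c25, mul_assoc]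
  have e3 : (EV (XX x1 x2 x4 x5 2) (XX x1 x2 x4 x5 (2 + 1)) H) 1 1 ∈
      Algebra.adjoin k {x1 * x1} := by
    rw [EV_swap _ _ hanti]
    apply EV_block_entry h2E x4 (x1 * x1) hE.s4 _ hD0
    rw [← mul_assoc, ← hE.c14, mul_assoc, ← hE.c14, mul_assoc]
  have m1 : x1 ∈ Algebra.adjoin k {x1, x5} := Algebra.subset_adjoin (by simp)
  have m5 : x5 ∈ Algebra.adjoin k {x1, x5} := Algebra.subset_adjoin (by simp)
  have e2' := Algebra.adjoin_le (S := Algebra.adjoin k {x1, x5}) (s := {x5 * x5})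
    (by simpa using Subalgebra.mul_mem _ m5 m5) e2
  have e3' := Algebra.adjoin_le (S := Algebra.adjoin k {x1, x5}) (s := {x1 * x1})
    (by simpa using Subalgebra.mul_mem _ m1 m1) e3
  have e5' : EV x5 x1 H ∈ Algebra.adjoin k {x1, x5} := by
    generalize H = X
    induction X using FA_induction with
    | h1 => rw [map_one]; exact Subalgebra.one_mem _
    | hmul a X ih =>
      rw [map_mul]
      refine Subalgebra.mul_mem _ ?_ ih
      fin_cases a
      · change EV x5 x1 (lt k 0) ∈ _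
        rw [EV_lt0]; exact m5
      · change EV x5 x1 (lt k 1) ∈ _
        rw [EV_lt1]; exact m1
    | hadd X Y hX hY => rw [map_add]; exact Subalgebra.add_mem _ hX hY
    | hsmul c X hX => rw [map_smul]; exact Subalgebra.smul_mem _ hX c
  rw [e1, e4, e5] at hp'
  have e : EV x1 x2 H + EV x5 x4 H = -((EV (XX x1 x2 x4 x5 1) (XX x1 x2 x4 x5 (1 + 1)) H) 1 1 +
      (EV (XX x1 x2 x4 x5 2) (XX x1 x2 x4 x5 (2 + 1)) H) 1 1 + EV x5 x1 H) := by
    rw [eq_neg_iff_add_eq_zero, ← hp']
    abel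
  rw [e]
  exact Subalgebra.neg_mem _ (Subalgebra.add_mem _ (Subalgebra.add_mem _ e2' e3') e5')

end Mat

end MP446Z
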