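import Pool.Agent.Lib.MP_446dfa_ag.ddi.CoreB

set_option linter.all false

/-!
# The elements of `k⟨x², [x, y], [x², y]⟩` coming from the pentagon relation
-/

noncomputable section

namespace MP446Z

open MP446 MP446Y

universe u v w

section Der

variable {k : Type v} [CommRing k] {A : Type w}

lemma der_sq (h2 : (2 : k) = 0) (d : A → FA k A) (h : ∀ a, derF d (d a) = 0) (u : FA k A) :
    derF d (derF d u) = 0 := by
  induction u using FA_induction with
  | h1 => rw [derF_one, map_zero]
  | hmul a X ih =>
    rw [derF_mul, derF_letter, map_add, derF_mul, derF_mul, derF_letter, ih, h, mul_zero, zero_mul,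
      zero_add, add_zero]
    exact two_smul_zero h2 _
  | hadd X Y hX hY => rw [map_add, map_add, hX, hY, add_zero]
  | hsmul c X hX => rw [map_smul, map_smul, hX, smul_zero]

lemma der_comm (d d' : A → FA k A) (b : FA k A)
    (h : ∀ a, derF d (d' a) = derF d' (d a) + (letter k a * b - b * letter k a)) (u : FA k A) :
    derF d (derF d' u) = derF d' (derF d u) + (u * b - b * u) := by
  induction u using FA_induction with
  | h1 => simp
  | hmul a X ih =>
    rw [derF_mul, derF_mul, derF_letter, derF_letter, map_add, map_add, derF_mul, derF_mul,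
      derF_mul, derF_mul, derF_letter, derF_letter, ih, h]
    noncomm_ring
  | hadd X Y hX hY => simp only [map_add, hX, hY]; noncomm_ring
  | hsmul c X hX =>
    simp only [map_smul, hX, smul_add, smul_sub, smul_mul_assoc, mul_smul_comm]

end Der

section Model

variable (k : Type v) [CommRing k]

/-- the free algebra on `α, β, δ` -/
abbrev TT : Type v := FA k (Fin 3)

/-- the derivation `α ↦ β` -/
def dp : TT k →ₗ[k] TT k := derF ![letter k 1, 0, 0]
/-- the derivation `α ↦ δ` -/
def dr : TT k →ₗ[k] TT k := derF ![letter k 2, 0, 0]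
/-- the derivation `α ↦ β`, `δ ↦ [α, β]` -/
def de : TT k →ₗ[k] TT k :=
  derF ![letter k 1, 0, letter k 0 * letter k 1 - letter k 1 * letter k 0]

variable {k}

lemma dp_mul (r s : TT k) : dp k (r * s) = r * dp k s + dp k r * s := derF_mul _ _ _
lemma dr_mul (r s : TT k) : dr k (r * s) = r * dr k s + dr k r * s := derF_mul _ _ _
lemma de_mul (r s : TT k) : de k (r * s) = r * de k s + de k r * s := derF_mul _ _ _

lemma dp_0 : dp k (letter k 0) = letter k 1 := derF_letter _ _
lemma dp_1 : dp k (letter k 1) = 0 := derF_letter _ _
lemma dp_2 : dp k (letter k 2) = 0 := derF_letter _ _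
lemma dr_0 : dr k (letter k 0) = letter k 2 := derF_letter _ _
lemma dr_1 : dr k (letter k 1) = 0 := derF_letter _ _
lemma dr_2 : dr k (letter k 2) = 0 := derF_letter _ _
lemma de_0 : de k (letter k 0) = letter k 1 := derF_letter _ _
lemma de_1 : de k (letter k 1) = 0 := derF_letter _ _
lemma de_2 : de k (letter k 2) = letter k 0 * letter k 1 - letter k 1 * letter k 0 :=
  derF_letter _ _

lemma dp_dp (h2 : (2 : k) = 0) (u : TT k) : dp k (dp k u) = 0 := by
  apply der_sq h2
  intro a
  fin_cases a
  · exact dp_1
  · exact map_zero _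
  · exact map_zero _

lemma dr_dr (h2 : (2 : k) = 0) (u : TT k) : dr k (dr k u) = 0 := by
  apply der_sq h2
  intro a
  fin_cases a
  · exact dr_2
  · exact map_zero _
  · exact map_zero _

lemma de_de (h2 : (2 : k) = 0) (u : TT k) : de k (de k u) = 0 := by
  apply der_sq h2
  intro a
  fin_cases a
  · exact de_1
  · exact map_zero _
  · change de k (letter k 0 * letter k 1 - letter k 1 * letter k 0) = 0
    rw [map_sub, de_mul, de_mul, de_0, de_1]
    simp

lemma de_dp (u : TT k) : de k (dp k u) = dp k (de k u) := by
  have := der_comm (k := k) ![letter k 1, 0, letter k 0 * letter k 1 - letter k 1 * letter k 0]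
    ![letter k 1, 0, 0] 0 (by
      intro a
      rw [mul_zero, zero_mul, sub_zero, add_zero]
      fin_cases a
      · change de k (letter k 1) = dp k (letter k 1)
        rw [de_1, dp_1]
      · change de k 0 = dp k 0
        rw [map_zero, map_zero]
      · change de k 0 = dp k (letter k 0 * letter k 1 - letter k 1 * letter k 0)
        rw [map_zero, map_sub, dp_mul, dp_mul, dp_0, dp_1]
        simp) u
  unfold de dp
  simpa using this

lemma dp_dr (u : TT k) : dp k (dr k u) = dr k (dp k u) := by
  have := der_comm (k := k) ![letter k 1, 0, 0] ![letter k 2, 0, 0] 0 (by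
      intro a
      rw [mul_zero, zero_mul, sub_zero, add_zero]
      fin_cases a
      · change dp k (letter k 2) = dr k (letter k 1)
        rw [dp_2, dr_1]
      · change dp k 0 = dr k 0
        rw [map_zero, map_zero]
      · change dp k 0 = dr k 0
        rw [map_zero, map_zero]) u
  unfold dr dp
  simpa using this

lemma de_dr (h2 : (2 : k) = 0) (u : TT k) :
    de k (dr k u) = dr k (de k u) + (u * letter k 1 - letter k 1 * u) := by
  apply der_comm (k := k) ![letter k 1, 0, letter k 0 * letter k 1 - letter k 1 * letter k 0]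
    ![letter k 2, 0, 0] (letter k 1)
  intro a
  fin_cases a
  · change de k (letter k 2) = dr k (letter k 1) +
      (letter k 0 * letter k 1 - letter k 1 * letter k 0)
    rw [de_2, dr_1, zero_add]
  · change de k 0 = dr k 0 + (letter k 1 * letter k 1 - letter k 1 * letter k 1)
    rw [map_zero, map_zero]
    simp
  · change de k 0 = dr k (letter k 0 * letter k 1 - letter k 1 * letter k 0) +
      (letter k 2 * letter k 1 - letter k 1 * letter k 2)
    rw [map_zero, map_sub, dr_mul, dr_mul, dr_0, dr_1, mul_zero, zero_add, zero_mul, add_zero]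
    exact (two_smul_zero h2 _).symm

variable (k)

/-- the operators on `T × T` -/
def y1 : Module.End k (TT k × TT k) where
  toFun p := (letter k 0 * p.1, letter k 0 * p.2)
  map_add' p q := by ext <;> simp [mul_add]
  map_smul' c p := by ext <;> simp

def y5 : Module.End k (TT k × TT k) where
  toFun p := (letter k 0 * p.1 + dr k p.1 + p.2 * letter k 1, letter k 0 * p.2 + dr k p.2)
  map_add' p q := by
    apply Prod.ext
    · simp only [Prod.fst_add, Prod.snd_add, mul_add, add_mul, map_add]; abel
    · simp only [Prod.snd_add, mul_add, add_mul, map_add]; abel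
  map_smul' c p := by
    apply Prod.ext
    · simp only [Prod.smul_fst, Prod.smul_snd, map_smul, mul_smul_comm, smul_mul_assoc, smul_add,
        RingHom.id_apply]
    · simp only [Prod.smul_snd, map_smul, mul_smul_comm, smul_add, RingHom.id_apply]

def y2 : Module.End k (TT k × TT k) where
  toFun p := (de k p.1, p.1 + de k p.2)
  map_add' p q := by
    apply Prod.ext
    · simp only [Prod.fst_add, map_add]
    · simp only [Prod.fst_add, Prod.snd_add, map_add]; abel
  map_smul' c p := by
    apply Prod.ext
    · simp only [Prod.smul_fst, map_smul, RingHom.id_apply]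
    · simp only [Prod.smul_fst, Prod.smul_snd, map_smul, smul_add, RingHom.id_apply]

def y4 : Module.End k (TT k × TT k) where
  toFun p := (de k p.1 + dp k p.1, p.1 + de k p.2 + dp k p.2)
  map_add' p q := by
    apply Prod.ext
    · simp only [Prod.fst_add, map_add]; abel
    · simp only [Prod.fst_add, Prod.snd_add, map_add]; abel
  map_smul' c p := by
    apply Prod.ext
    · simp only [Prod.smul_fst, map_smul, smul_add, RingHom.id_apply]
    · simp only [Prod.smul_fst, Prod.smul_snd, map_smul, smul_add, RingHom.id_apply]

variable {k}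

lemma y1_apply (u v : TT k) : y1 k (u, v) = (letter k 0 * u, letter k 0 * v) := rfl
lemma y5_apply (u v : TT k) : y5 k (u, v) =
    (letter k 0 * u + dr k u + v * letter k 1, letter k 0 * v + dr k v) := rfl
lemma y2_apply (u v : TT k) : y2 k (u, v) = (de k u, u + de k v) := rfl
lemma y4_apply (u v : TT k) : y4 k (u, v) = (de k u + dp k u, u + de k v + dp k v) := rfl

/-- multiplication on the left of both components -/
def mL (t : TT k) : Module.End k (TT k × TT k) where
  toFun p := (t * p.1, t * p.2)
  map_add' p q := by ext <;> simp [mul_add]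
  map_smul' c p := by ext <;> simp

lemma mL_apply (t u v : TT k) : mL t (u, v) = (t * u, t * v) := rfl

lemma TT_two (h2 : (2 : k) = 0) : (2 : TT k) = 0 := by
  rw [← map_ofNat (algebraMap k (TT k)) 2, h2, map_zero]

lemma yy_ERel (h2 : (2 : k) = 0) : ERel (y1 k) (y2 k) (y4 k) (y5 k) := by
  have h2T := TT_two h2
  constructor
  · apply LinearMap.ext
    rintro ⟨u, v⟩
    simp only [Module.End.mul_apply, y1_apply, y4_apply, de_mul, dp_mul, de_0, dp_0]
    apply Prod.ext
    · linear_combination (norm := (simp only; noncomm_ring)) - h2T * (letter k 1 * u)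
    · linear_combination (norm := (simp only; noncomm_ring)) - h2T * (letter k 1 * v)
  · apply LinearMap.ext
    rintro ⟨u, v⟩
    simp only [Module.End.mul_apply, y2_apply, y4_apply, map_add, de_de h2, dp_dp h2, de_dp]
    apply Prod.ext
    · rfl
    · simp only; abel
  · apply LinearMap.ext
    rintro ⟨u, v⟩
    simp only [Module.End.mul_apply, y2_apply, y5_apply, map_add, de_mul, de_0, de_1, de_dr h2]
    apply Prod.ext
    · simp only; noncomm_ring
    · linear_combination (norm := (simp only; noncomm_ring)) h2T * (v * letter k 1)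
  · apply LinearMap.ext
    rintro ⟨u, v⟩
    simp only [Module.End.mul_apply, y2_apply, map_add, de_de h2]
    apply Prod.ext
    · rfl
    · simp only [LinearMap.zero_apply, Prod.snd_zero, add_zero]
      exact two_smul_zero h2 _
  · apply LinearMap.ext
    rintro ⟨u, v⟩
    simp only [Module.End.mul_apply, y4_apply, map_add, de_de h2, dp_dp h2, de_dp]
    apply Prod.ext
    · linear_combination (norm := (simp only [LinearMap.zero_apply, Prod.fst_zero]; noncomm_ring))
        h2T * dp k (de k u)
    · linear_combination (norm := (simp only [LinearMap.zero_apply, Prod.snd_zero]; noncomm_ring))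
        h2T * (dp k (de k v) + de k u + dp k u)
  · apply LinearMap.ext
    rintro ⟨u, v⟩
    simp only [Module.End.mul_apply, LinearMap.add_apply, y1_apply, y5_apply, Prod.mk_add_mk, map_add,
      dr_mul, dr_0, dr_1, dr_dr h2, mul_add, add_mul]
    apply Prod.ext
    · linear_combination (norm := (simp only [LinearMap.zero_apply, Prod.fst_zero]; noncomm_ring))
        h2T * (2 * (letter k 0 * letter k 0 * u) + 2 * (letter k 0 * dr k u) + letter k 2 * u +
          2 * (letter k 0 * v * letter k 1) + dr k v * letter k 1)
    · linear_combination (norm := (simp only [LinearMap.zero_apply, Prod.snd_zero]; noncomm_ring))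
        h2T * (2 * (letter k 0 * letter k 0 * v) + 2 * (letter k 0 * dr k v) + letter k 2 * v)
  · apply LinearMap.ext
    rintro ⟨u, v⟩
    simp only [Module.End.mul_apply, LinearMap.sub_apply, y1_apply, y5_apply, y2_apply, y4_apply,
      Prod.mk_sub_mk, map_add, dr_mul, dr_0, dr_1, de_mul, dp_mul, de_0, de_1, dp_0, dp_1,
      de_dr h2, dp_dr]
    apply Prod.ext
    · linear_combination (norm := (simp only; noncomm_ring))
        h2T * (-(letter k 1 * u))
    · linear_combination (norm := (simp only; noncomm_ring))
        h2T * (-(letter k 1 * v) - (v * letter k 1))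

/-- operators acting by left multiplication -/
lemma EVn_mL {A : Type w} (f : A → Module.End k (TT k × TT k)) (t : A → TT k)
    (h : ∀ a, f a = mL (t a)) (X : FA k A) : EVn f X = mL (EVn t X) := by
  induction X using FA_induction with
  | h1 =>
    rw [map_one, map_one]
    apply LinearMap.ext
    rintro ⟨u, v⟩
    simp [mL_apply]
  | hmul a X ih =>
    rw [map_mul, map_mul, ih, EVn_letter, EVn_letter, h]
    apply LinearMap.ext
    rintro ⟨u, v⟩
    simp [mL_apply, mul_assoc]
  | hadd X Y hX hY =>
    rw [map_add, map_add, hX, hY]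
    apply LinearMap.ext
    rintro ⟨u, v⟩
    simp [mL_apply, add_mul]
  | hsmul c X hX =>
    rw [map_smul, map_smul, hX]
    apply LinearMap.ext
    rintro ⟨u, v⟩
    simp [mL_apply]

lemma y1_sq : y1 k * y1 k = mL (letter k 0 * letter k 0) := by
  apply LinearMap.ext
  rintro ⟨u, v⟩
  simp [mL_apply, y1_apply, mul_assoc]

lemma y5_sq (h2 : (2 : k) = 0) : y5 k * y5 k = mL (letter k 0 * letter k 0 + letter k 2) := by
  have h2T := TT_two h2
  apply LinearMap.ext
  rintro ⟨u, v⟩
  simp only [Module.End.mul_apply, mL_apply, y5_apply, map_add, dr_mul, dr_0, dr_1, dr_dr h2]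
  apply Prod.ext
  · linear_combination (norm := (simp only; noncomm_ring))
      h2T * (letter k 0 * dr k u + letter k 0 * v * letter k 1 + dr k v * letter k 1)
  · linear_combination (norm := (simp only; noncomm_ring)) h2T * (letter k 0 * dr k v)

lemma y12 (h2 : (2 : k) = 0) : y1 k * y2 k - y2 k * y1 k = mL (letter k 1) := by
  have h2T := TT_two h2
  apply LinearMap.ext
  rintro ⟨u, v⟩
  simp only [Module.End.mul_apply, LinearMap.sub_apply, mL_apply, y1_apply, y2_apply, de_mul, de_0,
    Prod.mk_sub_mk]
  apply Prod.ext
  · linear_combination (norm := (simp only; noncomm_ring)) h2T * (-(letter k 1 * u))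
  · linear_combination (norm := (simp only; noncomm_ring)) h2T * (-(letter k 1 * v))

lemma y112 (h2 : (2 : k) = 0) : y1 k * y1 k * y2 k - y2 k * (y1 k * y1 k) =
    mL (letter k 0 * letter k 1 - letter k 1 * letter k 0) := by
  have h2T := TT_two h2
  apply LinearMap.ext
  rintro ⟨u, v⟩
  simp only [Module.End.mul_apply, LinearMap.sub_apply, mL_apply, y1_apply, y2_apply, de_mul, de_0,
    Prod.mk_sub_mk]
  apply Prod.ext
  · linear_combination (norm := (simp only; noncomm_ring))
      h2T * (-(letter k 0 * letter k 1 * u))
  · linear_combination (norm := (simp only; noncomm_ring))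
      h2T * (-(letter k 0 * letter k 1 * v))

lemma y54 (h2 : (2 : k) = 0) : y5 k * y4 k - y4 k * y5 k = mL (letter k 1) := by
  have h := (yy_ERel h2).br
  rw [y12 h2] at h
  rw [← neg_sub, ← h]
  exact neg_eq' h2 _

lemma y554 (h2 : (2 : k) = 0) : y5 k * y5 k * y4 k - y4 k * (y5 k * y5 k) =
    mL (letter k 0 * letter k 1 - letter k 1 * letter k 0) := by
  have h := yy_ERel h2
  have hB := y12 h2
  have hB' := y54 h2
  have e1 : y5 k * y5 k * y4 k - y4 k * (y5 k * y5 k) =
      y5 k * (y5 k * y4 k - y4 k * y5 k) + (y5 k * y4 k - y4 k * y5 k) * y5 k := by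
    rw [mul_sub, sub_mul]; simp only [mul_assoc]; abel
  have e2 : y1 k * y1 k * y2 k - y2 k * (y1 k * y1 k) =
      y1 k * (y1 k * y2 k - y2 k * y1 k) + (y1 k * y2 k - y2 k * y1 k) * y1 k := by
    rw [mul_sub, sub_mul]; simp only [mul_assoc]; abel
  rw [← y112 h2, e1, e2, hB, hB']
  have h2T := TT_two h2
  apply LinearMap.ext
  rintro ⟨u, v⟩
  simp only [Module.End.mul_apply, LinearMap.add_apply, mL_apply, y1_apply, y5_apply, dr_mul, dr_0,
    dr_1, Prod.mk_add_mk]
  apply Prod.ext
  · linear_combination (norm := (simp only; noncomm_ring))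
      h2T * (letter k 1 * dr k u + letter k 1 * v * letter k 1)
  · linear_combination (norm := (simp only; noncomm_ring))
      h2T * (letter k 1 * dr k v)

end Model

end MP446Z
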