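import Pool.Agent.Lib.MP_446dfa_ag.helper66.Final

set_option linter.all false

/-!
# Definitions for the upper bound of the dimensions of `grt₁`
-/

noncomputable section

namespace MP446Z

open MP446 MP446Y

universe u v w

attribute [local instance 100] LieRing.ofAssociativeRing

/-- The defining relations of the enveloping algebra of `𝔭₅` (in cyclic form), for five elements
of a ring. -/
structure Cyc5 {E : Type*} [Ring E] (x : Fin 5 → E) : Prop where
  comm : ∀ i : Fin 5, x i * x (i + 2) = x (i + 2) * x i
  sum : ∑ i : Fin 5, (x i * x (i + 1) - x (i + 1) * x i) = 0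

section FA

variable (k : Type v) [CommRing k] {A : Type w}

/-- The free associative algebra on the alphabet `A`. -/
abbrev FA (k : Type v) [CommRing k] (A : Type w) : Type (max v w) := MonoidAlgebra k (FreeMonoid A)

/-- A letter, as an element of the free associative algebra. -/
def letter (a : A) : FA k A := MonoidAlgebra.of k (FreeMonoid A) (FreeMonoid.of a)

/-- The Lie polynomials: the Lie subalgebra of the free associative algebra generated by the
letters. -/
def LieP (k : Type v) [CommRing k] (A : Type w) : LieSubalgebra k (FA k A) :=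
  LieSubalgebra.lieSpan k (FA k A) (Set.range (letter k))

lemma letter_eq_lt (i : Fin 2) : letter k i = lt k i := rfl

/-- `[x, y]` -/
def BB : AA k := lt k 0 * lt k 1 - lt k 1 * lt k 0

/-- `[x², y]` -/
def ZZ : AA k := lt k 0 * lt k 0 * lt k 1 - lt k 1 * (lt k 0 * lt k 0)

/-- weight of a word in the letters `B` (weight 2) and `Z` (weight 3) -/
def wt23 (w : List (Fin 2)) : ℕ := (w.map (fun i => if i = 0 then 2 else 3)).sum

end FA

section Free

variable (K : Type u) [Field K]

/-- The right normed bracket `[σ_{i₁}, [σ_{i₂}, ... , σ_{i_r}]]` in the free Lie algebra on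
generators `σ_0, σ_1, …`; it is `0` for the empty list. -/
def rbr : List ℕ → FreeLieAlgebra K ℕ
  | [] => 0
  | [i] => FreeLieAlgebra.of K i
  | i :: l => ⁅FreeLieAlgebra.of K i, rbr l⁆

/-- The component of weight `n` of the free Lie algebra on generators `σ_0, σ_1, σ_2, …` of
weights `3, 5, 7, …` (the generator `σ_i` has weight `2 i + 3`). -/
def freeWt (n : ℕ) : Submodule K (FreeLieAlgebra K ℕ) :=
  Submodule.span K {x | ∃ l : List ℕ, (l.map (fun i => 2 * i + 3)).sum = n ∧ x = rbr K l}

end Free

end MP446Z
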