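import Pool.Agent.Lib.MP_446dfa_ag.ddi.Defs

set_option linter.all false

/-!
# Free associative algebras: evaluation, induction, derivations
-/

noncomputable section

namespace MP446Z

open MP446 MP446Y

universe u v w

section FA

variable {k : Type v} [CommRing k] {A : Type w}

/-- evaluation of non-commutative polynomials -/
def EVn {E : Type*} [Ring E] [Algebra k E] (f : A → E) : FA k A →ₐ[k] E :=
  MonoidAlgebra.lift k _ _ (FreeMonoid.lift f)

@[simp] lemma EVn_letter {E : Type*} [Ring E] [Algebra k E] (f : A → E) (a : A) :
    EVn f (letter k a) = f a := by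
  unfold EVn letter
  rw [MonoidAlgebra.lift_of, FreeMonoid.lift_eval_of]

lemma FA_single (w : FreeMonoid A) (c : k) :
    (MonoidAlgebra.single w c : FA k A) = c • MonoidAlgebra.of k (FreeMonoid A) w := by
  rw [MonoidAlgebra.of_apply, MonoidAlgebra.smul_single, smul_eq_mul, mul_one]

/-- induction on non-commutative polynomials: multiplication on the left by letters -/
lemma FA_induction {P : FA k A → Prop} (h1 : P 1) (hmul : ∀ a X, P X → P (letter k a * X))
    (hadd : ∀ X Y, P X → P Y → P (X + Y)) (hsmul : ∀ (c : k) X, P X → P (c • X)) (X : FA k A) :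
    P X := by
  induction X using MonoidAlgebra.induction_linear with
  | zero => simpa using hsmul 0 1 h1
  | add f g hf hg => exact hadd _ _ hf hg
  | single w c =>
    rw [FA_single]
    apply hsmul
    induction w using FreeMonoid.inductionOn' with
    | one => rw [map_one]; exact h1
    | of_mul a w ih =>
      rw [map_mul]
      exact hmul a _ ih

lemma EVn_hom_ext {E : Type*} [Ring E] [Algebra k E] {f g : FA k A →ₐ[k] E}
    (h : ∀ a, f (letter k a) = g (letter k a)) : f = g := by
  apply AlgHom.ext
  intro X
  induction X using FA_induction with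
  | h1 => rw [map_one, map_one]
  | hmul a X ih => rw [map_mul, map_mul, ih, h]
  | hadd X Y hX hY => rw [map_add, map_add, hX, hY]
  | hsmul c X hX => rw [map_smul, map_smul, hX]

lemma EVn_comp {E F : Type*} [Ring E] [Algebra k E] [Ring F] [Algebra k F] (f : A → E)
    (φ : E →ₐ[k] F) (X : FA k A) : φ (EVn f X) = EVn (fun a => φ (f a)) X := by
  have h : φ.comp (EVn f) = EVn (fun a => φ (f a)) := EVn_hom_ext (by intro a; simp)
  exact DFunLike.congr_fun h X

lemma EV_eq_EVn {E : Type*} [Ring E] [Algebra k E] (p q : E) (X : AA k) :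
    EV p q X = EVn ![p, q] X := rfl

/-- auxiliary homomorphism to the dual numbers -/
def dualF (d : A → FA k A) : FA k A →ₐ[k] TrivSqZeroExt (FA k A) (FA k A) :=
  EVn (fun a => TrivSqZeroExt.inl (letter k a) + TrivSqZeroExt.inr (d a))

lemma dualF_fst (d : A → FA k A) (X : FA k A) : (dualF d X).fst = X := by
  induction X using FA_induction with
  | h1 => rw [map_one]; rfl
  | hmul a X ih =>
    rw [map_mul, TrivSqZeroExt.fst_mul, ih]
    congr 1
    simp [dualF]
  | hadd X Y hX hY => rw [map_add, TrivSqZeroExt.fst_add, hX, hY]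
  | hsmul c X hX => rw [map_smul, TrivSqZeroExt.fst_smul, hX]

/-- the derivation with given values on the letters -/
def derF (d : A → FA k A) : FA k A →ₗ[k] FA k A where
  toFun r := (dualF d r).snd
  map_add' x y := by rw [map_add]; rfl
  map_smul' c x := by rw [map_smul]; rfl

@[simp] lemma derF_mul (d : A → FA k A) (r s : FA k A) :
    derF d (r * s) = r * derF d s + derF d r * s := by
  change (dualF d (r * s)).snd = r * (dualF d s).snd + (dualF d r).snd * s
  rw [map_mul, TrivSqZeroExt.snd_mul, dualF_fst, dualF_fst]
  rfl

@[simp] lemma derF_letter (d : A → FA k A) (i : A) : derF d (letter k i) = d i := by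
  change (dualF d (letter k i)).snd = _
  simp [dualF]

@[simp] lemma derF_one (d : A → FA k A) : derF d 1 = 0 := by
  change (dualF d 1).snd = _
  rw [map_one]
  rfl

/-- two linear maps satisfying the Leibniz rule coincide if they coincide on the letters -/
lemma leib_ext {D E : FA k A →ₗ[k] FA k A} (hD : ∀ X Y, D (X * Y) = X * D Y + D X * Y)
    (hE : ∀ X Y, E (X * Y) = X * E Y + E X * Y) (h : ∀ a, D (letter k a) = E (letter k a)) :
    D = E := by
  have one : ∀ {D : FA k A →ₗ[k] FA k A}, (∀ X Y, D (X * Y) = X * D Y + D X * Y) → D 1 = 0 := by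
    intro D hD
    have := hD 1 1
    rw [one_mul, mul_one, one_mul] at this
    exact left_eq_add.1 this
  apply LinearMap.ext
  intro X
  induction X using FA_induction with
  | h1 => rw [one hD, one hE]
  | hmul a X ih => rw [hD, hE, ih, h]
  | hadd X Y hX hY => rw [map_add, map_add, hX, hY]
  | hsmul c X hX => rw [map_smul, map_smul, hX]

end FA

end MP446Z
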