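import Pool.Agent.Lib.MP_446dfa_ag.ddi.FAlg

set_option linter.all false

/-!
# Lie polynomials with coefficients in a subgroup
-/

noncomputable section

namespace MP446Z

open MP446 MP446Y

universe u v w

attribute [local instance 100] LieRing.ofAssociativeRing

namespace Pur

section Coeff

variable {k : Type v} [CommRing k] {A : Type w}

/-- the word `w` as a polynomial -/
abbrev wd (k : Type v) [CommRing k] (w : FreeMonoid A) : FA k A := MonoidAlgebra.of k (FreeMonoid A) w

lemma wd_coeff [DecidableEq (FreeMonoid A)] (w u : FreeMonoid A) :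
    (wd k w).coeff u = if w = u then 1 else 0 := by
  rw [wd, MonoidAlgebra.of_apply, MonoidAlgebra.coeff_single, Finsupp.single_apply]

lemma letter_mul_wd (a : A) (w : FreeMonoid A) : letter k a * wd k w = wd k (FreeMonoid.of a * w) := by
  rw [wd, wd, letter, ← map_mul]

lemma expand (X : FA k A) : X = ∑ w ∈ X.coeff.support, X.coeff w • wd k w := by
  have h : X = X.coeff.sum (fun w c => c • wd k w) := by
    induction X using MonoidAlgebra.induction_linear with
    | zero => simp
    | add f g hf hg =>
      rw [MonoidAlgebra.coeff_add, Finsupp.sum_add_index' (by simp) (by intros; rw [add_smul]),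
        ← hf, ← hg]
    | single w c =>
      rw [MonoidAlgebra.coeff_single, Finsupp.sum_single_index (by simp), FA_single]
  exact h

/-- polynomials whose coefficients lie in `M` -/
def Mc (A : Type w) (M : AddSubgroup k) : AddSubgroup (FA k A) where
  carrier := {X | ∀ w, X.coeff w ∈ M}
  add_mem' := fun {X Y} hX hY w => by
    rw [MonoidAlgebra.coeff_add, Finsupp.add_apply]; exact M.add_mem (hX w) (hY w)
  zero_mem' := fun w => M.zero_mem
  neg_mem' := fun {X} hX w => by
    rw [MonoidAlgebra.coeff_neg, Finsupp.neg_apply]; exact M.neg_mem (hX w)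

/-- polynomials involving only words satisfying `p` -/
def Sp (k : Type v) [CommRing k] (p : FreeMonoid A → Prop) : Submodule k (FA k A) where
  carrier := {X | ∀ w, X.coeff w ≠ 0 → p w}
  add_mem' := fun {X Y} hX hY w hw => by
    rw [MonoidAlgebra.coeff_add, Finsupp.add_apply] at hw
    by_cases h : X.coeff w = 0
    · exact hY w (by intro h2; rw [h, h2, add_zero] at hw; exact hw rfl)
    · exact hX w h
  zero_mem' := fun w hw => absurd rfl hw
  smul_mem' := fun c {X} hX w hw => by
    apply hX w
    intro h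
    apply hw
    rw [MonoidAlgebra.coeff_smul, Finsupp.smul_apply, h, smul_zero]

lemma wd_mem_Sp {p : FreeMonoid A → Prop} {w : FreeMonoid A} (h : p w) : wd k w ∈ Sp k p := by
  classical
  intro u hu
  rw [wd_coeff] at hu
  split_ifs at hu with h2
  · rw [← h2]; exact h
  · exact absurd rfl hu

lemma wd_mem_Mc {M : AddSubgroup k} (h1 : (1 : k) ∈ M) (w : FreeMonoid A) : wd k w ∈ Mc A M := by
  classical
  intro u
  rw [wd_coeff]
  split_ifs
  · exact h1
  · exact M.zero_mem

lemma map_mem_Sp {B : Type*} {p : FreeMonoid A → Prop} {q : FreeMonoid B → Prop}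
    (f : FA k A →ₗ[k] FA k B) (h : ∀ w, p w → f (wd k w) ∈ Sp k q) {X : FA k A} (hX : X ∈ Sp k p) :
    f X ∈ Sp k q := by
  rw [expand X, map_sum]
  refine Submodule.sum_mem _ (fun w hw => ?_)
  rw [map_smul]
  exact Submodule.smul_mem _ _ (h w (hX w (Finsupp.mem_support_iff.1 hw)))

lemma smul_mem_Mc {M : AddSubgroup k} {c : k} (hc : c ∈ M) {X : FA k A}
    (hX : X ∈ Mc A (Int.castAddHom k).range) : c • X ∈ Mc A M := by
  intro w
  obtain ⟨n, hn⟩ := hX w
  rw [MonoidAlgebra.coeff_smul, Finsupp.smul_apply, smul_eq_mul, ← hn]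
  change c * ((n : ℤ) : k) ∈ M
  rw [mul_comm, ← zsmul_eq_mul]
  exact M.zsmul_mem hc n

lemma map_mem_Mc {B : Type*} {M : AddSubgroup k} (f : FA k A →ₗ[k] FA k B)
    (h : ∀ w, f (wd k w) ∈ Mc B (Int.castAddHom k).range) {X : FA k A} (hX : X ∈ Mc A M) :
    f X ∈ Mc B M := by
  rw [expand X, map_sum]
  refine AddSubgroup.sum_mem _ (fun w _ => ?_)
  rw [map_smul]
  exact smul_mem_Mc (hX w) (h w)

lemma one_mem_int : (1 : k) ∈ (Int.castAddHom k).range := ⟨1, by simp⟩

lemma letter_mul_Mc (a : A) {M : AddSubgroup k} {X : FA k A} (hX : X ∈ Mc A M) :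
    letter k a * X ∈ Mc A M := by
  have := map_mem_Mc (M := M) (LinearMap.mulLeft k (letter k a)) (fun w => by
    rw [LinearMap.mulLeft_apply, letter_mul_wd]; exact wd_mem_Mc one_mem_int _) hX
  simpa using this

end Coeff

section Elim

variable {k : Type v} [CommRing k] {A : Type w} [DecidableEq A] (a : A)

/-- the alphabet after elimination of the letter `a` -/
abbrev AA' (a : A) : Type w := ℕ × {b : A // b ≠ a}

/-- the derivation `(i, b) ↦ (i + 1, b)` -/
def sh (k : Type v) [CommRing k] (a : A) : FA k (AA' a) →ₗ[k] FA k (AA' a) :=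
  derF (fun x => letter k (x.1 + 1, x.2))

/-- the operators by which the letters act -/
def opx (k : Type v) [CommRing k] (a : A) (b : A) : Module.End k (FA k (AA' a)) :=
  if h : b = a then sh k a else LinearMap.mulLeft k (letter k (0, ⟨b, h⟩))

/-- the action of `k⟨A⟩` on `k⟨A'⟩` -/
def xi (k : Type v) [CommRing k] (a : A) : FA k A →ₐ[k] Module.End k (FA k (AA' a)) :=
  EVn (opx k a)

/-- the orbit map of `1` -/
def Xi (k : Type v) [CommRing k] (a : A) : FA k A →ₗ[k] FA k (AA' a) where
  toFun P := xi k a P 1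
  map_add' P Q := by rw [map_add]; rfl
  map_smul' c P := by rw [map_smul]; rfl

/-- `ad_a^i b` -/
def adw (k : Type v) [CommRing k] (a : A) (b : A) : ℕ → FA k A
  | 0 => letter k b
  | i + 1 => ⁅letter k a, adw k a b i⁆

/-- `(i, b) ↦ ad_a^i b` -/
def tht (k : Type v) [CommRing k] (a : A) : FA k (AA' a) →ₐ[k] FA k A :=
  EVn (fun x => adw k a x.2.1 x.1)

lemma tht_letter (x : AA' a) : tht k a (letter k x) = adw k a x.2.1 x.1 := by
  unfold tht; rw [EVn_letter]

lemma tht_lie (x y : FA k (AA' a)) : tht k a ⁅x, y⁆ = ⁅tht k a x, tht k a y⁆ := by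
  rw [LieRing.of_associative_ring_bracket, LieRing.of_associative_ring_bracket, map_sub, map_mul,
    map_mul]

lemma lie_tht (x : FA k (AA' a)) : ⁅letter k a, tht k a x⁆ = tht k a (sh k a x) := by
  induction x using FA_induction with
  | h1 =>
    unfold sh
    rw [derF_one, map_one, map_zero, LieRing.of_associative_ring_bracket, mul_one, one_mul,
      sub_self]
  | hmul b X ih =>
    unfold sh at ih ⊢
    rw [derF_mul, derF_letter, map_add, map_mul, map_mul, map_mul, ← ih, tht_letter, tht_letter]
    simp only [LieRing.of_associative_ring_bracket, adw]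
    noncomm_ring
  | hadd X Y hX hY => rw [map_add, lie_add, hX, hY, map_add, map_add]
  | hsmul c X hX => rw [map_smul, lie_smul, hX, map_smul, map_smul]

lemma sh_one : sh k a 1 = 0 := derF_one _

/-- the coefficient at the one letter word `a`, together with the constant term, as a homomorphism
to a commutative ring -/
def lin1 (k : Type v) [CommRing k] (a : A) : FA k A →ₐ[k] TrivSqZeroExt k k :=
  EVn (fun b => if b = a then TrivSqZeroExt.inr 1 else 0)

lemma lin1_fst (X : FA k A) : (lin1 k a X).fst = X.coeff 1 := by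
  induction X using FA_induction with
  | h1 =>
    rw [map_one, TrivSqZeroExt.fst_one, MonoidAlgebra.one_def, MonoidAlgebra.coeff_single,
      Finsupp.single_eq_same]
  | hmul b X ih =>
    have e : (letter k b * X).coeff (1 : FreeMonoid A) = 0 := by
      rw [letter, MonoidAlgebra.of_apply]
      apply MonoidAlgebra.coeff_single_mul_of_forall_mul_ne
      intro d hd
      have := congrArg FreeMonoid.length hd
      simp at this
    rw [e, map_mul, TrivSqZeroExt.fst_mul]
    have : (lin1 k a (letter k b)).fst = 0 := by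
      unfold lin1
      rw [EVn_letter]
      split_ifs <;> simp
    rw [this, zero_mul]
  | hadd X Y hX hY =>
    rw [map_add, TrivSqZeroExt.fst_add, hX, hY, MonoidAlgebra.coeff_add, Finsupp.add_apply]
  | hsmul c X hX =>
    rw [map_smul, TrivSqZeroExt.fst_smul, hX, MonoidAlgebra.coeff_smul, Finsupp.smul_apply]

lemma coeff_letter_mul (b : A) (X : FA k A) (c : A) :
    (letter k b * X).coeff (FreeMonoid.of c) = if b = c then X.coeff 1 else 0 := by
  rw [letter, MonoidAlgebra.of_apply]
  split_ifs with h
  · subst h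
    rw [MonoidAlgebra.coeff_single_mul_eq_mul_coeff (m₂ := 1), one_mul]
    intro m' _
    constructor
    · intro h3
      have h4 : FreeMonoid.of b * m' = FreeMonoid.of b * 1 := by rw [mul_one]; exact h3
      exact mul_left_cancel h4
    · rintro rfl; rw [mul_one]
  · apply MonoidAlgebra.coeff_single_mul_of_forall_mul_ne
    intro d hd
    have h3 : b :: FreeMonoid.toList d = [c] := hd
    exact h (List.cons.inj h3).1

lemma lin1_snd (X : FA k A) : (lin1 k a X).snd = X.coeff (FreeMonoid.of a) := by
  induction X using FA_induction with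
  | h1 =>
    classical
    rw [map_one, TrivSqZeroExt.snd_one, MonoidAlgebra.one_def, MonoidAlgebra.coeff_single,
      Finsupp.single_apply, if_neg]
    intro h
    have := congrArg FreeMonoid.length h
    simp at this
  | hmul b X ih =>
    rw [coeff_letter_mul, map_mul, TrivSqZeroExt.snd_mul, lin1_fst, ih]
    have h0 : (lin1 k a (letter k b)) = if b = a then TrivSqZeroExt.inr 1 else 0 := by
      unfold lin1
      rw [EVn_letter]
    have e : (letter k b).coeff (1 : FreeMonoid A) = 0 := by
      have := lin1_fst (k := k) a (letter k b)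
      rw [← this, h0]
      split_ifs <;> simp
    rw [e, h0, lin1_fst]
    split_ifs with h <;> simp
  | hadd X Y hX hY =>
    rw [map_add, TrivSqZeroExt.snd_add, hX, hY, MonoidAlgebra.coeff_add, Finsupp.add_apply]
  | hsmul c X hX =>
    rw [map_smul, TrivSqZeroExt.snd_smul, hX, MonoidAlgebra.coeff_smul, Finsupp.smul_apply]

lemma coeff_lie (X Y : FA k A) : (⁅X, Y⁆ : FA k A).coeff (FreeMonoid.of a) = 0 := by
  rw [← lin1_snd, LieRing.of_associative_ring_bracket, map_sub, map_mul, map_mul,
    mul_comm (lin1 k a Y), sub_self, TrivSqZeroExt.snd_zero]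

lemma sh_lie (x y : FA k (AA' a)) : sh k a ⁅x, y⁆ = ⁅sh k a x, y⁆ + ⁅x, sh k a y⁆ := by
  unfold sh
  rw [LieRing.of_associative_ring_bracket, map_sub, derF_mul, derF_mul,
    LieRing.of_associative_ring_bracket, LieRing.of_associative_ring_bracket]
  abel

lemma sh_Lie {h : FA k (AA' a)} (hh : h ∈ LieP k (AA' a)) : sh k a h ∈ LieP k (AA' a) := by
  let S : LieSubalgebra k (FA k (AA' a)) :=
    { carrier := {x | x ∈ LieP k (AA' a) ∧ sh k a x ∈ LieP k (AA' a)}
      add_mem' := fun {x y} hx hy => ⟨(LieP k _).add_mem hx.1 hy.1, by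
        rw [map_add]; exact (LieP k _).add_mem hx.2 hy.2⟩
      zero_mem' := ⟨(LieP k _).zero_mem, by rw [map_zero]; exact (LieP k _).zero_mem⟩
      smul_mem' := fun c {x} hx => ⟨(LieP k _).smul_mem c hx.1, by
        rw [map_smul]; exact (LieP k _).smul_mem c hx.2⟩
      lie_mem' := fun {x y} hx hy => ⟨(LieP k _).lie_mem hx.1 hy.1, by
        rw [sh_lie]
        exact (LieP k _).add_mem ((LieP k _).lie_mem hx.2 hy.1) ((LieP k _).lie_mem hx.1 hy.2)⟩ }
  have hS : LieP k (AA' a) ≤ S := by
    refine LieSubalgebra.lieSpan_le.2 ?_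
    rintro _ ⟨x, rfl⟩
    refine ⟨LieSubalgebra.subset_lieSpan ⟨x, rfl⟩, ?_⟩
    unfold sh
    rw [derF_letter]
    exact LieSubalgebra.subset_lieSpan ⟨_, rfl⟩
  exact (hS hh).2

/-- the elimination theorem -/
def elimS (k : Type v) [CommRing k] (a : A) : LieSubalgebra k (FA k A) where
  carrier := {P | ∃ f ∈ LieP k (AA' a), xi k a P = LinearMap.mulLeft k f +
    P.coeff (FreeMonoid.of a) • sh k a ∧ P = tht k a f + P.coeff (FreeMonoid.of a) • letter k a}
  add_mem' := by
    rintro P Q ⟨f, hf, h1, h2⟩ ⟨g, hg, h3, h4⟩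
    refine ⟨f + g, (LieP k _).add_mem hf hg, ?_, ?_⟩
    · rw [map_add, h1, h3, MonoidAlgebra.coeff_add, Finsupp.add_apply, add_smul]
      have : LinearMap.mulLeft k (f + g) = LinearMap.mulLeft k f + LinearMap.mulLeft k g := by
        ext X; simp [add_mul]
      rw [this]
      abel
    · rw [map_add, MonoidAlgebra.coeff_add, Finsupp.add_apply, add_smul]
      nth_rewrite 1 [h2]
      nth_rewrite 1 [h4]
      abel
  zero_mem' := by
    refine ⟨0, (LieP k _).zero_mem, ?_, ?_⟩
    · rw [map_zero]
      ext X
      simp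
    · rw [map_zero]; simp
  smul_mem' := by
    rintro c P ⟨f, hf, h1, h2⟩
    refine ⟨c • f, (LieP k _).smul_mem c hf, ?_, ?_⟩
    · rw [map_smul, h1, MonoidAlgebra.coeff_smul, Finsupp.smul_apply, smul_add, smul_assoc]
      congr 1
      ext X; simp
    · rw [map_smul, MonoidAlgebra.coeff_smul, Finsupp.smul_apply, smul_assoc, ← smul_add, ← h2]
  lie_mem' := by
    rintro P Q ⟨f, hf, h1, h2⟩ ⟨g, hg, h3, h4⟩
    set c := P.coeff (FreeMonoid.of a) with hc
    set d := Q.coeff (FreeMonoid.of a) with hd
    have hsh : ∀ {h : FA k (AA' a)}, h ∈ LieP k (AA' a) → sh k a h ∈ LieP k (AA' a) := by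
      intro h hh
      exact sh_Lie a hh
    refine ⟨⁅f, g⁆ + c • sh k a g - d • sh k a f, ?_, ?_, ?_⟩
    · exact (LieP k _).sub_mem ((LieP k _).add_mem ((LieP k _).lie_mem hf hg)
        ((LieP k _).smul_mem c (hsh hg))) ((LieP k _).smul_mem d (hsh hf))
    · rw [coeff_lie, zero_smul, add_zero, LieRing.of_associative_ring_bracket, map_sub, map_mul,
        map_mul, h1, h3]
      apply LinearMap.ext
      intro X
      simp only [LinearMap.sub_apply, Module.End.mul_apply, LinearMap.add_apply,
        LinearMap.mulLeft_apply, LinearMap.smul_apply, map_add, map_smul,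
        LieRing.of_associative_ring_bracket]
      unfold sh
      simp only [derF_mul, add_mul, sub_mul, mul_add, smul_add, smul_mul_assoc, mul_smul_comm,
        mul_assoc, smul_smul]
      rw [mul_comm d c]
      abel
    · rw [coeff_lie, zero_smul, add_zero, map_sub, map_add, tht_lie, map_smul, map_smul, ← lie_tht,
        ← lie_tht]
      nth_rewrite 1 [h2]
      nth_rewrite 1 [h4]
      rw [add_lie, lie_add, lie_add, smul_lie, lie_smul, smul_lie, lie_smul, lie_self, smul_zero,
        smul_zero, add_zero, ← lie_skew (letter k a) (tht k a f), smul_neg]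
      abel

lemma letter_coeff_self (b : A) : (letter k b).coeff (FreeMonoid.of a) = if b = a then 1 else 0 := by
  have := coeff_letter_mul (k := k) b 1 a
  rw [mul_one] at this
  rw [this, MonoidAlgebra.one_def, MonoidAlgebra.coeff_single, Finsupp.single_eq_same]

lemma elim {P : FA k A} (hP : P ∈ LieP k A) : P ∈ elimS k a := by
  have hS : LieP k A ≤ elimS k a := by
    refine LieSubalgebra.lieSpan_le.2 ?_
    rintro _ ⟨b, rfl⟩
    by_cases h : b = a
    · subst h
      refine ⟨0, (LieP k _).zero_mem, ?_, ?_⟩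
      · rw [letter_coeff_self, if_pos rfl, one_smul]
        unfold xi
        rw [EVn_letter, opx, dif_pos rfl]
        ext X; simp
      · rw [letter_coeff_self, if_pos rfl, one_smul, map_zero, zero_add]
    · refine ⟨letter k (0, ⟨b, h⟩), LieSubalgebra.subset_lieSpan ⟨_, rfl⟩, ?_, ?_⟩
      · rw [letter_coeff_self, if_neg h, zero_smul, add_zero]
        unfold xi
        rw [EVn_letter, opx, dif_neg h]
      · rw [letter_coeff_self, if_neg h, zero_smul, add_zero, tht_letter]
        rfl
  exact hS hP

lemma elim_Xi {P : FA k A} (hP : P ∈ LieP k A) : Xi k a P ∈ LieP k (AA' a) ∧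
    P = tht k a (Xi k a P) + P.coeff (FreeMonoid.of a) • letter k a := by
  obtain ⟨f, hf, h1, h2⟩ := elim a hP
  have e : Xi k a P = f := by
    change xi k a P 1 = f
    rw [h1, LinearMap.add_apply, LinearMap.smul_apply, sh_one, smul_zero, add_zero,
      LinearMap.mulLeft_apply, mul_one]
  rw [e]
  exact ⟨hf, h2⟩

/-! integrality -/

lemma sh_wd_Mc (w : FreeMonoid (AA' a)) : sh k a (wd k w) ∈ Mc (AA' a) (Int.castAddHom k).range := by
  induction w using FreeMonoid.inductionOn' with
  | one => rw [wd, map_one, sh_one]; exact AddSubgroup.zero_mem _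
  | of_mul x w ih =>
    rw [← letter_mul_wd]
    unfold sh at ih ⊢
    rw [derF_mul, derF_letter]
    exact AddSubgroup.add_mem _ (letter_mul_Mc _ ih) (letter_mul_Mc _ (wd_mem_Mc one_mem_int w))

lemma Xi_one : Xi k a (wd k 1) = wd k 1 := by
  have e : xi k a (wd k 1) = 1 := by rw [wd, map_one, map_one]
  have e2 : (wd k (1 : FreeMonoid (AA' a))) = 1 := by rw [wd, map_one]
  change xi k a (wd k 1) 1 = _
  rw [e, e2]
  rfl

lemma Xi_cons (b : A) (w : FreeMonoid A) :
    Xi k a (wd k (FreeMonoid.of b * w)) = opx k a b (Xi k a (wd k w)) := by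
  have e : xi k a (wd k (FreeMonoid.of b * w)) = opx k a b * xi k a (wd k w) := by
    rw [← letter_mul_wd, map_mul]
    unfold xi
    rw [EVn_letter]
  change xi k a (wd k (FreeMonoid.of b * w)) 1 = _
  rw [e]
  rfl

lemma Xi_wd_Mc (w : FreeMonoid A) : Xi k a (wd k w) ∈ Mc (AA' a) (Int.castAddHom k).range := by
  induction w using FreeMonoid.inductionOn' with
  | one =>
    rw [Xi_one]
    exact wd_mem_Mc one_mem_int 1
  | of_mul b w ih =>
    rw [Xi_cons, opx]
    split_ifs with h
    · exact map_mem_Mc (sh k a) (sh_wd_Mc a) ih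
    · exact letter_mul_Mc _ ih

lemma Xi_Mc {M : AddSubgroup k} {P : FA k A} (hP : P ∈ Mc A M) : Xi k a P ∈ Mc (AA' a) M :=
  map_mem_Mc (Xi k a) (Xi_wd_Mc a) hP

/-! lengths -/

lemma sh_wd_Sp (w : FreeMonoid (AA' a)) :
    sh k a (wd k w) ∈ Sp k (fun u => FreeMonoid.length u = FreeMonoid.length w) := by
  induction w using FreeMonoid.inductionOn' with
  | one => rw [wd, map_one, sh_one]; exact Submodule.zero_mem _
  | of_mul x w ih =>
    rw [← letter_mul_wd]
    unfold sh at ih ⊢
    rw [derF_mul, derF_letter]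
    refine Submodule.add_mem _ ?_ ?_
    · exact map_mem_Sp (LinearMap.mulLeft k (letter k x)) (fun u hu => by
        rw [LinearMap.mulLeft_apply, letter_mul_wd]
        apply wd_mem_Sp
        simp [hu]) ih
    · rw [letter_mul_wd]
      apply wd_mem_Sp
      simp

/-- the words allowed in `Ξ(w)` -/
def okw (w : FreeMonoid A) (u : FreeMonoid (AA' a)) : Prop :=
  FreeMonoid.length u ≤ FreeMonoid.length w ∧ (FreeMonoid.length u = FreeMonoid.length w →
    ∀ x ∈ FreeMonoid.toList u, x.1 = 0 ∧ (x.2 : A) ∈ FreeMonoid.toList w)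

lemma length_cons' {B : Type*} (b : B) (w : FreeMonoid B) :
    FreeMonoid.length (FreeMonoid.of b * w) = FreeMonoid.length w + 1 := by
  rw [FreeMonoid.length_mul, FreeMonoid.length_of, add_comm]

lemma okw_cons {b : A} (h : b ≠ a) {w : FreeMonoid A} {u : FreeMonoid (AA' a)} (hu : okw a w u) :
    okw a (FreeMonoid.of b * w) (FreeMonoid.of ((0, ⟨b, h⟩) : AA' a) * u) := by
  unfold okw at hu ⊢
  rw [length_cons', length_cons']
  refine ⟨by have := hu.1; omega, fun h6 x hx => ?_⟩
  have h7 := hu.2 (by omega)
  rw [FreeMonoid.toList_mul, FreeMonoid.toList_of, List.singleton_append, List.mem_cons] at hx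
  rw [FreeMonoid.toList_mul, FreeMonoid.toList_of, List.singleton_append, List.mem_cons]
  rcases hx with rfl | hx
  · exact ⟨rfl, Or.inl rfl⟩
  · exact ⟨(h7 x hx).1, Or.inr (h7 x hx).2⟩

lemma Xi_wd_Sp (w : FreeMonoid A) : Xi k a (wd k w) ∈ Sp k (okw a w) := by
  induction w using FreeMonoid.inductionOn' with
  | one =>
    rw [Xi_one]
    apply wd_mem_Sp
    unfold okw
    simp
  | of_mul b w ih =>
    rw [Xi_cons, opx]
    by_cases h : b = a
    · rw [dif_pos h]
      refine map_mem_Sp (sh k a) (p := fun u => FreeMonoid.length u ≤ FreeMonoid.length w) ?_ ?_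
      · intro u hu v hv
        have h3 := sh_wd_Sp (k := k) a u v hv
        unfold okw
        rw [length_cons', h3]
        exact ⟨by omega, fun h5 => by omega⟩
      · intro u hu
        exact (ih u hu).1
    · rw [dif_neg h]
      refine map_mem_Sp (LinearMap.mulLeft k (letter k (0, ⟨b, h⟩))) (p := okw a w) ?_ ih
      intro u hu
      rw [LinearMap.mulLeft_apply, letter_mul_wd]
      exact wd_mem_Sp (okw_cons a h hu)

end Elim

section Main

variable {K : Type u} [Field K]

/-- base change from the integers -/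
def io (K : Type u) [Field K] (A : Type) : FA ℤ A →+* FA K A :=
  MonoidAlgebra.mapRingHom (FreeMonoid A) (Int.castRingHom K)

lemma io_letter {A : Type} (a : A) : io K A (letter ℤ a) = letter K a := by
  unfold io letter
  rw [MonoidAlgebra.of_apply, MonoidAlgebra.of_apply]
  simp

/-- the combinations, with coefficients in `M`, of integral Lie polynomials -/
def SM (A : Type) (M : AddSubgroup K) : AddSubgroup (FA K A) :=
  AddSubgroup.closure {X | ∃ m ∈ M, ∃ l ∈ LieP ℤ A, X = m • io K A l}

lemma letter_smul_SM {A : Type} {M : AddSubgroup K} {m : K} (hm : m ∈ M) (a : A) :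
    m • letter K a ∈ SM A M :=
  AddSubgroup.subset_closure ⟨m, hm, letter ℤ a, LieSubalgebra.subset_lieSpan ⟨a, rfl⟩, by
    rw [io_letter]⟩

lemma adw_io {A : Type} [DecidableEq A] (a b : A) (i : ℕ) :
    io K A (adw ℤ a b i) = adw K a b i := by
  induction i with
  | zero => exact io_letter b
  | succ i ih =>
    change io K A ⁅letter ℤ a, adw ℤ a b i⁆ = ⁅letter K a, adw K a b i⁆
    rw [LieRing.of_associative_ring_bracket, map_sub, map_mul, map_mul, ih, io_letter]
    rfl

lemma tht_io {A : Type} [DecidableEq A] (a : A) (X : FA ℤ (AA' a)) :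
    tht K a (io K (AA' a) X) = io K A (tht ℤ a X) := by
  induction X using FA_induction with
  | h1 => simp
  | hmul b X ih => rw [map_mul, map_mul, map_mul, map_mul, ih, io_letter, tht_letter, tht_letter,
      adw_io]
  | hadd X Y hX hY => rw [map_add, map_add, map_add, map_add, hX, hY]
  | hsmul c X hX => rw [map_zsmul, map_zsmul, map_zsmul, map_zsmul, hX]

lemma tht_LieP {A : Type} [DecidableEq A] (a : A) {X : FA ℤ (AA' a)} (hX : X ∈ LieP ℤ (AA' a)) :
    tht ℤ a X ∈ LieP ℤ A := by
  let S : LieSubalgebra ℤ (FA ℤ (AA' a)) :=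
    { carrier := {x | tht ℤ a x ∈ LieP ℤ A}
      add_mem' := fun {x y} hx hy => by
        change tht ℤ a (x + y) ∈ LieP ℤ A
        rw [map_add]; exact (LieP ℤ A).add_mem hx hy
      zero_mem' := by
        change tht ℤ a 0 ∈ LieP ℤ A
        rw [map_zero]; exact (LieP ℤ A).zero_mem
      smul_mem' := fun c {x} hx => by
        change tht ℤ a (c • x) ∈ LieP ℤ A
        rw [map_smul]; exact (LieP ℤ A).smul_mem c hx
      lie_mem' := fun {x y} hx hy => by
        change tht ℤ a ⁅x, y⁆ ∈ LieP ℤ A
        rw [tht_lie]; exact (LieP ℤ A).lie_mem hx hy }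
  have hS : LieP ℤ (AA' a) ≤ S := by
    refine LieSubalgebra.lieSpan_le.2 ?_
    rintro _ ⟨x, rfl⟩
    change tht ℤ a (letter ℤ x) ∈ LieP ℤ A
    rw [tht_letter]
    obtain ⟨i, b⟩ := x
    change adw ℤ a b.1 i ∈ LieP ℤ A
    induction i with
    | zero => exact LieSubalgebra.subset_lieSpan ⟨_, rfl⟩
    | succ i ih => exact (LieP ℤ A).lie_mem (LieSubalgebra.subset_lieSpan ⟨a, rfl⟩) ih
  exact hS hX

lemma tht_SM {A : Type} [DecidableEq A] (a : A) {M : AddSubgroup K} {X : FA K (AA' a)}
    (hX : X ∈ SM (AA' a) M) : tht K a X ∈ SM A M := by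
  induction hX using AddSubgroup.closure_induction with
  | mem x hx =>
    obtain ⟨m, hm, l, hl, rfl⟩ := hx
    rw [map_smul, tht_io]
    exact AddSubgroup.subset_closure ⟨m, hm, _, tht_LieP a hl, rfl⟩
  | zero => rw [map_zero]; exact AddSubgroup.zero_mem _
  | add x y _ _ hx hy => rw [map_add]; exact AddSubgroup.add_mem _ hx hy
  | neg x _ hx => rw [map_neg]; exact AddSubgroup.neg_mem _ hx

lemma LieP_const {A : Type} {P : FA K A} (hP : P ∈ LieP K A) : P.coeff 1 = 0 := by
  classical
  let ε : FA K A →ₐ[K] K := EVn (fun _ => 0)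
  have h1 : ∀ X : FA K A, ε X = X.coeff 1 := by
    intro X
    induction X using FA_induction with
    | h1 => rw [map_one, MonoidAlgebra.one_def, MonoidAlgebra.coeff_single, Finsupp.single_eq_same]
    | hmul b X ih =>
      have e : (letter K b * X).coeff (1 : FreeMonoid A) = 0 := by
        rw [letter, MonoidAlgebra.of_apply]
        apply MonoidAlgebra.coeff_single_mul_of_forall_mul_ne
        intro d hd
        have := congrArg FreeMonoid.length hd
        simp at this
      rw [e, map_mul]
      simp [ε]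
    | hadd X Y hX hY =>
      rw [map_add, hX, hY, MonoidAlgebra.coeff_add, Finsupp.add_apply]
    | hsmul c X hX =>
      rw [map_smul, hX, MonoidAlgebra.coeff_smul, Finsupp.smul_apply]
  let S : LieSubalgebra K (FA K A) :=
    { carrier := {x | ε x = 0}
      add_mem' := fun {x y} hx hy => by
        change ε (x + y) = 0
        rw [map_add, hx, hy, add_zero]
      zero_mem' := map_zero ε
      smul_mem' := fun c {x} hx => by
        change ε (c • x) = 0
        rw [map_smul, hx, smul_zero]
      lie_mem' := fun {x y} hx hy => by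
        change ε ⁅x, y⁆ = 0
        rw [LieRing.of_associative_ring_bracket, map_sub, map_mul, map_mul, mul_comm, sub_self] }
  have hS : LieP K A ≤ S := by
    refine LieSubalgebra.lieSpan_le.2 ?_
    rintro _ ⟨x, rfl⟩
    change ε (letter K x) = 0
    simp [ε]
  rw [← h1]
  exact hS hP

/-- the main induction -/
theorem main (M : AddSubgroup K) (n : ℕ) : ∀ (m : ℕ) (A : Type) (P : FA K A), P ∈ LieP K A →
    P ∈ Mc A M → (∀ w, P.coeff w ≠ 0 → FreeMonoid.length w ≤ n) →
    (∃ S : Finset A, S.card ≤ m ∧ ∀ w, P.coeff w ≠ 0 → FreeMonoid.length w = n →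
      ∀ a ∈ FreeMonoid.toList w, a ∈ S) → P ∈ SM A M := by
  classical
  induction n with
  | zero =>
    intro m A P hP _ hlen _
    have : P = 0 := by
      ext w
      by_contra h
      have h1 := hlen w h
      have h2 : w = 1 := FreeMonoid.length_eq_zero.1 (Nat.le_zero.1 h1)
      rw [h2] at h
      exact h (LieP_const hP)
    rw [this]
    exact AddSubgroup.zero_mem _
  | succ n ihn =>
    intro m
    induction m with
    | zero =>
      intro A P hP hM hlen ⟨S, hS1, hS2⟩
      have hS0 : S = ∅ := Finset.card_eq_zero.1 (Nat.le_zero.1 hS1)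
      let T : Finset A := P.coeff.support.biUnion (fun w => (FreeMonoid.toList w).toFinset)
      refine ihn T.card A P hP hM ?_ ⟨T, le_rfl, ?_⟩
      · intro w hw
        have h1 := hlen w hw
        by_contra h2
        have h3 : FreeMonoid.length w = n + 1 := by omega
        have h4 := hS2 w hw h3
        rw [hS0] at h4
        have h5 : FreeMonoid.toList w ≠ [] := by
          intro h6
          have : FreeMonoid.length w = 0 := by
            have : w = 1 := by
              rw [← FreeMonoid.ofList_toList w, h6]; rfl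
            rw [this]; rfl
          omega
        obtain ⟨a, ha⟩ := List.exists_mem_of_ne_nil _ h5
        exact absurd (h4 a ha) (by simp)
      · intro w hw _ a ha
        rw [Finset.mem_biUnion]
        exact ⟨w, Finsupp.mem_support_iff.2 hw, by simpa using ha⟩
    | succ m ihm =>
      intro A P hP hM hlen ⟨S, hS1, hS2⟩
      by_cases hSe : S = ∅
      · exact ihm A P hP hM hlen ⟨S, by rw [hSe]; simp, hS2⟩
      · obtain ⟨a, ha⟩ := Finset.nonempty_iff_ne_empty.2 hSe
        obtain ⟨h1, h2⟩ := elim_Xi a hP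
        rw [h2]
        refine AddSubgroup.add_mem _ (tht_SM a ?_) (letter_smul_SM (hM _) a)
        have hSp : Xi K a P ∈ Sp K (fun u : FreeMonoid (AA' a) => FreeMonoid.length u ≤ n + 1 ∧
            (FreeMonoid.length u = n + 1 → ∀ x ∈ FreeMonoid.toList u, x.1 = 0 ∧ (x.2 : A) ∈ S)) := by
          refine map_mem_Sp (Xi K a) (p := fun w => FreeMonoid.length w ≤ n + 1 ∧
            (FreeMonoid.length w = n + 1 → ∀ b ∈ FreeMonoid.toList w, b ∈ S)) ?_ ?_
          · intro w hw u hu
            obtain ⟨h3, h4⟩ := Xi_wd_Sp (k := K) a w u hu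
            refine ⟨le_trans h3 hw.1, fun h5 x hx => ?_⟩
            have h6 : FreeMonoid.length w = n + 1 := le_antisymm hw.1 (by omega)
            have h7 := h4 (by omega) x hx
            exact ⟨h7.1, hw.2 h6 _ h7.2⟩
          · intro w hw
            exact ⟨hlen w hw, hS2 w hw⟩
        let S' : Finset (AA' a) := ((S.erase a).subtype (fun b => b ≠ a)).image
          (fun b => ((0, b) : AA' a))
        refine ihm (AA' a) (Xi K a P) h1 (Xi_Mc a hM) (fun u hu => (hSp u hu).1) ⟨S', ?_, ?_⟩
        · refine Finset.card_image_le.trans ?_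
          rw [Finset.card_subtype]
          refine (Finset.card_filter_le _ _).trans ?_
          rw [Finset.card_erase_of_mem ha]
          omega
        · intro u hu h3 x hx
          obtain ⟨h4, h5⟩ := (hSp u hu).2 h3 x hx
          rw [Finset.mem_image]
          refine ⟨x.2, ?_, ?_⟩
          · rw [Finset.mem_subtype, Finset.mem_erase]
            exact ⟨x.2.2, h5⟩
          · rw [← h4]

end Main

end Pur

open Pur

theorem purity {K : Type u} [Field K] [CharZero K] {k : Type v} [CommRing k] {A : Type}
    (P : FA K A) (hP : P ∈ LieP K A) (M : AddSubgroup K) (g : M →+ k)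
    (hM : ∀ w, P.coeff w ∈ M) (H : FA k A) (hH : ∀ w, H.coeff w = g ⟨P.coeff w, hM w⟩) :
    H ∈ LieP k A := by
  classical
  let T : Finset A := P.coeff.support.biUnion (fun w => (FreeMonoid.toList w).toFinset)
  let N : ℕ := P.coeff.support.sup FreeMonoid.length
  have h1 : P ∈ SM A M := by
    refine main M N T.card A P hP hM ?_ ⟨T, le_rfl, ?_⟩
    · intro w hw
      exact Finset.le_sup (f := FreeMonoid.length) (Finsupp.mem_support_iff.2 hw)
    · intro w hw _ a ha
      rw [Finset.mem_biUnion]
      exact ⟨w, Finsupp.mem_support_iff.2 hw, by simpa using ha⟩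
  -- reduction of combinations of integral Lie polynomials
  have key : ∀ X ∈ SM A M, ∃ Y ∈ LieP k A, ∀ w, ∃ h : X.coeff w ∈ M, Y.coeff w = g ⟨X.coeff w, h⟩ := by
    intro X hX
    induction hX using AddSubgroup.closure_induction with
    | mem x hx =>
      obtain ⟨m, hm, l, hl, rfl⟩ := hx
      refine ⟨g ⟨m, hm⟩ • MonoidAlgebra.mapRingHom (FreeMonoid A) (Int.castRingHom k) l, ?_, ?_⟩
      · refine (LieP k A).smul_mem _ ?_
        let S : LieSubalgebra ℤ (FA ℤ A) :=
          { carrier := {x | MonoidAlgebra.mapRingHom (FreeMonoid A) (Int.castRingHom k) x ∈ LieP k A}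
            add_mem' := fun {x y} hx hy => by
              change MonoidAlgebra.mapRingHom (FreeMonoid A) (Int.castRingHom k) (x + y) ∈ LieP k A
              rw [map_add]; exact (LieP k A).add_mem hx hy
            zero_mem' := by
              change MonoidAlgebra.mapRingHom (FreeMonoid A) (Int.castRingHom k) 0 ∈ LieP k A
              rw [map_zero]; exact (LieP k A).zero_mem
            smul_mem' := fun c {x} hx => by
              change MonoidAlgebra.mapRingHom (FreeMonoid A) (Int.castRingHom k) (c • x) ∈ LieP k A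
              rw [map_zsmul]
              have := (LieP k A).smul_mem (c : k) hx
              rwa [Int.cast_smul_eq_zsmul] at this
            lie_mem' := fun {x y} hx hy => by
              change MonoidAlgebra.mapRingHom (FreeMonoid A) (Int.castRingHom k) ⁅x, y⁆ ∈ LieP k A
              rw [LieRing.of_associative_ring_bracket, map_sub, map_mul, map_mul]
              exact (LieP k A).lie_mem hx hy }
        have hS : LieP ℤ A ≤ S := by
          refine LieSubalgebra.lieSpan_le.2 ?_
          rintro _ ⟨x, rfl⟩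
          change MonoidAlgebra.mapRingHom (FreeMonoid A) (Int.castRingHom k) (letter ℤ x) ∈ LieP k A
          have : MonoidAlgebra.mapRingHom (FreeMonoid A) (Int.castRingHom k) (letter ℤ x) =
              letter k x := by
            unfold letter
            rw [MonoidAlgebra.of_apply, MonoidAlgebra.of_apply]
            simp
          rw [this]
          exact LieSubalgebra.subset_lieSpan ⟨x, rfl⟩
        exact hS hl
      · intro w
        have e : (m • io K A l).coeff w = (l.coeff w) • m := by
          rw [MonoidAlgebra.coeff_smul, Finsupp.smul_apply]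
          unfold io
          rw [MonoidAlgebra.coeff_mapRingHom, smul_eq_mul, zsmul_eq_mul, mul_comm]
          rfl
        have hmem : (m • io K A l).coeff w ∈ M := by rw [e]; exact M.zsmul_mem hm _
        refine ⟨hmem, ?_⟩
        have e2 : (⟨(m • io K A l).coeff w, hmem⟩ : M) = (l.coeff w) • ⟨m, hm⟩ := Subtype.ext e
        rw [e2, map_zsmul, MonoidAlgebra.coeff_smul, Finsupp.smul_apply,
          MonoidAlgebra.coeff_mapRingHom, smul_eq_mul, zsmul_eq_mul, mul_comm]
        rfl
    | zero =>
      refine ⟨0, (LieP k A).zero_mem, fun w => ⟨M.zero_mem, ?_⟩⟩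
      exact (map_zero g).symm
    | add x y _ _ hx hy =>
      obtain ⟨X', hX', h3⟩ := hx
      obtain ⟨Y', hY', h4⟩ := hy
      refine ⟨X' + Y', (LieP k A).add_mem hX' hY', fun w => ?_⟩
      obtain ⟨h5, h6⟩ := h3 w
      obtain ⟨h7, h8⟩ := h4 w
      refine ⟨M.add_mem h5 h7, ?_⟩
      rw [MonoidAlgebra.coeff_add, Finsupp.add_apply, h6, h8, ← map_add]
      rfl
    | neg x _ hx =>
      obtain ⟨X', hX', h3⟩ := hx
      refine ⟨-X', (LieP k A).neg_mem hX', fun w => ?_⟩
      obtain ⟨h5, h6⟩ := h3 w
      refine ⟨M.neg_mem h5, ?_⟩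
      rw [MonoidAlgebra.coeff_neg, Finsupp.neg_apply, h6, ← map_neg]
      rfl
  obtain ⟨Y, hY, h3⟩ := key P h1
  have : H = Y := by
    ext w
    rw [hH]
    obtain ⟨h4, h5⟩ := h3 w
    exact h5.symm
  rw [this]
  exact hY

end MP446Z
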