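import Mathlib

set_option linter.all false

noncomputable section

namespace MP446Z

universe u v w

variable {K : Type u} [Field K]

theorem exists_val (K : Type u) [Field K] [CharZero K] :
    ∃ O : ValuationSubring K, (2 : IsLocalRing.ResidueField O) = 0 := by
  have hI : (Ideal.span {(2 : (⊥ : Subring K))}) ≠ ⊤ := by
    intro h
    rw [Ideal.eq_top_iff_one, Ideal.mem_span_singleton'] at h
    obtain ⟨a, ha⟩ := h
    obtain ⟨n, hn⟩ := Subring.mem_bot.mp a.2
    have h1 : (a : K) * 2 = 1 := by
      have := congrArg (fun z : (⊥ : Subring K) => (z : K)) ha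
      exact this
    rw [← hn] at h1
    have h2 : ((n * 2 : ℤ) : K) = ((1 : ℤ) : K) := by push_cast; exact h1
    have h3 := Int.cast_injective h2
    omega
  obtain ⟨B, hB, hB2⟩ := Ideal.image_subset_nonunits_valuationSubring _ hI
  refine ⟨B, ?_⟩
  have h2 : ((2 : B) : K) ∈ B.nonunits := by
    apply hB2
    refine ⟨2, Ideal.subset_span rfl, ?_⟩
    rfl
  rw [ValuationSubring.coe_mem_nonunits_iff] at h2
  have h3 : IsLocalRing.residue B 2 = 0 := (IsLocalRing.residue_eq_zero_iff _).mpr h2
  rw [map_ofNat] at h3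
  exact h3

theorem lattice_aux (O : ValuationSubring K) {V : Type v} [AddCommGroup V] [Module K V] {ι : Type w}
    (c : V →ₗ[K] (ι →₀ K)) (hc : Function.Injective c) (d : ℕ) : ∀ (W : Submodule K V)
    (hd : (d : Cardinal) ≤ Module.rank K W),
    ∃ (v : Fin d → V) (hO : ∀ j i, c (v j) i ∈ O), (∀ j, v j ∈ W) ∧
      LinearIndependent (IsLocalRing.ResidueField O)
        (fun j => (fun i => IsLocalRing.residue O ⟨c (v j) i, hO j i⟩ :
          ι → IsLocalRing.ResidueField O)) := by
  induction d with
  | zero =>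
    intro W hd
    exact ⟨fun j => j.elim0, fun j => j.elim0, fun j => j.elim0, linearIndependent_empty_type⟩
  | succ d ih =>
    intro W hd
    have hpos : 0 < Module.rank K W := by
      refine lt_of_lt_of_le ?_ hd
      exact_mod_cast Nat.succ_pos d
    obtain ⟨⟨w, hwW⟩, hw0⟩ := rank_pos_iff_exists_ne_zero.mp hpos
    have hw : w ≠ 0 := fun h => hw0 (Subtype.ext h)
    have hcw : c w ≠ 0 := fun h => hw (hc (by rw [h, map_zero]))
    have hne : (c w).support.Nonempty := Finsupp.support_nonempty_iff.mpr hcw
    obtain ⟨i0, hi0, hmax⟩ := Finset.exists_max_image (c w).support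
      (fun i => O.valuation (c w i)) hne
    have ha : c w i0 ≠ 0 := Finsupp.mem_support_iff.mp hi0
    set a := c w i0 with hadef
    have hmem : ∀ i, c (a⁻¹ • w) i ∈ O := by
      intro i
      rw [map_smul, Finsupp.smul_apply, smul_eq_mul]
      rw [← ValuationSubring.valuation_le_one_iff, map_mul, map_inv₀]
      by_cases hi : c w i = 0
      · rw [hi, map_zero, mul_zero]; exact zero_le_one
      · have h1 := hmax i (Finsupp.mem_support_iff.mpr hi)
        have h2 : O.valuation a ≠ 0 := (Valuation.ne_zero_iff _).mpr ha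
        calc (O.valuation a)⁻¹ * O.valuation (c w i)
            ≤ (O.valuation a)⁻¹ * O.valuation a := mul_le_mul_right h1 _
          _ = 1 := inv_mul_cancel₀ h2
    have h1 : c (a⁻¹ • w) i0 = 1 := by
      rw [map_smul, Finsupp.smul_apply, smul_eq_mul, ← hadef, inv_mul_cancel₀ ha]
    let f : W →ₗ[K] K := (Finsupp.lapply i0 ∘ₗ c) ∘ₗ W.subtype
    have hrk : (d : Cardinal) ≤ Module.rank K (LinearMap.ker f) := by
      have h2 := LinearMap.lift_rank_range_add_rank_ker f
      have h3 : Module.rank K (LinearMap.range f) ≤ 1 := by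
        refine (Submodule.rank_le _).trans ?_
        rw [Module.rank_self]
      have h4 : ((d + 1 : ℕ) : Cardinal.{max u v}) ≤
          1 + Cardinal.lift.{u} (Module.rank K (LinearMap.ker f)) := by
        calc ((d + 1 : ℕ) : Cardinal.{max u v}) = Cardinal.lift.{u, v} ((d + 1 : ℕ) : Cardinal.{v}) :=
              (Cardinal.lift_natCast _).symm
          _ ≤ Cardinal.lift.{u} (Module.rank K W) := Cardinal.lift_le.mpr hd
          _ = _ := h2.symm
          _ ≤ _ := by
            refine add_le_add ?_ le_rfl
            calc Cardinal.lift.{v, u} (Module.rank K (LinearMap.range f)) ≤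
                  Cardinal.lift.{v, u} 1 := Cardinal.lift_le.mpr h3
              _ = 1 := Cardinal.lift_one
      rw [Nat.cast_add, Nat.cast_one, add_comm (1 : Cardinal), Cardinal.add_one_le_add_one_iff] at h4
      rw [← Cardinal.lift_natCast.{u, v}] at h4
      exact Cardinal.lift_le.mp h4
    have hrk2 : (d : Cardinal) ≤ Module.rank K ((LinearMap.ker f).map W.subtype) := by
      rw [rank_map_eq W.injective_subtype]
      exact hrk
    obtain ⟨v, hO, hvW, hli⟩ := ih _ hrk2
    have hv0 : ∀ j, c (v j) i0 = 0 := by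
      intro j
      obtain ⟨x, hx, hxe⟩ := hvW j
      rw [← hxe]
      exact hx
    have hvW' : ∀ j, v j ∈ W := by
      intro j
      obtain ⟨x, hx, hxe⟩ := hvW j
      rw [← hxe]
      exact x.2
    have hO' : ∀ j i, c (Fin.cons (α := fun _ => V) (a⁻¹ • w) v j) i ∈ O := by
      intro j
      refine Fin.cases ?_ ?_ j
      · simpa using hmem
      · intro j i
        simpa using hO j i
    refine ⟨Fin.cons (α := fun _ => V) (a⁻¹ • w) v, hO', ?_, ?_⟩
    · intro j
      refine Fin.cases ?_ ?_ j
      · simpa using W.smul_mem _ hwW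
      · intro j
        simpa using hvW' j
    · have key : LinearIndependent (IsLocalRing.ResidueField O)
          (Fin.cons (fun i => IsLocalRing.residue O ⟨c (a⁻¹ • w) i, hmem i⟩ :
            ι → IsLocalRing.ResidueField O) (fun j => (fun i => IsLocalRing.residue O
              ⟨c (v j) i, hO j i⟩ : ι → IsLocalRing.ResidueField O)) :
                Fin (d + 1) → ι → IsLocalRing.ResidueField O) := by
        rw [linearIndependent_finCons]
        refine ⟨hli, ?_⟩
        intro hmem2
        have h5 : Submodule.span (IsLocalRing.ResidueField O) (Set.range (fun j => (fun i =>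
            IsLocalRing.residue O ⟨c (v j) i, hO j i⟩ : ι → IsLocalRing.ResidueField O))) ≤
              LinearMap.ker (LinearMap.proj i0 :
                (ι → IsLocalRing.ResidueField O) →ₗ[IsLocalRing.ResidueField O]
                  IsLocalRing.ResidueField O) := by
          rw [Submodule.span_le]
          rintro _ ⟨j, rfl⟩
          show IsLocalRing.residue O ⟨c (v j) i0, hO j i0⟩ = 0
          have : (⟨c (v j) i0, hO j i0⟩ : O) = 0 := Subtype.ext (hv0 j)
          rw [this, map_zero]
        have h6 := h5 hmem2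
        have h7 : IsLocalRing.residue O ⟨c (a⁻¹ • w) i0, hmem i0⟩ = 0 := h6
        have h8 : (⟨c (a⁻¹ • w) i0, hmem i0⟩ : O) = 1 := Subtype.ext h1
        rw [h8, map_one] at h7
        exact one_ne_zero h7
      refine Eq.subst (motive := fun g => LinearIndependent (IsLocalRing.ResidueField O) g) ?_ key
      funext j
      refine Fin.cases ?_ ?_ j
      · rfl
      · intro j
        rfl

theorem lattice (O : ValuationSubring K) {V : Type*} [AddCommGroup V] [Module K V] {ι : Type*}
    (c : V →ₗ[K] (ι →₀ K)) (hc : Function.Injective c) (d : ℕ)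
    (hd : (d : Cardinal) ≤ Module.rank K V) :
    ∃ (v : Fin d → V) (hO : ∀ j i, c (v j) i ∈ O),
      LinearIndependent (IsLocalRing.ResidueField O)
        (fun j => (fun i => IsLocalRing.residue O ⟨c (v j) i, hO j i⟩ :
          ι → IsLocalRing.ResidueField O)) := by
  obtain ⟨v, hO, -, h⟩ := lattice_aux O c hc d ⊤ (by rwa [rank_top])
  exact ⟨v, hO, h⟩

theorem lattice_lift (O : ValuationSubring K) {V : Type*} [AddCommGroup V] [Module K V] {ι : Type*}
    (c : V →ₗ[K] (ι →₀ K)) {d : ℕ} (v : Fin d → V) (hO : ∀ j i, c (v j) i ∈ O)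
    (h : LinearIndependent (IsLocalRing.ResidueField O)
        (fun j => (fun i => IsLocalRing.residue O ⟨c (v j) i, hO j i⟩ :
          ι → IsLocalRing.ResidueField O))) : LinearIndependent K v := by
  rw [Fintype.linearIndependent_iff]
  intro g hg
  by_contra hcon
  push Not at hcon
  obtain ⟨j1, hj1⟩ := hcon
  obtain ⟨j0, -, hmax⟩ := Finset.exists_max_image Finset.univ (fun j => O.valuation (g j))
    ⟨j1, Finset.mem_univ _⟩
  have hg0 : g j0 ≠ 0 := by
    intro h0
    have h1 := hmax j1 (Finset.mem_univ _)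
    simp only [h0, map_zero] at h1
    exact hj1 ((Valuation.zero_iff _).mp (le_antisymm h1 zero_le'))
  set a := g j0 with hadef
  have hmem : ∀ j, a⁻¹ * g j ∈ O := by
    intro j
    rw [← ValuationSubring.valuation_le_one_iff, map_mul, map_inv₀]
    have h2 : O.valuation a ≠ 0 := (Valuation.ne_zero_iff _).mpr hg0
    calc (O.valuation a)⁻¹ * O.valuation (g j)
        ≤ (O.valuation a)⁻¹ * O.valuation a := mul_le_mul_right (hmax j (Finset.mem_univ _)) _
      _ = 1 := inv_mul_cancel₀ h2
  rw [Fintype.linearIndependent_iff] at h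
  have h3 := h (fun j => IsLocalRing.residue O ⟨a⁻¹ * g j, hmem j⟩) (by
    funext i
    rw [Finset.sum_apply, Pi.zero_apply]
    have h4 : ∑ j, (⟨a⁻¹ * g j, hmem j⟩ : O) * ⟨c (v j) i, hO j i⟩ = 0 := by
      apply Subtype.ext
      have h5 := congrArg (fun z => (c z) i) hg
      simp only [map_sum, map_smul, Finsupp.coe_finset_sum, Finset.sum_apply, Finsupp.smul_apply,
        smul_eq_mul, map_zero, Finsupp.coe_zero, Pi.zero_apply] at h5
      have h6 : ((∑ j, (⟨a⁻¹ * g j, hmem j⟩ : O) * ⟨c (v j) i, hO j i⟩ : O) : K) =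
          ∑ j, a⁻¹ * g j * c (v j) i := by
        rw [← ValuationSubring.coe_subtype, map_sum]
        rfl
      rw [h6]
      simp only [mul_assoc]
      rw [← Finset.mul_sum, h5, mul_zero]
      rfl
    have h7 := congrArg (IsLocalRing.residue O) h4
    rw [map_sum, map_zero] at h7
    rw [← h7]
    refine Finset.sum_congr rfl fun j _ => ?_
    rw [map_mul]
    rfl) j0
  have h8 : (⟨a⁻¹ * g j0, hmem j0⟩ : O) = 1 := Subtype.ext (inv_mul_cancel₀ hg0)
  rw [h8, map_one] at h3
  exact one_ne_zero h3

end MP446Z
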