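import Pool.Agent.Lib.MP_446dfa_ag.ddi.Dim
import Pool.Agent.Lib.MP_446dfa_ag.ddi.Purity
import Pool.Agent.Lib.MP_446dfa_ag.ddi.Val

set_option linter.all false

/-!
# The free Lie algebra on `σ_0, σ_1, …` and non-commutative polynomials
-/

noncomputable section

namespace MP446Z

open MP446 MP446Y

universe u v w

attribute [local instance 100] LieRing.ofAssociativeRing

/-! ### Injectivity in characteristic zero -/

section Inj

variable {K : Type u} [Field K]

/-- induction principle for the free Lie algebra -/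
lemma FL_induction {p : FreeLieAlgebra K ℕ → Prop} (hof : ∀ i, p (FreeLieAlgebra.of K i))
    (hadd : ∀ x y, p x → p y → p (x + y)) (hsmul : ∀ (c : K) x, p x → p (c • x))
    (hlie : ∀ x y, p x → p y → p ⁅x, y⁆) (x : FreeLieAlgebra K ℕ) : p x := by
  let S : LieSubalgebra K (FreeLieAlgebra K ℕ) :=
    { carrier := {x | p x}
      add_mem' := fun {a b} ha hb => hadd a b ha hb
      zero_mem' := by simpa using hsmul 0 _ (hof 0)
      smul_mem' := fun c {x} hx => hsmul c x hx
      lie_mem' := fun {a b} ha hb => hlie a b ha hb }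
  let f : FreeLieAlgebra K ℕ →ₗ⁅K⁆ S := FreeLieAlgebra.lift K
    (fun i => (⟨FreeLieAlgebra.of K i, hof i⟩ : S))
  have h : S.incl.comp f = LieHom.id := by
    apply FreeLieAlgebra.hom_ext
    intro i
    simp only [f, LieHom.comp_apply, FreeLieAlgebra.lift_of_apply]
    rfl
  have h2 : ((f x : S) : FreeLieAlgebra K ℕ) = x := LieHom.congr_fun h x
  have h3 := (f x).2
  rw [h2] at h3
  exact h3

/-- the embedding of the free Lie algebra in the non-commutative polynomials -/
def embN (K : Type u) [Field K] : FreeLieAlgebra K ℕ →ₗ⁅K⁆ FA K ℕ :=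
  FreeLieAlgebra.lift K (letter K : ℕ → FA K ℕ)

lemma embN_of (i : ℕ) : embN K (FreeLieAlgebra.of K i) = letter K i := by
  unfold embN
  rw [FreeLieAlgebra.lift_of_apply]

lemma embN_lie (x y : FreeLieAlgebra K ℕ) :
    embN K ⁅x, y⁆ = embN K x * embN K y - embN K y * embN K x := by
  rw [LieHom.map_lie, LieRing.of_associative_ring_bracket]

/-- auxiliary operator -/
def auxN (z : FreeLieAlgebra K ℕ) : Module.End K (FreeLieAlgebra K ℕ × K) where
  toFun p := (⁅z, p.1⁆ + p.2 • z, 0)
  map_add' p q := by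
    ext <;> simp [add_smul]; abel
  map_smul' c p := by
    ext <;> simp [mul_smul]

/-- auxiliary representation -/
def auxNR : FA K ℕ →ₐ[K] Module.End K (FreeLieAlgebra K ℕ × K) :=
  EVn (fun i => auxN (FreeLieAlgebra.of K i))

lemma auxNR_emb (P : FreeLieAlgebra K ℕ) : ∃ E : FreeLieAlgebra K ℕ,
    ∀ p : FreeLieAlgebra K ℕ × K, auxNR (embN K P) p = (⁅P, p.1⁆ + p.2 • E, 0) := by
  induction P using FL_induction with
  | hof i =>
    refine ⟨FreeLieAlgebra.of K i, fun p => ?_⟩
    rw [embN_of, auxNR, EVn_letter]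
    rfl
  | hadd x y hx hy =>
    obtain ⟨E, hE⟩ := hx
    obtain ⟨F, hF⟩ := hy
    refine ⟨E + F, fun p => ?_⟩
    rw [map_add, map_add, LinearMap.add_apply, hE, hF]
    ext <;> simp
    abel
  | hsmul c x hx =>
    obtain ⟨E, hE⟩ := hx
    refine ⟨c • E, fun p => ?_⟩
    rw [map_smul, map_smul, LinearMap.smul_apply, hE]
    ext <;> simp
    rw [smul_comm]
  | hlie x y hx hy =>
    obtain ⟨E, hE⟩ := hx
    obtain ⟨F, hF⟩ := hy
    refine ⟨⁅x, F⁆ - ⁅y, E⁆, fun p => ?_⟩
    rw [embN_lie, map_sub, map_mul, map_mul,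
      LinearMap.sub_apply, Module.End.mul_apply, Module.End.mul_apply, hE, hF, hE, hF]
    ext
    · simp only [Prod.fst_sub, zero_smul, add_zero, lie_add, lie_smul, smul_sub]
      rw [leibniz_lie x y p.1]
      abel
    · simp

/-- The derivation of degree. -/
def eulN : FreeLieAlgebra K ℕ →ₗ[K] FreeLieAlgebra K ℕ where
  toFun P := (auxNR (embN K P) (0, 1)).1
  map_add' x y := by rw [map_add, map_add]; rfl
  map_smul' c x := by rw [map_smul, map_smul]; rfl

lemma eulN_lie (x y : FreeLieAlgebra K ℕ) : eulN ⁅x, y⁆ = ⁅x, eulN y⁆ + ⁅eulN x, y⁆ := by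
  obtain ⟨E, hE⟩ := auxNR_emb x
  obtain ⟨F, hF⟩ := auxNR_emb y
  have e1 : eulN x = E := by
    change (auxNR (embN K x) (0, 1)).1 = E
    rw [hE]; simp
  have e2 : eulN y = F := by
    change (auxNR (embN K y) (0, 1)).1 = F
    rw [hF]; simp
  change (auxNR (embN K ⁅x, y⁆) (0, 1)).1 = _
  rw [embN_lie, map_sub, map_mul, map_mul,
      LinearMap.sub_apply, Module.End.mul_apply, Module.End.mul_apply, hE, hF, hE, hF, e1, e2]
  simp only [Prod.fst_sub, zero_smul, add_zero, lie_zero, zero_add, one_smul]
  rw [← lie_skew E y]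
  abel

lemma eulN_of (i : ℕ) : eulN (FreeLieAlgebra.of K i) = FreeLieAlgebra.of K i := by
  change (auxNR (embN K (FreeLieAlgebra.of K i)) (0, 1)).1 = _
  rw [embN_of, auxNR, EVn_letter]
  simp [auxN]

lemma eulN_top [CharZero K] :
    (⨆ (μ : K) (_ : μ ≠ 0), Module.End.eigenspace
      (eulN : Module.End K (FreeLieAlgebra K ℕ)) μ) = ⊤ := by
  have key : ∀ x : FreeLieAlgebra K ℕ, x ∈ Submodule.span K
      {y : FreeLieAlgebra K ℕ | ∃ n : ℕ, eulN y = ((n + 1 : ℕ) : K) • y} := by
    intro x
    induction x using FL_induction with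
    | hof i => exact Submodule.subset_span ⟨0, by simp [eulN_of]⟩
    | hadd x y hx hy => exact Submodule.add_mem _ hx hy
    | hsmul c x hx => exact Submodule.smul_mem _ _ hx
    | hlie x y hx hy =>
      refine Submodule.span_induction (p := fun a _ => ⁅a, y⁆ ∈ Submodule.span K
        {y : FreeLieAlgebra K ℕ | ∃ n : ℕ, eulN y = ((n + 1 : ℕ) : K) • y}) ?_ ?_ ?_ ?_ hx
      · rintro x ⟨n, hn⟩
        refine Submodule.span_induction (p := fun b _ => ⁅x, b⁆ ∈ Submodule.span K
          {y : FreeLieAlgebra K ℕ | ∃ n : ℕ, eulN y = ((n + 1 : ℕ) : K) • y}) ?_ ?_ ?_ ?_ hy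
        · rintro y ⟨m, hm⟩
          refine Submodule.subset_span ⟨n + m + 1, ?_⟩
          rw [eulN_lie, hn, hm, lie_smul, smul_lie, ← add_smul]
          congr 1
          push_cast
          ring
        · simp
        · intro a b _ _ ha hb
          rw [lie_add]; exact Submodule.add_mem _ ha hb
        · intro c a _ ha
          rw [lie_smul]; exact Submodule.smul_mem _ _ ha
      · simp
      · intro a b _ _ ha hb
        rw [add_lie]; exact Submodule.add_mem _ ha hb
      · intro c a _ ha
        rw [smul_lie]; exact Submodule.smul_mem _ _ ha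
  rw [eq_top_iff]
  rintro x -
  refine (Submodule.span_le.2 ?_) (key x)
  rintro y ⟨n, hn⟩
  have hne : ((n + 1 : ℕ) : K) ≠ 0 := by exact_mod_cast Nat.succ_ne_zero n
  exact Submodule.mem_iSup_of_mem _ (Submodule.mem_iSup_of_mem hne
    (Module.End.mem_eigenspace_iff.2 hn))

end Inj

/-- The free Lie algebra embeds into the algebra of non-commutative polynomials. -/
theorem free_injective (K : Type u) [Field K] [CharZero K] :
    Function.Injective (FreeLieAlgebra.lift K (letter K : ℕ → FA K ℕ)) := by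
  change Function.Injective (embN K)
  rw [injective_iff_map_eq_zero]
  intro P hP
  have h1 : eulN P = 0 := by
    change (auxNR (embN K P) (0, 1)).1 = 0
    rw [hP]
    change (auxNR (0 : FA K ℕ) (0, 1)).1 = 0
    rw [map_zero]; rfl
  have h2 := Module.End.eigenspaces_iSupIndep (eulN : Module.End K (FreeLieAlgebra K ℕ))
  have h3 := h2 0
  rw [eulN_top] at h3
  have h4 : P ∈ Module.End.eigenspace (eulN : Module.End K (FreeLieAlgebra K ℕ)) 0 := by
    rw [Module.End.mem_eigenspace_iff, h1, zero_smul]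
  rw [disjoint_top] at h3
  rw [h3] at h4
  exact (Submodule.mem_bot K).1 h4

/-! ### Weights of words in the letters `z_i` -/

section WtN

variable (k : Type v) [CommRing k]

/-- the word `w` as a polynomial -/
def owN (w : List ℕ) : FA k ℕ := MonoidAlgebra.of k (FreeMonoid ℕ) (FreeMonoid.ofList w)

/-- the polynomials in the letters `z_i` of weight `m` -/
def HN (m : ℕ) : Submodule k (FA k ℕ) :=
  Submodule.span k {X | ∃ w : List ℕ, wtL w = m ∧ X = owN k w}

lemma wtL_append (w w' : List ℕ) : wtL (w ++ w') = wtL w + wtL w' := by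
  simp [wtL]

lemma owN_mul (w w' : List ℕ) : owN k w * owN k w' = owN k (w ++ w') := by
  unfold owN
  rw [← map_mul]
  rfl

lemma HN_mul {m m' : ℕ} {X Y : FA k ℕ} (hX : X ∈ HN k m) (hY : Y ∈ HN k m') :
    X * Y ∈ HN k (m + m') := by
  refine Submodule.span_induction (p := fun a _ => a * Y ∈ HN k (m + m')) ?_ ?_ ?_ ?_ hX
  · rintro _ ⟨w, hw, rfl⟩
    refine Submodule.span_induction (p := fun b _ => owN k w * b ∈ HN k (m + m')) ?_ ?_ ?_ ?_ hY
    · rintro _ ⟨w', hw', rfl⟩
      exact Submodule.subset_span ⟨w ++ w', by rw [wtL_append, hw, hw'], owN_mul k w w'⟩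
    · rw [mul_zero]; exact Submodule.zero_mem _
    · intro a b _ _ ha hb; rw [mul_add]; exact Submodule.add_mem _ ha hb
    · intro c a _ ha; rw [mul_smul_comm]; exact Submodule.smul_mem _ _ ha
  · rw [zero_mul]; exact Submodule.zero_mem _
  · intro a b _ _ ha hb; rw [add_mul]; exact Submodule.add_mem _ ha hb
  · intro c a _ ha; rw [smul_mul_assoc]; exact Submodule.smul_mem _ _ ha

lemma HN_lie {m m' : ℕ} {X Y : FA k ℕ} (hX : X ∈ HN k m) (hY : Y ∈ HN k m') :
    ⁅X, Y⁆ ∈ HN k (m + m') := by
  rw [LieRing.of_associative_ring_bracket]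
  refine Submodule.sub_mem _ (HN_mul k hX hY) ?_
  rw [add_comm]
  exact HN_mul k hY hX

lemma HN_letter (i : ℕ) : letter k i ∈ HN k (2 * i + 3) :=
  Submodule.subset_span ⟨[i], by simp [wtL], rfl⟩

lemma owN_coeff (w : List ℕ) : (owN k w).coeff = Finsupp.single (FreeMonoid.ofList w) 1 := rfl

lemma HN_coeff {m : ℕ} {X : FA k ℕ} (hX : X ∈ HN k m) (w : List ℕ) (hw : wtL w ≠ m) :
    X.coeff (FreeMonoid.ofList w) = 0 := by
  classical
  refine Submodule.span_induction
    (p := fun a _ => MonoidAlgebra.coeff a (FreeMonoid.ofList w) = 0) ?_ ?_ ?_ ?_ hX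
  · rintro _ ⟨w', hw', rfl⟩
    rw [owN_coeff, Finsupp.single_apply, if_neg]
    intro h
    apply hw
    have : w' = w := FreeMonoid.ofList.injective h
    rw [← this, hw']
  · rfl
  · intro a b _ _ ha hb
    rw [MonoidAlgebra.coeff_add, Finsupp.add_apply, ha, hb, add_zero]
  · intro c a _ ha
    rw [MonoidAlgebra.coeff_smul, Finsupp.smul_apply, ha, smul_zero]

lemma HN_br (l : List ℕ) : brF k l ∈ HN k (wtL l) := by
  induction l with
  | nil => exact Submodule.zero_mem _
  | cons i l ih =>
    cases l with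
    | nil =>
      change letter k i ∈ _
      have := HN_letter k i
      simpa [wtL] using this
    | cons j l =>
      rw [brF_cons, wtL_cons]
      exact HN_lie k (HN_letter k i) ih

lemma LieP_le_NN (x : FA k ℕ) (hx : x ∈ LieP k ℕ) : x ∈ NN k := by
  let S : LieSubalgebra k (FA k ℕ) :=
    { carrier := {x | x ∈ NN k}
      add_mem' := fun {a b} ha hb => (NN k).add_mem ha hb
      zero_mem' := (NN k).zero_mem
      smul_mem' := fun c {x} hx => (NN k).smul_mem c hx
      lie_mem' := fun {a b} ha hb => NN_lie k ha hb }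
  have h : LieP k ℕ ≤ S := by
    refine LieSubalgebra.lieSpan_le.2 ?_
    rintro _ ⟨i, rfl⟩
    exact letter_mem k i
  exact h hx

lemma NN_wt (n : ℕ) (G : FA k ℕ) (hG : G ∈ NN k)
    (hw : ∀ w, G.coeff (FreeMonoid.ofList w) ≠ 0 → wtL w = n) :
    G ∈ Submodule.span k {X | ∃ l, wtL l = n ∧ X = brF k l} := by
  classical
  obtain ⟨a, ha⟩ := (Finsupp.mem_span_range_iff_exists_finsupp).1 hG
  have hG2 : G = ∑ l ∈ a.support, a l • brF k l := by
    rw [← ha, Finsupp.sum]
  have key : G = ∑ l ∈ a.support with wtL l = n, a l • brF k l := by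
    apply MonoidAlgebra.coeff_injective
    ext w
    obtain ⟨w, rfl⟩ := FreeMonoid.ofList.surjective w
    have hco : ∀ s : Finset (List ℕ),
        (∑ l ∈ s, a l • brF k l : FA k ℕ).coeff (FreeMonoid.ofList w) =
        ∑ l ∈ s, a l * (brF k l).coeff (FreeMonoid.ofList w) := by
      intro s
      rw [MonoidAlgebra.coeff_sum, Finsupp.finset_sum_apply]
      rfl
    by_cases hwn : wtL w = n
    · rw [hco, hG2, hco]
      rw [Finset.sum_filter]
      refine Finset.sum_congr rfl (fun l _ => ?_)
      split_ifs with h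
      · rfl
      · rw [HN_coeff k (HN_br k l) w (by omega), mul_zero]
    · have h0 : G.coeff (FreeMonoid.ofList w) = 0 := by
        by_contra h
        exact hwn (hw w h)
      rw [h0, hco]
      symm
      refine Finset.sum_eq_zero (fun l hl => ?_)
      have hl' := (Finset.mem_filter.1 hl).2
      rw [HN_coeff k (HN_br k l) w (by omega), mul_zero]
  rw [key]
  refine Submodule.sum_mem _ (fun l hl => Submodule.smul_mem _ _ (Submodule.subset_span ?_))
  exact ⟨l, (Finset.mem_filter.1 hl).2, rfl⟩

end WtN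

/-! ### The ranks of the weight components -/

section Rank

variable {K : Type u} [Field K]

lemma embN_freeWt_wt (n : ℕ) (x : FreeLieAlgebra K ℕ) (hx : x ∈ freeWt K n) :
    embN K x ∈ HN K n := by
  refine Submodule.span_induction (p := fun a _ => embN K a ∈ HN K n) ?_ ?_ ?_ ?_ hx
  · rintro _ ⟨l, hl, rfl⟩
    have h : embN K (rbr K l) = brF K l := map_rbr K l
    rw [h]
    have := HN_br K l
    unfold wtL at this
    rwa [hl] at this
  · rw [map_zero]; exact Submodule.zero_mem _
  · intro a b _ _ ha hb; rw [map_add]; exact Submodule.add_mem _ ha hb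
  · intro c a _ ha; rw [map_smul]; exact Submodule.smul_mem _ _ ha

lemma embN_mem_LieP (x : FreeLieAlgebra K ℕ) : embN K x ∈ LieP K ℕ := by
  induction x using FL_induction with
  | hof i =>
    rw [embN_of]
    exact LieSubalgebra.subset_lieSpan ⟨i, rfl⟩
  | hadd x y hx hy => rw [map_add]; exact add_mem hx hy
  | hsmul c x hx => rw [map_smul]; exact (LieP K ℕ).smul_mem c hx
  | hlie x y hx hy => rw [LieHom.map_lie]; exact (LieP K ℕ).lie_mem hx hy

theorem rank_freeWt_le [CharZero K] (O : ValuationSubring K)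
    (h2 : (2 : IsLocalRing.ResidueField O) = 0) (n : ℕ) :
    Module.rank K (freeWt K n) ≤ Module.rank (IsLocalRing.ResidueField O)
      (Submodule.span (IsLocalRing.ResidueField O)
        {X : FA (IsLocalRing.ResidueField O) ℕ | ∃ l, wtL l = n ∧ X = brF _ l}) := by
  classical
  -- the space has finite dimension
  have hfin : Module.Finite K (freeWt K n) := by
    have h1 : {x | ∃ l : List ℕ, (l.map (fun i => 2 * i + 3)).sum = n ∧ x = rbr K l} =
        (rbr K) '' {l : List ℕ | wtL l = n} := by
      ext x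
      constructor
      · rintro ⟨l, hl, rfl⟩
        exact ⟨l, hl, rfl⟩
      · rintro ⟨l, hl, rfl⟩
        exact ⟨l, hl, rfl⟩
    unfold freeWt
    rw [h1]
    exact Module.Finite.span_of_finite K ((finite_wtL n).image _)
  obtain ⟨d, hd⟩ : ∃ d : ℕ, Module.rank K (freeWt K n) = d :=
    ⟨Module.finrank K (freeWt K n), (Module.finrank_eq_rank K _).symm⟩
  rw [hd]
  let c : freeWt K n →ₗ[K] (FreeMonoid ℕ →₀ K) :=
    { toFun := fun x => (embN K x.1).coeff
      map_add' := fun x y => by
        change (embN K (x.1 + y.1)).coeff = _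
        rw [map_add]
        rfl
      map_smul' := fun r x => by
        change (embN K (r • x.1)).coeff = _
        rw [map_smul]
        rfl }
  have hc : Function.Injective c := by
    intro x y hxy
    apply Subtype.ext
    apply free_injective K
    exact MonoidAlgebra.coeff_injective hxy
  obtain ⟨v, hO, hli⟩ := lattice O c hc d hd.ge
  let H : Fin d → FA (IsLocalRing.ResidueField O) ℕ := fun j =>
    MonoidAlgebra.ofCoeff (Finsupp.onFinset (c (v j)).support
      (fun w => IsLocalRing.residue O ⟨c (v j) w, hO j w⟩) (by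
        intro w hw
        rw [Finsupp.mem_support_iff]
        intro h
        apply hw
        have : (⟨c (v j) w, hO j w⟩ : O) = 0 := Subtype.ext h
        rw [this, map_zero]))
  have hHc : ∀ j w, (H j).coeff w = IsLocalRing.residue O ⟨c (v j) w, hO j w⟩ :=
    fun j w => rfl
  have hmem : ∀ j, H j ∈ Submodule.span (IsLocalRing.ResidueField O)
      {X : FA (IsLocalRing.ResidueField O) ℕ | ∃ l, wtL l = n ∧ X = brF _ l} := by
    intro j
    apply NN_wt
    · apply LieP_le_NN
      exact purity (embN K (v j).1) (embN_mem_LieP _) O.toSubring.toAddSubgroup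
        (IsLocalRing.residue O).toAddMonoidHom (hO j) (H j) (fun w => hHc j w)
    · intro w hw
      by_contra hne
      apply hw
      rw [hHc]
      have h0 : c (v j) (FreeMonoid.ofList w) = 0 :=
        HN_coeff K (embN_freeWt_wt n (v j).1 (v j).2) w hne
      have : (⟨c (v j) (FreeMonoid.ofList w), hO j _⟩ : O) = 0 := Subtype.ext h0
      rw [this, map_zero]
  let H' : Fin d → (Submodule.span (IsLocalRing.ResidueField O)
      {X : FA (IsLocalRing.ResidueField O) ℕ | ∃ l, wtL l = n ∧ X = brF _ l}) :=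
    fun j => ⟨H j, hmem j⟩
  have hH' : LinearIndependent (IsLocalRing.ResidueField O) H' := by
    let F : (Submodule.span (IsLocalRing.ResidueField O)
        {X : FA (IsLocalRing.ResidueField O) ℕ | ∃ l, wtL l = n ∧ X = brF _ l})
        →ₗ[IsLocalRing.ResidueField O] (FreeMonoid ℕ → IsLocalRing.ResidueField O) :=
      { toFun := fun x => (x.1.coeff : FreeMonoid ℕ → IsLocalRing.ResidueField O)
        map_add' := fun x y => rfl
        map_smul' := fun r x => rfl }
    refine LinearIndependent.of_comp F ?_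
    exact hli
  have := hH'.cardinal_lift_le_rank
  simpa using this

end Rank

end MP446Z
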