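import Pool.Agent.Lib.MP_446dfa_ag.ddi.Dim
import Pool.Agent.Lib.MP_446dfa_ag.ddi.Core

set_option linter.all false

/-!
# The Ihara bracket of non-commutative polynomials: reduction modulo `y²`, degree and depth
-/

noncomputable section

namespace MP446Z

open MP446 MP446Y

universe u v w

attribute [local instance 100] LieRing.ofAssociativeRing

/-! ### The Ihara bracket in the free associative algebra -/

section Assoc

variable {K : Type u} [Field K]

/-- the Ihara bracket of two non-commutative polynomials -/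
def iharaA {k : Type v} [CommRing k] (P Q : AA k) : AA k :=
  P * Q - Q * P + derF ![0, lt k 1 * P - P * lt k 1] Q - derF ![0, lt k 1 * Q - Q * lt k 1] P

lemma derF_lt {k : Type v} [CommRing k] (d : Fin 2 → AA k) (i : Fin 2) :
    derF d (lt k i) = d i := by
  rw [← letter_eq_lt]
  exact derF_letter d i

lemma assoc_der (s t : F2 K) :
    assoc K (der s t) =
      derF ![0, lt K 1 * assoc K s - assoc K s * lt K 1] (assoc K t) := by
  induction t using F2_induction with
  | hA =>
    rw [der_gA, map_zero, assoc_gA, derF_lt]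
    rfl
  | hB =>
    rw [der_gB, LieHom.map_lie, assoc_gB, LieRing.of_associative_ring_bracket, derF_lt]
    rfl
  | hadd a b ha hb => rw [map_add, map_add, map_add, map_add, ha, hb]
  | hsmul c a ha => rw [map_smul, map_smul, map_smul, map_smul, ha]
  | hlie a b ha hb =>
    rw [LieDerivation.apply_lie_eq_add, map_add, LieHom.map_lie, LieHom.map_lie, LieHom.map_lie,
      ha, hb, LieRing.of_associative_ring_bracket, LieRing.of_associative_ring_bracket,
      LieRing.of_associative_ring_bracket, map_sub, derF_mul, derF_mul]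
    abel

theorem assoc_ihara (s t : F2 K) :
    assoc K (iharaBracket s t) = iharaA (assoc K s) (assoc K t) := by
  unfold iharaBracket iharaA
  rw [map_sub, map_add, LieHom.map_lie, LieRing.of_associative_ring_bracket, assoc_der, assoc_der]

end Assoc

/-! ### Change of coefficients -/

section Map

lemma mapR_letter {k : Type v} [CommRing k] {l : Type w} [CommRing l] {A : Type*} (f : k →+* l)
    (a : A) : MonoidAlgebra.mapRingHom (FreeMonoid A) f (letter k a) = letter l a := by
  unfold letter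
  rw [MonoidAlgebra.of_apply, MonoidAlgebra.of_apply, MonoidAlgebra.mapRingHom_single, map_one]

lemma mapR_smul {k : Type v} [CommRing k] {l : Type w} [CommRing l] {A : Type*} (f : k →+* l)
    (c : k) (X : FA k A) : MonoidAlgebra.mapRingHom (FreeMonoid A) f (c • X) =
      f c • MonoidAlgebra.mapRingHom (FreeMonoid A) f X := by
  ext w
  rw [MonoidAlgebra.coeff_mapRingHom, MonoidAlgebra.coeff_smul, MonoidAlgebra.coeff_smul,
    Finsupp.smul_apply, Finsupp.smul_apply, MonoidAlgebra.coeff_mapRingHom, smul_eq_mul,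
    smul_eq_mul, map_mul]

lemma mapR_derF {k : Type v} [CommRing k] {l : Type w} [CommRing l] {A : Type*} (f : k →+* l)
    (d : A → FA k A) (X : FA k A) : MonoidAlgebra.mapRingHom (FreeMonoid A) f (derF d X) =
      derF (fun a => MonoidAlgebra.mapRingHom (FreeMonoid A) f (d a))
        (MonoidAlgebra.mapRingHom (FreeMonoid A) f X) := by
  induction X using FA_induction with
  | h1 => rw [derF_one, map_zero, map_one, derF_one]
  | hmul a X ih =>
    rw [derF_mul, derF_letter, map_add, map_mul, map_mul, map_mul, derF_mul, ih, mapR_letter,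
      derF_letter]
  | hadd X Y hX hY => rw [map_add, map_add, map_add, map_add, hX, hY]
  | hsmul c X hX => rw [map_smul, mapR_smul, mapR_smul, map_smul, hX]

theorem iharaA_map {k : Type v} [CommRing k] {l : Type w} [CommRing l] (f : k →+* l) (P Q : AA k) :
    MonoidAlgebra.mapRingHom (FreeMonoid (Fin 2)) f (iharaA P Q) =
      iharaA (MonoidAlgebra.mapRingHom (FreeMonoid (Fin 2)) f P)
        (MonoidAlgebra.mapRingHom (FreeMonoid (Fin 2)) f Q) := by
  have key : ∀ P : AA k, (fun a => MonoidAlgebra.mapRingHom (FreeMonoid (Fin 2)) f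
      ((![0, lt k 1 * P - P * lt k 1] : Fin 2 → AA k) a)) =
      (![0, lt l 1 * MonoidAlgebra.mapRingHom (FreeMonoid (Fin 2)) f P -
        MonoidAlgebra.mapRingHom (FreeMonoid (Fin 2)) f P * lt l 1] : Fin 2 → AA l) := by
    intro P
    funext a
    fin_cases a
    · exact map_zero _
    · change MonoidAlgebra.mapRingHom (FreeMonoid (Fin 2)) f (lt k 1 * P - P * lt k 1) =
        lt l 1 * MonoidAlgebra.mapRingHom (FreeMonoid (Fin 2)) f P -
        MonoidAlgebra.mapRingHom (FreeMonoid (Fin 2)) f P * lt l 1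
      rw [map_sub, map_mul, map_mul, ← letter_eq_lt, mapR_letter]
      rfl
  unfold iharaA
  rw [map_sub, map_add, map_sub, map_mul, map_mul, mapR_derF, mapR_derF, key, key]

end Map

/-! ### Reduction modulo `y²` -/

section Mod

variable {k : Type v} [CommRing k]

lemma Iy_y_EV (h2 : (2 : k) = 0) (G : AA k) :
    lt k 1 * EV (BB k) (ZZ k) G - EV (BB k) (ZZ k) G * lt k 1 ∈ Iy k := by
  have hyy (a b : AA k) : a * (lt k 1 * lt k 1) * b ∈ Iy k := mem_Iy a b
  have hB : lt k 1 * BB k - BB k * lt k 1 ∈ Iy k := by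
    have e : lt k 1 * BB k - BB k * lt k 1 =
        (lt k 1 * lt k 0 * lt k 1 + lt k 1 * lt k 0 * lt k 1) -
          (1 * (lt k 1 * lt k 1) * lt k 0 + lt k 0 * (lt k 1 * lt k 1) * 1) := by
      unfold BB
      noncomm_ring
    rw [e, two_smul_zero h2, zero_sub]
    exact Submodule.neg_mem _ (Submodule.add_mem _ (hyy _ _) (hyy _ _))
  have hZ : lt k 1 * ZZ k - ZZ k * lt k 1 ∈ Iy k := by
    have e : lt k 1 * ZZ k - ZZ k * lt k 1 =
        (lt k 1 * lt k 0 * lt k 0 * lt k 1 + lt k 1 * lt k 0 * lt k 0 * lt k 1) -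
          (1 * (lt k 1 * lt k 1) * (lt k 0 * lt k 0) +
            lt k 0 * lt k 0 * (lt k 1 * lt k 1) * 1) := by
      unfold ZZ
      noncomm_ring
    rw [e, two_smul_zero h2, zero_sub]
    exact Submodule.neg_mem _ (Submodule.add_mem _ (hyy _ _) (hyy _ _))
  have hZZ : ∀ a : Fin 2, lt k 1 * EV (BB k) (ZZ k) (lt k a) -
      EV (BB k) (ZZ k) (lt k a) * lt k 1 ∈ Iy k := by
    intro a
    fin_cases a
    · change lt k 1 * EV (BB k) (ZZ k) (lt k 0) - EV (BB k) (ZZ k) (lt k 0) * lt k 1 ∈ Iy k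
      rw [EV_lt0]; exact hB
    · change lt k 1 * EV (BB k) (ZZ k) (lt k 1) - EV (BB k) (ZZ k) (lt k 1) * lt k 1 ∈ Iy k
      rw [EV_lt1]; exact hZ
  induction G using FA_induction with
  | h1 => rw [map_one, mul_one, one_mul, sub_self]; exact Submodule.zero_mem _
  | hmul a X ih =>
    rw [map_mul]
    have e : lt k 1 * (EV (BB k) (ZZ k) (letter k a) * EV (BB k) (ZZ k) X) -
        EV (BB k) (ZZ k) (letter k a) * EV (BB k) (ZZ k) X * lt k 1 =
        (lt k 1 * EV (BB k) (ZZ k) (lt k a) - EV (BB k) (ZZ k) (lt k a) * lt k 1) *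
          EV (BB k) (ZZ k) X + EV (BB k) (ZZ k) (lt k a) *
          (lt k 1 * EV (BB k) (ZZ k) X - EV (BB k) (ZZ k) X * lt k 1) := by
      rw [letter_eq_lt]
      noncomm_ring
    rw [e]
    exact Submodule.add_mem _ (Iy_mul_right (hZZ a) _) (Iy_mul_left ih _)
  | hadd X Y hX hY =>
    rw [map_add, mul_add, add_mul, add_sub_add_comm]
    exact Submodule.add_mem _ hX hY
  | hsmul c X hX =>
    rw [map_smul, mul_smul_comm, smul_mul_assoc, ← smul_sub]
    exact Submodule.smul_mem _ _ hX

lemma derF_mem_Iy {d : Fin 2 → AA k} (hd : ∀ a, d a ∈ Iy k) (X : AA k) : derF d X ∈ Iy k := by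
  induction X using FA_induction with
  | h1 => rw [derF_one]; exact Submodule.zero_mem _
  | hmul a X ih =>
    rw [derF_mul, derF_letter]
    exact Submodule.add_mem _ (Iy_mul_left ih _) (Iy_mul_right (hd a) _)
  | hadd X Y hX hY => rw [map_add]; exact Submodule.add_mem _ hX hY
  | hsmul c X hX => rw [map_smul]; exact Submodule.smul_mem _ _ hX

lemma Iy_y_mod (h2 : (2 : k) = 0) {H G : AA k} (h : H - EV (BB k) (ZZ k) G ∈ Iy k) :
    lt k 1 * H - H * lt k 1 ∈ Iy k := by
  have e : lt k 1 * H - H * lt k 1 = (lt k 1 * (H - EV (BB k) (ZZ k) G) -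
      (H - EV (BB k) (ZZ k) G) * lt k 1) +
      (lt k 1 * EV (BB k) (ZZ k) G - EV (BB k) (ZZ k) G * lt k 1) := by
    noncomm_ring
  rw [e]
  exact Submodule.add_mem _ (Submodule.sub_mem _ (Iy_mul_left h _) (Iy_mul_right h _))
    (Iy_y_EV h2 G)

lemma derF_mod (h2 : (2 : k) = 0) {H G : AA k} (h : H - EV (BB k) (ZZ k) G ∈ Iy k) (X : AA k) :
    derF ![0, lt k 1 * H - H * lt k 1] X ∈ Iy k := by
  apply derF_mem_Iy
  intro a
  fin_cases a
  · exact Submodule.zero_mem _
  · exact Iy_y_mod h2 h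

theorem iharaA_mod {k : Type v} [CommRing k] (h2 : (2 : k) = 0) (H1 H2 G1 G2 : AA k)
    (h : H1 - EV (BB k) (ZZ k) G1 ∈ Iy k) (h' : H2 - EV (BB k) (ZZ k) G2 ∈ Iy k) :
    iharaA H1 H2 - EV (BB k) (ZZ k) (G1 * G2 - G2 * G1) ∈ Iy k := by
  unfold iharaA
  have d1 := derF_mod h2 h H2
  have d2 := derF_mod h2 h' H1
  have e : H1 * H2 - H2 * H1 + derF ![0, lt k 1 * H1 - H1 * lt k 1] H2 -
      derF ![0, lt k 1 * H2 - H2 * lt k 1] H1 - EV (BB k) (ZZ k) (G1 * G2 - G2 * G1) =
      ((H1 - EV (BB k) (ZZ k) G1) * H2 + EV (BB k) (ZZ k) G1 * (H2 - EV (BB k) (ZZ k) G2)) -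
      ((H2 - EV (BB k) (ZZ k) G2) * H1 + EV (BB k) (ZZ k) G2 * (H1 - EV (BB k) (ZZ k) G1)) +
      (derF ![0, lt k 1 * H1 - H1 * lt k 1] H2 - derF ![0, lt k 1 * H2 - H2 * lt k 1] H1) := by
    rw [map_sub, map_mul, map_mul]
    noncomm_ring
  rw [e]
  exact Submodule.add_mem _ (Submodule.sub_mem _
    (Submodule.add_mem _ (Iy_mul_right h _) (Iy_mul_left h' _))
    (Submodule.add_mem _ (Iy_mul_right h' _) (Iy_mul_left h _))) (Submodule.sub_mem _ d1 d2)

end Mod

/-! ### Degree and depth -/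

section Grad

variable {k : Type v} [CommRing k]

/-- the span of the words satisfying `p` -/
def Sp (k : Type v) [CommRing k] (p : List (Fin 2) → Prop) : Submodule k (AA k) :=
  Submodule.span k {X | ∃ Y, p Y ∧ X = ow k Y}

lemma ow_mem_Sp {p : List (Fin 2) → Prop} {Y : List (Fin 2)} (h : p Y) : ow k Y ∈ Sp k p :=
  Submodule.subset_span ⟨Y, h, rfl⟩

lemma Sp_coeff {p : List (Fin 2) → Prop} {X : AA k} (h : X ∈ Sp k p) {Y : List (Fin 2)}
    (hY : ¬ p Y) : X.coeff (FreeMonoid.ofList Y) = 0 := by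
  induction h using Submodule.span_induction with
  | mem x hx =>
    obtain ⟨Z, hZ, rfl⟩ := hx
    rw [MP446Y.ow_coeff, if_neg]
    rintro rfl
    exact hY hZ
  | zero => simp
  | add x y _ _ hx hy => rw [MonoidAlgebra.coeff_add, Finsupp.add_apply, hx, hy, add_zero]
  | smul c x _ hx => rw [MonoidAlgebra.coeff_smul, Finsupp.smul_apply, hx, smul_zero]

lemma mem_Sp {p : List (Fin 2) → Prop} {X : AA k}
    (h : ∀ Y, ¬ p Y → X.coeff (FreeMonoid.ofList Y) = 0) : X ∈ Sp k p := by
  rw [FA_coeff_expand X]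
  refine Submodule.sum_mem _ (fun w hw => Submodule.smul_mem _ _ ?_)
  have h1 : p (FreeMonoid.toList w) := by
    by_contra h2
    have h3 := h (FreeMonoid.toList w) h2
    rw [FreeMonoid.ofList_toList] at h3
    exact (Finsupp.mem_support_iff.1 hw) h3
  exact ow_mem_Sp h1

lemma Sp_mono {p q : List (Fin 2) → Prop} (h : ∀ Y, p Y → q Y) {X : AA k} (hX : X ∈ Sp k p) :
    X ∈ Sp k q := by
  refine Submodule.span_mono ?_ hX
  rintro _ ⟨Y, hY, rfl⟩
  exact ⟨Y, h Y hY, rfl⟩

lemma Sp_mul {p q r : List (Fin 2) → Prop} (h : ∀ Y Z, p Y → q Z → r (Y ++ Z)) {X X' : AA k}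
    (hX : X ∈ Sp k p) (hX' : X' ∈ Sp k q) : X * X' ∈ Sp k r := by
  induction hX using Submodule.span_induction with
  | mem x hx =>
    obtain ⟨Y, hY, rfl⟩ := hx
    induction hX' using Submodule.span_induction with
    | mem x hx =>
      obtain ⟨Z, hZ, rfl⟩ := hx
      rw [← ow_append]
      exact ow_mem_Sp (h Y Z hY hZ)
    | zero => rw [mul_zero]; exact Submodule.zero_mem _
    | add x y _ _ hx hy => rw [mul_add]; exact Submodule.add_mem _ hx hy
    | smul c x _ hx => rw [mul_smul_comm]; exact Submodule.smul_mem _ _ hx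
  | zero => rw [zero_mul]; exact Submodule.zero_mem _
  | add x y _ _ hx hy => rw [add_mul]; exact Submodule.add_mem _ hx hy
  | smul c x _ hx => rw [smul_mul_assoc]; exact Submodule.smul_mem _ _ hx

lemma Sp_derF {p q : List (Fin 2) → Prop} {d : Fin 2 → AA k}
    (h : ∀ Y, p Y → derF d (ow k Y) ∈ Sp k q) {X : AA k} (hX : X ∈ Sp k p) :
    derF d X ∈ Sp k q := by
  induction hX using Submodule.span_induction with
  | mem x hx =>
    obtain ⟨Y, hY, rfl⟩ := hx
    exact h Y hY
  | zero => rw [map_zero]; exact Submodule.zero_mem _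
  | add x y _ _ hx hy => rw [map_add]; exact Submodule.add_mem _ hx hy
  | smul c x _ hx => rw [map_smul]; exact Submodule.smul_mem _ _ hx

lemma derF_ow_cons (d : Fin 2 → AA k) (i : Fin 2) (Y : List (Fin 2)) :
    derF d (ow k (i :: Y)) = lt k i * derF d (ow k Y) + d i * ow k Y := by
  rw [ow_cons, derF_mul, ← letter_eq_lt, derF_letter]

lemma derF_ow_length {m : ℕ} {P : AA k} (hP : P ∈ Sp k (fun Y => Y.length = m))
    (Y : List (Fin 2)) : derF ![0, lt k 1 * P - P * lt k 1] (ow k Y) ∈
      Sp k (fun Z => Z.length = Y.length + m) := by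
  have h1 : lt k 1 * P - P * lt k 1 ∈ Sp k (fun Z => Z.length = m + 1) := by
    have hl : lt k 1 ∈ Sp k (fun Z => Z.length = 1) := ow_mem_Sp rfl
    exact Submodule.sub_mem _
      (Sp_mul (by intro Y Z h1 h2; rw [List.length_append, h1, h2, add_comm]) hl hP)
      (Sp_mul (by intro Y Z h1 h2; rw [List.length_append, h1, h2]) hP hl)
  induction Y with
  | nil => rw [ow_nil, derF_one]; exact Submodule.zero_mem _
  | cons i Y ih =>
    rw [derF_ow_cons]
    have hl : lt k i ∈ Sp k (fun Z => Z.length = 1) := ow_mem_Sp rfl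
    have hY : ow k Y ∈ Sp k (fun Z => Z.length = Y.length) := ow_mem_Sp rfl
    refine Submodule.add_mem _ (Sp_mul ?_ hl ih) ?_
    · intro Y' Z h1 h2
      rw [List.length_append, h1, h2, List.length_cons]
      omega
    · fin_cases i
      · change 0 * ow k Y ∈ _
        rw [zero_mul]
        exact Submodule.zero_mem _
      · change (lt k 1 * P - P * lt k 1) * ow k Y ∈ _
        refine Sp_mul ?_ h1 hY
        intro Y' Z h1 h2
        rw [List.length_append, h1, h2, List.length_cons]
        omega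

lemma iharaA_length {m n : ℕ} {P Q : AA k} (hP : P ∈ Sp k (fun Y => Y.length = m))
    (hQ : Q ∈ Sp k (fun Y => Y.length = n)) :
    iharaA P Q ∈ Sp k (fun Y => Y.length = m + n) := by
  unfold iharaA
  refine Submodule.sub_mem _ (Submodule.add_mem _ (Submodule.sub_mem _ (Sp_mul ?_ hP hQ)
    (Sp_mul ?_ hQ hP)) (Sp_derF ?_ hQ)) (Sp_derF ?_ hP)
  · intro Y Z h1 h2
    rw [List.length_append, h1, h2]
  · intro Y Z h1 h2
    rw [List.length_append, h1, h2, add_comm]
  · intro Y hY
    refine Sp_mono ?_ (derF_ow_length hP Y)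
    intro Z hZ
    rw [hZ, hY, add_comm]
  · intro Y hY
    refine Sp_mono ?_ (derF_ow_length hQ Y)
    intro Z hZ
    rw [hZ, hY]

lemma derF_ow_depth {P : AA k} (hP : P ∈ Sp k (fun Y => 1 ≤ Y.count 1))
    (Y : List (Fin 2)) : derF ![0, lt k 1 * P - P * lt k 1] (ow k Y) ∈
      Sp k (fun Z => Y.count 1 + 1 ≤ Z.count 1) := by
  have h1 : lt k 1 * P - P * lt k 1 ∈ Sp k (fun Z => 2 ≤ Z.count 1) := by
    have hl : lt k 1 ∈ Sp k (fun Z => 1 ≤ Z.count 1) := ow_mem_Sp (by decide)
    exact Submodule.sub_mem _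
      (Sp_mul (by intro Y Z h1 h2; rw [List.count_append]; omega) hl hP)
      (Sp_mul (by intro Y Z h1 h2; rw [List.count_append]; omega) hP hl)
  induction Y with
  | nil => rw [ow_nil, derF_one]; exact Submodule.zero_mem _
  | cons i Y ih =>
    rw [derF_ow_cons]
    have hl : lt k i ∈ Sp k (fun Z => (i :: []).count 1 ≤ Z.count 1) := ow_mem_Sp le_rfl
    have hY : ow k Y ∈ Sp k (fun Z => Y.count 1 ≤ Z.count 1) := ow_mem_Sp le_rfl
    refine Submodule.add_mem _ (Sp_mul ?_ hl ih) ?_
    · intro Y' Z h1 h2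
      rw [List.count_append]
      have e : (i :: Y).count 1 = (i :: ([] : List (Fin 2))).count 1 + Y.count 1 := by
        rw [← List.count_append]; rfl
      rw [e]
      omega
    · fin_cases i
      · change 0 * ow k Y ∈ _
        rw [zero_mul]
        exact Submodule.zero_mem _
      · change (lt k 1 * P - P * lt k 1) * ow k Y ∈ _
        refine Sp_mul ?_ h1 hY
        intro Y' Z h1 h2
        rw [List.count_append]
        have e : ((1 : Fin 2) :: Y).count 1 = 1 + Y.count 1 := by
          rw [List.count_cons_self, add_comm]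
        change ((1 : Fin 2) :: Y).count 1 + 1 ≤ _
        rw [e]
        omega

lemma iharaA_depth {P Q : AA k} (hP : P ∈ Sp k (fun Y => 1 ≤ Y.count 1))
    (hQ : Q ∈ Sp k (fun Y => 1 ≤ Y.count 1)) :
    iharaA P Q ∈ Sp k (fun Y => 2 ≤ Y.count 1) := by
  unfold iharaA
  refine Submodule.sub_mem _ (Submodule.add_mem _ (Submodule.sub_mem _ (Sp_mul ?_ hP hQ)
    (Sp_mul ?_ hQ hP)) (Sp_derF ?_ hQ)) (Sp_derF ?_ hP)
  · intro Y Z h1 h2
    rw [List.count_append]
    omega
  · intro Y Z h1 h2
    rw [List.count_append]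
    omega
  · intro Y hY
    refine Sp_mono ?_ (derF_ow_depth hP Y)
    intro Z hZ
    omega
  · intro Y hY
    refine Sp_mono ?_ (derF_ow_depth hQ Y)
    intro Z hZ
    omega

end Grad

section Fin

variable {K : Type u} [Field K]

theorem ihara_homog {m n : ℕ} (s t : F2 K) (hs : ∀ w : List (Fin 2), w.length ≠ m → coef s w = 0)
    (ht : ∀ w : List (Fin 2), w.length ≠ n → coef t w = 0) :
    ∀ w : List (Fin 2), w.length ≠ m + n → coef (iharaBracket s t) w = 0 := by
  intro w hw
  unfold coef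
  rw [assoc_ihara]
  exact Sp_coeff (iharaA_length (mem_Sp hs) (mem_Sp ht)) hw

lemma count_zero_eq {Y : List (Fin 2)} (h : ¬ 1 ≤ Y.count 1) : Y = List.replicate Y.length 0 := by
  rw [List.eq_replicate_iff]
  refine ⟨rfl, ?_⟩
  intro b hb
  by_contra h1
  have h2 : b = 1 := by omega
  subst h2
  exact h (List.one_le_count_iff.2 hb)

theorem ihara_depth (s t : F2 K) (hs : ∀ j, coef s (List.replicate j 0) = 0)
    (ht : ∀ j, coef t (List.replicate j 0) = 0) (j : ℕ) :
    coef (iharaBracket s t) (List.replicate j 0 ++ [1]) = 0 ∧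
      coef (iharaBracket s t) (List.replicate j 0) = 0 := by
  have h1 : assoc K s ∈ Sp K (fun Y => 1 ≤ Y.count 1) := by
    apply mem_Sp
    intro Y hY
    rw [count_zero_eq hY]
    exact hs _
  have h2 : assoc K t ∈ Sp K (fun Y => 1 ≤ Y.count 1) := by
    apply mem_Sp
    intro Y hY
    rw [count_zero_eq hY]
    exact ht _
  have h3 := iharaA_depth h1 h2
  unfold coef
  rw [assoc_ihara]
  have h4 : (List.replicate j (0 : Fin 2)).count 1 = 0 := by
    rw [List.count_replicate]
    simp
  refine ⟨Sp_coeff h3 ?_, Sp_coeff h3 ?_⟩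
  · rw [List.count_append, h4]
    decide
  · rw [h4]
    decide

end Fin

end MP446Z
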