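import Pool.Agent.Lib.MP_446dfa_ag.ddi.Core
import Pool.Agent.Lib.MP_446dfa_ag.ddi.Purity

set_option linter.all false

/-!
# The polynomial `G` attached to a Lie polynomial is a Lie polynomial
-/

noncomputable section

namespace MP446Z

open MP446 MP446Y

universe u v w

attribute [local instance 100] LieRing.ofAssociativeRing

section LieOf

variable {k : Type v} [CommRing k]

lemma LieP_map {A : Type*} {B : Type*} (f : FA k A →ₐ[k] FA k B)
    (hf : ∀ a, f (letter k a) ∈ LieP k B) {X : FA k A} (hX : X ∈ LieP k A) : f X ∈ LieP k B := by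
  let S : LieSubalgebra k (FA k A) :=
    { carrier := {x | f x ∈ LieP k B}
      add_mem' := fun {x y} hx hy => by
        change f (x + y) ∈ LieP k B
        rw [map_add]; exact (LieP k B).add_mem hx hy
      zero_mem' := by
        change f 0 ∈ LieP k B
        rw [map_zero]; exact (LieP k B).zero_mem
      smul_mem' := fun c {x} hx => by
        change f (c • x) ∈ LieP k B
        rw [map_smul]; exact (LieP k B).smul_mem c hx
      lie_mem' := fun {x y} hx hy => by
        change f ⁅x, y⁆ ∈ LieP k B
        rw [LieRing.of_associative_ring_bracket, map_sub, map_mul, map_mul]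
        exact (LieP k B).lie_mem hx hy }
  have hS : LieP k A ≤ S := by
    refine LieSubalgebra.lieSpan_le.2 ?_
    rintro _ ⟨a, rfl⟩
    exact hf a
  exact hS hX

/-- the derivation `x₀ ↦ x₁ ↦ 0` -/
def dl (k : Type v) [CommRing k] : AA k →ₗ[k] AA k := derF ![lt k 1, 0]

lemma dl_mul (r s : AA k) : dl k (r * s) = r * dl k s + dl k r * s := derF_mul _ _ _
lemma dl_0 : dl k (lt k 0) = lt k 1 := derF_letter _ _
lemma dl_1 : dl k (lt k 1) = 0 := derF_letter _ _

lemma dl_dl (h2 : (2 : k) = 0) (u : AA k) : dl k (dl k u) = 0 := by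
  apply der_sq h2
  intro a
  fin_cases a
  · exact dl_1
  · exact map_zero _

lemma dl_lie (x y : AA k) : dl k ⁅x, y⁆ = ⁅dl k x, y⁆ + ⁅x, dl k y⁆ := by
  rw [LieRing.of_associative_ring_bracket, map_sub, dl_mul, dl_mul,
    LieRing.of_associative_ring_bracket, LieRing.of_associative_ring_bracket]
  abel

lemma dl_LieP {x : AA k} (hx : x ∈ LieP k (Fin 2)) : dl k x ∈ LieP k (Fin 2) := by
  let S : LieSubalgebra k (FA k (Fin 2)) :=
    { carrier := {x | x ∈ LieP k (Fin 2) ∧ dl k x ∈ LieP k (Fin 2)}
      add_mem' := fun {x y} hx hy => ⟨(LieP k _).add_mem hx.1 hy.1, by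
        rw [map_add]; exact (LieP k _).add_mem hx.2 hy.2⟩
      zero_mem' := ⟨(LieP k _).zero_mem, by rw [map_zero]; exact (LieP k _).zero_mem⟩
      smul_mem' := fun c {x} hx => ⟨(LieP k _).smul_mem c hx.1, by
        rw [map_smul]; exact (LieP k _).smul_mem c hx.2⟩
      lie_mem' := fun {x y} hx hy => ⟨(LieP k _).lie_mem hx.1 hy.1, by
        rw [dl_lie]
        exact (LieP k _).add_mem ((LieP k _).lie_mem hx.2 hy.1) ((LieP k _).lie_mem hx.1 hy.2)⟩ }
  have hS : LieP k (Fin 2) ≤ S := by
    refine LieSubalgebra.lieSpan_le.2 ?_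
    rintro _ ⟨i, rfl⟩
    refine ⟨LieSubalgebra.subset_lieSpan ⟨i, rfl⟩, ?_⟩
    fin_cases i
    · change dl k (lt k 0) ∈ _
      rw [dl_0]; exact LieSubalgebra.subset_lieSpan ⟨1, rfl⟩
    · change dl k (lt k 1) ∈ _
      rw [dl_1]; exact (LieP k _).zero_mem
  exact (hS hx).2

/-- the action of `k⟨x, y⟩` on `k⟨x₀, x₁⟩` -/
def ac (k : Type v) [CommRing k] : AA k →ₐ[k] Module.End k (AA k) :=
  EV (LinearMap.mulLeft k (lt k 0)) (dl k)

lemma ac_LieP {H : AA k} (hH : H ∈ LieP k (Fin 2)) :
    ∃ p ∈ LieP k (Fin 2), ∃ c : k, ac k H = LinearMap.mulLeft k p + c • dl k := by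
  let S : LieSubalgebra k (FA k (Fin 2)) :=
    { carrier := {H | ∃ p ∈ LieP k (Fin 2), ∃ c : k, ac k H = LinearMap.mulLeft k p + c • dl k}
      add_mem' := by
        rintro x y ⟨p, hp, c, h1⟩ ⟨q, hq, d, h3⟩
        refine ⟨p + q, (LieP k _).add_mem hp hq, c + d, ?_⟩
        rw [map_add, h1, h3]
        refine LinearMap.ext (fun X => ?_)
        simp only [LinearMap.add_apply, LinearMap.mulLeft_apply, LinearMap.smul_apply, add_mul,
          add_smul]
        abel
      zero_mem' := by
        refine ⟨0, (LieP k _).zero_mem, 0, ?_⟩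
        rw [map_zero]
        refine LinearMap.ext (fun X => ?_)
        simp
      smul_mem' := by
        rintro a x ⟨p, hp, c, h1⟩
        refine ⟨a • p, (LieP k _).smul_mem a hp, a * c, ?_⟩
        rw [map_smul, h1]
        refine LinearMap.ext (fun X => ?_)
        simp only [LinearMap.add_apply, LinearMap.mulLeft_apply, LinearMap.smul_apply, smul_add,
          smul_mul_assoc, smul_smul]
      lie_mem' := by
        rintro x y ⟨p, hp, c, h1⟩ ⟨q, hq, d, h3⟩
        refine ⟨⁅p, q⁆ + c • dl k q - d • dl k p, ?_, 0, ?_⟩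
        · exact (LieP k _).sub_mem ((LieP k _).add_mem ((LieP k _).lie_mem hp hq)
            ((LieP k _).smul_mem c (dl_LieP hq))) ((LieP k _).smul_mem d (dl_LieP hp))
        · rw [LieRing.of_associative_ring_bracket, map_sub, map_mul, map_mul, h1, h3]
          apply LinearMap.ext
          intro X
          simp only [LinearMap.sub_apply, Module.End.mul_apply, LinearMap.add_apply,
            LinearMap.mulLeft_apply, LinearMap.smul_apply, map_add, map_smul,
            LieRing.of_associative_ring_bracket, zero_smul, add_zero]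
          simp only [dl_mul, add_mul, sub_mul, mul_add, smul_add, smul_mul_assoc, mul_smul_comm,
            mul_assoc, smul_smul]
          rw [mul_comm d c]
          abel }
  have hS : LieP k (Fin 2) ≤ S := by
    refine LieSubalgebra.lieSpan_le.2 ?_
    rintro _ ⟨i, rfl⟩
    fin_cases i
    · refine ⟨lt k 0, LieSubalgebra.subset_lieSpan ⟨0, rfl⟩, 0, ?_⟩
      change ac k (lt k 0) = _
      unfold ac
      rw [EV_lt0, zero_smul, add_zero]
    · refine ⟨0, (LieP k _).zero_mem, 1, ?_⟩
      change ac k (lt k 1) = _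
      unfold ac
      rw [EV_lt1, one_smul]
      refine LinearMap.ext (fun X => ?_)
      simp
  exact hS hH

theorem lie_of_lie (h2 : (2 : k) = 0) (H : AA k) (hH : H ∈ LieP k (Fin 2))
    (G : AA k) (hG : ∀ Y, gd Y = true →
      H.coeff (FreeMonoid.ofList Y) = (EV (BB k) (ZZ k) G).coeff (FreeMonoid.ofList Y)) :
    G ∈ LieP k (Fin 2) := by
  have hI : H - EV (BB k) (ZZ k) G ∈ Iy k := by
    apply mem_Iy_of_coeff
    intro Y hY
    rw [MonoidAlgebra.coeff_sub, Finsupp.sub_apply, hG Y hY, sub_self]
  obtain ⟨p, hp, c, h1⟩ := ac_LieP hH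
  have hdd : (dl k : Module.End k (AA k)) * dl k = 0 := by
    apply LinearMap.ext
    intro u
    exact dl_dl h2 u
  have h3 : ac k H = ac k (EV (BB k) (ZZ k) G) := by
    have := Iy_EV (p := LinearMap.mulLeft k (lt k 0)) (q := (dl k : Module.End k (AA k))) hdd hI
    rw [map_sub, sub_eq_zero] at this
    exact this
  -- the operator of `G([x, y], [x², y])` is a left multiplication
  set q : AA k := EV (lt k 1) (lt k 0 * lt k 1 - lt k 1 * lt k 0) G with hq
  have h4 : ac k (EV (BB k) (ZZ k) G) = LinearMap.mulLeft k q := by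
    have e1 : ac k (BB k) = LinearMap.mulLeft k (lt k 1) := by
      unfold ac BB
      rw [map_sub, map_mul, map_mul, EV_lt0, EV_lt1]
      refine LinearMap.ext (fun X => ?_)
      simp only [LinearMap.sub_apply, Module.End.mul_apply, LinearMap.mulLeft_apply]
      rw [dl_mul, dl_0, sub_add_cancel_left]
      exact neg_eq' h2 _
    have e2 : ac k (ZZ k) = LinearMap.mulLeft k (lt k 0 * lt k 1 - lt k 1 * lt k 0) := by
      unfold ac ZZ
      rw [map_sub, map_mul, map_mul, map_mul, map_mul, EV_lt0, EV_lt1]
      refine LinearMap.ext (fun X => ?_)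
      simp only [LinearMap.sub_apply, Module.End.mul_apply, LinearMap.mulLeft_apply]
      rw [dl_mul, dl_mul, dl_0]
      have z1 := two_smul_zero h2 (lt k 0 * (lt k 1 * X))
      have e3 : lt k 0 * (lt k 0 * dl k X) - (lt k 0 * (lt k 0 * dl k X + lt k 1 * X) +
          lt k 1 * (lt k 0 * X)) = (lt k 0 * lt k 1 - lt k 1 * lt k 0) * X -
          (lt k 0 * (lt k 1 * X) + lt k 0 * (lt k 1 * X)) := by
        noncomm_ring
      rw [e3, z1, sub_zero]
    rw [EV_eq_EVn, EVn_comp, hq, EV_eq_EVn]
    have key : ∀ X : AA k, EVn (fun a => ac k (![BB k, ZZ k] a)) X =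
        LinearMap.mulLeft k (EVn ![lt k 1, lt k 0 * lt k 1 - lt k 1 * lt k 0] X) := by
      intro X
      induction X using FA_induction with
      | h1 =>
        rw [map_one, map_one]
        refine LinearMap.ext (fun X => ?_)
        simp
      | hmul a X ih =>
        rw [map_mul, map_mul, ih, EVn_letter, EVn_letter]
        have : ac k (![BB k, ZZ k] a) =
            LinearMap.mulLeft k (![lt k 1, lt k 0 * lt k 1 - lt k 1 * lt k 0] a) := by
          fin_cases a
          · exact e1
          · exact e2
        rw [this]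
        refine LinearMap.ext (fun X => ?_)
        simp [mul_assoc]
      | hadd X Y hX hY =>
        rw [map_add, map_add, hX, hY]
        refine LinearMap.ext (fun X => ?_)
        simp [add_mul]
      | hsmul c X hX =>
        rw [map_smul, map_smul, hX]
        refine LinearMap.ext (fun X => ?_)
        simp
    exact key G
  have h5 : p = q := by
    have h6 := LinearMap.congr_fun (h1.symm.trans (h3.trans h4)) 1
    simp only [LinearMap.add_apply, LinearMap.smul_apply, LinearMap.mulLeft_apply, mul_one] at h6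
    have h7 : dl k 1 = 0 := derF_one _
    rw [h7, smul_zero, add_zero] at h6
    exact h6
  rw [h5] at hp
  -- second elimination
  obtain ⟨h8, -⟩ := Pur.elim_Xi (0 : Fin 2) hp
  let π : FA k (Pur.AA' (0 : Fin 2)) →ₐ[k] AA k :=
    EVn (fun x => if x.1 = 0 then lt k 0 else if x.1 = 1 then lt k 1 else 0)
  have h9 : π (Pur.Xi k 0 q) ∈ LieP k (Fin 2) := by
    apply LieP_map π _ h8
    intro x
    simp only [π, EVn_letter]
    split_ifs
    · exact LieSubalgebra.subset_lieSpan ⟨0, rfl⟩
    · exact LieSubalgebra.subset_lieSpan ⟨1, rfl⟩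
    · exact (LieP k _).zero_mem
  have h10 : π (Pur.Xi k 0 q) = G := by
    let b0 : Pur.AA' (0 : Fin 2) := (0, ⟨1, by decide⟩)
    let b1 : Pur.AA' (0 : Fin 2) := (1, ⟨1, by decide⟩)
    have f0 : Pur.xi k 0 (lt k 0) = Pur.sh k 0 := by
      unfold Pur.xi
      rw [← letter_eq_lt, EVn_letter, Pur.opx, dif_pos rfl]
    have f1 : Pur.xi k 0 (lt k 1) = LinearMap.mulLeft k (letter k b0) := by
      unfold Pur.xi
      rw [← letter_eq_lt, EVn_letter, Pur.opx, dif_neg (by decide)]
    have f2 : Pur.xi k 0 (lt k 0 * lt k 1 - lt k 1 * lt k 0) =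
        LinearMap.mulLeft k (letter k b1) := by
      rw [map_sub, map_mul, map_mul, f0, f1]
      refine LinearMap.ext (fun X => ?_)
      simp only [LinearMap.sub_apply, Module.End.mul_apply, LinearMap.mulLeft_apply]
      unfold Pur.sh
      rw [derF_mul, derF_letter]
      change _ + letter k b1 * X - _ = _
      abel
    have key : ∀ X : AA k, Pur.xi k 0 (EVn ![lt k 1, lt k 0 * lt k 1 - lt k 1 * lt k 0] X) =
        LinearMap.mulLeft k (EVn ![letter k b0, letter k b1] X) := by
      intro X
      rw [EVn_comp]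
      induction X using FA_induction with
      | h1 =>
        rw [map_one, map_one]
        refine LinearMap.ext (fun X => ?_)
        simp
      | hmul a X ih =>
        rw [map_mul, map_mul, ih, EVn_letter, EVn_letter]
        have : Pur.xi k 0 (![lt k 1, lt k 0 * lt k 1 - lt k 1 * lt k 0] a) =
            LinearMap.mulLeft k (![letter k b0, letter k b1] a) := by
          fin_cases a
          · exact f1
          · exact f2
        rw [this]
        refine LinearMap.ext (fun X => ?_)
        simp [mul_assoc]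
      | hadd X Y hX hY =>
        rw [map_add, map_add, hX, hY]
        refine LinearMap.ext (fun X => ?_)
        simp [add_mul]
      | hsmul c X hX =>
        rw [map_smul, map_smul, hX]
        refine LinearMap.ext (fun X => ?_)
        simp
    have e : Pur.Xi k 0 q = EVn ![letter k b0, letter k b1] G := by
      change Pur.xi k 0 q 1 = _
      rw [hq, EV_eq_EVn, key G, LinearMap.mulLeft_apply, mul_one]
    rw [e, EVn_comp]
    have e2 : (fun a => π (![letter k b0, letter k b1] a)) = letter k := by
      funext a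
      fin_cases a
      · change π (letter k b0) = letter k 0
        simp only [π, EVn_letter]
        rfl
      · change π (letter k b1) = letter k 1
        simp only [π, EVn_letter]
        rfl
    rw [e2]
    have : (EVn (letter k) : FA k (Fin 2) →ₐ[k] FA k (Fin 2)) = AlgHom.id k _ :=
      EVn_hom_ext (by intro a; simp)
    rw [this]; rfl
  rw [← h10]
  exact h9

end LieOf

end MP446Z
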