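import Pool.Agent.Lib.MP_446dfa_ag.ddi.Surj
import Pool.Agent.Lib.MP_446dfa_ag.ddi.Val
import Pool.Agent.Lib.MP_446dfa_ag.ddi.FreeInj

set_option linter.all false

/-!
# Reductions of elements of `grt₁` at a place of residue characteristic two
-/

noncomputable section

namespace MP446Z

open MP446 MP446Y IsLocalRing

universe u v w

attribute [local instance 100] LieRing.ofAssociativeRing

section Rel

lemma AA_ext' {k : Type v} [CommRing k] {X Y : AA k} (h : ∀ w, X.coeff w = Y.coeff w) : X = Y := by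
  ext w; exact h w

variable {K : Type u} [Field K] (O : ValuationSubring K)

/-- base change of polynomials from `O` to `K` -/
def upK : AA O →+* AA K := MonoidAlgebra.mapRingHom (FreeMonoid (Fin 2)) (algebraMap O K)

/-- reduction of polynomials with coefficients in `O` -/
def dnk : AA O →+* AA (ResidueField O) :=
  MonoidAlgebra.mapRingHom (FreeMonoid (Fin 2)) (residue O)

variable {O}

lemma upK_coeff (P : AA O) (w : FreeMonoid (Fin 2)) : (upK O P).coeff w = algebraMap O K (P.coeff w) := by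
  unfold upK
  rw [MonoidAlgebra.coeff_mapRingHom]

lemma dnk_coeff (P : AA O) (w : FreeMonoid (Fin 2)) : (dnk O P).coeff w = residue O (P.coeff w) := by
  unfold dnk
  rw [MonoidAlgebra.coeff_mapRingHom]

/-- `G` is the polynomial in `[x, y]`, `[x², y]` attached to the reduction of `ψ` -/
def RR' (O : ValuationSubring K) (ψ : F2 K) (G : AA (ResidueField O)) : Prop :=
  ∃ P : AA O, upK O P = assoc K ψ ∧ dnk O P - EV (BB _) (ZZ _) G ∈ Iy (ResidueField O)

lemma upK_injective : Function.Injective (upK O) := by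
  intro P Q h
  apply AA_ext'
  intro w
  have h1 := congrArg (fun X : AA K => X.coeff w) h
  simp only [upK_coeff] at h1
  exact Subtype.coe_injective h1

lemma RR'.add {ψ φ : F2 K} {G G' : AA (ResidueField O)} (h : RR' O ψ G) (h' : RR' O φ G') :
    RR' O (ψ + φ) (G + G') := by
  obtain ⟨P, h1, h2⟩ := h
  obtain ⟨P', h1', h2'⟩ := h'
  refine ⟨P + P', by rw [map_add, h1, h1', map_add], ?_⟩
  rw [map_add, map_add, add_sub_add_comm]
  exact Submodule.add_mem _ h2 h2'

lemma RR'.zero : RR' O (0 : F2 K) 0 := ⟨0, by rw [map_zero, map_zero], by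
  rw [map_zero, map_zero, sub_zero]; exact Submodule.zero_mem _⟩

lemma upK_smul (a : O) (P : AA O) : upK O (a • P) = (a : K) • upK O P := by
  apply AA_ext'
  intro w
  rw [upK_coeff, MonoidAlgebra.coeff_smul, MonoidAlgebra.coeff_smul, Finsupp.smul_apply,
    Finsupp.smul_apply, upK_coeff, smul_eq_mul, map_mul]
  rfl

lemma dnk_smul (a : O) (P : AA O) : dnk O (a • P) = residue O a • dnk O P := by
  apply AA_ext'
  intro w
  rw [dnk_coeff, MonoidAlgebra.coeff_smul, MonoidAlgebra.coeff_smul, Finsupp.smul_apply,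
    Finsupp.smul_apply, dnk_coeff, smul_eq_mul, map_mul]
  rfl

lemma RR'.smul {ψ : F2 K} {G : AA (ResidueField O)} (h : RR' O ψ G) (a : O) :
    RR' O ((a : K) • ψ) (residue O a • G) := by
  obtain ⟨P, h1, h2⟩ := h
  refine ⟨a • P, by rw [upK_smul, h1, map_smul], ?_⟩
  rw [dnk_smul, map_smul, ← smul_sub]
  exact Submodule.smul_mem _ _ h2

lemma RR'.sum {ι : Type*} (s : Finset ι) {ψ : ι → F2 K} {G : ι → AA (ResidueField O)}
    (h : ∀ j ∈ s, RR' O (ψ j) (G j)) : RR' O (∑ j ∈ s, ψ j) (∑ j ∈ s, G j) := by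
  classical
  induction s using Finset.induction_on with
  | empty => rw [Finset.sum_empty, Finset.sum_empty]; exact RR'.zero
  | insert a s ha ih =>
    rw [Finset.sum_insert ha, Finset.sum_insert ha]
    exact (h a (Finset.mem_insert_self a s)).add
      (ih (fun j hj => h j (Finset.mem_insert_of_mem hj)))

lemma RR'.ihara (h2 : (2 : ResidueField O) = 0) {ψ φ : F2 K} {G G' : AA (ResidueField O)}
    (h : RR' O ψ G) (h' : RR' O φ G') : RR' O (iharaBracket ψ φ) ⁅G, G'⁆ := by
  obtain ⟨P, h1, h3⟩ := h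
  obtain ⟨P', h1', h3'⟩ := h'
  refine ⟨iharaA P P', ?_, ?_⟩
  · rw [assoc_ihara, ← h1, ← h1']
    exact iharaA_map _ _ _
  · have e : dnk O (iharaA P P') = iharaA (dnk O P) (dnk O P') := iharaA_map _ _ _
    rw [e, LieRing.of_associative_ring_bracket]
    exact iharaA_mod h2 _ _ _ _ h3 h3'

lemma EV_inj {k : Type v} [CommRing k] {G : AA k} (h : EV (BB k) (ZZ k) G ∈ Iy k) : G = 0 := by
  apply AA_ext'
  intro w
  have h1 := Iy_coeff h (gd_sub23 (FreeMonoid.toList w))
  rw [coeff_sub23, FreeMonoid.ofList_toList] at h1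
  rw [h1]
  rfl

lemma RR'.unique {ψ : F2 K} {G G' : AA (ResidueField O)} (h : RR' O ψ G) (h' : RR' O ψ G') :
    G = G' := by
  obtain ⟨P, h1, h3⟩ := h
  obtain ⟨P', h1', h3'⟩ := h'
  have e : P = P' := upK_injective (by rw [h1, h1'])
  subst e
  have := Submodule.sub_mem _ h3' h3
  rw [sub_sub_sub_cancel_left, ← map_sub] at this
  exact sub_eq_zero.1 (EV_inj this)

/-- existence of a lift to `O` -/
lemma exists_P (ψ : F2 K) (hO : ∀ w, coef ψ w ∈ O) : ∃ P : AA O, upK O P = assoc K ψ := by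
  refine ⟨MonoidAlgebra.ofCoeff (Finsupp.onFinset (assoc K ψ).coeff.support
    (fun w => (⟨(assoc K ψ).coeff w, hO (FreeMonoid.toList w)⟩ : O)) ?_), ?_⟩
  · intro w hw
    rw [Finsupp.mem_support_iff]
    intro h0
    apply hw
    exact Subtype.ext h0
  · apply AA_ext'
    intro w
    rw [upK_coeff]
    rfl

end Rel

section Grt

variable {K : Type u} [Field K] [CharZero K] {O : ValuationSubring K}

/-- the Lie polynomials in `B`, `Z` which are homogeneous of weight `n` -/
def LL (k : Type v) [CommRing k] (n : ℕ) : Submodule k (AA k) where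
  carrier := {G | G ∈ LieP k (Fin 2) ∧
    ∀ w : List (Fin 2), wt23 w ≠ n → G.coeff (FreeMonoid.ofList w) = 0}
  add_mem' := fun {G G'} h h' => ⟨(LieP k (Fin 2)).add_mem h.1 h'.1, fun w hw => by
    rw [MonoidAlgebra.coeff_add, Finsupp.add_apply, h.2 w hw, h'.2 w hw, add_zero]⟩
  zero_mem' := ⟨(LieP k (Fin 2)).zero_mem, fun w _ => rfl⟩
  smul_mem' := fun c {G} h => ⟨(LieP k (Fin 2)).smul_mem c h.1, fun w hw => by
    rw [MonoidAlgebra.coeff_smul, Finsupp.smul_apply, h.2 w hw, smul_zero]⟩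

theorem RR'.exists (h2 : (2 : ResidueField O) = 0) {n : ℕ} (hn : 3 ≤ n) {ψ : F2 K}
    (hψ : ψ ∈ grt K n) {P : AA O} (hP : upK O P = assoc K ψ) :
    (∃ G ∈ LL (ResidueField O) n, dnk O P - EV (BB _) (ZZ _) G ∈ Iy (ResidueField O)) ∧
      (dnk O P ∈ Iy (ResidueField O) → dnk O P = 0) := by
  have hc : ∀ w, coef ψ w = algebraMap O K (P.coeff (FreeMonoid.ofList w)) := by
    intro w
    rw [← upK_coeff, hP]
    rfl
  let M : AddSubgroup K := O.toSubring.toAddSubgroup
  let g : M →+ ResidueField O :=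
    (residue O).toAddMonoidHom.comp (AddMonoidHom.mk' (fun x => (⟨x.1, x.2⟩ : O)) (fun _ _ => rfl))
  have hM : ∀ w, coef ψ w ∈ M := fun w => by rw [hc]; exact (P.coeff _).2
  obtain ⟨⟨G, hG1, hG2⟩, hz, -⟩ := red_props (k := ResidueField O) h2 hn ψ hψ M g hM (dnk O P) (by
    intro w
    rw [dnk_coeff]
    change residue O _ = residue O _
    congr 1
    exact Subtype.ext (hc w).symm)
  have hI : dnk O P - EV (BB _) (ZZ _) G ∈ Iy (ResidueField O) := by
    apply mem_Iy_of_coeff
    intro Y hY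
    rw [MonoidAlgebra.coeff_sub, Finsupp.sub_apply, hG2 Y hY, sub_self]
  refine ⟨⟨G, ⟨hG1, ?_⟩, hI⟩, ?_⟩
  · intro w hw
    rw [← coeff_sub23, ← hG2 _ (gd_sub23 w), dnk_coeff]
    have h3 : coef ψ (sub23 w) = 0 := hψ.2 _ (by rw [sub23_length]; exact hw)
    rw [hc] at h3
    have h4 : P.coeff (FreeMonoid.ofList (sub23 w)) = 0 := Subtype.ext h3
    rw [h4, map_zero]
  · intro h
    exact hz (fun Y hY => Iy_coeff h hY)

end Grt

end MP446Z
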