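import Pool.Agent.Lib.MP_446dfa_ag.ddi.LowerA

set_option linter.all false

/-!
# Auxiliary facts: brackets in the free Lie algebra, the space of Lie polynomials of weight `n`
-/

noncomputable section

namespace MP446Z

open MP446 MP446Y IsLocalRing

universe u v w

attribute [local instance 100] LieRing.ofAssociativeRing

section Free

variable {K : Type u} [Field K]

lemma rbr_mem (l : List ℕ) : rbr K l ∈ freeWt K (wtL l) := Submodule.subset_span ⟨l, rfl, rfl⟩

lemma of_mem (i : ℕ) : FreeLieAlgebra.of K i ∈ freeWt K (2 * i + 3) := by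
  have := rbr_mem (K := K) [i]
  rw [wtL_cons] at this
  exact this

lemma freeWt_ad (i n : ℕ) {y : FreeLieAlgebra K ℕ} (hy : y ∈ freeWt K n) :
    ⁅FreeLieAlgebra.of K i, y⁆ ∈ freeWt K (2 * i + 3 + n) := by
  refine Submodule.span_induction (p := fun a _ => ⁅FreeLieAlgebra.of K i, a⁆ ∈
    freeWt K (2 * i + 3 + n)) ?_ ?_ ?_ ?_ hy
  · rintro _ ⟨l, hl, rfl⟩
    cases l with
    | nil =>
      change ⁅FreeLieAlgebra.of K i, (0 : FreeLieAlgebra K ℕ)⁆ ∈ _
      rw [lie_zero]; exact Submodule.zero_mem _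
    | cons j l =>
      have := rbr_mem (K := K) (i :: j :: l)
      rw [wtL_cons] at this
      change ⁅FreeLieAlgebra.of K i, rbr K (j :: l)⁆ ∈ _ at this
      change wtL (j :: l) = n at hl
      rw [hl] at this
      exact this
  · rw [lie_zero]; exact Submodule.zero_mem _
  · intro a b _ _ ha hb
    rw [lie_add]; exact Submodule.add_mem _ ha hb
  · intro c a _ ha
    rw [lie_smul]; exact Submodule.smul_mem _ _ ha

lemma freeWt_rbr (l : List ℕ) (n : ℕ) {y : FreeLieAlgebra K ℕ} (hy : y ∈ freeWt K n) :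
    ⁅rbr K l, y⁆ ∈ freeWt K (wtL l + n) := by
  induction l generalizing n y with
  | nil =>
    change ⁅(0 : FreeLieAlgebra K ℕ), y⁆ ∈ _
    rw [zero_lie]; exact Submodule.zero_mem _
  | cons i l ih =>
    cases l with
    | nil =>
      have := freeWt_ad i n hy
      rw [wtL_cons]
      exact this
    | cons j l =>
      change ⁅⁅FreeLieAlgebra.of K i, rbr K (j :: l)⁆, y⁆ ∈ _
      rw [lie_lie, wtL_cons]
      refine Submodule.sub_mem _ ?_ ?_
      · have := freeWt_ad i _ (ih n hy)
        rwa [← add_assoc] at this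
      · have := ih _ (freeWt_ad i n hy)
        rwa [← add_assoc, add_comm (wtL (j :: l))] at this

lemma freeWt_lie {m n : ℕ} {x y : FreeLieAlgebra K ℕ} (hx : x ∈ freeWt K m) (hy : y ∈ freeWt K n) :
    ⁅x, y⁆ ∈ freeWt K (m + n) := by
  refine Submodule.span_induction (p := fun a _ => ⁅a, y⁆ ∈ freeWt K (m + n)) ?_ ?_ ?_ ?_ hx
  · rintro _ ⟨l, hl, rfl⟩
    have := freeWt_rbr l n hy
    change wtL l = m at hl
    rwa [hl] at this
  · rw [zero_lie]; exact Submodule.zero_mem _
  · intro a b _ _ ha hb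
    rw [add_lie]; exact Submodule.add_mem _ ha hb
  · intro c a _ ha
    rw [smul_lie]; exact Submodule.smul_mem _ _ ha

/-- every element is a finite sum of elements of the weight components -/
lemma free_decomp (x : FreeLieAlgebra K ℕ) : ∃ f : ℕ →₀ FreeLieAlgebra K ℕ,
    (∀ n, f n ∈ freeWt K n) ∧ x = f.sum (fun _ z => z) := by
  classical
  let S : LieSubalgebra K (FreeLieAlgebra K ℕ) :=
    { carrier := {x | ∃ f : ℕ →₀ FreeLieAlgebra K ℕ,
        (∀ n, f n ∈ freeWt K n) ∧ x = f.sum (fun _ z => z)}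
      add_mem' := by
        rintro _ _ ⟨f, hf, rfl⟩ ⟨g, hg, rfl⟩
        refine ⟨f + g, fun n => Submodule.add_mem _ (hf n) (hg n), ?_⟩
        rw [Finsupp.sum_add_index' (fun _ => rfl) (fun _ _ _ => rfl)]
      zero_mem' := ⟨0, fun n => Submodule.zero_mem _, by simp⟩
      smul_mem' := by
        rintro c _ ⟨f, hf, rfl⟩
        refine ⟨c • f, fun n => Submodule.smul_mem _ _ (hf n), ?_⟩
        rw [Finsupp.sum_smul_index' (fun _ => rfl), Finsupp.smul_sum]
      lie_mem' := by
        rintro _ _ ⟨f, hf, rfl⟩ ⟨g, hg, rfl⟩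
        rw [Finsupp.sum, Finsupp.sum, sum_lie]
        refine Finset.sum_induction _ (fun z => ∃ f : ℕ →₀ FreeLieAlgebra K ℕ,
          (∀ n, f n ∈ freeWt K n) ∧ z = f.sum (fun _ z => z)) ?_ ?_ ?_
        · rintro _ _ ⟨f, hf, rfl⟩ ⟨g, hg, rfl⟩
          refine ⟨f + g, fun n => Submodule.add_mem _ (hf n) (hg n), ?_⟩
          rw [Finsupp.sum_add_index' (fun _ => rfl) (fun _ _ _ => rfl)]
        · exact ⟨0, fun n => Submodule.zero_mem _, by simp⟩
        · intro i _
          rw [lie_sum]
          refine Finset.sum_induction _ (fun z => ∃ f : ℕ →₀ FreeLieAlgebra K ℕ,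
            (∀ n, f n ∈ freeWt K n) ∧ z = f.sum (fun _ z => z)) ?_ ?_ ?_
          · rintro _ _ ⟨f, hf, rfl⟩ ⟨g, hg, rfl⟩
            refine ⟨f + g, fun n => Submodule.add_mem _ (hf n) (hg n), ?_⟩
            rw [Finsupp.sum_add_index' (fun _ => rfl) (fun _ _ _ => rfl)]
          · exact ⟨0, fun n => Submodule.zero_mem _, by simp⟩
          · intro j _
            refine ⟨Finsupp.single (i + j) ⁅f i, g j⁆, fun n => ?_, by simp⟩
            rw [Finsupp.single_apply]
            split_ifs with h
            · rw [← h]; exact freeWt_lie (hf i) (hg j)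
            · exact Submodule.zero_mem _ }
  have hS : ∀ i, FreeLieAlgebra.of K i ∈ S := by
    intro i
    refine ⟨Finsupp.single (2 * i + 3) (FreeLieAlgebra.of K i), fun n => ?_, by simp⟩
    rw [Finsupp.single_apply]
    split_ifs with h
    · rw [← h]; exact of_mem i
    · exact Submodule.zero_mem _
  let f : FreeLieAlgebra K ℕ →ₗ⁅K⁆ S := FreeLieAlgebra.lift K (fun i => ⟨FreeLieAlgebra.of K i, hS i⟩)
  have h : S.incl.comp f = LieHom.id := by
    apply FreeLieAlgebra.hom_ext
    intro i
    simp only [f, LieHom.comp_apply, FreeLieAlgebra.lift_of_apply]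
    rfl
  have h2 : ((f x : S) : FreeLieAlgebra K ℕ) = x := LieHom.congr_fun h x
  have h3 := (f x).2
  rw [h2] at h3
  exact h3

end Free

section LL

variable {k : Type v} [Field k]

/-- the action of `k⟨B, Z⟩` on `k⟨z_i⟩` -/
def actZ (k : Type v) [Field k] : AA k →ₐ[k] Module.End k (FA k ℕ) :=
  EVn ![shD k, LinearMap.mulLeft k (letter k 0)]

lemma actZ_ad (i : ℕ) : actZ k (adBZ k i) = LinearMap.mulLeft k (letter k i) := by
  induction i with
  | zero =>
    change actZ k (lt k 1) = _
    unfold actZ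
    rw [← letter_eq_lt, EVn_letter]
    rfl
  | succ i ih =>
    change actZ k ⁅lt k 0, adBZ k i⁆ = _
    rw [LieRing.of_associative_ring_bracket, map_sub, map_mul, map_mul, ih]
    have e : actZ k (lt k 0) = shD k := by
      unfold actZ
      rw [← letter_eq_lt, EVn_letter]
      rfl
    rw [e]
    apply LinearMap.ext
    intro X
    simp only [LinearMap.sub_apply, Module.End.mul_apply, LinearMap.mulLeft_apply]
    unfold shD
    rw [derF_mul, derF_letter]
    abel

lemma actZ_theta (f : FA k ℕ) : actZ k (theta k f) 1 = f := by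
  have h : (actZ k).comp (theta k) = EVn (fun i => LinearMap.mulLeft k (letter k i)) :=
    EVn_hom_ext (by
      intro i
      rw [AlgHom.comp_apply, theta_letter, actZ_ad, EVn_letter])
  have h2 : actZ k (theta k f) = EVn (fun i => LinearMap.mulLeft k (letter k i)) f :=
    DFunLike.congr_fun h f
  rw [h2]
  induction f using FA_induction with
  | h1 =>
    have e := map_one (EVn (k := k) (fun i : ℕ => LinearMap.mulLeft k (letter k i)))
    rw [e]; rfl
  | hmul a X ih =>
    have ih' := ih (DFunLike.congr_fun h X)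
    rw [map_mul, Module.End.mul_apply, ih', EVn_letter, LinearMap.mulLeft_apply]
  | hadd X Y hX hY =>
    rw [map_add, LinearMap.add_apply, hX (DFunLike.congr_fun h X), hY (DFunLike.congr_fun h Y)]
  | hsmul c X hX =>
    rw [map_smul, LinearMap.smul_apply, hX (DFunLike.congr_fun h X)]

lemma theta_injective : Function.Injective (theta k) := by
  intro f g h
  rw [← actZ_theta f, ← actZ_theta g, h]

lemma adBZ_mem (i : ℕ) : adBZ k i ∈ LL k (2 * i + 3) := by
  refine ⟨?_, fun w hw => HW_coeff k (HW_adBZ k i) w hw⟩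
  induction i with
  | zero => exact LieSubalgebra.subset_lieSpan ⟨1, rfl⟩
  | succ i ih =>
    change ⁅lt k 0, adBZ k i⁆ ∈ _
    exact (LieP k (Fin 2)).lie_mem (LieSubalgebra.subset_lieSpan ⟨0, rfl⟩) ih

lemma theta_br_mem (l : List ℕ) : theta k (brF k l) ∈ LL k (wtL l) := by
  refine ⟨?_, fun w hw => HW_coeff k (HW_br k l) w hw⟩
  induction l with
  | nil => change theta k 0 ∈ _; rw [map_zero]; exact (LieP k (Fin 2)).zero_mem
  | cons i l ih =>
    cases l with
    | nil =>
      change theta k (letter k i) ∈ _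
      rw [theta_letter]
      exact (adBZ_mem i).1
    | cons j l =>
      rw [brF_cons, theta_lie, theta_letter]
      exact (LieP k (Fin 2)).lie_mem (adBZ_mem i).1 ih

lemma LL_eq (n : ℕ) (hn : 3 ≤ n) :
    LL k n = Submodule.span k {X | ∃ l, wtL l = n ∧ X = theta k (brF k l)} := by
  apply le_antisymm
  · rintro G ⟨h1, h2⟩
    apply elim_wt k n hn G h1
    intro w hw
    by_contra h3
    exact hw (h2 w h3)
  · rw [Submodule.span_le]
    rintro _ ⟨l, rfl, rfl⟩
    exact theta_br_mem l

lemma LL_finite (n : ℕ) (hn : 3 ≤ n) : Module.Finite k (LL k n) := by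
  rw [LL_eq n hn]
  apply Module.Finite.span_of_finite
  have : {X | ∃ l, wtL l = n ∧ X = theta k (brF k l)} =
      (fun l => theta k (brF k l)) '' {l | wtL l = n} := by
    ext x
    constructor
    · rintro ⟨l, h1, h2⟩; exact ⟨l, h1, h2.symm⟩
    · rintro ⟨l, h1, h2⟩; exact ⟨l, h1, h2.symm⟩
  rw [this]
  exact (finite_wtL n).image _

/-- the rank of the space of brackets of weight `n` -/
lemma rank_br_eq (n : ℕ) (hn : 3 ≤ n) :
    Module.rank k (Submodule.span k {X : FA k ℕ | ∃ l, wtL l = n ∧ X = brF k l}) =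
      Module.rank k (LL k n) := by
  rw [LL_eq n hn]
  have e : (Submodule.span k {X : FA k ℕ | ∃ l, wtL l = n ∧ X = brF k l}).map
      (theta k).toLinearMap = Submodule.span k {X | ∃ l, wtL l = n ∧ X = theta k (brF k l)} := by
    rw [Submodule.map_span]
    congr 1
    ext X
    constructor
    · rintro ⟨_, ⟨l, h1, rfl⟩, rfl⟩; exact ⟨l, h1, rfl⟩
    · rintro ⟨l, h1, rfl⟩; exact ⟨_, ⟨l, h1, rfl⟩, rfl⟩
  rw [← e]
  exact (Submodule.equivMapOfInjective (theta k).toLinearMap theta_injective _).rank_eq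

end LL

end MP446Z
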