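import Pool.Agent.Lib.MP_446dfa_ag.ddi.LowerB

set_option linter.all false

/-!
# The lower bound: generation and freeness
-/

noncomputable section

namespace MP446Z

open MP446 MP446Y IsLocalRing

universe u v w

attribute [local instance 100] LieRing.ofAssociativeRing

section Lattice

variable {K : Type u} [Field K]

variable (K) in
/-- the coefficients of an element of the free Lie algebra -/
def cc : F2 K →ₗ[K] (FreeMonoid (Fin 2) →₀ K) where
  toFun ψ := (assoc K ψ).coeff
  map_add' ψ φ := by rw [map_add, MonoidAlgebra.coeff_add]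
  map_smul' c ψ := by rw [map_smul, MonoidAlgebra.coeff_smul]; rfl

lemma cc_apply (ψ : F2 K) (w : FreeMonoid (Fin 2)) : cc K ψ w = coef ψ (FreeMonoid.toList w) := rfl

lemma cc_injective [CharZero K] : Function.Injective (cc K) := by
  intro ψ φ h
  apply assoc_injective
  apply AA_ext'
  intro w
  exact DFunLike.congr_fun h w

lemma coeff_sum_smul {k : Type v} [CommRing k] {ι : Type*} (s : Finset ι) (a : ι → k) (X : ι → AA k)
    (i : FreeMonoid (Fin 2)) : (∑ j ∈ s, a j • X j).coeff i = ∑ j ∈ s, a j * (X j).coeff i := by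
  classical
  induction s using Finset.induction_on with
  | empty => rfl
  | insert b s hb ih =>
    rw [Finset.sum_insert hb, Finset.sum_insert hb, MonoidAlgebra.coeff_add, Finsupp.add_apply, ih,
      MonoidAlgebra.coeff_smul, Finsupp.smul_apply, smul_eq_mul]

variable {O : ValuationSubring K}

lemma coef_upK {ψ : F2 K} {P : AA O} (h : upK O P = assoc K ψ) (w : FreeMonoid (Fin 2)) :
    cc K ψ w = ((P.coeff w : O) : K) := by
  change (assoc K ψ).coeff w = _
  rw [← h, upK_coeff]
  rfl

/-- independence of the reductions -/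
lemma red_indep_iff {d : ℕ} (P : Fin d → AA O) (v : Fin d → F2 K)
    (hP : ∀ j, upK O (P j) = assoc K (v j)) (hO : ∀ j i, cc K (v j) i ∈ O) :
    (fun j => (fun i => residue O ⟨cc K (v j) i, hO j i⟩ : FreeMonoid (Fin 2) → ResidueField O)) =
      fun j => (fun i => (dnk O (P j)).coeff i) := by
  funext j i
  rw [dnk_coeff]
  congr 1
  exact Subtype.ext (coef_upK (hP j) i)

lemma dnk_sum {d : ℕ} (P : Fin d → AA O) (a : Fin d → O) :
    dnk O (∑ j, a j • P j) = ∑ j, residue O (a j) • dnk O (P j) := by
  rw [map_sum]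
  exact Finset.sum_congr rfl (fun j _ => dnk_smul _ _)

lemma upK_sum {d : ℕ} (P : Fin d → AA O) (v : Fin d → F2 K) (a : Fin d → O)
    (hP : ∀ j, upK O (P j) = assoc K (v j)) :
    upK O (∑ j, a j • P j) = assoc K (∑ j, (a j : K) • v j) := by
  rw [map_sum, map_sum]
  exact Finset.sum_congr rfl (fun j _ => by rw [upK_smul, hP, map_smul])

/-- Lemma A -/
theorem lemma_A [CharZero K] (h2 : (2 : ResidueField O) = 0) {n : ℕ} (hn : 3 ≤ n)
    (W : Submodule K (F2 K)) (hW : W ≤ grt K n) (d : ℕ) (hd : (d : Cardinal) ≤ Module.rank K W) :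
    ∃ (v : Fin d → F2 K) (G : Fin d → AA (ResidueField O)), (∀ j, v j ∈ W) ∧
      (∀ j, G j ∈ LL (ResidueField O) n) ∧ (∀ j, RR' O (v j) (G j)) ∧
      LinearIndependent (ResidueField O) G := by
  obtain ⟨v, hO, hv⟩ := lattice O (cc K ∘ₗ W.subtype)
    (cc_injective.comp (Submodule.injective_subtype W)) d hd
  have hP : ∀ j, ∃ P : AA O, upK O P = assoc K (v j : F2 K) := by
    intro j
    apply exists_P
    intro w
    exact hO j (FreeMonoid.ofList w)
  choose P hP using hP
  have hG := fun j => (RR'.exists h2 hn (hW (v j).2) (hP j)).1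
  choose G hG1 hG2 using hG
  refine ⟨fun j => v j, G, fun j => (v j).2, hG1, fun j => ⟨P j, hP j, hG2 j⟩, ?_⟩
  rw [Fintype.linearIndependent_iff]
  intro a ha
  have hlift : ∀ j, ∃ b : O, residue O b = a j := fun j => residue_surjective (a j)
  choose b hb using hlift
  have hmem : ∑ j, (b j : K) • (v j : F2 K) ∈ grt K n :=
    Submodule.sum_mem _ (fun j _ => Submodule.smul_mem _ _ (hW (v j).2))
  have h3 := (RR'.exists h2 hn hmem (upK_sum P (fun j => (v j : F2 K)) b hP)).2
  have h4 : dnk O (∑ j, b j • P j) ∈ Iy (ResidueField O) := by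
    have e : EV (BB _) (ZZ _) (∑ j, a j • G j) = (0 : AA (ResidueField O)) := by rw [ha, map_zero]
    rw [dnk_sum, ← sub_zero (∑ j, _), ← e, map_sum, ← Finset.sum_sub_distrib]
    refine Submodule.sum_mem _ (fun j _ => ?_)
    rw [hb, map_smul, ← smul_sub]
    exact Submodule.smul_mem _ _ (hG2 j)
  have h5 := h3 h4
  rw [dnk_sum] at h5
  have e := red_indep_iff P (fun j => (v j : F2 K)) hP (fun j i => hO j i)
  have hv' : LinearIndependent (ResidueField O)
      (fun j => (fun i => (dnk O (P j)).coeff i : FreeMonoid (Fin 2) → ResidueField O)) := by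
    rw [← e]; exact hv
  rw [Fintype.linearIndependent_iff] at hv'
  apply hv' a
  funext i
  have h6 := congrArg (fun X : AA (ResidueField O) => X.coeff i) h5
  simp only [hb] at h6
  rw [Finset.sum_apply]
  simp only [Pi.smul_apply, smul_eq_mul]
  rw [coeff_sum_smul] at h6
  exact h6

/-- Lemma B -/
theorem lemma_B {d : ℕ} (v : Fin d → F2 K) (G : Fin d → AA (ResidueField O))
    (h : ∀ j, RR' O (v j) (G j)) (hG : LinearIndependent (ResidueField O) G) :
    LinearIndependent K v := by
  choose P hP hPG using h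
  have hO : ∀ j i, cc K (v j) i ∈ O := by
    intro j i
    rw [coef_upK (hP j) i]
    exact (P j |>.coeff i).2
  apply lattice_lift O (cc K) v hO
  rw [red_indep_iff P v hP hO, Fintype.linearIndependent_iff]
  intro a ha
  rw [Fintype.linearIndependent_iff] at hG
  apply hG a
  apply EV_inj
  have h1 : ∑ j, a j • dnk O (P j) = 0 := by
    apply AA_ext'
    intro i
    rw [coeff_sum_smul]
    have h2 := congrFun ha i
    rw [Finset.sum_apply] at h2
    exact h2
  rw [map_sum, ← neg_mem_iff, ← zero_sub, ← h1, ← Finset.sum_sub_distrib]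
  refine Submodule.sum_mem _ (fun j _ => ?_)
  rw [map_smul, ← smul_sub]
  exact Submodule.smul_mem _ _ (hPG j)

end Lattice

section Main

variable {K : Type u} [Field K] [CharZero K] {O : ValuationSubring K}
  (φ : FreeLieAlgebra K ℕ →ₗ⁅K⁆ IharaLie K)
  (hφ : ∀ i, toIhara.symm (φ (FreeLieAlgebra.of K i)) ∈ grt K (2 * i + 3))
  (hcl : ∀ x, IsGRT (toIhara.symm (φ x)))
  (hcoef : ∀ i, coef (toIhara.symm (φ (FreeLieAlgebra.of K i)))
    (List.replicate (2 * i + 2) 0 ++ [1]) ≠ 0)

/-- the image of the component of weight `n` -/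
def VV (φ : FreeLieAlgebra K ℕ →ₗ⁅K⁆ IharaLie K) (n : ℕ) : Submodule K (F2 K) :=
  (freeWt K n).map (lin φ)

/-- the elements of the image without term of depth one -/
def VV0 (φ : FreeLieAlgebra K ℕ →ₗ⁅K⁆ IharaLie K) (n : ℕ) : Submodule K (F2 K) where
  carrier := {ψ | ψ ∈ VV φ n ∧ coef ψ (List.replicate (n - 1) 0 ++ [1]) = 0}
  add_mem' := fun {ψ ψ'} h h' => ⟨Submodule.add_mem _ h.1 h'.1, by
    rw [coef_add, h.2, h'.2, add_zero]⟩
  zero_mem' := ⟨Submodule.zero_mem _, coef_zero _⟩
  smul_mem' := fun c {ψ} h => ⟨Submodule.smul_mem _ _ h.1, by rw [coef_smul, h.2, mul_zero]⟩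

lemma grt_x_zero {n : ℕ} (hn : 2 ≤ n) {ψ : F2 K} (hψ : ψ ∈ grt K n) (j : ℕ) :
    coef ψ (List.replicate j 0) = 0 := by
  apply ones_zero (c := fun w => coef ψ w) 0 (assoc_coeff_nil ψ)
  intro v
  by_cases hv : v = []
  · subst hv
    exact hψ.2 [0] (by simp; omega)
  · exact lie_rel ψ 0 v hv

include hφ hcl in
lemma VV_ihara {m n : ℕ} (hm : 2 ≤ m) (hn : 2 ≤ n) {ψ ψ' : F2 K} (h : ψ ∈ VV φ m) (h' : ψ' ∈ VV φ n) :
    iharaBracket ψ ψ' ∈ VV0 φ (m + n) := by
  have g := map_le φ hφ hcl m h
  have g' := map_le φ hφ hcl n h'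
  obtain ⟨x, hx, rfl⟩ := h
  obtain ⟨x', hx', rfl⟩ := h'
  refine ⟨⟨⁅x, x'⁆, freeWt_lie hx hx', lin_lie φ x x'⟩, ?_⟩
  exact (ihara_depth _ _ (grt_x_zero hm g) (grt_x_zero hn g') _).1

/-- the decomposable Lie polynomials -/
def DD (k : Type v) [Field k] (n : ℕ) : Submodule k (AA k) :=
  Submodule.span k {X | ∃ i l, l ≠ [] ∧ wtL (i :: l) = n ∧ X = theta k (brF k (i :: l))}

lemma wtL_ge {l : List ℕ} (hl : l ≠ []) : 3 ≤ wtL l := by
  cases l with
  | nil => exact absurd rfl hl
  | cons i l => rw [wtL_cons]; omega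

lemma DD_le (k : Type v) [Field k] (n : ℕ) : DD k n ≤ LL k n := by
  unfold DD
  rw [Submodule.span_le]
  rintro _ ⟨i, l, _, rfl, rfl⟩
  exact theta_br_mem _

include hφ hcl in
lemma DD_lift (h2 : (2 : ResidueField O) = 0) (n : ℕ)
    (ih : ∀ m < n, 3 ≤ m → ∀ G ∈ LL (ResidueField O) m, ∃ ψ ∈ VV φ m, RR' O ψ G)
    (G : AA (ResidueField O)) (hG : G ∈ DD (ResidueField O) n) :
    ∃ ψ ∈ VV0 φ n, RR' O ψ G := by
  refine Submodule.span_induction (p := fun G _ => ∃ ψ ∈ VV0 φ n, RR' O ψ G) ?_ ?_ ?_ ?_ hG
  · rintro _ ⟨i, l, hl, rfl, rfl⟩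
    have hl3 := wtL_ge hl
    obtain ⟨ψ, h1, h3⟩ := ih (2 * i + 3) (by rw [wtL_cons]; omega) (by omega) _ (adBZ_mem i)
    obtain ⟨ψ', h1', h3'⟩ := ih (wtL l) (by rw [wtL_cons]; omega) hl3 _ (theta_br_mem l)
    refine ⟨iharaBracket ψ ψ', ?_, ?_⟩
    · rw [wtL_cons]
      exact VV_ihara φ hφ hcl (by omega) (by omega) h1 h1'
    · cases l with
      | nil => exact absurd rfl hl
      | cons j l =>
        rw [brF_cons, theta_lie, theta_letter]
        exact h3.ihara h2 h3'
  · exact ⟨0, Submodule.zero_mem _, RR'.zero⟩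
  · rintro G G' _ _ ⟨ψ, h1, h3⟩ ⟨ψ', h1', h3'⟩
    exact ⟨ψ + ψ', Submodule.add_mem _ h1 h1', h3.add h3'⟩
  · rintro c G _ ⟨ψ, h1, h3⟩
    obtain ⟨a, rfl⟩ := residue_surjective c
    exact ⟨(a : K) • ψ, Submodule.smul_mem _ _ h1, h3.smul a⟩

lemma LL_finrank_le (k : Type v) [Field k] (n : ℕ) (hn : 3 ≤ n) :
    (Even n → Module.finrank k (LL k n) ≤ Module.finrank k (DD k n)) ∧
      Module.finrank k (LL k n) ≤ Module.finrank k (DD k n) + 1 := by
  haveI := LL_finite (k := k) n hn
  haveI : Module.Finite k (DD k n) := Submodule.finiteDimensional_of_le (DD_le k n)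
  constructor
  · intro he
    have : LL k n ≤ DD k n := by
      rw [LL_eq n hn, Submodule.span_le]
      rintro _ ⟨l, hl, rfl⟩
      cases l with
      | nil => change theta k 0 ∈ _; rw [map_zero]; exact Submodule.zero_mem _
      | cons i l =>
        cases l with
        | nil =>
          exfalso
          rw [wtL_cons] at hl
          have : wtL [] = 0 := rfl
          rw [this] at hl
          rw [← hl] at he
          exact (Nat.not_even_iff_odd.2 ⟨i + 1, by ring⟩) he
        | cons j l => exact Submodule.subset_span ⟨i, j :: l, by simp, hl, rfl⟩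
    exact Submodule.finrank_mono this
  · have : LL k n ≤ DD k n ⊔ Submodule.span k {adBZ k ((n - 3) / 2)} := by
      rw [LL_eq n hn, Submodule.span_le]
      rintro _ ⟨l, hl, rfl⟩
      cases l with
      | nil => change theta k 0 ∈ _; rw [map_zero]; exact Submodule.zero_mem _
      | cons i l =>
        cases l with
        | nil =>
          apply Submodule.mem_sup_right
          rw [wtL_cons] at hl
          have h0 : wtL [] = 0 := rfl
          rw [h0] at hl
          have : (n - 3) / 2 = i := by omega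
          rw [this]
          change theta k (letter k i) ∈ _
          rw [theta_letter]
          exact Submodule.mem_span_singleton_self _
        | cons j l =>
          apply Submodule.mem_sup_left
          exact Submodule.subset_span ⟨i, j :: l, by simp, hl, rfl⟩
    refine le_trans (Submodule.finrank_mono this) ?_
    refine le_trans (Submodule.finrank_add_le_finrank_add_finrank _ _) ?_
    gcongr
    exact (finrank_span_le_card _).trans (by simp)

include hφ hcl hcoef in
/-- the main induction -/
theorem main_induction (h2 : (2 : ResidueField O) = 0) (n : ℕ) (hn : 3 ≤ n) :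
    (∀ G ∈ LL (ResidueField O) n, ∃ ψ ∈ VV φ n, RR' O ψ G) ∧
      Module.finrank (ResidueField O) (LL (ResidueField O) n) = Module.finrank K (VV φ n) ∧
      Module.finrank K (grt K n) ≤ Module.finrank K (VV φ n) := by
  induction n using Nat.strong_induction_on with
  | _ n ih =>
    haveI := LL_finite (k := ResidueField O) n hn
    haveI : Module.Finite (ResidueField O) (DD (ResidueField O) n) :=
      Submodule.finiteDimensional_of_le (DD_le _ n)
    haveI : Module.Finite K (VV φ n) := Submodule.finiteDimensional_of_le (map_le φ hφ hcl n)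
    have hle0 : VV0 φ n ≤ VV φ n := fun ψ h => h.1
    haveI : Module.Finite K (VV0 φ n) := Submodule.finiteDimensional_of_le hle0
    -- lower bound for `VV0`
    have h0 : Module.finrank (ResidueField O) (DD (ResidueField O) n) ≤ Module.finrank K (VV0 φ n) := by
      have b := Module.finBasis (ResidueField O) (DD (ResidueField O) n)
      have hl := fun j => DD_lift φ hφ hcl h2 n (fun m hm h3 => (ih m hm h3).1) (b j) (b j).2
      choose ψ hψ1 hψ2 using hl
      have hi := lemma_B ψ (fun j => (b j : AA (ResidueField O))) hψ2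
        (b.linearIndependent.map' (Submodule.subtype _) (Submodule.ker_subtype _))
      have hi' : LinearIndependent K (fun j => (⟨ψ j, hψ1 j⟩ : VV0 φ n)) :=
        LinearIndependent.of_comp (Submodule.subtype _) hi
      have := hi'.fintype_card_le_finrank
      simpa using this
    have hLV : Module.finrank (ResidueField O) (LL (ResidueField O) n) ≤
        Module.finrank K (VV φ n) := by
      by_cases he : Even n
      · exact ((LL_finrank_le _ n hn).1 he).trans (h0.trans (Submodule.finrank_mono hle0))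
      · obtain ⟨i, hi⟩ : ∃ i, n = 2 * i + 3 := by
          rw [Nat.not_even_iff_odd] at he
          obtain ⟨m, hm⟩ := he
          exact ⟨m - 1, by omega⟩
        have hlt : VV0 φ n < VV φ n := by
          refine lt_of_le_of_ne hle0 (fun heq => ?_)
          have h5 : lin φ (FreeLieAlgebra.of K i) ∈ VV φ n := ⟨_, by rw [hi]; exact of_mem i, rfl⟩
          rw [← heq] at h5
          apply hcoef i
          have h6 := h5.2
          rw [hi] at h6
          exact h6
        have h7 := Submodule.finrank_lt_finrank_of_lt hlt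
        have h8 := (LL_finrank_le (ResidueField O) n hn).2
        omega
    -- upper bound
    have hup : ∀ W : Submodule K (F2 K), W ≤ grt K n → Module.finrank K W ≤
        Module.finrank (ResidueField O) (LL (ResidueField O) n) := by
      intro W hW
      haveI : Module.Finite K W := Submodule.finiteDimensional_of_le hW
      obtain ⟨v, G, -, hG1, -, hG⟩ := lemma_A h2 hn W hW (Module.finrank K W)
        (by rw [Module.finrank_eq_rank])
      have hi' : LinearIndependent (ResidueField O)
          (fun j => (⟨G j, hG1 j⟩ : LL (ResidueField O) n)) :=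
        LinearIndependent.of_comp (Submodule.subtype _) hG
      have := hi'.fintype_card_le_finrank
      simpa using this
    have heq : Module.finrank (ResidueField O) (LL (ResidueField O) n) =
        Module.finrank K (VV φ n) := le_antisymm hLV (hup _ (map_le φ hφ hcl n))
    refine ⟨?_, heq, (hup _ le_rfl).trans hLV⟩
    -- surjectivity
    intro G hG
    obtain ⟨v, g, hv, hg1, hg2, hg⟩ := lemma_A h2 hn (VV φ n) (map_le φ hφ hcl n)
      (Module.finrank K (VV φ n)) (by rw [Module.finrank_eq_rank])
    have hi' : LinearIndependent (ResidueField O)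
        (fun j => (⟨g j, hg1 j⟩ : LL (ResidueField O) n)) :=
      LinearIndependent.of_comp (Submodule.subtype _) hg
    have hspan := hi'.span_eq_top_of_card_eq_finrank' (by rw [Fintype.card_fin, heq])
    have hGm : (⟨G, hG⟩ : LL (ResidueField O) n) ∈ Submodule.span (ResidueField O)
        (Set.range (fun j => (⟨g j, hg1 j⟩ : LL (ResidueField O) n))) := by
      rw [hspan]; trivial
    obtain ⟨a, ha⟩ := (Submodule.mem_span_range_iff_exists_fun _).1 hGm
    have ha' : ∑ j, a j • g j = G := by
      have := congrArg Subtype.val ha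
      simpa using this
    choose b hb using fun j => residue_surjective (a j)
    refine ⟨∑ j, (b j : K) • v j, Submodule.sum_mem _ (fun j _ => Submodule.smul_mem _ _ (hv j)), ?_⟩
    rw [← ha']
    apply RR'.sum
    intro j _
    rw [← hb]
    exact (hg2 j).smul (b j)

end Main

end MP446Z
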