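import Pool.Agent.Lib.MP_446dfa_ag.ddi.Core
import Pool.Agent.Lib.MP_446dfa_ag.ddi.Transfer
import Pool.Agent.Lib.MP_446dfa_ag.ddi.Purity
import Pool.Agent.Lib.MP_446dfa_ag.ddi.LieOfLieB

set_option linter.all false

/-!
# Reduction modulo two of the elements of `grt₁`
-/

noncomputable section

namespace MP446Z

open MP446 MP446Y

universe u v w

attribute [local instance 100] LieRing.ofAssociativeRing

section Sub

variable {k : Type v} [CommRing k]

/-- the word in `x, y` attached to a word in `B, Z`: `B` becomes `xy` and `Z` becomes `xxy` -/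
def sub23 (w : List (Fin 2)) : List (Fin 2) := w.flatMap (fun i => if i = 0 then [0, 1] else [0, 0, 1])

lemma sub23_cons (i : Fin 2) (w : List (Fin 2)) :
    sub23 (i :: w) = (if i = 0 then [0, 1] else [0, 0, 1]) ++ sub23 w := rfl

lemma sub23_length (w : List (Fin 2)) : (sub23 w).length = wt23 w := by
  induction w with
  | nil => rfl
  | cons i w ih =>
    rw [sub23_cons, List.length_append, ih]
    unfold wt23
    rw [List.map_cons, List.sum_cons]
    fin_cases i <;> rfl

lemma sub23_head (w : List (Fin 2)) : (sub23 w).head? ≠ some 1 := by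
  cases w with
  | nil => simp [sub23]
  | cons i w =>
    rw [sub23_cons]
    fin_cases i <;> simp

lemma gd_sub23 (w : List (Fin 2)) : gd (sub23 w) = true := by
  induction w with
  | nil => rfl
  | cons i w ih =>
    have h1 := sub23_head w
    rw [sub23_cons]
    fin_cases i
    · change gd (0 :: 1 :: sub23 w) = true
      simp [gd, ih, h1]
    · change gd (0 :: 0 :: 1 :: sub23 w) = true
      simp [gd, ih, h1]

lemma sub23_zero (w : List (Fin 2)) : sub23 (0 :: w) = 0 :: 1 :: sub23 w := rfl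

lemma sub23_one (w : List (Fin 2)) : sub23 (1 :: w) = 0 :: 0 :: 1 :: sub23 w := rfl

lemma coeff_BB_nil (R : AA k) : (BB k * R).coeff (FreeMonoid.ofList []) = 0 := by
  rw [BB, sub_mul, MonoidAlgebra.coeff_sub, Finsupp.sub_apply, mul_assoc, mul_assoc,
    coeff_lt_mul_nil, coeff_lt_mul_nil, sub_zero]

lemma coeff_ZZ_nil (R : AA k) : (ZZ k * R).coeff (FreeMonoid.ofList []) = 0 := by
  rw [ZZ, sub_mul, MonoidAlgebra.coeff_sub, Finsupp.sub_apply, mul_assoc, mul_assoc, mul_assoc,
    coeff_lt_mul_nil, coeff_lt_mul_nil, sub_zero]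

lemma coeff_BB_zero (R : AA k) (v : List (Fin 2)) :
    (BB k * R).coeff (FreeMonoid.ofList (0 :: 1 :: v)) = R.coeff (FreeMonoid.ofList v) := by
  rw [BB, sub_mul, MonoidAlgebra.coeff_sub, Finsupp.sub_apply, mul_assoc, mul_assoc,
    coeff_lt_mul_cons, coeff_lt_mul_cons, coeff_lt_mul_cons, if_pos rfl, if_pos rfl,
    if_neg (by decide), sub_zero]

lemma coeff_BB_one (R : AA k) (v : List (Fin 2)) :
    (BB k * R).coeff (FreeMonoid.ofList (0 :: 0 :: v)) = 0 := by
  rw [BB, sub_mul, MonoidAlgebra.coeff_sub, Finsupp.sub_apply, mul_assoc, mul_assoc,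
    coeff_lt_mul_cons, coeff_lt_mul_cons, coeff_lt_mul_cons, if_pos rfl,
    if_neg (by decide), if_neg (by decide), sub_zero]

lemma coeff_ZZ_zero (R : AA k) (v : List (Fin 2)) :
    (ZZ k * R).coeff (FreeMonoid.ofList (0 :: 1 :: v)) = 0 := by
  rw [ZZ, sub_mul, MonoidAlgebra.coeff_sub, Finsupp.sub_apply, mul_assoc, mul_assoc, mul_assoc,
    coeff_lt_mul_cons, coeff_lt_mul_cons, coeff_lt_mul_cons, if_pos rfl,
    if_neg (by decide), if_neg (by decide), sub_zero]

lemma coeff_ZZ_one (R : AA k) (v : List (Fin 2)) :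
    (ZZ k * R).coeff (FreeMonoid.ofList (0 :: 0 :: 1 :: v)) = R.coeff (FreeMonoid.ofList v) := by
  rw [ZZ, sub_mul, MonoidAlgebra.coeff_sub, Finsupp.sub_apply, mul_assoc, mul_assoc, mul_assoc,
    coeff_lt_mul_cons, coeff_lt_mul_cons, coeff_lt_mul_cons, coeff_lt_mul_cons, if_pos rfl,
    if_pos rfl, if_pos rfl, if_neg (by decide), sub_zero]

/-- the coefficients of `G([x, y], [x², y])` at the words in `xy`, `xxy` are those of `G` -/
lemma coeff_sub23 (G : AA k) (w : List (Fin 2)) :
    (EV (BB k) (ZZ k) G).coeff (FreeMonoid.ofList (sub23 w)) = G.coeff (FreeMonoid.ofList w) := by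
  induction G using FA_induction generalizing w with
  | h1 =>
    rw [map_one, ← ow_nil, ow_coeff, ow_coeff]
    cases w with
    | nil => rfl
    | cons i w =>
      rw [if_neg, if_neg (by simp)]
      fin_cases i
      · change ¬ [] = 0 :: 1 :: sub23 w
        simp
      · change ¬ [] = 0 :: 0 :: 1 :: sub23 w
        simp
  | hmul a X ih =>
    rw [map_mul, letter_eq_lt]
    generalize hR : EV (BB k) (ZZ k) X = R at ih ⊢
    have hE : EV (BB k) (ZZ k) (lt k a) = if a = 0 then BB k else ZZ k := by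
      have ha : a = 0 ∨ a = 1 := by fin_cases a <;> simp
      rcases ha with rfl | rfl
      · rw [EV_lt0, if_pos rfl]
      · rw [EV_lt1, if_neg (by decide)]
    rw [hE]
    have ha : a = 0 ∨ a = 1 := by fin_cases a <;> simp
    cases w with
    | nil =>
      change _ = (lt k a * X).coeff (FreeMonoid.ofList [])
      rw [coeff_lt_mul_nil]
      change (_ * R).coeff (FreeMonoid.ofList []) = 0
      rcases ha with rfl | rfl
      · rw [if_pos rfl, coeff_BB_nil]
      · rw [if_neg (by decide), coeff_ZZ_nil]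
    | cons i w =>
      rw [coeff_lt_mul_cons]
      have hi : i = 0 ∨ i = 1 := by fin_cases i <;> simp
      rcases ha with rfl | rfl <;> rcases hi with rfl | rfl
      · rw [if_pos rfl, if_pos rfl, sub23_zero, coeff_BB_zero, ih]
      · rw [if_pos rfl, if_neg (by decide), sub23_one, coeff_BB_one]
      · rw [if_neg (by decide), if_neg (by decide), sub23_zero, coeff_ZZ_zero]
      · rw [if_neg (by decide), if_pos rfl, sub23_one, coeff_ZZ_one, ih]
  | hadd X Y hX hY =>
    rw [map_add, MonoidAlgebra.coeff_add, Finsupp.add_apply, MonoidAlgebra.coeff_add,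
      Finsupp.add_apply, hX, hY]
  | hsmul c X hX =>
    rw [map_smul, MonoidAlgebra.coeff_smul, Finsupp.smul_apply, MonoidAlgebra.coeff_smul,
      Finsupp.smul_apply, hX]

end Sub

section Red

variable {K : Type u} [Field K] [CharZero K] {k : Type v} [Field k]

lemma insSum_red {M : AddSubgroup K} (g : M →+ k) (c : List (Fin 2) → K) (hM : ∀ w, c w ∈ M)
    (l : Fin 2) (v : List (Fin 2)) (h : insSum l c v = 0) :
    insSum l (fun Y => g ⟨c Y, hM Y⟩) v = 0 := by
  have h1 : insSum l (fun Y => (⟨c Y, hM Y⟩ : M)) v = 0 := by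
    apply Subtype.ext
    have h2 := insSum_map (M.subtype) l (fun Y => (⟨c Y, hM Y⟩ : M)) v
    rw [← AddSubgroup.coe_subtype, ← h2]
    exact h
  have h2 := insSum_map g l (fun Y => (⟨c Y, hM Y⟩ : M)) v
  rw [h1, map_zero] at h2
  exact h2

lemma AA_ext {X Y : AA k} (h : ∀ w : List (Fin 2),
    X.coeff (FreeMonoid.ofList w) = Y.coeff (FreeMonoid.ofList w)) : X = Y := by
  ext w
  have := h (FreeMonoid.toList w)
  rwa [FreeMonoid.ofList_toList] at this

lemma coeff_EV_swap {k : Type v} [CommRing k] (X : AA k) (w : List (Fin 2)) :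
    (EV (lt k 1) (lt k 0) X).coeff (FreeMonoid.ofList w) =
      X.coeff (FreeMonoid.ofList (w.map ![1, 0])) := by
  induction X using FA_induction generalizing w with
  | h1 =>
    rw [map_one, ← ow_nil, ow_coeff, ow_coeff]
    cases w with
    | nil => rfl
    | cons i w => rw [if_neg (by simp), if_neg (by simp)]
  | hmul a X ih =>
    rw [map_mul, letter_eq_lt]
    have ha : a = 0 ∨ a = 1 := by fin_cases a <;> simp
    cases w with
    | nil =>
      rw [List.map_nil, coeff_lt_mul_nil]
      rcases ha with rfl | rfl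
      · rw [EV_lt0, coeff_lt_mul_nil]
      · rw [EV_lt1, coeff_lt_mul_nil]
    | cons i w =>
      rw [List.map_cons, coeff_lt_mul_cons]
      have hi : i = 0 ∨ i = 1 := by fin_cases i <;> simp
      rcases ha with rfl | rfl
      · rw [EV_lt0, coeff_lt_mul_cons, ih]
        rcases hi with rfl | rfl <;> simp
      · rw [EV_lt1, coeff_lt_mul_cons, ih]
        rcases hi with rfl | rfl <;> simp
  | hadd X Y hX hY =>
    rw [map_add, MonoidAlgebra.coeff_add, Finsupp.add_apply, MonoidAlgebra.coeff_add,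
      Finsupp.add_apply, hX, hY]
  | hsmul c X hX =>
    rw [map_smul, MonoidAlgebra.coeff_smul, Finsupp.smul_apply, MonoidAlgebra.coeff_smul,
      Finsupp.smul_apply, hX]

omit [CharZero K] in
lemma assoc_swap (ψ : F2 K) (h : ev (gB K) (gA K) ψ = -ψ) :
    EV (lt K 1) (lt K 0) (assoc K ψ) = -assoc K ψ := by
  rw [← map_neg, ← h, ← ev_eq_EV]
  have e : (assoc K).comp (ev (gB K) (gA K)) = ev (lt K 1) (lt K 0) := by
    apply FreeLieAlgebra.hom_ext
    intro i
    fin_cases i
    · change assoc K (ev (gB K) (gA K) (FreeLieAlgebra.of K 0)) =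
        ev (lt K 1) (lt K 0) (FreeLieAlgebra.of K 0)
      simp only [ev, FreeLieAlgebra.lift_of_apply]
      exact assoc_gB
    · change assoc K (ev (gB K) (gA K) (FreeLieAlgebra.of K 1)) =
        ev (lt K 1) (lt K 0) (FreeLieAlgebra.of K 1)
      simp only [ev, FreeLieAlgebra.lift_of_apply]
      exact assoc_gA
  exact (LieHom.congr_fun e ψ).symm

omit [CharZero K] in
lemma coef_swap (ψ : F2 K) (h : ev (gB K) (gA K) ψ = -ψ) (w : List (Fin 2)) :
    coef ψ (w.map ![1, 0]) = -coef ψ w := by
  unfold coef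
  rw [← coeff_EV_swap, assoc_swap ψ h, MonoidAlgebra.coeff_neg, Finsupp.neg_apply]

lemma assoc_mem_LieP (ψ : F2 K) : assoc K ψ ∈ LieP K (Fin 2) := by
  induction ψ using F2_induction with
  | hA => rw [assoc_gA]; exact LieSubalgebra.subset_lieSpan ⟨0, rfl⟩
  | hB => rw [assoc_gB]; exact LieSubalgebra.subset_lieSpan ⟨1, rfl⟩
  | hadd x y hx hy => rw [map_add]; exact (LieP K (Fin 2)).add_mem hx hy
  | hsmul c x hx => rw [map_smul]; exact (LieP K (Fin 2)).smul_mem c hx
  | hlie x y hx hy => rw [LieHom.map_lie]; exact (LieP K (Fin 2)).lie_mem hx hy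

/-- all the properties of the reductions of an element of `grt₁` -/
theorem red_props (h2 : (2 : k) = 0) {n : ℕ} (hn : 3 ≤ n) (ψ : F2 K) (hψ : ψ ∈ grt K n)
    (M : AddSubgroup K) (g : M →+ k) (hM : ∀ w, coef ψ w ∈ M) (H : AA k)
    (hH : ∀ w, H.coeff (FreeMonoid.ofList w) = g ⟨coef ψ w, hM w⟩) :
    (∃ G : AA k, G ∈ LieP k (Fin 2) ∧ (∀ Y, gd Y = true →
      H.coeff (FreeMonoid.ofList Y) = (EV (BB k) (ZZ k) G).coeff (FreeMonoid.ofList Y))) ∧
    ((∀ Y, gd Y = true → H.coeff (FreeMonoid.ofList Y) = 0) → H = 0) ∧ H ∈ LieP k (Fin 2) := by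
  have hHz : ∀ w, coef ψ w = 0 → H.coeff (FreeMonoid.ofList w) = 0 := by
    intro w hw
    rw [hH]
    have : (⟨coef ψ w, hM w⟩ : M) = 0 := Subtype.ext hw
    rw [this, map_zero]
  have hdeg : ∀ w : List (Fin 2), w.length ≠ n → coef ψ w = 0 := hψ.2
  have hrel : ∀ l v, insSum l (fun Y => coef ψ Y) v = 0 := by
    intro l v
    by_cases hv : v = []
    · subst hv
      exact hdeg [l] (by simp; omega)
    · exact lie_rel ψ l v hv
  have hD : ∀ l, Dl k l H = 0 := by
    intro l
    apply AA_ext
    intro v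
    rw [coeff_Dl]
    have h1 := insSum_red g (fun Y => coef ψ Y) hM l v (hrel l v)
    have h3 : (fun z => H.coeff (FreeMonoid.ofList z)) = fun Y => g ⟨coef ψ Y, hM Y⟩ := by
      funext z; exact hH z
    rw [h3, h1]
    rfl
  have hones : ∀ l m, coef ψ (List.replicate m l) = 0 := fun l m =>
    ones_zero l (assoc_coeff_nil ψ) (hrel l) m
  have hanti : EV (lt k 1) (lt k 0) H = H := by
    apply AA_ext
    intro w
    rw [coeff_EV_swap, hH, hH]
    have : (⟨coef ψ (w.map ![1, 0]), hM _⟩ : M) = -⟨coef ψ w, hM w⟩ :=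
      Subtype.ext (coef_swap ψ hψ.1.antisymm w)
    rw [this, map_neg]
    exact neg_eq' h2 _
  have hpent : ∀ (E : Type v) [Ring E] [Algebra k E] (x : Fin 5 → E), Cyc5 x →
      ∑ i : Fin 5, EV (x i) (x (i + 1)) H = 0 := by
    intro E _ _ x hx
    exact Tr.transfer ψ hψ.1.pentagon hψ.1.antisymm (hdeg [0] (by simp; omega))
      (hdeg [1] (by simp; omega)) M g hM H hH E x hx
  have hLie : H ∈ LieP k (Fin 2) := by
    apply purity (assoc K ψ) (assoc_mem_LieP ψ) M g (fun w => hM (FreeMonoid.toList w)) H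
    intro w
    exact hH (FreeMonoid.toList w)
  refine ⟨?_, ?_, hLie⟩
  · obtain ⟨G, hG⟩ := core h2 H hD (fun m => hHz _ (hones 0 m)) hanti hpent
    exact ⟨G, lie_of_lie h2 H hLie G hG, hG⟩
  · intro hgd
    -- the pentagon relation for the operators
    have hp : pentOp K (assoc K ψ).coeff = 0 := by
      have h1 := hψ.1.pentagon (Module.End K (RR K)) (tt K) (tt_infBraid K)
      simp only [ev_eq_EV] at h1
      have h2 := pentOp_eq (k := K) (assoc K ψ)
      rw [h2, sub_eq_zero]
      exact h1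
    have hp2 : pentOp k H.coeff = 0 := by
      rw [pentOp_iff] at hp ⊢
      intro W V
      have h1 := hp W V
      let cM : FreeMonoid (Fin 2) → M := fun w => ⟨(assoc K ψ).coeff w, hM (FreeMonoid.toList w)⟩
      have h2 : ∑ w ∈ (assoc K ψ).coeff.support, (Nz ℤ w W V) • cM w = 0 := by
        apply Subtype.ext
        change M.subtype (∑ w ∈ (assoc K ψ).coeff.support, (Nz ℤ w W V) • cM w) = 0
        rw [map_sum, ← h1, Finsupp.sum]
        refine Finset.sum_congr rfl (fun w _ => ?_)
        rw [map_zsmul, zsmul_eq_mul, mul_comm]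
        rfl
      have h3 := congrArg g h2
      rw [map_sum, map_zero] at h3
      have hsub : H.coeff.support ⊆ (assoc K ψ).coeff.support := by
        intro w hw
        rw [Finsupp.mem_support_iff] at hw ⊢
        intro h0
        apply hw
        have := hHz (FreeMonoid.toList w) (by unfold coef; rw [FreeMonoid.ofList_toList]; exact h0)
        rwa [FreeMonoid.ofList_toList] at this
      rw [Finsupp.sum_of_support_subset (s := (assoc K ψ).coeff.support) _
        hsub _ (by intro i _; rw [zero_mul])]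
      refine Eq.trans ?_ h3
      refine Finset.sum_congr rfl (fun w _ => ?_)
      have h5 := hH (FreeMonoid.toList w)
      rw [FreeMonoid.ofList_toList] at h5
      rw [map_zsmul, zsmul_eq_mul, mul_comm, h5]
      rfl
    exact char_two h2 H hp2 hgd (fun m => hHz _ (hones 1 m))

end Red

end MP446Z
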