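import Pool.Agent.Lib.MP_446dfa_ag.ddi.Bound
import Pool.Agent.Lib.MP_446dfa_ag.ddi.Grading
import Pool.Agent.Lib.MP_446dfa_ag.ddi.Ihara

set_option linter.all false

/-!
# Homomorphisms from the free Lie algebra on `σ_3, σ_5, …` to `grt₁`
-/

noncomputable section

namespace MP446Z

open MP446 MP446Y

universe u v w

attribute [local instance 100] LieRing.ofAssociativeRing

section Surj

variable {K : Type u} [Field K]

/-- the underlying linear map -/
def lin (φ : FreeLieAlgebra K ℕ →ₗ⁅K⁆ IharaLie K) : FreeLieAlgebra K ℕ →ₗ[K] F2 K :=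
  (toIhara (K := K)).symm.toLinearMap ∘ₗ (φ : FreeLieAlgebra K ℕ →ₗ[K] IharaLie K)

lemma lin_apply (φ : FreeLieAlgebra K ℕ →ₗ⁅K⁆ IharaLie K) (x : FreeLieAlgebra K ℕ) :
    lin φ x = toIhara.symm (φ x) := rfl

lemma lin_lie (φ : FreeLieAlgebra K ℕ →ₗ⁅K⁆ IharaLie K) (x y : FreeLieAlgebra K ℕ) :
    lin φ ⁅x, y⁆ = iharaBracket (lin φ x) (lin φ y) := by
  rw [lin_apply, LieHom.map_lie]; rfl

lemma lin_rbr_homog (φ : FreeLieAlgebra K ℕ →ₗ⁅K⁆ IharaLie K)
    (hφ : ∀ i, toIhara.symm (φ (FreeLieAlgebra.of K i)) ∈ grt K (2 * i + 3)) (l : List ℕ) :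
    ∀ w : List (Fin 2), w.length ≠ wtL l → coef (lin φ (rbr K l)) w = 0 := by
  induction l with
  | nil =>
    intro w _
    change coef (lin φ 0) w = 0
    rw [map_zero, coef_zero]
  | cons i l ih =>
    cases l with
    | nil =>
      intro w hw
      rw [wtL_cons] at hw
      exact (hφ i).2 w (by simpa [wtL] using hw)
    | cons j l =>
      change ∀ w : List (Fin 2), _ → coef (lin φ ⁅FreeLieAlgebra.of K i, rbr K (j :: l)⁆) w = 0
      rw [lin_lie, wtL_cons]
      exact ihara_homog _ _ (fun w hw => (hφ i).2 w hw) ih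

variable (φ : FreeLieAlgebra K ℕ →ₗ⁅K⁆ IharaLie K)
  (hφ : ∀ i, toIhara.symm (φ (FreeLieAlgebra.of K i)) ∈ grt K (2 * i + 3))
  (hcl : ∀ x, IsGRT (toIhara.symm (φ x)))

include hφ hcl in
lemma map_le (n : ℕ) : (freeWt K n).map (lin φ) ≤ grt K n := by
  rw [Submodule.map_le_iff_le_comap]
  unfold freeWt
  rw [Submodule.span_le]
  rintro _ ⟨l, hl, rfl⟩
  refine ⟨hcl _, fun w hw => lin_rbr_homog φ hφ l w ?_⟩
  rw [← hl] at hw
  exact hw

instance freeWt_finite (n : ℕ) : Module.Finite K (freeWt K n) := by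
  unfold freeWt
  apply Module.Finite.span_of_finite
  have : {x | ∃ l : List ℕ, (l.map (fun i => 2 * i + 3)).sum = n ∧ x = rbr K l} =
      rbr K '' {l | wtL l = n} := by
    ext x
    constructor
    · rintro ⟨l, h1, h2⟩; exact ⟨l, h1, h2.symm⟩
    · rintro ⟨l, h1, h2⟩; exact ⟨l, h1, h2.symm⟩
  rw [this]
  exact (finite_wtL n).image _

variable [CharZero K]

instance grt_finite (n : ℕ) : Module.Finite K (grt K n) := by
  have h := rank_grt_le_freeWt (K := K) n
  have h2 : Module.rank K (freeWt K n) < Cardinal.aleph0 := Module.rank_lt_aleph0_iff.2 inferInstance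
  exact Module.rank_lt_aleph0_iff.1 (lt_of_le_of_lt h h2)

include hφ hcl in
lemma map_eq_of_rank (n : ℕ) (h : Module.rank K (grt K n) ≤ Module.rank K ((freeWt K n).map (lin φ))) :
    (freeWt K n).map (lin φ) = grt K n := by
  apply Submodule.eq_of_le_of_finrank_le (map_le φ hφ hcl n)
  rw [Module.finrank, Module.finrank]
  apply Cardinal.toNat_le_toNat h
  exact Module.rank_lt_aleph0_iff.2 inferInstance

include hφ hcl in
/-- an injective graded homomorphism from the free Lie algebra is onto -/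
theorem surj_of_injective (hinj : Function.Injective φ) (n : ℕ) :
    (freeWt K n).map (lin φ) = grt K n := by
  apply map_eq_of_rank φ hφ hcl
  have hinj' : Function.Injective (lin φ) := by
    intro x y hxy
    apply hinj
    exact (toIhara (K := K)).symm.injective hxy
  have e : Module.rank K ((freeWt K n).map (lin φ)) = Module.rank K (freeWt K n) :=
    ((freeWt K n).equivMapOfInjective (lin φ) hinj').symm.rank_eq
  rw [e]
  exact rank_grt_le_freeWt n

include hφ hcl in
theorem onto_of_maps (h : ∀ n, (freeWt K n).map (lin φ) = grt K n) (ψ : F2 K) (hψ : IsGRT ψ) :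
    ∃ x, φ x = toIhara ψ := by
  obtain ⟨N, f, hf, hs⟩ := grt_decomp ψ hψ
  choose x hx using fun n => (show f n ∈ (freeWt K n).map (lin φ) by rw [h n]; exact hf n)
  refine ⟨∑ n ∈ Finset.range N, x n, ?_⟩
  rw [map_sum, hs, map_sum]
  refine Finset.sum_congr rfl (fun n _ => ?_)
  have := (hx n).2
  rw [lin_apply] at this
  rw [← this]
  rfl

include hφ hcl in
theorem onto_of_injective (hinj : Function.Injective φ) (ψ : F2 K) (hψ : IsGRT ψ) :
    ∃ x, φ x = toIhara ψ :=
  onto_of_maps φ hφ hcl (surj_of_injective φ hφ hcl hinj) ψ hψ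

end Surj

end MP446Z
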